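import Mathlib

/-!
Library L5helper13: Bessel's inequality for nearly orthogonal families of functions bounded by `1`.
-/

set_option autoImplicit false

namespace Pool.Agent.L5helper13

open Finset

/-- **Bessel's inequality** for nearly orthogonal functions `u i` on the finite set `I` -/
theorem bessel {ι κ : Type} (s : Finset ι) (I : Finset κ) (g : κ → ℂ) (u : ι → κ → ℂ) (K δ : ℝ)
    (hg : ∑ n ∈ I, ‖g n‖ ^ 2 ≤ K) (hδ : 0 ≤ δ)
    (hu1 : ∀ i ∈ s, ‖∑ n ∈ I, u i n * (starRingEnd ℂ) (u i n)‖ ≤ K)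
    (hu2 : ∀ i ∈ s, ∀ j ∈ s, i ≠ j → ‖∑ n ∈ I, u i n * (starRingEnd ℂ) (u j n)‖ ≤ δ) :
    ∑ i ∈ s, ‖∑ n ∈ I, g n * u i n‖ ^ 2 ≤ K * (K + s.card * δ) := by
  classical
  have hK : 0 ≤ K := (sum_nonneg fun _ _ => by positivity).trans hg
  set c : ι → ℂ := fun i => ∑ n ∈ I, g n * u i n with hc
  set S : ℝ := ∑ i ∈ s, ‖c i‖ ^ 2 with hS
  have hS0 : 0 ≤ S := sum_nonneg fun _ _ => by positivity
  -- the sum as an inner product
  have h1 : (S : ℂ) = ∑ n ∈ I, g n * ∑ i ∈ s, (starRingEnd ℂ) (c i) * u i n := by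
    have e1 : ∀ i ∈ s, ((‖c i‖ ^ 2 : ℝ) : ℂ) = ∑ n ∈ I, g n * ((starRingEnd ℂ) (c i) * u i n) := by
      intro i _
      have e2 : ((‖c i‖ ^ 2 : ℝ) : ℂ) = (starRingEnd ℂ) (c i) * c i := by
        rw [← Complex.normSq_eq_norm_sq, Complex.normSq_eq_conj_mul_self]
      rw [e2]
      conv_lhs => rw [hc]
      simp only
      rw [mul_sum]
      refine sum_congr rfl fun n _ => ?_
      ring
    rw [hS]
    push_cast
    have e3 : ∑ i ∈ s, ((‖c i‖ : ℂ)) ^ 2 = ∑ i ∈ s, ((‖c i‖ ^ 2 : ℝ) : ℂ) := by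
      refine sum_congr rfl fun i _ => ?_
      push_cast
      rfl
    rw [e3, sum_congr rfl e1, sum_comm]
    refine sum_congr rfl fun n _ => ?_
    rw [mul_sum]
  -- Cauchy-Schwarz
  set V : κ → ℂ := fun n => ∑ i ∈ s, (starRingEnd ℂ) (c i) * u i n with hV
  have h2 : S ^ 2 ≤ (∑ n ∈ I, ‖g n‖ ^ 2) * ∑ n ∈ I, ‖V n‖ ^ 2 := by
    have e1 : S ≤ ∑ n ∈ I, ‖g n‖ * ‖V n‖ := by
      have e2 : S = ‖(S : ℂ)‖ := by rw [Complex.norm_real, Real.norm_of_nonneg hS0]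
      rw [e2, h1]
      refine (norm_sum_le _ _).trans (le_of_eq ?_)
      refine sum_congr rfl fun n _ => ?_
      rw [norm_mul]
    calc S ^ 2 ≤ (∑ n ∈ I, ‖g n‖ * ‖V n‖) ^ 2 := pow_le_pow_left₀ hS0 e1 2
      _ ≤ _ := sum_mul_sq_le_sq_mul_sq I _ _
  -- the quadratic form
  have h3 : ∑ n ∈ I, ‖V n‖ ^ 2 ≤ (K + s.card * δ) * S := by
    have e1 : ((∑ n ∈ I, ‖V n‖ ^ 2 : ℝ) : ℂ) =
        ∑ i ∈ s, ∑ j ∈ s, (starRingEnd ℂ) (c i) * c j * ∑ n ∈ I, u i n * (starRingEnd ℂ) (u j n) := by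
      push_cast
      have e2 : ∀ n ∈ I, ((‖V n‖ : ℂ)) ^ 2 = ∑ i ∈ s, ∑ j ∈ s, (starRingEnd ℂ) (c i) * c j *
          (u i n * (starRingEnd ℂ) (u j n)) := by
        intro n _
        have e3 : ((‖V n‖ : ℂ)) ^ 2 = V n * (starRingEnd ℂ) (V n) := by
          rw [← Complex.ofReal_pow, ← Complex.normSq_eq_norm_sq, ← Complex.mul_conj]
        rw [e3]
        simp only [hV]
        rw [map_sum, sum_mul_sum]
        refine sum_congr rfl fun i _ => sum_congr rfl fun j _ => ?_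
        rw [map_mul, Complex.conj_conj]
        ring
      rw [sum_congr rfl e2, sum_comm]
      refine sum_congr rfl fun i _ => ?_
      rw [sum_comm]
      refine sum_congr rfl fun j _ => ?_
      rw [← mul_sum]
    have e4 : ∑ n ∈ I, ‖V n‖ ^ 2 ≤ ∑ i ∈ s, ∑ j ∈ s, ‖c i‖ * ‖c j‖ * (if i = j then K else δ) := by
      have e5 : ∑ n ∈ I, ‖V n‖ ^ 2 = ‖((∑ n ∈ I, ‖V n‖ ^ 2 : ℝ) : ℂ)‖ := by
        rw [Complex.norm_real, Real.norm_of_nonneg (sum_nonneg fun _ _ => by positivity)]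
      rw [e5, e1]
      refine (norm_sum_le _ _).trans (sum_le_sum fun i hi => ?_)
      refine (norm_sum_le _ _).trans (sum_le_sum fun j hj => ?_)
      rw [norm_mul, norm_mul, RCLike.norm_conj]
      apply mul_le_mul_of_nonneg_left _ (by positivity)
      split_ifs with hij
      · subst hij; exact hu1 i hi
      · exact hu2 i hi j hj hij
    refine e4.trans ?_
    have e6 : ∀ i ∈ s, ∑ j ∈ s, ‖c i‖ * ‖c j‖ * (if i = j then K else δ) ≤
        K * ‖c i‖ ^ 2 + δ * ∑ j ∈ s, ‖c i‖ * ‖c j‖ := by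
      intro i hi
      have e7 : ∀ j ∈ s, ‖c i‖ * ‖c j‖ * (if i = j then K else δ) ≤
          (if i = j then K * ‖c i‖ ^ 2 else 0) + δ * (‖c i‖ * ‖c j‖) := by
        intro j _
        split_ifs with hij
        · subst hij
          have : 0 ≤ δ * (‖c i‖ * ‖c i‖) := by positivity
          nlinarith
        · rw [zero_add]; linarith [mul_comm (‖c i‖ * ‖c j‖) δ]
      refine (sum_le_sum e7).trans (le_of_eq ?_)
      rw [sum_add_distrib, sum_ite_eq, if_pos hi, mul_sum]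
    refine (sum_le_sum e6).trans ?_
    rw [sum_add_distrib, ← mul_sum, ← mul_sum]
    have e8 : ∑ i ∈ s, ∑ j ∈ s, ‖c i‖ * ‖c j‖ ≤ s.card * S := by
      rw [← sum_mul_sum, ← sq]
      exact sq_sum_le_card_mul_sum_sq
    have e9 : ∑ i ∈ s, ‖c i‖ ^ 2 = S := rfl
    rw [e9]
    calc K * S + δ * ∑ i ∈ s, ∑ j ∈ s, ‖c i‖ * ‖c j‖ ≤ K * S + δ * (s.card * S) := by
          gcongr
      _ = (K + s.card * δ) * S := by ring
  have hW : 0 ≤ K + s.card * δ := by positivity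
  have h4 : S ^ 2 ≤ K * ((K + s.card * δ) * S) := by
    refine h2.trans ?_
    exact mul_le_mul hg h3 (sum_nonneg fun _ _ => by positivity) hK
  rcases hS0.eq_or_lt with h5 | h5
  · rw [← h5]; positivity
  · have h6 : S * S ≤ (K * (K + s.card * δ)) * S := by nlinarith
    exact le_of_mul_le_mul_right h6 h5

end Pool.Agent.L5helper13
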