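import Pool.Agent.L5helper13.CoinSeq

/-!
Library L5helper13: pairwise orthogonal random signs contain nearly independent sequences which are
asymptotically independent of everything: the theorem.
-/

set_option autoImplicit false

namespace Pool.Agent.L5helper13.CS

open MeasureTheory Filter Topology Finset
open Pool.Agent.Results.MP_4a7640_nt.UniformGap (Val X val_le)
open Pool.Agent.L5helper13 (val_cases)

section

variable {Z : Type} [MeasurableSpace Z] {ρ : Measure Z} [IsProbabilityMeasure ρ] {y : ℤ → Z → Val}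

/-- the correlations of the sequence -/
noncomputable def cor (ρ : Measure Z) (y : ℤ → Z → Val) (b : ℕ → ℤ) (D : Set Z) (m : ℕ) (S : Finset ℕ) : ℝ :=
  ∫ z in D, ∏ t ∈ S, (y (b (m + t)) z : ℝ) ∂ρ

lemma cor_empty (b : ℕ → ℤ) (D : Set Z) (m : ℕ) : cor ρ y b D m ∅ = ρ.real D := by
  unfold cor
  simp

lemma cor_sum {b : ℕ → ℤ} {D : Set Z} {η : ℕ → ℝ} {m : ℕ}
    (h : ∀ j, m ≤ j → ∀ S ⊆ range j, |∫ z in D, (∏ s ∈ S, (y (b s) z : ℝ)) * (y (b j) z : ℝ) ∂ρ| ≤ η j) (n : ℕ) :
    ∑ S ∈ (range n).powerset, |cor ρ y b D m S| ≤ ρ.real D + ∑ j ∈ range n, 2 ^ j * η (m + j) := by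
  classical
  induction n with
  | zero =>
    simp only [range_zero, powerset_empty, sum_singleton, sum_empty, add_zero]
    rw [cor_empty, abs_of_nonneg measureReal_nonneg]
  | succ n ih =>
    rw [range_add_one, sum_powerset_insert notMem_range_self, sum_insert notMem_range_self]
    have h1 : ∑ S ∈ (range n).powerset, |cor ρ y b D m (insert n S)| ≤ ∑ S ∈ (range n).powerset, η (m + n) := by
      apply sum_le_sum
      intro S hS
      rw [mem_powerset] at hS
      have h2 := h (m + n) (by omega) (S.image fun t => m + t) (by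
        intro t ht
        rw [mem_image] at ht
        obtain ⟨u, hu, rfl⟩ := ht
        have := mem_range.1 (hS hu)
        rw [mem_range]; omega)
      refine le_trans (le_of_eq ?_) h2
      congr 1
      unfold cor
      congr 1
      funext z
      rw [prod_insert (fun hn => by have := mem_range.1 (hS hn); omega), mul_comm,
        prod_image (fun a _ b _ h => by simpa using h)]
    rw [sum_const, card_powerset, card_range, nsmul_eq_mul] at h1
    push_cast at h1
    linarith

lemma cor_sum' {b : ℕ → ℤ} {D : Set Z} {η : ℕ → ℝ} {m : ℕ}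
    (h : ∀ j, m ≤ j → ∀ S ⊆ range j, |∫ z in D, (∏ s ∈ S, (y (b s) z : ℝ)) * (y (b j) z : ℝ) ∂ρ| ≤ η j) (n : ℕ) :
    ∑ S ∈ (range n).powerset.erase ∅, |cor ρ y b D m S| ≤ ∑ j ∈ range n, 2 ^ j * η (m + j) := by
  classical
  have h1 := cor_sum h n
  rw [← add_sum_erase _ _ (empty_mem_powerset (range n)), cor_empty, abs_of_nonneg measureReal_nonneg] at h1
  linarith

lemma eta_sum (ε : ℝ) (hε : 0 < ε) (m n : ℕ) :
    ∑ j ∈ range n, 2 ^ j * (ε / 4 ^ (m + j + 1)) ≤ ε / (2 * 4 ^ m) := by
  have h : ∀ n : ℕ, ∑ j ∈ range n, (2 : ℝ) ^ j * (ε / 4 ^ (m + j + 1)) = ε / (2 * 4 ^ m) * (1 - (1 / 2) ^ n) := by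
    intro n
    induction n with
    | zero => simp
    | succ n ih =>
      rw [sum_range_succ, ih]
      have h4 : (4 : ℝ) ^ n = 2 ^ n * 2 ^ n := by rw [← mul_pow]; norm_num
      have h5 : (4 : ℝ) ^ (m + n + 1) = 4 ^ m * (2 ^ n * 2 ^ n) * 4 := by rw [pow_succ, pow_add, h4]
      rw [h5, pow_succ, one_div_pow]
      field_simp
      ring
  rw [h n]
  have h1 : (0 : ℝ) ≤ (1 / 2) ^ n := by positivity
  have h2 : 0 < ε / (2 * 4 ^ m) := by positivity
  nlinarith

lemma pattern (hy : ∀ h, Measurable (y h)) (h1 : ∀ h, ∀ᵐ z ∂ρ, (y h z : ℝ) = 1 ∨ (y h z : ℝ) = -1)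
    (b : ℕ → ℤ) {D : Set Z} (hD : MeasurableSet D) (m n : ℕ) (s : Fin n → Val) (hs : ∀ j, (s j : ℝ) ≠ 0) (κ : ℝ)
    (hκ : ∑ S ∈ (range n).powerset.erase ∅, |cor ρ y b D m S| ≤ κ) :
    |ρ.real ({z | ∀ j : Fin n, y (b (m + j)) z = s j} ∩ D) - (1 / 2) ^ n * ρ.real D| ≤ (1 / 2) ^ n * κ := by
  classical
  set σ : ℕ → ℝ := fun t => if h : t < n then (s ⟨t, h⟩ : ℝ) else 1 with hσ
  have hσ1 : ∀ t, σ t = 1 ∨ σ t = -1 := by
    intro t
    simp only [hσ]
    split_ifs with h
    · rcases val_cases (s ⟨t, h⟩) with h2 | h2 | h2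
      · exact Or.inr h2
      · exact absurd h2 (hs _)
      · exact Or.inl h2
    · exact Or.inl rfl
  set P : Set Z := {z | ∀ j : Fin n, y (b (m + j)) z = s j} with hP
  have hPm : MeasurableSet P := by
    have : P = ⋂ j : Fin n, (y (b (m + j))) ⁻¹' {s j} := by
      ext z
      simp [hP]
    rw [this]
    exact MeasurableSet.iInter fun j => hy _ (measurableSet_singleton _)
  have hae : ∀ᵐ z ∂(ρ.restrict D), P.indicator (fun _ => (1 : ℝ)) z =
      (1 / 2) ^ n * ∑ S ∈ (range n).powerset, (∏ t ∈ S, σ t) * ∏ t ∈ S, (y (b (m + t)) z : ℝ) := by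
    apply ae_restrict_of_ae
    have hall : ∀ᵐ z ∂ρ, ∀ h, (y h z : ℝ) = 1 ∨ (y h z : ℝ) = -1 := ae_all_iff.2 h1
    filter_upwards [hall] with z hz
    have e1 : (1 / 2 : ℝ) ^ n * ∑ S ∈ (range n).powerset, (∏ t ∈ S, σ t) * ∏ t ∈ S, (y (b (m + t)) z : ℝ) =
        ∏ t ∈ range n, ((1 / 2) * (1 + σ t * (y (b (m + t)) z : ℝ))) := by
      rw [prod_mul_distrib, prod_const, card_range, prod_one_add]
      congr 1
      apply sum_congr rfl
      intro S _
      rw [prod_mul_distrib]
    rw [e1]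
    by_cases hzP : z ∈ P
    · rw [Set.indicator_of_mem hzP]
      symm
      apply prod_eq_one
      intro t ht
      rw [mem_range] at ht
      have h2 : y (b (m + t)) z = s ⟨t, ht⟩ := hzP ⟨t, ht⟩
      have h3 : σ t = (s ⟨t, ht⟩ : ℝ) := by simp only [hσ]; rw [dif_pos ht]
      rw [h2, ← h3]
      rcases hσ1 t with h | h <;> rw [h] <;> norm_num
    · rw [Set.indicator_of_notMem hzP]
      symm
      have : ∃ j : Fin n, y (b (m + j)) z ≠ s j := by
        by_contra hcon
        push Not at hcon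
        exact hzP hcon
      obtain ⟨j, hj⟩ := this
      apply prod_eq_zero (mem_range.2 j.2)
      have h3 : σ j = (s j : ℝ) := by simp only [hσ]; rw [dif_pos j.2]
      have h4 : (y (b (m + j)) z : ℝ) ≠ σ j := by
        rw [h3]
        intro h
        exact hj (Subtype.ext h)
      rcases hσ1 j with h | h <;> rcases hz (b (m + j)) with h' | h' <;> rw [h, h'] at h4 ⊢ <;>
        first | exact absurd rfl h4 | norm_num
  have e2 : ρ.real (P ∩ D) = ∫ z in D, P.indicator (fun _ => (1 : ℝ)) z ∂ρ := by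
    rw [integral_indicator hPm, Measure.restrict_restrict hPm, integral_const, smul_eq_mul, mul_one, measureReal_restrict_apply_univ]
  have hint : ∀ S : Finset ℕ, Integrable (fun z => ∏ t ∈ S, (y (b (m + t)) z : ℝ)) (ρ.restrict D) := fun S =>
    Integrable.of_bound (Finset.measurable_fun_prod _ fun t _ => y_meas hy _).aestronglyMeasurable 1
      (Eventually.of_forall fun z => by
        rw [Real.norm_eq_abs, abs_prod]
        exact prod_le_one (fun _ _ => abs_nonneg _) fun _ _ => val_le _)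
  have e3 : ρ.real (P ∩ D) = (1 / 2) ^ n * ∑ S ∈ (range n).powerset, (∏ t ∈ S, σ t) * cor ρ y b D m S := by
    rw [e2, integral_congr_ae hae, integral_const_mul, integral_finsetSum _ fun S _ => (hint S).const_mul _]
    congr 1
    apply sum_congr rfl
    intro S _
    rw [integral_const_mul]
    rfl
  rw [← add_sum_erase _ _ (empty_mem_powerset (range n)), prod_empty, one_mul, cor_empty] at e3
  rw [e3, mul_add, add_sub_cancel_left, abs_mul, abs_of_pos (by positivity : (0 : ℝ) < (1 / 2) ^ n)]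
  apply mul_le_mul_of_nonneg_left _ (by positivity)
  refine (abs_sum_le_sum_abs _ _).trans (le_trans (sum_le_sum fun S _ => ?_) hκ)
  rw [abs_mul, abs_prod, prod_eq_one, one_mul]
  intro t _
  rcases hσ1 t with h | h <;> rw [h] <;> simp

/-- comparison with coin tossing on all events -/
lemma events (hy : ∀ h, Measurable (y h)) (h1 : ∀ h, ∀ᵐ z ∂ρ, (y h z : ℝ) = 1 ∨ (y h z : ℝ) = -1)
    (b : ℕ → ℤ) {D : Set Z} (hD : MeasurableSet D) (m : ℕ) (κ : ℝ)
    (hκ : ∀ n, ∑ S ∈ (range n).powerset.erase ∅, |cor ρ y b D m S| ≤ κ) {E : Set (ℕ → Val)} (hE : MeasurableSet E) :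
    |ρ.real ({z | (fun j => y (b (m + j)) z) ∈ E} ∩ D) - coins.real E * ρ.real D| ≤ κ * coins.real E := by
  classical
  have hκ0 : 0 ≤ κ := (sum_nonneg fun _ _ => abs_nonneg _).trans (hκ 0)
  set φ : Z → (ℕ → Val) := fun z j => y (b (m + j)) z with hφ
  have hφm : Measurable φ := measurable_pi_lambda _ fun j => hy _
  set ν : Measure (ℕ → Val) := Measure.map φ (ρ.restrict D) with hν
  haveI : IsFiniteMeasure ν := by rw [hν]; infer_instance
  have hνE : ∀ F : Set (ℕ → Val), MeasurableSet F → ν F = ρ ({z | φ z ∈ F} ∩ D) := by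
    intro F hF
    rw [hν, Measure.map_apply hφm hF, Measure.restrict_apply (hφm hF)]
    rfl
  have hatm : ∀ (n : ℕ) (s : Fin n → Val), MeasurableSet {w : ℕ → Val | ∀ j : Fin n, w j = s j} := by
    intro n s
    have : {w : ℕ → Val | ∀ j : Fin n, w j = s j} = ⋂ j : Fin n, (fun w : ℕ → Val => w j) ⁻¹' {s j} := by
      ext w
      simp
    rw [this]
    exact MeasurableSet.iInter fun j => measurable_pi_apply _ (measurableSet_singleton _)
  have hatom : ∀ (n : ℕ) (s : Fin n → Val), ENNReal.ofReal (ρ.real D - κ) * coins {w | ∀ j : Fin n, w j = s j} ≤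
      ν {w | ∀ j : Fin n, w j = s j} ∧
      ν {w | ∀ j : Fin n, w j = s j} ≤ ENNReal.ofReal (ρ.real D + κ) * coins {w | ∀ j : Fin n, w j = s j} := by
    intro n s
    rw [hνE _ (hatm n s), coins_atom]
    by_cases hs : ∀ j, (s j : ℝ) ≠ 0
    · have h3 := pattern hy h1 b hD m n s hs κ (hκ n)
      have e1 : ∏ j : Fin n, toss {s j} = ENNReal.ofReal ((1 / 2) ^ n) := by
        have : ∀ j : Fin n, toss {s j} = ENNReal.ofReal (1 / 2) := by
          intro j
          rw [toss_singleton, if_neg (hs j)]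
          rw [ENNReal.ofReal_div_of_pos (by norm_num)]
          simp
        rw [prod_congr rfl fun j _ => this j, prod_const, card_univ, Fintype.card_fin, ENNReal.ofReal_pow (by norm_num)]
      have e2 : ρ ({z | φ z ∈ {w : ℕ → Val | ∀ j : Fin n, w j = s j}} ∩ D) =
          ENNReal.ofReal (ρ.real ({z | ∀ j : Fin n, y (b (m + j)) z = s j} ∩ D)) := by
        rw [ofReal_measureReal]
        rfl
      rw [e1, e2, ← ENNReal.ofReal_mul' (by positivity), ← ENNReal.ofReal_mul' (by positivity)]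
      rw [abs_le] at h3
      constructor
      · apply ENNReal.ofReal_le_ofReal
        linarith [h3.1]
      · apply ENNReal.ofReal_le_ofReal
        linarith [h3.2]
    · push Not at hs
      obtain ⟨j, hj⟩ := hs
      have e1 : ∏ j : Fin n, toss {s j} = 0 := by
        apply prod_eq_zero (mem_univ j)
        rw [toss_singleton, if_pos hj]
      have e2 : ρ ({z | φ z ∈ {w : ℕ → Val | ∀ j : Fin n, w j = s j}} ∩ D) = 0 := by
        apply measure_mono_null Set.inter_subset_left
        have h3 := h1 (b (m + j))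
        rw [ae_iff] at h3
        refine measure_mono_null (fun z hz => ?_) h3
        have h4 : y (b (m + j)) z = s j := hz j
        show ¬ _
        rw [h4, hj]
        norm_num
      rw [e1, e2]
      simp
  haveI hfin : ∀ r : ℝ, IsFiniteMeasure (ENNReal.ofReal r • coins) := fun r => ⟨by
    rw [Measure.smul_apply, smul_eq_mul]
    exact ENNReal.mul_lt_top ENNReal.ofReal_lt_top (measure_lt_top _ _)⟩
  have hup := le_of_atoms ν (ENNReal.ofReal (ρ.real D + κ) • coins) (fun n s => by
    rw [Measure.smul_apply, smul_eq_mul]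
    exact (hatom n s).2) hE
  have hlo := le_of_atoms (ENNReal.ofReal (ρ.real D - κ) • coins) ν (fun n s => by
    rw [Measure.smul_apply, smul_eq_mul]
    exact (hatom n s).1) hE
  rw [Measure.smul_apply, smul_eq_mul, hνE E hE] at hup hlo
  have hr0 : 0 ≤ ρ.real D := measureReal_nonneg
  have hc0 : 0 ≤ coins.real E := measureReal_nonneg
  have hup' : ρ.real ({z | φ z ∈ E} ∩ D) ≤ (ρ.real D + κ) * coins.real E := by
    have h3 := ENNReal.toReal_mono (ENNReal.mul_ne_top ENNReal.ofReal_ne_top (measure_ne_top _ _)) hup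
    rw [ENNReal.toReal_mul, ENNReal.toReal_ofReal (by linarith)] at h3
    exact h3
  have hlo' : (ρ.real D - κ) * coins.real E ≤ ρ.real ({z | φ z ∈ E} ∩ D) := by
    by_cases hneg : ρ.real D - κ ≤ 0
    · have : (ρ.real D - κ) * coins.real E ≤ 0 := mul_nonpos_of_nonpos_of_nonneg hneg hc0
      exact this.trans measureReal_nonneg
    · have h3 := ENNReal.toReal_mono (measure_ne_top _ _) hlo
      rw [ENNReal.toReal_mul, ENNReal.toReal_ofReal (by linarith)] at h3
      exact h3
  rw [abs_le]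
  constructor
  · linarith
  · linarith

/-- **pairwise orthogonal random signs** -/
theorem abstract_mix [MeasurableSpace.CountablyGenerated Z] (hy : ∀ h, Measurable (y h))
    (h1 : ∀ h, ∀ᵐ z ∂ρ, (y h z : ℝ) = 1 ∨ (y h z : ℝ) = -1)
    (h2 : ∀ a b, a ≠ b → ∫ z, (y a z : ℝ) * (y b z : ℝ) ∂ρ = 0) (A : Set ℤ) (hA : A.Infinite) (ε : ℝ) (hε : 0 < ε) :
    ∃ b : ℕ → ℤ, Function.Injective b ∧ (∀ j, b j ∈ A) ∧
      (∀ E : Set (ℕ → Val), MeasurableSet E →
        |ρ.real {z | (fun j => y (b j) z) ∈ E} - coins.real E| ≤ ε * coins.real E) ∧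
      ∀ D : Set Z, MeasurableSet D → ∀ δ : ℝ, 0 < δ → ∃ m₀ : ℕ, ∀ m, m₀ ≤ m → ∀ E : Set (ℕ → Val), MeasurableSet E →
        |ρ.real ({z | (fun j => y (b (m + j)) z) ∈ E} ∩ D) - coins.real E * ρ.real D| ≤ δ := by
  classical
  obtain ⟨𝒜, hcount, hdense⟩ := exists_countable_measureDense (μ := ρ)
  obtain ⟨F, hF⟩ : ∃ F : ℕ → Set Z, 𝒜 = Set.range F := hcount.exists_eq_range hdense.nonempty
  set D : ℕ → Set Z := fun i => Nat.casesOn i Set.univ F with hDd
  have hDm : ∀ i, MeasurableSet (D i) := by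
    intro i
    cases i with
    | zero => exact MeasurableSet.univ
    | succ i => exact hdense.measurable _ (by rw [hF]; exact ⟨i, rfl⟩)
  obtain ⟨b, hb1, hb2, hb3⟩ := choice hy h1 h2 A hA D hDm (fun j => ε / 4 ^ (j + 1)) (fun j => by positivity)
  have hev : ∀ i m, i ≤ m → ∀ E : Set (ℕ → Val), MeasurableSet E →
      |ρ.real ({z | (fun j => y (b (m + j)) z) ∈ E} ∩ D i) - coins.real E * ρ.real (D i)| ≤
        ε / (2 * 4 ^ m) * coins.real E := by
    intro i m him E hE
    apply events hy h1 b (hDm i) m _ _ hE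
    intro n
    exact (cor_sum' (fun j hj S hS => hb3 j i (by omega) S hS) n).trans (eta_sum ε hε m n)
  refine ⟨b, hb1, hb2, fun E hE => ?_, fun D' hD' δ hδ => ?_⟩
  · have h3 := hev 0 0 le_rfl E hE
    have e1 : D 0 = Set.univ := rfl
    rw [e1, Set.inter_univ, probReal_univ, mul_one, pow_zero, mul_one] at h3
    simp only [zero_add] at h3
    refine h3.trans ?_
    have : 0 ≤ coins.real E := measureReal_nonneg
    nlinarith
  · obtain ⟨t, ht, ht2⟩ := hdense.approx D' hD' (measure_ne_top _ _) (δ / 4) (by positivity)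
    rw [hF] at ht
    obtain ⟨i, rfl⟩ := ht
    have hFi : MeasurableSet (F i) := hDm (i + 1)
    have ht3 : ρ.real (symmDiff D' (F i)) ≤ δ / 4 := by
      have := ENNReal.toReal_mono ENNReal.ofReal_ne_top ht2.le
      rwa [ENNReal.toReal_ofReal (by positivity)] at this
    have hlim : Tendsto (fun m : ℕ => ε / (2 * 4 ^ m)) atTop (𝓝 0) := by
      have h4 := tendsto_pow_atTop_nhds_zero_of_lt_one (r := (1 / 4 : ℝ)) (by norm_num) (by norm_num)
      have h5 := h4.const_mul (ε / 2)
      rw [mul_zero] at h5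
      refine h5.congr fun m => ?_
      rw [one_div_pow]
      field_simp
    obtain ⟨m₁, hm₁⟩ := eventually_atTop.1 (hlim.eventually_lt_const (show (0 : ℝ) < δ / 4 by positivity))
    refine ⟨max m₁ (i + 1), fun m hm E hE => ?_⟩
    have hm1 := hm₁ m ((le_max_left _ _).trans hm)
    have h3 := hev (i + 1) m ((le_max_right _ _).trans hm) E hE
    have e1 : D (i + 1) = F i := rfl
    rw [e1] at h3
    have hc0 : 0 ≤ coins.real E := measureReal_nonneg
    have hc1 : coins.real E ≤ 1 := measureReal_le_one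
    have h4 : ε / (2 * 4 ^ m) * coins.real E ≤ δ / 4 := by
      have : 0 < ε / (2 * 4 ^ m) := by positivity
      calc ε / (2 * 4 ^ m) * coins.real E ≤ ε / (2 * 4 ^ m) * 1 := by gcongr
        _ ≤ δ / 4 := by rw [mul_one]; exact hm1.le
    have hφm : Measurable fun z (j : ℕ) => y (b (m + j)) z := measurable_pi_lambda _ fun j => hy _
    set Q : Set Z := {z | (fun j => y (b (m + j)) z) ∈ E} with hQ
    have hQm : MeasurableSet Q := hφm hE
    have h5 : |ρ.real (Q ∩ D') - ρ.real (Q ∩ F i)| ≤ δ / 4 := by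
      have h6 := abs_measureReal_sub_le_measureReal_symmDiff (μ := ρ) (s := Q ∩ D') (t := Q ∩ F i)
        (hQm.inter hD').nullMeasurableSet (hQm.inter hFi).nullMeasurableSet
      refine h6.trans (le_trans (measureReal_mono ?_) ht3)
      rw [← Set.inter_symmDiff_distrib_left]
      exact Set.inter_subset_right
    have h7 : |ρ.real D' - ρ.real (F i)| ≤ δ / 4 :=
      (abs_measureReal_sub_le_measureReal_symmDiff (μ := ρ) (s := D') (t := F i)
        hD'.nullMeasurableSet hFi.nullMeasurableSet).trans ht3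
    have h8 : |coins.real E * ρ.real D' - coins.real E * ρ.real (F i)| ≤ δ / 4 := by
      rw [← mul_sub, abs_mul, abs_of_nonneg hc0]
      calc coins.real E * |ρ.real D' - ρ.real (F i)| ≤ 1 * |ρ.real D' - ρ.real (F i)| := by gcongr
        _ ≤ δ / 4 := by rw [one_mul]; exact h7
    rw [abs_le] at h3 h5 h8 ⊢
    constructor
    · linarith [h3.1, h5.1, h8.2]
    · linarith [h3.2, h5.2, h8.1]

end

end Pool.Agent.L5helper13.CS
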