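import Pool.Agent.L5helper13.FurTwo

/-!
Library L5helper13: pairwise orthogonal random signs contain nearly independent sequences which are
asymptotically independent of everything.
-/

set_option autoImplicit false

namespace Pool.Agent.L5helper13.CS

open MeasureTheory Filter Topology Finset
open Pool.Agent.Results.MP_4a7640_nt.UniformGap (Val X val_le)
open Pool.Agent.L5helper13 (val_cases)

/-- comparison of finite measures on sequences -/
theorem le_of_atoms (ν₁ ν₂ : Measure (ℕ → Val)) [IsFiniteMeasure ν₁] [IsFiniteMeasure ν₂]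
    (h : ∀ (n : ℕ) (s : Fin n → Val), ν₁ {w | ∀ j : Fin n, w j = s j} ≤ ν₂ {w | ∀ j : Fin n, w j = s j})
    {E : Set (ℕ → Val)} (hE : MeasurableSet E) : ν₁ E ≤ ν₂ E := by
  classical
  have hclosed : ∀ K : Set (ℕ → Val), IsClosed K → ν₁ K ≤ ν₂ K := by
    intro K hK
    set pr : (n : ℕ) → (ℕ → Val) → (Fin n → Val) := fun n w j => w j with hpr
    have hprm : ∀ n, Measurable (pr n) := fun n => measurable_pi_lambda _ fun j => measurable_pi_apply _
    set KK : ℕ → Set (ℕ → Val) := fun n => pr n ⁻¹' (pr n '' K) with hKK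
    have hsing : ∀ (n : ℕ) (s : Fin n → Val), pr n ⁻¹' {s} = {w | ∀ j : Fin n, w j = s j} := by
      intro n s
      ext w
      simp only [hpr, Set.mem_preimage, Set.mem_singleton_iff, Set.mem_setOf_eq]
      exact funext_iff
    have hmeas : ∀ n, MeasurableSet (KK n) := fun n => hprm n (Set.toFinite _).measurableSet
    have hle : ∀ n, ν₁ (KK n) ≤ ν₂ (KK n) := by
      intro n
      have hfin : (pr n '' K).Finite := Set.toFinite _
      have e1 : KK n = pr n ⁻¹' (↑hfin.toFinset) := by
        simp only [hKK, Set.Finite.coe_toFinset]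
      rw [e1, ← sum_measure_preimage_singleton _ (fun y _ => hprm n (measurableSet_singleton y)),
        ← sum_measure_preimage_singleton _ (fun y _ => hprm n (measurableSet_singleton y))]
      apply sum_le_sum
      intro s _
      rw [hsing]
      exact h n s
    have hanti : Antitone KK := by
      apply antitone_nat_of_succ_le
      intro n w hw
      simp only [hKK, Set.mem_preimage, Set.mem_image] at hw ⊢
      obtain ⟨v, hv, hvw⟩ := hw
      refine ⟨v, hv, ?_⟩
      funext j
      have := congrFun hvw j.castSucc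
      exact this
    have hint : ⋂ n, KK n = K := by
      apply Set.Subset.antisymm
      · intro w hw
        rw [Set.mem_iInter] at hw
        have h1 : ∀ n, ∃ v ∈ K, pr n v = pr n w := by
          intro n
          have := hw n
          simp only [hKK, Set.mem_preimage, Set.mem_image] at this
          exact this
        choose v hv hvw using h1
        have h2 : Tendsto v atTop (𝓝 w) := by
          rw [tendsto_pi_nhds]
          intro j
          apply tendsto_nhds_of_eventually_eq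
          filter_upwards [eventually_gt_atTop j] with n hn
          exact congrFun (hvw n) ⟨j, hn⟩
        exact hK.mem_of_tendsto h2 (Eventually.of_forall hv)
      · intro w hw
        rw [Set.mem_iInter]
        intro n
        exact ⟨w, hw, rfl⟩
    have e1 := hanti.measure_iInter (μ := ν₁) (fun n => (hmeas n).nullMeasurableSet) ⟨0, measure_ne_top _ _⟩
    have e2 := hanti.measure_iInter (μ := ν₂) (fun n => (hmeas n).nullMeasurableSet) ⟨0, measure_ne_top _ _⟩
    rw [hint] at e1 e2
    rw [e1, e2]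
    exact iInf_mono hle
  rw [hE.measure_eq_iSup_isClosed_of_ne_top (measure_ne_top _ _)]
  refine iSup_le fun K => iSup_le fun hKE => iSup_le fun hK => ?_
  exact (hclosed K hK).trans (measure_mono hKE)

/-- the law of one toss of a fair coin with sides `1` and `-1` -/
noncomputable def toss : Measure Val :=
  (1 / 2 : ENNReal) • Measure.dirac (⟨1, by simp⟩ : Val) + (1 / 2 : ENNReal) • Measure.dirac (⟨-1, by simp⟩ : Val)

instance : IsProbabilityMeasure toss := ⟨by
  unfold toss
  simp only [Measure.coe_add, Measure.coe_smul, Pi.add_apply, Pi.smul_apply, measure_univ, smul_eq_mul, mul_one]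
  exact ENNReal.add_halves 1⟩

lemma toss_singleton (z : Val) : toss {z} = if (z : ℝ) = 0 then 0 else 1 / 2 := by
  classical
  unfold toss
  simp only [Measure.coe_add, Measure.coe_smul, Pi.add_apply, Pi.smul_apply, smul_eq_mul]
  rw [Measure.dirac_apply' _ (measurableSet_singleton z), Measure.dirac_apply' _ (measurableSet_singleton z)]
  rcases val_cases z with h | h | h
  · have h1 : (⟨1, by simp⟩ : Val) ∉ ({z} : Set Val) := by
      rw [Set.mem_singleton_iff]
      intro h2
      have := congrArg Subtype.val h2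
      simp only at this
      rw [h] at this
      norm_num at this
    have h2 : (⟨-1, by simp⟩ : Val) ∈ ({z} : Set Val) := by
      rw [Set.mem_singleton_iff]
      exact Subtype.ext h.symm
    rw [Set.indicator_of_notMem h1, Set.indicator_of_mem h2, if_neg (by rw [h]; norm_num)]
    simp
  · have h1 : (⟨1, by simp⟩ : Val) ∉ ({z} : Set Val) := by
      rw [Set.mem_singleton_iff]
      intro h2
      have := congrArg Subtype.val h2
      simp only at this
      rw [h] at this
      norm_num at this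
    have h2 : (⟨-1, by simp⟩ : Val) ∉ ({z} : Set Val) := by
      rw [Set.mem_singleton_iff]
      intro h2
      have := congrArg Subtype.val h2
      simp only at this
      rw [h] at this
      norm_num at this
    rw [Set.indicator_of_notMem h1, Set.indicator_of_notMem h2, if_pos h]
    simp
  · have h1 : (⟨1, by simp⟩ : Val) ∈ ({z} : Set Val) := by
      rw [Set.mem_singleton_iff]
      exact Subtype.ext h.symm
    have h2 : (⟨-1, by simp⟩ : Val) ∉ ({z} : Set Val) := by
      rw [Set.mem_singleton_iff]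
      intro h2
      have := congrArg Subtype.val h2
      simp only at this
      rw [h] at this
      norm_num at this
    rw [Set.indicator_of_mem h1, Set.indicator_of_notMem h2, if_neg (by rw [h]; norm_num)]
    simp

/-- coin tossing -/
noncomputable def coins : Measure (ℕ → Val) := Measure.infinitePi fun _ => toss

instance : IsProbabilityMeasure coins := by unfold coins; infer_instance

lemma coins_atom (n : ℕ) (s : Fin n → Val) :
    coins {w | ∀ j : Fin n, w j = s j} = ∏ j : Fin n, toss {s j} := by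
  classical
  set t : ℕ → Set Val := fun i => if h : i < n then {s ⟨i, h⟩} else Set.univ with ht
  have e : {w : ℕ → Val | ∀ j : Fin n, w j = s j} = Set.pi (↑(range n)) t := by
    ext w
    simp only [Set.mem_setOf_eq, Set.mem_pi, mem_coe, mem_range, ht]
    constructor
    · intro h i hi
      rw [dif_pos hi]
      exact h ⟨i, hi⟩
    · intro h j
      have := h j j.2
      rw [dif_pos j.2] at this
      exact this
  unfold coins
  rw [e, Measure.infinitePi_pi]
  · rw [← Fin.prod_univ_eq_prod_range (fun i => toss (t i)) n]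
    apply prod_congr rfl
    intro j _
    simp only [ht]
    rw [dif_pos j.2]
  · intro i _
    simp only [ht]
    split_ifs
    · exact measurableSet_singleton _
    · exact MeasurableSet.univ

section

variable {Z : Type} [MeasurableSpace Z] {ρ : Measure Z} [IsProbabilityMeasure ρ] {y : ℤ → Z → Val}

lemma y_meas (hy : ∀ h, Measurable (y h)) (h : ℤ) : Measurable fun z => (y h z : ℝ) :=
  measurable_subtype_coe.comp (hy h)

lemma prod_meas (hy : ∀ h, Measurable (y h)) (S : Finset ℤ) : Measurable fun z => ∏ s ∈ S, (y s z : ℝ) :=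
  Finset.measurable_fun_prod _ fun h _ => y_meas hy h

lemma prod_le (S : Finset ℤ) (z : Z) : |∏ s ∈ S, (y s z : ℝ)| ≤ 1 := by
  rw [abs_prod]
  exact prod_le_one (fun _ _ => abs_nonneg _) fun _ _ => val_le _

/-- Bessel's inequality -/
lemma bessel (hy : ∀ h, Measurable (y h)) (h1 : ∀ h, ∀ᵐ z ∂ρ, (y h z : ℝ) = 1 ∨ (y h z : ℝ) = -1)
    (h2 : ∀ a b, a ≠ b → ∫ z, (y a z : ℝ) * (y b z : ℝ) ∂ρ = 0) (Φ : Z → ℝ) (hΦ : Measurable Φ)
    (hΦ1 : ∀ z, |Φ z| ≤ 1) (S : Finset ℤ) : ∑ h ∈ S, (∫ z, Φ z * (y h z : ℝ) ∂ρ) ^ 2 ≤ 1 := by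
  classical
  set c : ℤ → ℝ := fun h => ∫ z, Φ z * (y h z : ℝ) ∂ρ with hc
  have hbd : ∀ (F : Z → ℝ) (_ : Measurable F) (C : ℝ) (_ : ∀ z, |F z| ≤ C), Integrable F ρ := fun F hF C hC =>
    Integrable.of_bound hF.aestronglyMeasurable C (Eventually.of_forall fun z => by
      rw [Real.norm_eq_abs]; exact hC z)
  have iΦ : Integrable (fun z => Φ z ^ 2) ρ := hbd _ (hΦ.pow_const 2) 1 fun z => by
    rw [abs_pow]; exact pow_le_one₀ (abs_nonneg _) (hΦ1 z)
  have iΦy : ∀ h, Integrable (fun z => Φ z * (y h z : ℝ)) ρ := fun h => hbd _ (hΦ.mul (y_meas hy h)) 1 fun z => by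
    rw [abs_mul]; exact mul_le_one₀ (hΦ1 z) (abs_nonneg _) (val_le _)
  have iyy : ∀ a b, Integrable (fun z => (y a z : ℝ) * (y b z : ℝ)) ρ := fun a b =>
    hbd _ ((y_meas hy a).mul (y_meas hy b)) 1 fun z => by
      rw [abs_mul]; exact mul_le_one₀ (val_le _) (abs_nonneg _) (val_le _)
  have hyy : ∀ a b, ∫ z, (y a z : ℝ) * (y b z : ℝ) ∂ρ = if a = b then 1 else 0 := by
    intro a b
    split_ifs with hab
    · subst hab
      have e : (fun z => (y a z : ℝ) * (y a z : ℝ)) =ᵐ[ρ] fun _ => (1 : ℝ) := by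
        filter_upwards [h1 a] with z hz
        rcases hz with hz | hz <;> rw [hz] <;> norm_num
      rw [integral_congr_ae e]
      simp
    · exact h2 a b hab
  have h3 : 0 ≤ ∫ z, (Φ z - ∑ h ∈ S, c h * (y h z : ℝ)) ^ 2 ∂ρ := integral_nonneg fun z => sq_nonneg _
  have h4 : ∫ z, (Φ z - ∑ h ∈ S, c h * (y h z : ℝ)) ^ 2 ∂ρ = ∫ z, Φ z ^ 2 ∂ρ - ∑ h ∈ S, c h ^ 2 := by
    have e1 : ∀ z, (Φ z - ∑ h ∈ S, c h * (y h z : ℝ)) ^ 2 = Φ z ^ 2 - 2 * ∑ h ∈ S, c h * (Φ z * (y h z : ℝ)) +
        ∑ a ∈ S, ∑ b ∈ S, c a * c b * ((y a z : ℝ) * (y b z : ℝ)) := by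
      intro z
      have e2 : (∑ h ∈ S, c h * (y h z : ℝ)) ^ 2 = ∑ a ∈ S, ∑ b ∈ S, c a * c b * ((y a z : ℝ) * (y b z : ℝ)) := by
        rw [sq, sum_mul_sum]
        apply sum_congr rfl; intro a _
        apply sum_congr rfl; intro b _
        ring
      have e3 : ∑ h ∈ S, c h * (Φ z * (y h z : ℝ)) = Φ z * ∑ h ∈ S, c h * (y h z : ℝ) := by
        rw [mul_sum]
        apply sum_congr rfl; intro a _
        ring
      rw [e3, ← e2]
      ring
    simp_rw [e1]
    have i1 : Integrable (fun z => ∑ h ∈ S, c h * (Φ z * (y h z : ℝ))) ρ :=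
      integrable_finsetSum _ fun h _ => (iΦy h).const_mul _
    have i2 : Integrable (fun z => ∑ a ∈ S, ∑ b ∈ S, c a * c b * ((y a z : ℝ) * (y b z : ℝ))) ρ :=
      integrable_finsetSum _ fun a _ => integrable_finsetSum _ fun b _ => (iyy a b).const_mul _
    have i3 : Integrable (fun z => Φ z ^ 2 - 2 * ∑ h ∈ S, c h * (Φ z * (y h z : ℝ))) ρ := iΦ.sub (i1.const_mul 2)
    rw [integral_add i3 i2, integral_sub iΦ (i1.const_mul 2), integral_const_mul,
      integral_finsetSum _ fun h _ => (iΦy h).const_mul _, integral_finsetSum _ fun a _ =>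
      integrable_finsetSum _ fun b _ => (iyy a b).const_mul _]
    have e4 : ∑ h ∈ S, ∫ z, c h * (Φ z * (y h z : ℝ)) ∂ρ = ∑ h ∈ S, c h ^ 2 := by
      apply sum_congr rfl; intro h _
      rw [integral_const_mul, sq]
    have e5 : ∑ a ∈ S, ∫ z, ∑ b ∈ S, c a * c b * ((y a z : ℝ) * (y b z : ℝ)) ∂ρ = ∑ h ∈ S, c h ^ 2 := by
      apply sum_congr rfl; intro a ha
      rw [integral_finsetSum _ fun b _ => (iyy a b).const_mul _]
      simp_rw [integral_const_mul, hyy]
      rw [sum_eq_single a]
      · rw [if_pos rfl, mul_one, sq]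
      · intro b _ hb
        rw [if_neg (fun h => hb h.symm), mul_zero]
      · intro h; exact absurd ha h
    rw [e4, e5]
    ring
  have h5 : ∫ z, Φ z ^ 2 ∂ρ ≤ 1 := by
    have h6 : ∫ z, Φ z ^ 2 ∂ρ ≤ ∫ _, (1 : ℝ) ∂ρ := integral_mono iΦ (integrable_const _) fun z => by
      have := hΦ1 z
      rw [← sq_abs]
      exact pow_le_one₀ (abs_nonneg _) this
    simpa using h6
  rw [h4] at h3
  linarith

/-- few coordinates are correlated with a given function -/
lemma bad_finite (hy : ∀ h, Measurable (y h)) (h1 : ∀ h, ∀ᵐ z ∂ρ, (y h z : ℝ) = 1 ∨ (y h z : ℝ) = -1)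
    (h2 : ∀ a b, a ≠ b → ∫ z, (y a z : ℝ) * (y b z : ℝ) ∂ρ = 0) (Φ : Z → ℝ) (hΦ : Measurable Φ)
    (hΦ1 : ∀ z, |Φ z| ≤ 1) (η : ℝ) (hη : 0 < η) : {h : ℤ | η < |∫ z, Φ z * (y h z : ℝ) ∂ρ|}.Finite := by
  by_contra hinf
  obtain ⟨n, hn⟩ := exists_nat_gt (1 / η ^ 2)
  obtain ⟨S, hS, hcard⟩ := Set.Infinite.exists_subset_card_eq hinf n
  have h3 := bessel hy h1 h2 Φ hΦ hΦ1 S
  have h4 : ∑ h ∈ S, η ^ 2 ≤ ∑ h ∈ S, (∫ z, Φ z * (y h z : ℝ) ∂ρ) ^ 2 := by
    apply sum_le_sum
    intro h hh
    have h5 : η < |∫ z, Φ z * (y h z : ℝ) ∂ρ| := hS hh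
    rw [← sq_abs (∫ z, Φ z * (y h z : ℝ) ∂ρ)]
    exact pow_le_pow_left₀ hη.le h5.le 2
  rw [sum_const, hcard, nsmul_eq_mul] at h4
  rw [div_lt_iff₀ (by positivity)] at hn
  linarith

/-- the choice of the sequence -/
lemma choice (hy : ∀ h, Measurable (y h)) (h1 : ∀ h, ∀ᵐ z ∂ρ, (y h z : ℝ) = 1 ∨ (y h z : ℝ) = -1)
    (h2 : ∀ a b, a ≠ b → ∫ z, (y a z : ℝ) * (y b z : ℝ) ∂ρ = 0) (A : Set ℤ) (hA : A.Infinite)
    (D : ℕ → Set Z) (hD : ∀ i, MeasurableSet (D i)) (η : ℕ → ℝ) (hη : ∀ j, 0 < η j) :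
    ∃ b : ℕ → ℤ, Function.Injective b ∧ (∀ j, b j ∈ A) ∧ ∀ j, ∀ i ≤ j, ∀ S ⊆ range j,
      |∫ z in D i, (∏ s ∈ S, (y (b s) z : ℝ)) * (y (b j) z : ℝ) ∂ρ| ≤ η j := by
  classical
  have hstep : ∀ (j : ℕ) (T : Finset ℤ), ∃ a ∈ A, a ∉ T ∧ ∀ i ≤ j, ∀ S ⊆ T,
      |∫ z, (Set.indicator (D i) (fun z => ∏ s ∈ S, (y s z : ℝ)) z) * (y a z : ℝ) ∂ρ| ≤ η j := by
    intro j T
    have hfin : (⋃ i ∈ Finset.range (j + 1), ⋃ S ∈ T.powerset, {h : ℤ | η j <
        |∫ z, (Set.indicator (D i) (fun z => ∏ s ∈ S, (y s z : ℝ)) z) * (y h z : ℝ) ∂ρ|}).Finite := by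
      apply Set.Finite.biUnion (Finset.finite_toSet _)
      intro i _
      apply Set.Finite.biUnion (Finset.finite_toSet _)
      intro S _
      apply bad_finite hy h1 h2 _ ((prod_meas hy S).indicator (hD i)) _ (η j) (hη j)
      intro z
      by_cases hz : z ∈ D i
      · rw [Set.indicator_of_mem hz]; exact prod_le S z
      · rw [Set.indicator_of_notMem hz]; simp
    obtain ⟨a, ha, ha'⟩ := (hA.sdiff (hfin.union T.finite_toSet)).nonempty
    rw [Set.mem_union, not_or] at ha'
    refine ⟨a, ha, ha'.2, fun i hi S hS => ?_⟩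
    by_contra hcon
    apply ha'.1
    rw [not_le] at hcon
    simp only [Set.mem_iUnion]
    exact ⟨i, mem_coe.2 (mem_range.2 (by omega)), S, mem_coe.2 (mem_powerset.2 hS), hcon⟩
  choose g hgA hgT hg using hstep
  -- the sets of the points chosen before
  set T : ℕ → Finset ℤ := fun j => Nat.rec ∅ (fun j T => insert (g j T) T) j with hT
  have hT0 : T 0 = ∅ := rfl
  have hTs : ∀ j, T (j + 1) = insert (g j (T j)) (T j) := fun j => rfl
  set b : ℕ → ℤ := fun j => g j (T j) with hb
  have hTb : ∀ j, T j = (range j).image b := by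
    intro j
    induction j with
    | zero => rw [hT0]; simp
    | succ j ih => rw [hTs, range_add_one, image_insert, ← ih]
  have hbm : ∀ i j, i < j → b i ∈ T j := by
    intro i j h
    rw [hTb j, mem_image]
    exact ⟨i, mem_range.2 h, rfl⟩
  have hinj : Function.Injective b := by
    intro i j hij
    by_contra hne
    rcases lt_or_gt_of_ne hne with h | h
    · apply hgT j (T j)
      have := hbm i j h
      rw [hij] at this
      exact this
    · apply hgT i (T i)
      have := hbm j i h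
      rw [← hij] at this
      exact this
  refine ⟨b, hinj, fun j => hgA _ _, fun j i hi S hS => ?_⟩
  have h3 := hg j (T j) i hi (S.image b) (by
    rw [hTb j]
    exact image_subset_image hS)
  have e : ∫ z, (Set.indicator (D i) (fun z => ∏ s ∈ S.image b, (y s z : ℝ)) z) * (y (g j (T j)) z : ℝ) ∂ρ =
      ∫ z in D i, (∏ s ∈ S, (y (b s) z : ℝ)) * (y (b j) z : ℝ) ∂ρ := by
    rw [← integral_indicator (hD i)]
    apply integral_congr_ae
    refine Eventually.of_forall fun z => ?_
    simp only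
    by_cases hz : z ∈ D i
    · rw [Set.indicator_of_mem hz, Set.indicator_of_mem hz, prod_image (fun _ _ _ _ h => hinj h)]
    · rw [Set.indicator_of_notMem hz, Set.indicator_of_notMem hz, zero_mul]
  rw [e] at h3
  exact h3

end

end Pool.Agent.L5helper13.CS
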