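import Mathlib

/-!
Library L5helper13: averages over the subsets of a finite set.
-/

set_option autoImplicit false

namespace Pool.Agent.L5helper13

open Finset

variable {R : ℕ}

/-- pairs (set, element outside) and pairs (set, element inside) -/
lemma insert_count (f : Finset (Fin R) → ℝ) (j : ℕ) :
    ∑ T ∈ powersetCard j (univ : Finset (Fin R)), ∑ i ∈ Tᶜ, f (insert i T) =
      (j + 1) * ∑ S ∈ powersetCard (j + 1) (univ : Finset (Fin R)), f S := by
  classical
  have h1 : ∑ S ∈ powersetCard (j + 1) (univ : Finset (Fin R)), ∑ _i ∈ S, f S =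
      (j + 1) * ∑ S ∈ powersetCard (j + 1) (univ : Finset (Fin R)), f S := by
    rw [mul_sum]
    refine sum_congr rfl fun S hS => ?_
    rw [mem_powersetCard] at hS
    rw [sum_const, hS.2, nsmul_eq_mul]
    push_cast
    ring
  rw [← h1, sum_sigma', sum_sigma']
  refine sum_bij' (fun t _ => ⟨insert t.2 t.1, t.2⟩) (fun t _ => ⟨t.1.erase t.2, t.2⟩) ?_ ?_ ?_ ?_ ?_
  · rintro ⟨T, i⟩ h
    rw [mem_sigma, mem_powersetCard, mem_compl] at h
    rw [mem_sigma, mem_powersetCard]
    exact ⟨⟨subset_univ _, by rw [card_insert_of_notMem h.2, h.1.2]⟩, mem_insert_self _ _⟩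
  · rintro ⟨S, i⟩ h
    rw [mem_sigma, mem_powersetCard] at h
    rw [mem_sigma, mem_powersetCard, mem_compl]
    refine ⟨⟨subset_univ _, ?_⟩, notMem_erase _ _⟩
    simp only at h ⊢
    rw [card_erase_of_mem h.2, h.1.2]
    rfl
  · rintro ⟨T, i⟩ h
    rw [mem_sigma, mem_compl] at h
    simp only [Sigma.mk.injEq, heq_eq_eq, and_true]
    exact erase_insert h.2
  · rintro ⟨S, i⟩ h
    rw [mem_sigma] at h
    simp only [Sigma.mk.injEq, heq_eq_eq, and_true]
    exact insert_erase h.2
  · rintro ⟨T, i⟩ _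
    rfl

lemma choose_div (j : ℕ) (hj : j + 1 ≤ R) (M : ℝ) :
    (R.choose j : ℝ) * M / (j + 1) = M * (R.choose (j + 1)) / ((R : ℝ) - (j + 1) + 1) := by
  have h1 : R.choose (j + 1) * (j + 1) = R.choose j * (R - j) := Nat.choose_succ_right_eq R j
  have h2 : (R.choose (j + 1) : ℝ) * (j + 1) = R.choose j * ((R : ℝ) - j) := by
    rw [← Nat.cast_sub (by omega : j ≤ R)]
    exact_mod_cast h1
  have h3 : (0 : ℝ) < (j : ℝ) + 1 := by positivity
  have h4 : (0 : ℝ) < (R : ℝ) - (j + 1) + 1 := by
    have : ((j + 1 : ℕ) : ℝ) ≤ R := by exact_mod_cast hj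
    push_cast at this
    linarith
  rw [div_eq_div_iff h3.ne' h4.ne']
  have e : (R : ℝ) - (j + 1) + 1 = R - j := by ring
  rw [e]
  calc (R.choose j : ℝ) * M * (R - j) = M * (R.choose j * ((R : ℝ) - j)) := by ring
    _ = M * (R.choose (j + 1)) * (j + 1) := by rw [← h2]; ring

/-- from the neighbours of each set to the mean value over the sets of a given size -/
lemma level_of_nbr (f : Finset (Fin R) → ℝ) (M : ℝ)
    (h : ∀ T : Finset (Fin R), ∑ i ∈ Tᶜ, f (insert i T) ≤ M) (j : ℕ) (hj1 : 1 ≤ j) (hj : j ≤ R) :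
    ∑ S ∈ powersetCard j (univ : Finset (Fin R)), f S ≤ M * (R.choose j) / ((R : ℝ) - j + 1) := by
  obtain ⟨i, rfl⟩ : ∃ i, j = i + 1 := ⟨j - 1, by omega⟩
  have h1 := insert_count f i
  have h2 : ∑ T ∈ powersetCard i (univ : Finset (Fin R)), ∑ i ∈ Tᶜ, f (insert i T) ≤ R.choose i * M := by
    refine (sum_le_sum fun T _ => h T).trans (le_of_eq ?_)
    rw [sum_const, card_powersetCard, card_univ, Fintype.card_fin, nsmul_eq_mul]
  rw [h1] at h2
  have h3 : (0 : ℝ) < (i : ℝ) + 1 := by positivity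
  have h4 := choose_div (R := R) i hj M
  push_cast
  rw [← h4, le_div_iff₀ h3]
  linarith

/-- the number of the sets of size `k` which contain `S` -/
lemma card_super (S : Finset (Fin R)) (k : ℕ) (hk : S.card ≤ k) :
    ((powersetCard k (univ : Finset (Fin R))).filter (fun B => S ⊆ B)).card =
      (R - S.card).choose (k - S.card) := by
  classical
  have h1 : (powersetCard (k - S.card) Sᶜ).card = (R - S.card).choose (k - S.card) := by
    rw [card_powersetCard, card_compl, Fintype.card_fin]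
  rw [← h1]
  refine card_bij' (fun B _ => B \ S) (fun C _ => C ∪ S) ?_ ?_ ?_ ?_
  · intro B hB
    rw [mem_filter, mem_powersetCard] at hB
    rw [mem_powersetCard]
    refine ⟨?_, by rw [card_sdiff_of_subset hB.2, hB.1.2]⟩
    intro i hi
    rw [mem_sdiff] at hi
    rw [mem_compl]
    exact hi.2
  · intro C hC
    rw [mem_powersetCard] at hC
    rw [mem_filter, mem_powersetCard]
    refine ⟨⟨subset_univ _, ?_⟩, subset_union_right⟩
    rw [card_union_of_disjoint, hC.2]
    · omega
    · rw [disjoint_left]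
      intro i hi hiS
      exact (mem_compl.1 (hC.1 hi)) hiS
  · intro B hB
    rw [mem_filter] at hB
    exact sdiff_union_of_subset hB.2
  · intro C hC
    rw [mem_powersetCard] at hC
    rw [union_sdiff_right]
    apply sdiff_eq_self_of_disjoint
    rw [disjoint_left]
    intro i hi hiS
    exact (mem_compl.1 (hC.1 hi)) hiS

/-- the sum over the sets of size `k` of the sum over their nonempty subsets -/
lemma sub_average (f : Finset (Fin R) → ℝ) (hf : ∀ S, 0 ≤ f S) (M : ℝ) (hM : 0 ≤ M)
    (h : ∀ j : ℕ, 1 ≤ j → j ≤ R →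
      ∑ S ∈ powersetCard j (univ : Finset (Fin R)), f S ≤ M * (R.choose j) / ((R : ℝ) - j + 1))
    (k : ℕ) (hk : k ≤ R) :
    ∑ B ∈ powersetCard k (univ : Finset (Fin R)), ∑ S ∈ B.powerset.erase ∅, f S ≤
      M * ((2 ^ k - 1) / ((R : ℝ) - k + 1)) * R.choose k := by
  classical
  have hkR : (k : ℝ) ≤ R := by exact_mod_cast hk
  have h1 : ∑ B ∈ powersetCard k (univ : Finset (Fin R)), ∑ S ∈ B.powerset.erase ∅, f S =
      ∑ j ∈ Icc 1 k, ∑ B ∈ powersetCard k (univ : Finset (Fin R)), ∑ S ∈ powersetCard j B, f S := by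
    rw [sum_comm]
    refine sum_congr rfl fun B hB => ?_
    rw [mem_powersetCard] at hB
    have e1 : ∑ S ∈ B.powerset, f S = ∑ j ∈ range (k + 1), ∑ S ∈ powersetCard j B, f S := by
      rw [sum_powerset, hB.2]
    have e2 : ∑ S ∈ B.powerset.erase ∅, f S = ∑ S ∈ B.powerset, f S - f ∅ := by
      rw [← sum_erase_add _ _ (empty_mem_powerset B)]
      ring
    rw [e2, e1, sum_range_succ']
    rw [powersetCard_zero, sum_singleton, add_sub_cancel_right, range_eq_Ico,
      sum_Ico_add' (fun j => ∑ S ∈ powersetCard j B, f S) 0 k 1]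
    refine sum_congr ?_ fun _ _ => rfl
    ext j
    simp only [mem_Ico, mem_Icc]
    omega
  rw [h1]
  have h2 : ∀ j ∈ Icc 1 k, ∑ B ∈ powersetCard k (univ : Finset (Fin R)), ∑ S ∈ powersetCard j B, f S ≤
      M * (k.choose j) / ((R : ℝ) - k + 1) * R.choose k := by
    intro j hj
    rw [mem_Icc] at hj
    have hjk : (j : ℝ) ≤ k := by exact_mod_cast hj.2
    have e1 : ∑ B ∈ powersetCard k (univ : Finset (Fin R)), ∑ S ∈ powersetCard j B, f S =
        (R - j).choose (k - j) * ∑ S ∈ powersetCard j (univ : Finset (Fin R)), f S := by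
      have e2 : ∀ B ∈ powersetCard k (univ : Finset (Fin R)), ∑ S ∈ powersetCard j B, f S =
          ∑ S ∈ powersetCard j (univ : Finset (Fin R)), if S ⊆ B then f S else 0 := by
        intro B _
        rw [← sum_filter]
        refine sum_congr ?_ fun _ _ => rfl
        ext S
        rw [mem_filter, mem_powersetCard, mem_powersetCard]
        exact ⟨fun h => ⟨⟨subset_univ _, h.2⟩, h.1⟩, fun h => ⟨h.2, h.1.2⟩⟩
      rw [sum_congr rfl e2, sum_comm, mul_sum]
      refine sum_congr rfl fun S hS => ?_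
      rw [mem_powersetCard] at hS
      rw [← sum_filter, sum_const, card_super S k (by rw [hS.2]; exact hj.2), hS.2, nsmul_eq_mul]
    rw [e1]
    have e3 := h j hj.1 (hj.2.trans hk)
    have e4 : R.choose k * k.choose j = R.choose j * (R - j).choose (k - j) :=
      Nat.choose_mul hj.2
    have e5 : (R.choose k : ℝ) * k.choose j = R.choose j * (R - j).choose (k - j) := by exact_mod_cast e4
    have e6 : (0 : ℝ) < (R : ℝ) - k + 1 := by linarith
    calc ((R - j).choose (k - j) : ℝ) * ∑ S ∈ powersetCard j (univ : Finset (Fin R)), f S ≤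
        ((R - j).choose (k - j) : ℝ) * (M * (R.choose j) / ((R : ℝ) - j + 1)) :=
          mul_le_mul_of_nonneg_left e3 (Nat.cast_nonneg _)
      _ ≤ ((R - j).choose (k - j) : ℝ) * (M * (R.choose j) / ((R : ℝ) - k + 1)) := by
          apply mul_le_mul_of_nonneg_left _ (Nat.cast_nonneg _)
          apply div_le_div_of_nonneg_left (by positivity) e6 (by linarith)
      _ = M * (R.choose j * (R - j).choose (k - j)) / ((R : ℝ) - k + 1) := by ring
      _ = M * (k.choose j) / ((R : ℝ) - k + 1) * R.choose k := by rw [← e5]; ring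
  refine (sum_le_sum h2).trans (le_of_eq ?_)
  rw [← sum_mul]
  congr 1
  have h3 : ∑ j ∈ Icc 1 k, (k.choose j : ℝ) = 2 ^ k - 1 := by
    have e1 : ∑ j ∈ range (k + 1), (k.choose j : ℝ) = 2 ^ k := by exact_mod_cast Nat.sum_range_choose k
    rw [sum_range_succ'] at e1
    rw [Nat.choose_zero_right] at e1
    have e2 : ∑ j ∈ Icc 1 k, (k.choose j : ℝ) = ∑ j ∈ range k, (k.choose (j + 1) : ℝ) := by
      rw [range_eq_Ico, sum_Ico_add' (fun j => (k.choose j : ℝ)) 0 k 1]
      refine sum_congr ?_ fun _ _ => rfl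
      ext j
      simp only [mem_Ico, mem_Icc]
      omega
    rw [e2]
    push_cast at e1
    linarith
  rw [← h3, mul_div_assoc', mul_sum, sum_div]

end Pool.Agent.L5helper13
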