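import Pool.Agent.L5helper13.Odd

/-!
Library L5helper13: correlations of the Liouville function of every order along arbitrary linear forms, minor
arc phases; all phases for the odd orders and for the order two; one exceptional set of scales.
-/

set_option autoImplicit false

namespace Pool.Agent.L5helper13

open Finset Filter Topology
open Pool.Agent.Helper602.MK (ee)
open Pool.Agent.Helper602.MK.N_J1c (c_ee_add c_ee_int c_norm_ee)
open Pool.Agent.Y958.U (LZ)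
open Pool.Agent.Y304.U (sE)
open Pool.Agent.Y842.EL (LZ_eps LZ_mono LZ_union LZ_empty LZ_pull)
open Pool.Agent.Y842.PG

/-- the product of the values of the Liouville function along the forms -/
noncomputable def FP {k : ℕ} (a b : Fin k → ℕ) (n : ℕ) : ℂ := ∏ i, lc (a i * n + b i)

/-- the common multiple -/
def AA {k : ℕ} (a : Fin k → ℕ) : ℕ := ∏ i, a i

/-- the cofactors -/
def BB {k : ℕ} (a : Fin k → ℕ) (i : Fin k) : ℕ := ∏ j ∈ univ.erase i, a j

/-- the shifts -/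
def xx {k : ℕ} (a b : Fin k → ℕ) (i : Fin k) : ℕ := BB a i * b i

lemma AA_pos {k : ℕ} (a : Fin k → ℕ) (ha : ∀ i, 1 ≤ a i) : 1 ≤ AA a :=
  Nat.one_le_iff_ne_zero.2 (prod_ne_zero_iff.2 fun i _ => by have := ha i; omega)

lemma BB_mul {k : ℕ} (a : Fin k → ℕ) (i : Fin k) : BB a i * a i = AA a := by
  unfold BB AA
  rw [mul_comm]
  exact mul_prod_erase univ a (mem_univ i)

lemma BB_ne {k : ℕ} (a : Fin k → ℕ) (ha : ∀ i, 1 ≤ a i) (i : Fin k) : BB a i ≠ 0 := by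
  intro h
  have h1 := BB_mul a i
  rw [h, zero_mul] at h1
  have := AA_pos a ha
  omega

lemma FP_eq {k : ℕ} (a b : Fin k → ℕ) (ha : ∀ i, 1 ≤ a i) (n : ℕ) (hn : 1 ≤ n) :
    FP a b n = (∏ i, lc (BB a i)) * pr (LG k) (xx a b) 1 (AA a * n) := by
  unfold FP
  rw [pr_LG, ← prod_mul_distrib]
  refine prod_congr rfl fun i _ => ?_
  have e1 : AA a * n + 1 * xx a b i = BB a i * (a i * n + b i) := by
    unfold xx
    rw [← BB_mul a i]
    ring
  have e2 : a i * n + b i ≠ 0 := by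
    have : 1 ≤ a i * n := Nat.one_le_iff_ne_zero.2 (Nat.mul_ne_zero (by have := ha i; omega) (by omega))
    omega
  rw [e1, lc_mul (BB_ne a ha i) e2, ← mul_assoc, lc_sq, one_mul]

/-- the multiples of `A` -/
lemma mult_sum (A : ℕ) (hA : 1 ≤ A) (G : ℕ → ℂ) (y : ℕ) (α : ℝ) (S : ℝ)
    (hS : ∀ t < A, ‖∑ m ∈ range (A * y + 1), G m * ee ((α + t) / A * m)‖ ≤ S) (hG : ‖G 0‖ ≤ 1) :
    ‖∑ n ∈ Icc 1 y, G (A * n) * ee (α * n)‖ ≤ S + 1 := by
  have hA0 : (A : ℝ) ≠ 0 := by exact_mod_cast (by omega : A ≠ 0)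
  have hAr : (0 : ℝ) < A := by exact_mod_cast hA
  have h1 : ∑ t ∈ range A, ∑ m ∈ range (A * y + 1), G m * ee ((α + t) / A * m) =
      A * (G 0 + ∑ n ∈ Icc 1 y, G (A * n) * ee (α * n)) := by
    rw [sum_comm]
    have e1 : ∀ m ∈ range (A * y + 1), ∑ t ∈ range A, G m * ee ((α + t) / A * m) =
        if m % A = 0 then (A : ℂ) * (G m * ee (α / A * m)) else 0 := by
      intro m _
      have e2 : ∀ t ∈ range A, G m * ee ((α + t) / A * m) =
          (G m * ee (α / A * m)) * ee ((t : ℝ) * (((m % A : ℕ) : ℝ) - ((0 : ℕ) : ℝ)) / A) := by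
        intro t _
        have e3 : (α + t) / A * m = α / A * m + (t : ℝ) * (((m % A : ℕ) : ℝ) - ((0 : ℕ) : ℝ)) / A +
            ((t * (m / A) : ℕ) : ℤ) := by
          have : (m : ℝ) = ((m % A : ℕ) : ℝ) + (A : ℝ) * ((m / A : ℕ) : ℝ) := by
            exact_mod_cast (Nat.mod_add_div m A).symm
          have e4 : (α + t) / A * m = α / A * m + t / A * m := by ring
          rw [e4]
          have e5 : (t : ℝ) / A * m = (t : ℝ) * (((m % A : ℕ) : ℝ) - ((0 : ℕ) : ℝ)) / A +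
              ((t * (m / A) : ℕ) : ℤ) := by
            conv_lhs => rw [this]
            generalize m / A = d
            push_cast
            field_simp
            ring
          rw [e5]
          ring
        rw [e3, c_ee_add, c_ee_add, c_ee_int, mul_one]
        ring
      rw [sum_congr rfl e2, ← mul_sum, Pool.Agent.Y842.PH.orth A (m % A) 0 (Nat.mod_lt _ hA) (by omega)]
      split_ifs
      · ring
      · rw [mul_zero]
    rw [sum_congr rfl e1, ← sum_filter, ← mul_sum]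
    congr 1
    have e6 : (range (A * y + 1)).filter (fun m => m % A = 0) = (range (y + 1)).image (fun n => A * n) := by
      ext m
      simp only [mem_filter, mem_range, mem_image]
      constructor
      · rintro ⟨h2, h3⟩
        obtain ⟨n, rfl⟩ := Nat.dvd_of_mod_eq_zero h3
        refine ⟨n, ?_, rfl⟩
        have : A * n ≤ A * y := by omega
        have := Nat.le_of_mul_le_mul_left this (by omega)
        omega
      · rintro ⟨n, h2, rfl⟩
        refine ⟨?_, Nat.mul_mod_right A n⟩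
        have := Nat.mul_le_mul_left A (by omega : n ≤ y)
        omega
    rw [e6, sum_image (fun x _ z _ hxz => Nat.eq_of_mul_eq_mul_left (by omega) hxz), range_eq_Ico,
      sum_eq_sum_Ico_succ_bot (by omega)]
    congr 1
    · have : ee (α / A * ((A * 0 : ℕ) : ℝ)) = 1 := by
        have := c_ee_int 0
        simpa using this
      rw [this, mul_one, mul_zero]
    · refine sum_congr (by ext n; simp only [mem_Ico, mem_Icc]; omega) fun n _ => ?_
      congr 2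
      push_cast
      field_simp
  have h2 : (A : ℝ) * ‖G 0 + ∑ n ∈ Icc 1 y, G (A * n) * ee (α * n)‖ ≤ A * S := by
    rw [← Complex.norm_natCast A, ← norm_mul, ← h1]
    refine (norm_sum_le _ _).trans ?_
    refine (sum_le_sum fun t ht => hS t (mem_range.1 ht)).trans (le_of_eq ?_)
    rw [sum_const, card_range, nsmul_eq_mul, Complex.norm_natCast]
  have h3 := le_of_mul_le_mul_left h2 hAr
  have h4 : ∑ n ∈ Icc 1 y, G (A * n) * ee (α * n) = (G 0 + ∑ n ∈ Icc 1 y, G (A * n) * ee (α * n)) - G 0 := by ring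
  rw [h4]
  refine (norm_sub_le _ _).trans ?_
  linarith

/-- from shifts to forms -/
lemma forms_le {k : ℕ} (a b : Fin k → ℕ) (ha : ∀ i, 1 ≤ a i) (y : ℕ) (α : ℝ) (S : ℝ)
    (hS : ∀ t < AA a, ‖Cg (LG k) (xx a b) (AA a * y + 1) ((α + t) / AA a)‖ ≤ S) :
    ‖∑ n ∈ Icc 1 y, FP a b n * ee (α * n)‖ ≤ S + 1 := by
  have h1 : ∑ n ∈ Icc 1 y, FP a b n * ee (α * n) =
      (∏ i, lc (BB a i)) * ∑ n ∈ Icc 1 y, pr (LG k) (xx a b) 1 (AA a * n) * ee (α * n) := by
    rw [mul_sum]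
    refine sum_congr rfl fun n hn => ?_
    rw [mem_Icc] at hn
    rw [FP_eq a b ha n hn.1]
    ring
  have h2 : ‖∏ i, lc (BB a i)‖ = 1 := by
    rw [norm_prod]
    exact prod_eq_one fun i _ => lc_norm _
  rw [h1, norm_mul, h2, one_mul]
  refine mult_sum (AA a) (AA_pos a ha) (fun m => pr (LG k) (xx a b) 1 m) y α S (fun t ht => hS t ht) ?_
  exact pr_le _ (LG_CF k).1 _ _ _

/-- the set of scales with a large sum, for a class of phases -/
def BadF {k : ℕ} (a b : Fin k → ℕ) (C : ℕ → ℝ → Prop) (δ : ℝ) : Set ℕ :=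
  {N : ℕ | ∃ α : ℝ, C N α ∧ ∃ y ≤ N, δ * N < ‖∑ n ∈ Icc 1 y, FP a b n * ee (α * n)‖}

/-- reduction to shifts -/
lemma BadF_LZ {k : ℕ} (a b : Fin k → ℕ) (ha : ∀ i, 1 ≤ a i) (C C' : ℕ → ℝ → Prop)
    (hC : ∀ N α, 1 ≤ N → C N α → ∀ t < AA a, C' (AA a * N + 1) ((α + t) / AA a)) (δ : ℝ) (hδ : 0 < δ) (hδ1 : δ ≤ 1)
    (h : ∀ δ' : ℝ, 0 < δ' → δ' ≤ 1 → LZ {M : ℕ | ∃ β : ℝ, C' M β ∧ ∃ y ≤ M, δ' * M < ‖Cg (LG k) (xx a b) y β‖}) :
    LZ (BadF a b C δ) := by
  set A := AA a with hA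
  have hA1 : 1 ≤ A := AA_pos a ha
  have hAr : (1 : ℝ) ≤ A := by exact_mod_cast hA1
  have h1 := LZ_pull (h (δ / (4 * A)) (by positivity) (by
    rw [div_le_one (by positivity)]
    linarith)) A 1 hA1
  refine LZ_mono ?_ (LZ_union h1 (Pool.Agent.V1213.CH.LZ_fin (⌈4 / δ⌉₊ + 1)))
  rintro N ⟨α, hα, y, hy, hbig⟩
  by_cases hN : N < ⌈4 / δ⌉₊ + 1
  · exact Or.inr hN
  left
  rw [not_lt] at hN
  have hN1 : 4 / δ ≤ N := (Nat.le_ceil _).trans (by exact_mod_cast (by omega : ⌈4 / δ⌉₊ ≤ N))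
  rw [div_le_iff₀ hδ] at hN1
  have hNr : (1 : ℝ) ≤ N := by exact_mod_cast (by omega : 1 ≤ N)
  by_contra hcon
  have h2 : ∀ t < A, ‖Cg (LG k) (xx a b) (A * y + 1) ((α + t) / A)‖ ≤ δ / (4 * A) * ((A * N + 1 : ℕ) : ℝ) := by
    intro t ht
    by_contra h3
    rw [not_le] at h3
    apply hcon
    show A * N + 1 ∈ {M : ℕ | ∃ β : ℝ, C' M β ∧ ∃ y ≤ M, δ / (4 * A) * M < ‖Cg (LG k) (xx a b) y β‖}
    refine ⟨(α + t) / A, hC N α (by omega) hα t ht, A * y + 1, ?_, h3⟩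
    have := Nat.mul_le_mul_left A hy
    omega
  have h3 := forms_le a b ha y α _ h2
  have h4 : δ / (4 * A) * ((A * N + 1 : ℕ) : ℝ) ≤ δ / 2 * N := by
    push_cast
    have e1 : (A : ℝ) * N + 1 ≤ 2 * (A * N) := by nlinarith
    calc δ / (4 * A) * ((A : ℝ) * N + 1) ≤ δ / (4 * A) * (2 * (A * N)) := by gcongr
      _ = δ / 2 * N := by
          field_simp
          ring
  nlinarith

/-- odd orders -/
theorem forms_odd {k : ℕ} (hk : Odd k) (a b : Fin k → ℕ) (ha : ∀ i, 1 ≤ a i) (δ : ℝ) (hδ : 0 < δ) (hδ1 : δ ≤ 1) :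
    LZ (BadF a b (fun _ _ => True) δ) := by
  refine BadF_LZ a b ha (fun _ _ => True) (fun _ _ => True) (fun _ _ _ _ _ _ => trivial) δ hδ hδ1 fun δ' h0 h1 => ?_
  refine LZ_mono ?_ (all_odd k hk (xx a b) δ' h0 h1)
  rintro M ⟨β, -, y, hy, hbig⟩
  exact ⟨β, y, hy, hbig⟩

/-- minor arcs with a slowly growing parameter, shifts -/
theorem minor_rho {k : ℕ} (hk : 1 ≤ k) (hs : Fin k → ℕ) (ρ : ℕ → ℕ) (hρ : Tendsto ρ atTop atTop) (δ : ℝ) (hδ : 0 < δ)
    (hδ1 : δ ≤ 1) : LZ {M : ℕ | ∃ β : ℝ, GdM (ρ M) M β ∧ ∃ y ≤ M, δ * M < ‖Cg (LG k) hs y β‖} := by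
  rw [LZ_eps]
  intro η hη
  obtain ⟨R, X₀, h1⟩ := minor_phases hk hs δ hδ hδ1 (η / 2) (by positivity)
  obtain ⟨M₁, hM₁⟩ := eventually_atTop.1 (hρ.eventually_ge_atTop R)
  obtain ⟨X₁, h2⟩ := (LZ_eps _).1 (Pool.Agent.V1213.CH.LZ_fin M₁) (η / 2) (by positivity)
  refine ⟨X₀ + X₁, fun X hX => ?_⟩
  have h3 := h1 X (by omega) (LG k) (LG_CF k)
  have h4 := h2 X (by omega)
  refine (sE_mono (F := {N : ℕ | ∃ α : ℝ, GdM R N α ∧ ∃ y ≤ N, δ * N < ‖Cg (LG k) hs y α‖} ∪ {N | N < M₁}) ?_ X).trans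
    ((sE_union _ _ _).trans (by linarith))
  rintro M ⟨β, hβ, y, hy, hbig⟩
  by_cases hM : M < M₁
  · exact Or.inr hM
  · rw [not_lt] at hM
    refine Or.inl ⟨β, ?_, y, hy, hbig⟩
    intro q hq hqR A
    refine le_trans ?_ (hβ q hq (hqR.trans (hM₁ M hM)) A)
    exact_mod_cast hM₁ M hM

/-- minor arcs, forms -/
theorem forms_minor {k : ℕ} (hk : 1 ≤ k) (a b : Fin k → ℕ) (ha : ∀ i, 1 ≤ a i) (ρ : ℕ → ℕ)
    (hρ : Tendsto ρ atTop atTop) (δ : ℝ) (hδ : 0 < δ) (hδ1 : δ ≤ 1) :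
    LZ (BadF a b (fun N α => GdM (ρ N) N α) δ) := by
  have hA1 : 1 ≤ AA a := AA_pos a ha
  have hAr : (1 : ℝ) ≤ AA a := by exact_mod_cast hA1
  have hρ' : Tendsto (fun M => ρ ((M - 1) / AA a)) atTop atTop := by
    refine hρ.comp ?_
    rw [tendsto_atTop_atTop]
    intro B
    refine ⟨AA a * B + 1, fun M hM => ?_⟩
    rw [Nat.le_div_iff_mul_le (by omega)]
    have : B * AA a = AA a * B := mul_comm _ _
    omega
  refine BadF_LZ a b ha (fun N α => GdM (ρ N) N α) (fun M β => GdM (ρ ((M - 1) / AA a)) M β) ?_ δ hδ hδ1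
    fun δ' h0 h1 => minor_rho hk (xx a b) _ hρ' δ' h0 h1
  intro N α _ hα t _ q hq hqR B
  have e1 : (AA a * N + 1 - 1) / AA a = N := by
    rw [Nat.add_sub_cancel, Nat.mul_div_cancel_left _ (by omega)]
  simp only [e1] at hqR ⊢
  have h2 := hα q hq hqR (AA a * B - t * q)
  have hq0 : (0 : ℝ) < q := by exact_mod_cast hq
  have hA0 : (AA a : ℝ) ≠ 0 := by linarith
  have e2 : (α + t) / AA a - B / q = (α - ((AA a * B - t * q : ℤ) : ℝ) / q) / AA a := by
    push_cast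
    field_simp
    ring
  rw [e2, abs_div, abs_of_pos (by linarith : (0 : ℝ) < AA a)]
  refine h2.trans ?_
  push_cast
  rw [div_mul_eq_mul_div, le_div_iff₀ (by linarith)]
  have h3 : 0 ≤ |α - (AA a * B - t * q : ℝ) / q| := abs_nonneg _
  nlinarith

end Pool.Agent.L5helper13
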