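import Pool.Agent.R512.P.PairM
import Pool.Agent.R512.G.Fur
import Pool.Agent.Results.MP_4a7640_nt.UniformGap

/-!
Library L5helper13: Furstenberg systems of aperiodic multiplicative functions with values `±1`: distinct
coordinates are orthogonal, coordinates are nonzero.
-/

set_option autoImplicit false

namespace Pool.Agent.L5helper13

open MeasureTheory Filter Topology Finset
open Pool.Agent.Results.MP_4a7640_nt.UniformGap (Val X shift seq IsFurstenbergSystem IsMult Aperiodic val_le seq_nat)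
open Pool.Agent.R512.P (MS pairMW)
open Pool.Agent.R512.G (NoReal log_lim_shift)
open Pool.Agent.Y958.U (LZ)

/-- the integer value -/
noncomputable def iv (z : Val) : ℤ := if (z : ℝ) = 1 then 1 else if (z : ℝ) = 0 then 0 else -1

lemma val_cases (z : Val) : (z : ℝ) = -1 ∨ (z : ℝ) = 0 ∨ (z : ℝ) = 1 := by
  have h := z.2
  simp only [Set.mem_insert_iff, Set.mem_singleton_iff] at h
  exact h

lemma iv_cast (z : Val) : ((iv z : ℤ) : ℝ) = z := by
  unfold iv
  rcases val_cases z with h | h | h <;> rw [h] <;> norm_num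

lemma iv_ms {f : ℕ → Val} (hf : IsMult f) : MS (fun n => iv (f n)) := by
  refine ⟨fun n hn => ?_, fun m n hm hn hc => ?_⟩
  · unfold iv
    rcases val_cases (f n) with h | h | h
    · right; rw [h]; norm_num
    · exact absurd h (hf.1 n hn)
    · left; rw [h]; norm_num
  · have h1 := hf.2 m n hm hn hc
    have h2 : ((iv (f (m * n)) : ℤ) : ℝ) = ((iv (f m) * iv (f n) : ℤ) : ℝ) := by
      push_cast
      rw [iv_cast, iv_cast, iv_cast]
      exact h1
    exact_mod_cast h2

lemma iv_noReal {f : ℕ → Val} (h : Aperiodic f) : NoReal (fun n => ((iv (f n) : ℤ) : ℝ)) := by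
  intro q χ hq _ hs
  apply h q hq χ
  have h1 : Summable (fun p : Nat.Primes => (fun p : ℕ => if p.Prime then
    (1 - (((f p : ℝ) : ℂ) * (starRingEnd ℂ) (χ (p : ZMod q))).re) / (p : ℝ) else 0) (p : ℕ)) := by
    refine hs.congr fun p => ?_
    simp only
    rw [if_pos p.2, Complex.re_ofReal_mul, Complex.conj_re, iv_cast]
  exact (Function.Injective.summable_iff (g := fun p : Nat.Primes => (p : ℕ))
    (f := fun p : ℕ => if p.Prime then
    (1 - (((f p : ℝ) : ℂ) * (starRingEnd ℂ) (χ (p : ZMod q))).re) / (p : ℝ) else 0)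
    Subtype.val_injective (fun p hp => by
      rw [if_neg]
      intro hp'
      exact hp ⟨⟨p, hp'⟩, rfl⟩)).1 h1

/-- distinct coordinates are orthogonal -/
theorem fur_two {f : ℕ → Val} (hf : IsMult f) (ha : Aperiodic f) {μ : Measure X} (hμ : IsFurstenbergSystem f μ)
    {a b : ℤ} (hab : a ≠ b) : ∫ x : X, (x a : ℝ) * (x b : ℝ) ∂μ = 0 := by
  obtain ⟨hprob, N, hN, hlim⟩ := hμ
  set M : ℕ := a.natAbs + b.natAbs + 1 with hM
  set a' : ℕ := (a + M).toNat with ha'
  set b' : ℕ := (b + M).toNat with hb'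
  have ea : (a' : ℤ) = a + M := by rw [ha']; omega
  have eb : (b' : ℤ) = b + M := by rw [hb']; omega
  have hab' : a' ≠ b' := by
    intro h
    apply hab
    have : (a' : ℤ) = b' := by rw [h]
    omega
  set g : ℕ → ℤ := fun n => iv (f n) with hg
  have hms := iv_ms hf
  have hnr := iv_noReal ha
  set ψ : ℕ → ℂ := fun n => ((g (n + a') * g (n + b') : ℤ) : ℂ) with hψ
  have hg1 : ∀ n, |g n| ≤ 1 := by
    intro n
    simp only [hg, iv]
    split_ifs <;> simp
  have hψ1 : ∀ n, ‖ψ n‖ ≤ 1 := by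
    intro n
    simp only [hψ]
    rw [Complex.norm_intCast]
    have h1 : |g (n + a') * g (n + b')| ≤ 1 := by
      rw [abs_mul]
      exact mul_le_one₀ (hg1 _) (abs_nonneg _) (hg1 _)
    exact_mod_cast h1
  -- the limit is zero
  have hz : Tendsto (fun s => ((1 / Real.log (N s : ℝ) : ℝ) : ℂ) * ∑ n ∈ Icc 1 (N s), ψ n / (n : ℂ)) atTop (𝓝 0) := by
    rw [Metric.tendsto_atTop]
    intro ε hε
    have h1 := pairMW hms hnr hms a' b' hab' 1 le_rfl (fun _ => 1) (fun _ => by simp) (fun _ => rfl) (ε / 8) (by positivity)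
    obtain ⟨X₀, hX₀⟩ := Pool.Agent.Y958.E.logC ψ (fun _ => 0) hψ1 (fun _ => le_rfl) 0 (ε / 8) (by norm_num) (by positivity) (by
      refine Pool.Agent.Y958.U.LZ_sub (fun n hn => ?_) h1
      have hn : (1 - 0) * ∑ m ∈ Icc 1 n, (0 : ℝ) + ε / 8 * n < ‖∑ m ∈ Icc 1 n, ψ m‖ := hn
      show ε / 8 * n < |∑ m ∈ Icc 1 n, (1 : ℝ) * ((g (m + a') : ℤ) : ℝ) * ((g (m + b') : ℤ) : ℝ)|
      have e : ∑ m ∈ Icc 1 n, ψ m = ((∑ m ∈ Icc 1 n, (1 : ℝ) * ((g (m + a') : ℤ) : ℝ) * ((g (m + b') : ℤ) : ℝ) : ℝ) : ℂ) := by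
        push_cast
        apply sum_congr rfl
        intro m _
        simp only [hψ]
        push_cast
        ring
      rw [e, Complex.norm_real, Real.norm_eq_abs] at hn
      simpa using hn)
    obtain ⟨s₀, hs₀⟩ := eventually_atTop.1 (hN.eventually_ge_atTop (X₀ + 3))
    refine ⟨s₀, fun s hs => ?_⟩
    have h2 := hs₀ s hs
    have h3 := hX₀ (N s) (by omega)
    simp only [sum_const_zero, mul_zero, zero_add, zero_div] at h3
    have hlog : 0 < Real.log (N s : ℝ) := Real.log_pos (by exact_mod_cast (by omega : 1 < N s))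
    rw [dist_zero_right, norm_mul, Complex.norm_real, Real.norm_eq_abs, abs_of_pos (by positivity)]
    calc 1 / Real.log (N s : ℝ) * ‖∑ n ∈ Icc 1 (N s), ψ n / (n : ℂ)‖ ≤
          1 / Real.log (N s : ℝ) * (4 * (ε / 8) * Real.log (N s : ℝ)) := by gcongr
      _ = ε / 2 := by field_simp; ring
      _ < ε := by linarith
  -- the other limit
  set A : ℤ → ℂ := fun z => (((seq f (z + a) : Val) : ℝ) : ℂ) * (((seq f (z + b) : Val) : ℝ) : ℂ) with hA
  have hA1 : ∀ z, ‖A z‖ ≤ 1 := by
    intro z
    simp only [hA]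
    rw [norm_mul, Complex.norm_real, Complex.norm_real, Real.norm_eq_abs, Real.norm_eq_abs]
    exact mul_le_one₀ (val_le _) (abs_nonneg _) (val_le _)
  have h4 := hlim (fun x => (x a : ℝ) * (x b : ℝ)) (by fun_prop)
  have h5 : Tendsto (fun s => ((1 / Real.log (N s : ℝ) : ℝ) : ℂ) * ∑ n ∈ Icc 1 (N s), A (n : ℤ) / (n : ℂ)) atTop
      (𝓝 ((∫ x : X, (x a : ℝ) * (x b : ℝ) ∂μ : ℝ) : ℂ)) := by
    refine ((Complex.continuous_ofReal.tendsto _).comp h4).congr fun s => ?_
    simp only [Function.comp_apply, hA]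
    push_cast
    congr 1
    apply sum_congr rfl
    intro n _
    unfold shift
    rw [add_comm a, add_comm b]
    ring
  have h6 := log_lim_shift hN A hA1 (M : ℤ) _ h5
  have h7 : (fun s => ((1 / Real.log (N s : ℝ) : ℝ) : ℂ) * ∑ n ∈ Icc 1 (N s), A ((n : ℤ) + M) / (n : ℂ)) =
      fun s => ((1 / Real.log (N s : ℝ) : ℝ) : ℂ) * ∑ n ∈ Icc 1 (N s), ψ n / (n : ℂ) := by
    funext s
    congr 1
    apply sum_congr rfl
    intro n hn
    rw [mem_Icc] at hn
    congr 1
    simp only [hA, hψ, hg]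
    have e1 : (n : ℤ) + M + a = ((n + a' : ℕ) : ℤ) := by push_cast; rw [ea]; ring
    have e2 : (n : ℤ) + M + b = ((n + b' : ℕ) : ℤ) := by push_cast; rw [eb]; ring
    rw [e1, e2, seq_nat f _ (by omega), seq_nat f _ (by omega)]
    rw [← iv_cast, ← iv_cast]
    push_cast
    rfl
  rw [h7] at h6
  have h8 := tendsto_nhds_unique h6 hz
  exact_mod_cast h8

/-- the coordinates are almost surely `1` or `-1` -/
theorem fur_one {f : ℕ → Val} (hf : IsMult f) {μ : Measure X} (hμ : IsFurstenbergSystem f μ) (a : ℤ) :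
    ∀ᵐ x ∂μ, (x a : ℝ) = 1 ∨ (x a : ℝ) = -1 := by
  obtain ⟨hprob, N, hN, hlim⟩ := hμ
  have hc : Continuous fun x : X => ((x a : ℝ)) ^ 2 := (continuous_subtype_val.comp (continuous_apply a)).pow 2
  -- the average of the constant function `1`
  have h1 := hlim (fun _ => 1) continuous_const
  rw [integral_const, smul_eq_mul, mul_one, probReal_univ] at h1
  have h2 := hlim _ hc
  have hv : ∀ z : Val, (z : ℝ) ≠ 0 → (z : ℝ) ^ 2 = 1 := by
    intro z hz
    rcases val_cases z with h | h | h
    · rw [h]; norm_num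
    · exact absurd h hz
    · rw [h]; norm_num
  have hsq : ∀ z : Val, 0 ≤ (z : ℝ) ^ 2 ∧ (z : ℝ) ^ 2 ≤ 1 := by
    intro z
    rcases val_cases z with h | h | h <;> rw [h] <;> norm_num
  -- the difference
  have h3 : Tendsto (fun s => (1 / Real.log (N s : ℝ)) * ∑ n ∈ Icc 1 (N s), (1 / (n : ℝ)) *
      (1 - ((shift (n : ℤ) (seq f) a : Val) : ℝ) ^ 2)) atTop (𝓝 (1 - ∫ x : X, (x a : ℝ) ^ 2 ∂μ)) := by
    refine (h1.sub h2).congr fun s => ?_
    rw [← mul_sub, ← sum_sub_distrib]
    congr 1
    apply sum_congr rfl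
    intro n _
    ring
  have h4 : Tendsto (fun s => (1 / Real.log (N s : ℝ)) * ∑ n ∈ Icc 1 (N s), (1 / (n : ℝ)) *
      (1 - ((shift (n : ℤ) (seq f) a : Val) : ℝ) ^ 2)) atTop (𝓝 0) := by
    have h5 : Tendsto (fun s => 1 / Real.log (N s : ℝ) * (a.natAbs : ℝ)) atTop (𝓝 0) := by
      have := (Real.tendsto_log_atTop.comp (tendsto_natCast_atTop_atTop.comp hN))
      have h2 := (tendsto_inv_atTop_zero.comp this).mul_const (a.natAbs : ℝ)
      rw [zero_mul] at h2
      refine h2.congr fun s => ?_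
      simp
    obtain ⟨s₀, hs₀⟩ := eventually_atTop.1 (hN.eventually_ge_atTop 3)
    refine squeeze_zero' (Eventually.of_forall fun s => ?_) (eventually_atTop.2 ⟨s₀, fun s hs => ?_⟩) h5
    · apply mul_nonneg
      · apply one_div_nonneg.2
        exact Real.log_natCast_nonneg _
      · exact sum_nonneg fun n _ => mul_nonneg (by positivity) (by linarith [(hsq (shift (n : ℤ) (seq f) a)).2])
    · have hlog : 0 < Real.log (N s : ℝ) := Real.log_pos (by exact_mod_cast (by have := hs₀ s hs; omega : 1 < N s))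
      apply mul_le_mul_of_nonneg_left _ (by positivity)
      calc ∑ n ∈ Icc 1 (N s), (1 / (n : ℝ)) * (1 - ((shift (n : ℤ) (seq f) a : Val) : ℝ) ^ 2)
          ≤ ∑ n ∈ Icc 1 (N s), (if n ≤ a.natAbs then (1 : ℝ) else 0) := by
            apply sum_le_sum
            intro n hn
            have hn1 := (mem_Icc.1 hn).1
            have hn0 : (1 : ℝ) ≤ n := by exact_mod_cast hn1
            split_ifs with h
            · have h6 : 1 / (n : ℝ) ≤ 1 := by rw [div_le_one (by linarith)]; exact hn0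
              have h7 := (hsq (shift (n : ℤ) (seq f) a)).1
              have h8 := (hsq (shift (n : ℤ) (seq f) a)).2
              calc (1 / (n : ℝ)) * (1 - ((shift (n : ℤ) (seq f) a : Val) : ℝ) ^ 2) ≤ 1 * 1 :=
                    mul_le_mul h6 (by linarith) (by linarith) zero_le_one
                _ = 1 := by norm_num
            · have e : shift (n : ℤ) (seq f) a = f (a + n).toNat := by
                unfold shift
                have : a + n = (((a + n).toNat : ℕ) : ℤ) := by omega
                conv_lhs => rw [this]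
                exact seq_nat f _ (by omega)
              rw [e, hv _ (hf.1 _ (by omega))]
              simp
        _ = ((((Icc 1 (N s)).filter (fun n => n ≤ a.natAbs)).card : ℕ) : ℝ) := by
            rw [← sum_filter, sum_const, nsmul_eq_mul, mul_one]
        _ ≤ a.natAbs := by
            have : ((Icc 1 (N s)).filter (fun n => n ≤ a.natAbs)).card ≤ (Icc 1 a.natAbs).card := by
              apply card_le_card
              intro n hn
              rw [mem_filter, mem_Icc] at hn
              rw [mem_Icc]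
              exact ⟨hn.1.1, hn.2⟩
            rw [Nat.card_Icc, Nat.add_sub_cancel] at this
            exact_mod_cast this
  have h5 : 1 - ∫ x : X, (x a : ℝ) ^ 2 ∂μ = 0 := tendsto_nhds_unique h3 h4
  have hint : Integrable (fun x : X => (x a : ℝ) ^ 2) μ := Integrable.of_bound hc.measurable.aestronglyMeasurable 1
    (Eventually.of_forall fun x => by
      rw [Real.norm_eq_abs, abs_of_nonneg (sq_nonneg _)]
      exact (hsq (x a)).2)
  have h6 : ∫ x : X, (1 - (x a : ℝ) ^ 2) ∂μ = 0 := by
    rw [integral_sub (integrable_const _) hint, integral_const, smul_eq_mul, mul_one, probReal_univ, h5]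
  have h7 := (integral_eq_zero_iff_of_nonneg (fun x : X => sub_nonneg.2 (hsq (x a)).2) ((integrable_const _).sub hint)).1 h6
  filter_upwards [h7] with x hx
  have hx' : 1 - (x a : ℝ) ^ 2 = 0 := hx
  rcases val_cases (x a) with h | h | h
  · exact Or.inr h
  · rw [h] at hx'; norm_num at hx'
  · exact Or.inl h

end Pool.Agent.L5helper13
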