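import Pool.Agent.N998.CT.Deg
import Pool.Agent.N998.CT.Pos

set_option autoImplicit false

/-! Codimension two: the discriminant is small compared with the degree. -/

namespace Pool.Agent.L5helper13.Ha

open Filter Topology Polynomial Pool.Agent.R920.CH Pool.Agent.R852.BC Pool.Agent.N998.CT

/-- the two parts of `c₁` are close -/
lemma close (n : ℕ) (α β z : ℤ) (hβ : 0 ≤ β) (hβα : β ≤ α) (hz : 1 ≤ z)
    (h : z * α ^ n ≤ β ^ (n + 2)) (h0 : z ≤ β ^ 2) :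
    1 ≤ β ∧ ((α : ℝ) - β) * (n - Real.log β) ≤ 2 * β * Real.log β := by
  have hβ1 : 1 ≤ β := by
    by_contra hcon
    have : β = 0 := by omega
    rw [this] at h0
    simp only [ne_eq, OfNat.ofNat_ne_zero, not_false_eq_true, zero_pow] at h0
    omega
  refine ⟨hβ1, ?_⟩
  have hb1 : (1 : ℝ) ≤ β := by exact_mod_cast hβ1
  have hb0 : (0 : ℝ) < β := by linarith
  have hab : (β : ℝ) ≤ α := by exact_mod_cast hβα
  set δ : ℝ := α / β - 1 with hδ
  have hδ0 : 0 ≤ δ := by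
    rw [hδ, sub_nonneg, le_div_iff₀ hb0]
    linarith
  have hα : (α : ℝ) = β * (1 + δ) := by
    rw [hδ]
    field_simp
    ring
  have h1 : (1 + δ) ^ n ≤ (β : ℝ) ^ 2 := by
    have h2 : (α : ℝ) ^ n ≤ (β : ℝ) ^ (n + 2) := by
      have h3 : α ^ n ≤ β ^ (n + 2) := by
        have h4 : 0 ≤ α ^ n := pow_nonneg (hβ.trans hβα) n
        nlinarith
      exact_mod_cast h3
    rw [hα, mul_pow, pow_add] at h2
    exact le_of_mul_le_mul_left h2 (by positivity)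
  have h2 : (n : ℝ) * Real.log (1 + δ) ≤ 2 * Real.log β := by
    have h3 := Real.log_le_log (by positivity) h1
    rw [Real.log_pow, Real.log_pow] at h3
    push_cast at h3
    exact h3
  have h3 := Real.le_log_one_add_of_nonneg hδ0
  have h4 : (n : ℝ) * (2 * δ / (δ + 2)) ≤ 2 * Real.log β :=
    (mul_le_mul_of_nonneg_left h3 (Nat.cast_nonneg n)).trans h2
  have h5 : (n : ℝ) * (2 * δ) ≤ 2 * Real.log β * (δ + 2) := by
    have h6 : (n : ℝ) * (2 * δ / (δ + 2)) * (δ + 2) = n * (2 * δ) := by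
      field_simp
    rw [← h6]
    exact mul_le_mul_of_nonneg_right h4 (by positivity)
  have h6 : (α : ℝ) - β = β * δ := by rw [hα]; ring
  rw [h6]
  nlinarith

/-- The necessary conditions on `c = c₁ = k + N + 1` and `d`. -/
structure Cond (N : ℕ) (c d : ℤ) : Prop where
  pos : 0 < d
  rr : RiemannRoch N (poly2 c d)
  positive : ∀ j : ℕ, j + 2 ≤ N → 0 ≤ seg (c - 2) (d - c + 1) j
  unstable : 4 * d ≤ c ^ 2 → ∃ a b : ℤ, a + b = c ∧ 0 < b ∧ b ≤ a ∧ (N : ℤ) ^ 2 / 4 ≤ d - a * b ∧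
    ∀ j : ℕ, j + 3 ≤ N → (a - 1) * seg (c - 2) (d - c + 1) j ≤ seg (c - 2) (d - c + 1) (j + 1)

lemma ev_log (K : ℝ) : ∀ᶠ N : ℕ in atTop, K * Real.log N ≤ N := by
  have h1 : Tendsto (fun N : ℕ => Real.log N / (N : ℝ)) atTop (𝓝 0) := by
    have := Real.isLittleO_log_id_atTop.tendsto_div_nhds_zero
    exact this.comp tendsto_natCast_atTop_atTop
  rcases le_or_gt K 0 with hK | hK
  · filter_upwards [eventually_ge_atTop 1] with N hN
    have h2 : 0 ≤ Real.log (N : ℝ) := Real.log_natCast_nonneg N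
    have h3 : K * Real.log N ≤ 0 := mul_nonpos_of_nonpos_of_nonneg hK h2
    have h4 : (0 : ℝ) ≤ N := Nat.cast_nonneg N
    linarith
  · filter_upwards [h1.eventually_lt_const (show (0 : ℝ) < 1 / K by positivity),
      eventually_ge_atTop 1] with N hN hN1
    have hN0 : (0 : ℝ) < N := by exact_mod_cast hN1
    rw [div_lt_div_iff₀ hN0 hK] at hN
    linarith

/-- the size of the discriminant -/
theorem disc_pos (A : ℝ) : ∀ᶠ N : ℕ in atTop, ∀ c d a b : ℤ, 0 < d → (d : ℝ) ≤ (N : ℝ) ^ A →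
    a + b = c → 0 < b → b ≤ a → (N : ℤ) ^ 2 / 4 ≤ d - a * b →
    (∀ j : ℕ, j + 3 ≤ N → (a - 1) * seg (c - 2) (d - c + 1) j ≤ seg (c - 2) (d - c + 1) (j + 1)) →
    ((a : ℝ) - b) * N ≤ 3 / 2 * (√d * Real.log d) ∧
      ((c : ℝ) ^ 2 - 4 * d) * (N : ℝ) ^ 2 ≤ 9 / 4 * (d * Real.log d ^ 2) := by
  filter_upwards [ev_log (3 * A), eventually_ge_atTop 30] with N hlog hN c d a b hd hdA hab hb hba hz h
  have hN30 : (30 : ℝ) ≤ N := by exact_mod_cast hN
  have hN0 : (0 : ℝ) < N := by linarith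
  obtain ⟨n, rfl⟩ : ∃ n, N = n + 4 := ⟨N - 4, by omega⟩
  have hz1 : 1 ≤ d - a * b := by
    refine le_trans ?_ hz
    have : (30 : ℤ) ≤ ((n + 4 : ℕ) : ℤ) := by exact_mod_cast hN
    have h2 : (30 : ℤ) * 30 ≤ ((n + 4 : ℕ) : ℤ) ^ 2 := by nlinarith
    omega
  have h1 := ineq (a - 1) (b - 1) (d - a * b) (c - 2) (d - c + 1) (by rw [← hab]; ring)
    (by rw [← hab]; ring) (by omega) (by omega) (by omega) (n + 2) (fun j hj => h j (by omega))
  obtain ⟨hβ1, hcl⟩ := close n (a - 1) (b - 1) (d - a * b) (by omega) (by omega) hz1 (h1 n le_rfl)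
    (by have := h1 0 (by omega); simpa using this)
  have hb2 : (2 : ℤ) ≤ b := by omega
  -- `β² ≤ d`
  have hβd : ((b - 1 : ℤ) : ℝ) ^ 2 ≤ d := by
    have h2 : (b - 1) ^ 2 ≤ d := by nlinarith
    exact_mod_cast h2
  have hβ0 : (1 : ℝ) ≤ ((b - 1 : ℤ) : ℝ) := by exact_mod_cast hβ1
  have hd1 : (1 : ℝ) ≤ d := by exact_mod_cast hd
  have hlogβ : Real.log ((b - 1 : ℤ) : ℝ) ≤ 1 / 2 * Real.log d := by
    have h2 := Real.log_le_log (by positivity) hβd
    rw [Real.log_pow] at h2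
    push_cast at h2 ⊢
    linarith
  have hlogβ0 : 0 ≤ Real.log ((b - 1 : ℤ) : ℝ) := Real.log_nonneg hβ0
  have hlogd0 : 0 ≤ Real.log (d : ℝ) := Real.log_nonneg hd1
  have hlogd : Real.log d ≤ A * Real.log ((n + 4 : ℕ) : ℝ) := by
    have h2 := Real.log_le_log (by linarith) hdA
    rwa [Real.log_rpow hN0] at h2
  have hβsq : ((b - 1 : ℤ) : ℝ) ≤ √d := by
    apply Real.le_sqrt_of_sq_le
    exact hβd
  have hrhs : 2 * ((b - 1 : ℤ) : ℝ) * Real.log ((b - 1 : ℤ) : ℝ) ≤ √d * Real.log d := by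
    have h2 : ((b - 1 : ℤ) : ℝ) * Real.log ((b - 1 : ℤ) : ℝ) ≤ √d * (1 / 2 * Real.log d) :=
      mul_le_mul hβsq hlogβ hlogβ0 (Real.sqrt_nonneg _)
    linarith
  have hdiff : ((a - 1 : ℤ) : ℝ) - ((b - 1 : ℤ) : ℝ) = (a : ℝ) - b := by push_cast; ring
  rw [hdiff] at hcl
  have hab0 : (0 : ℝ) ≤ (a : ℝ) - b := by
    have : (b : ℝ) ≤ a := by exact_mod_cast hba
    linarith
  -- `n - log β ≥ (2 / 3) N`
  have hn : 2 / 3 * (((n + 4 : ℕ) : ℝ)) ≤ (n : ℝ) - Real.log ((b - 1 : ℤ) : ℝ) := by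
    have h2 : (n : ℝ) = ((n + 4 : ℕ) : ℝ) - 4 := by push_cast; ring
    have h3 : 3 * (A * Real.log ((n + 4 : ℕ) : ℝ)) ≤ ((n + 4 : ℕ) : ℝ) := by linarith
    rw [h2]
    linarith
  have h2 : ((a : ℝ) - b) * (2 / 3 * (((n + 4 : ℕ) : ℝ))) ≤ √d * Real.log d :=
    (mul_le_mul_of_nonneg_left hn hab0).trans (hcl.trans hrhs)
  have h3 : ((a : ℝ) - b) * ((n + 4 : ℕ) : ℝ) ≤ 3 / 2 * (√d * Real.log d) := by linarith
  refine ⟨h3, ?_⟩
  have h4 : (((a : ℝ) - b) * ((n + 4 : ℕ) : ℝ)) ^ 2 ≤ (3 / 2 * (√d * Real.log d)) ^ 2 :=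
    pow_le_pow_left₀ (by positivity) h3 2
  have h5 : (√(d : ℝ)) ^ 2 = d := Real.sq_sqrt (by linarith)
  have h6 : (3 / 2 * (√d * Real.log d)) ^ 2 = 9 / 4 * (d * Real.log d ^ 2) := by
    rw [mul_pow, mul_pow, h5]; ring
  rw [h6] at h4
  refine le_trans ?_ h4
  rw [mul_pow]
  apply mul_le_mul_of_nonneg_right _ (by positivity)
  have h7 : (c : ℝ) = a + b := by exact_mod_cast hab.symm
  have h8 : (a : ℝ) * b ≤ d := by
    have : a * b ≤ d := by omega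
    exact_mod_cast this
  rw [h7]
  nlinarith

lemma ev_ge' (c η : ℝ) (hη : 0 < η) : ∀ᶠ N : ℕ in atTop, c ≤ (N : ℝ) ^ η :=
  tendsto_natCast_atTop_atTop.eventually ((tendsto_rpow_atTop hη).eventually_ge_atTop c)

lemma ev_log2 (K η : ℝ) (hη : 0 < η) : ∀ᶠ N : ℕ in atTop, K * Real.log N ^ 2 ≤ (N : ℝ) ^ η := by
  have h1 : Tendsto (fun x : ℝ => Real.log x ^ 2 / x ^ η) atTop (𝓝 0) := by
    have h2 := (isLittleO_log_rpow_rpow_atTop 2 hη).tendsto_div_nhds_zero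
    refine h2.congr' ?_
    filter_upwards with x
    rw [show (2 : ℝ) = ((2 : ℕ) : ℝ) by norm_num, Real.rpow_natCast]
  have h2 : Tendsto (fun N : ℕ => Real.log N ^ 2 / (N : ℝ) ^ η) atTop (𝓝 0) :=
    h1.comp tendsto_natCast_atTop_atTop
  filter_upwards [h2.eventually_lt_const (show (0 : ℝ) < 1 / (|K| + 1) by positivity),
    eventually_ge_atTop 1] with N hN hN1
  have hN0 : (0 : ℝ) < N := by exact_mod_cast hN1
  have h3 : (0 : ℝ) < (N : ℝ) ^ η := Real.rpow_pos_of_pos hN0 _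
  have hK : 0 ≤ |K| := abs_nonneg K
  rw [div_lt_div_iff₀ h3 (by linarith)] at hN
  have h4 := le_abs_self K
  have h5 : 0 ≤ Real.log (N : ℝ) ^ 2 := sq_nonneg _
  nlinarith

/-- **The size of the discriminant.** -/
theorem disc (A : ℝ) : ∀ᶠ N : ℕ in atTop, ∀ c d : ℤ, Cond N c d → (d : ℝ) ≤ (N : ℝ) ^ A →
    2 ≤ c ∧ |(c : ℝ) ^ 2 - 4 * d| * (N : ℝ) ^ 2 ≤ 9 / 4 * (d * Real.log d ^ 2) := by
  filter_upwards [disc_pos A, stable 1 one_pos, ev_ge' 3000 1 one_pos] with N h1 h2 hN c d hC hdA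
  rw [Real.rpow_one] at hN
  have hN3 : 3 ≤ N := by
    have : (3 : ℝ) ≤ N := by linarith
    exact_mod_cast this
  have hc : 2 ≤ c := by
    have := hC.positive 1 (by omega)
    simp only [seg] at this
    linarith
  refine ⟨hc, ?_⟩
  have hd1 : (1 : ℝ) ≤ d := by exact_mod_cast hC.pos
  rcases le_or_gt (4 * d) (c ^ 2) with h | h
  · obtain ⟨a, b, hab, hb, hba, hz, hs⟩ := hC.unstable h
    have hr : 4 * (d : ℝ) ≤ (c : ℝ) ^ 2 := by exact_mod_cast h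
    rw [abs_of_nonneg (by linarith)]
    exact (h1 c d a b hC.pos hdA hab hb hba hz hs).2
  · obtain ⟨g1, -, g3⟩ := h2 c d hC.positive hC.rr h
    have hcd : (c : ℝ) ^ 2 ≤ 4 * d := by exact_mod_cast h.le
    have hlog : 8 ≤ Real.log d := by
      have h3 : (N : ℝ) ≤ d := by
        refine le_trans ?_ g1
        conv_lhs => rw [← Real.rpow_one (N : ℝ)]
        apply Real.rpow_le_rpow_of_exponent_le (by linarith)
        have := exp_half_bounds.1
        linarith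
      have h4 : Real.exp 8 ≤ d := by
        have h5 : Real.exp 8 = Real.exp 1 ^ 8 := by
          rw [← Real.exp_nat_mul]; norm_num
        rw [h5]
        have h6 := Real.exp_one_lt_d9
        have h7 : Real.exp 1 ^ 8 ≤ 2.7182818286 ^ 8 :=
          pow_le_pow_left₀ (Real.exp_pos 1).le h6.le 8
        have h8 : (2.7182818286 : ℝ) ^ 8 ≤ 3000 := by norm_num
        linarith
      rw [Real.le_log_iff_exp_le (by linarith)]
      exact h4
    have h5 : (N : ℝ) ^ 2 ≤ 2 * ((N : ℝ) - 1) ^ 2 := by nlinarith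
    have h6 : 0 ≤ |(c : ℝ) ^ 2 - 4 * d| := abs_nonneg _
    have h7 : |(c : ℝ) ^ 2 - 4 * d| * (N : ℝ) ^ 2 ≤ 128 * d := by
      calc |(c : ℝ) ^ 2 - 4 * d| * (N : ℝ) ^ 2 ≤ |(c : ℝ) ^ 2 - 4 * d| * (2 * ((N : ℝ) - 1) ^ 2) := by
            gcongr
        _ = 2 * (|(c : ℝ) ^ 2 - 4 * d| * ((N : ℝ) - 1) ^ 2) := by ring
        _ ≤ 2 * (16 * (c : ℝ) ^ 2) := by gcongr
        _ ≤ 128 * d := by linarith
    nlinarith [mul_le_mul_of_nonneg_left (show (64 : ℝ) ≤ Real.log d ^ 2 by nlinarith)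
      (show (0 : ℝ) ≤ d by linarith)]

/-- **The kernel of the discriminant is large unless the discriminant is a square.** -/
theorem kernel (A ε : ℝ) (hε : 0 < ε) : ∀ᶠ N : ℕ in atTop, ∀ c d : ℤ, Cond N c d → (d : ℝ) ≤ (N : ℝ) ^ A →
    ¬ IsSquare (c ^ 2 - 4 * d) → ∀ f s : ℤ, c ^ 2 - 4 * d = f * s ^ 2 →
      (N : ℝ) ^ (4 * Real.exp (1 / 2) - ε) < (|f| : ℤ) := by
  filter_upwards [rank_two A ε hε, disc A, ev_log2 (9 / 4 * A ^ 2) 1 one_pos, eventually_ge_atTop 2]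
    with N h1 h2 h3 hN c d hC hdA hsq f s hfs
  by_contra hcon
  push Not at hcon
  apply hsq
  obtain ⟨hc, hD⟩ := h2 c d hC hdA
  have hN2 : (2 : ℝ) ≤ N := by exact_mod_cast hN
  have hN0 : (0 : ℝ) < N := by linarith
  have hd1 : (1 : ℝ) ≤ d := by exact_mod_cast hC.pos
  have hlogd0 : 0 ≤ Real.log (d : ℝ) := Real.log_nonneg hd1
  have hlogd : Real.log d ≤ A * Real.log N := by
    have h2 := Real.log_le_log (by linarith) hdA
    rwa [Real.log_rpow hN0] at h2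
  have h4 : |(c : ℝ) ^ 2 - 4 * d| ≤ (N : ℝ) ^ A := by
    refine le_trans ?_ hdA
    have h5 : 9 / 4 * (d * Real.log d ^ 2) ≤ d * (N : ℝ) ^ 2 := by
      have h6 : Real.log d ^ 2 ≤ (A * Real.log N) ^ 2 := pow_le_pow_left₀ hlogd0 hlogd 2
      rw [Real.rpow_one] at h3
      have h7 : 9 / 4 * Real.log d ^ 2 ≤ N := by
        rw [mul_pow] at h6
        nlinarith
      have h8 : (N : ℝ) ≤ (N : ℝ) ^ 2 := by nlinarith
      nlinarith
    exact le_of_mul_le_mul_right (hD.trans h5) (by positivity)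
  obtain ⟨a, b, hab, hab2⟩ := h1 c d f s hC.rr hfs (by push_cast; exact h4) hcon
  exact ⟨a - b, by rw [hab, hab2]; ring⟩

/-- the shape in the case of a square discriminant -/
lemma square_case {N : ℕ} (hN : 1 ≤ N) {c d : ℤ} (hd : 0 < d) (hc : 2 ≤ c)
    (hD : |(c : ℝ) ^ 2 - 4 * d| * (N : ℝ) ^ 2 ≤ 9 / 4 * (d * Real.log d ^ 2))
    (hsq : IsSquare (c ^ 2 - 4 * d)) :
    ∃ a b : ℤ, 0 < b ∧ b ≤ a ∧ c = a + b ∧ d = a * b ∧ ((a : ℝ) - b) * N ≤ 3 / 2 * (√d * Real.log d) := by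
  obtain ⟨r, hr⟩ := hsq
  -- parity
  obtain ⟨s, hs0, hs⟩ : ∃ s : ℤ, 0 ≤ s ∧ c ^ 2 - 4 * d = s * s := ⟨|r|, abs_nonneg r, by rw [hr]; exact (abs_mul_abs_self r).symm⟩
  have hpar : Even (c + s) := by
    have h1 : Even (c ^ 2 - s * s) := ⟨2 * d, by linarith⟩
    have h2 : c ^ 2 - s * s = (c + s) * (c - s) := by ring
    rw [h2, Int.even_mul] at h1
    rcases h1 with h | h
    · exact h
    · rw [Int.even_sub] at h
      rw [Int.even_add]
      exact h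
  obtain ⟨a, ha⟩ := hpar
  have hb : c - s = (c - a) + (c - a) := by linarith
  have hprod : d = a * (c - a) := by
    have h1 : (c + s) * (c - s) = 4 * d := by linear_combination hs
    rw [ha, hb] at h1
    linarith
  have hba : c - a ≤ a := by linarith
  have ha0 : 0 < a := by linarith
  have hb0 : 0 < c - a := by
    by_contra hcon
    push Not at hcon
    nlinarith
  refine ⟨a, c - a, hb0, hba, by ring, hprod, ?_⟩
  have hd1 : (1 : ℝ) ≤ d := by exact_mod_cast hd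
  have h1 : (((a : ℝ) - ((c - a : ℤ) : ℝ)) * N) ^ 2 ≤ (3 / 2 * (√d * Real.log d)) ^ 2 := by
    have h2 : (a : ℝ) - ((c - a : ℤ) : ℝ) = s := by
      have : a - (c - a) = s := by linarith
      exact_mod_cast this
    have h3 : |(c : ℝ) ^ 2 - 4 * d| = (s : ℝ) ^ 2 := by
      have h4 : (c : ℝ) ^ 2 - 4 * d = (s : ℝ) * s := by exact_mod_cast hs
      rw [h4, abs_mul_self]; ring
    rw [h3] at hD
    rw [h2, mul_pow, mul_pow, mul_pow, Real.sq_sqrt (by linarith)]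
    linarith
  refine le_of_sq_le_sq' ?_ h1
  have := Real.log_nonneg hd1
  positivity
where
  le_of_sq_le_sq' {x y : ℝ} (hy : 0 ≤ y) (h : x ^ 2 ≤ y ^ 2) : x ≤ y := by
    by_contra hcon
    push Not at hcon
    nlinarith

end Pool.Agent.L5helper13.Ha
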