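import Pool.Agent.L5helper13.Hart
import Pool.Agent.R503.HD.Final

set_option autoImplicit false

/-! Codimension two: almost all degrees. -/

namespace Pool.Agent.L5helper13.Ha

open Finset Filter Topology Pool.Agent.R920.CH Pool.Agent.R852.BC Pool.Agent.N998.CT Pool.Agent.R503.PS

lemma ev_logp (K : ℝ) (m : ℕ) (η : ℝ) (hη : 0 < η) : ∀ᶠ N : ℕ in atTop, K * Real.log N ^ m ≤ (N : ℝ) ^ η := by
  have h1 : Tendsto (fun x : ℝ => Real.log x ^ m / x ^ η) atTop (𝓝 0) := by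
    have h2 := (isLittleO_log_rpow_rpow_atTop (m : ℝ) hη).tendsto_div_nhds_zero
    refine h2.congr' ?_
    filter_upwards with x
    rw [Real.rpow_natCast]
  have h2 : Tendsto (fun N : ℕ => Real.log N ^ m / (N : ℝ) ^ η) atTop (𝓝 0) :=
    h1.comp tendsto_natCast_atTop_atTop
  filter_upwards [h2.eventually_lt_const (show (0 : ℝ) < 1 / (|K| + 1) by positivity),
    eventually_ge_atTop 1] with N hN hN1
  have hN0 : (0 : ℝ) < N := by exact_mod_cast hN1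
  have h3 : (0 : ℝ) < (N : ℝ) ^ η := Real.rpow_pos_of_pos hN0 _
  have hK : 0 ≤ |K| := abs_nonneg K
  rw [div_lt_div_iff₀ h3 (by linarith)] at hN
  have h4 := le_abs_self K
  have h5 : 0 ≤ Real.log (N : ℝ) ^ m := pow_nonneg (Real.log_natCast_nonneg N) m
  nlinarith

lemma disc_le (A : ℝ) : ∀ᶠ N : ℕ in atTop, ∀ c d : ℤ, Cond N c d → (d : ℝ) ≤ (N : ℝ) ^ A →
    |c ^ 2 - 4 * d| ≤ d := by
  filter_upwards [disc A, ev_log2 (9 / 4 * A ^ 2) 1 one_pos, eventually_ge_atTop 2]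
    with N h2 h3 hN c d hC hdA
  obtain ⟨hc, hD⟩ := h2 c d hC hdA
  have hN2 : (2 : ℝ) ≤ N := by exact_mod_cast hN
  have hN0 : (0 : ℝ) < N := by linarith
  have hd1 : (1 : ℝ) ≤ d := by exact_mod_cast hC.pos
  have hlogd0 : 0 ≤ Real.log (d : ℝ) := Real.log_nonneg hd1
  have hlogd : Real.log d ≤ A * Real.log N := by
    have h2 := Real.log_le_log (by linarith) hdA
    rwa [Real.log_rpow hN0] at h2
  have h5 : 9 / 4 * (d * Real.log d ^ 2) ≤ d * (N : ℝ) ^ 2 := by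
    have h6 : Real.log d ^ 2 ≤ (A * Real.log N) ^ 2 := pow_le_pow_left₀ hlogd0 hlogd 2
    rw [Real.rpow_one] at h3
    have h7 : 9 / 4 * Real.log d ^ 2 ≤ N := by
      rw [mul_pow] at h6
      nlinarith
    have h8 : (N : ℝ) ≤ (N : ℝ) ^ 2 := by nlinarith
    nlinarith
  have h6 : |(c : ℝ) ^ 2 - 4 * (d : ℝ)| ≤ (d : ℝ) := le_of_mul_le_mul_right (hD.trans h5) (by positivity)
  exact_mod_cast h6

lemma cond_sq {N : ℕ} {c d : ℤ} (h : Cond N c d) : Sq N (c ^ 2 - 4 * d) :=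
  fun p hp hp2 hpn => square_mod (by have := h.rr; exact this) p hp hp2 hpn

/-- **The nonsquare discriminants.** -/
theorem pairs_nonsq (A : ℕ) (ε : ℝ) (hε : 0 < ε) : ∀ᶠ N : ℕ in atTop, ∀ X : ℕ, X ≤ N ^ A →
    ∀ S : Finset (ℤ × ℤ), (∀ s ∈ S, Cond N s.1 s.2 ∧ s.2 ≤ X ∧ ¬ IsSquare (s.1 ^ 2 - 4 * s.2)) →
      (S.card : ℝ) * (N : ℝ) ^ (1 + 2 * Real.exp (1 / 2) - ε) ≤ X := by
  classical
  set K : ℕ := 3 * (2 * A + 1) + 1 with hK
  have hpred : Tendsto (fun N : ℕ => N - 1) atTop atTop := tendsto_sub_atTop_nat 1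
  filter_upwards [hpred.eventually (DD_card A 1), hpred.eventually (struct A 1),
    hpred.eventually (eventually_ge_atTop 2), disc (A : ℝ), disc_le (A : ℝ),
    kernel (A : ℝ) ε hε, ev_logp (36 * A) (K + 1) (ε / 2) (by positivity)]
    with N hDD hst hx2 hdisc hdl hker hlp X hX S hS
  obtain ⟨x, rfl⟩ : ∃ x, N = x + 1 := ⟨N - 1, by omega⟩
  rw [Nat.add_sub_cancel] at hDD hst hx2
  rcases S.eq_empty_or_nonempty with hSe | hSne
  · rw [hSe]; simp
  have hX1 : 1 ≤ X := by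
    obtain ⟨s, hs⟩ := hSne
    have h1 := (hS s hs).1.pos
    have h2 := (hS s hs).2.1
    have : (1 : ℤ) ≤ X := by linarith
    exact_mod_cast this
  set n : ℝ := ((x + 1 : ℕ) : ℝ) with hn
  have hn3 : (3 : ℝ) ≤ n := by rw [hn]; exact_mod_cast (by omega : 3 ≤ x + 1)
  have hn0 : 0 < n := by linarith
  set l : ℝ := Real.log n with hl
  have hl1 : 1 ≤ l := by
    rw [hl, Real.le_log_iff_exp_le hn0]
    exact (Real.exp_one_lt_d9.le.trans (by norm_num)).trans hn3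
  have hXr : (1 : ℝ) ≤ X := by exact_mod_cast hX1
  have hXA : (X : ℝ) ≤ n ^ (A : ℝ) := by
    rw [Real.rpow_natCast, hn]
    exact_mod_cast hX
  -- the parameters
  set Fr : ℝ := 3 * √X * (A * l) / n ^ (1 + 2 * Real.exp (1 / 2) - ε / 2) with hFr
  have hFr0 : 0 ≤ Fr := by positivity
  set T : Finset (((ℤ × ℕ) × ℕ) × ℕ) :=
    ((({1, -1, 2, -2} : Finset ℤ) ×ˢ DD x A 1) ×ˢ Icc 1 ⌊Fr⌋₊) ×ˢ Icc 1 ⌊3 * √(X : ℝ)⌋₊ with hT
  have hsub : S ⊆ T.image fun t => ((t.2 : ℤ), ((t.2 : ℤ) ^ 2 - t.1.1.1 * t.1.1.2 * (t.1.2 : ℤ) ^ 2) / 4) := by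
    rintro ⟨c, d⟩ hs
    obtain ⟨hC, hdX, hnsq⟩ := hS _ hs
    simp only at hC hdX hnsq
    have hdA : (d : ℝ) ≤ n ^ (A : ℝ) := by
      refine le_trans ?_ hXA
      exact_mod_cast hdX
    obtain ⟨hc2, hD⟩ := hdisc c d hC hdA
    have hDd := hdl c d hC hdA
    have hDn : (c ^ 2 - 4 * d).natAbs ≤ (x + 1) ^ A := by
      have h1 : ((c ^ 2 - 4 * d).natAbs : ℤ) ≤ ((x + 1) ^ A : ℕ) := by
        rw [Int.natCast_natAbs]
        refine (hDd.trans hdX).trans ?_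
        exact_mod_cast hX
      exact_mod_cast h1
    obtain ⟨u, δ, f, hu, hDe, hodd, hsqf, hf0, hfew, hld⟩ := hst _ hnsq hDn (cond_sq hC)
    have hδ0 : 0 < δ := Nat.pos_of_ne_zero hsqf.ne_zero
    have hδr : (0 : ℝ) < δ := by exact_mod_cast hδ0
    have hk := hker c d hC hdA hnsq (u * δ) f hDe
    have hua : 1 ≤ |(u : ℝ)| ∧ |(u : ℝ)| ≤ 2 := by
      rcases hu with rfl | rfl | rfl | rfl <;> norm_num
    have hδbig : n ^ (4 * Real.exp (1 / 2) - ε) < 2 * δ := by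
      refine hk.trans_le ?_
      push_cast
      rw [abs_mul, abs_of_pos hδr]
      nlinarith [hua.2]
    -- `c`
    have hdr : (1 : ℝ) ≤ d := by exact_mod_cast hC.pos
    have hdXr : (d : ℝ) ≤ X := by exact_mod_cast hdX
    have hDdr : |(c : ℝ) ^ 2 - 4 * (d : ℝ)| ≤ (d : ℝ) := by exact_mod_cast hDd
    have hcr : (2 : ℝ) ≤ c := by exact_mod_cast hc2
    obtain ⟨m, rfl⟩ : ∃ m : ℕ, c = m := ⟨c.toNat, by rw [Int.toNat_of_nonneg (by linarith)]⟩
    have hm : m ≤ ⌊3 * √(X : ℝ)⌋₊ := by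
      apply Nat.le_floor
      have h1 := (abs_le.1 hDdr).2
      push_cast at h1
      have h2 : (m : ℝ) ^ 2 ≤ (3 * √(X : ℝ)) ^ 2 := by
        rw [mul_pow, Real.sq_sqrt (by linarith)]
        linarith
      exact (pow_le_pow_iff_left₀ (Nat.cast_nonneg _) (by positivity) two_ne_zero).mp h2
    -- `f`
    have hlogd : Real.log d ≤ A * l := by
      have h2 := Real.log_le_log (by linarith) hdA
      rwa [Real.log_rpow hn0] at h2
    have hlogd0 : 0 ≤ Real.log (d : ℝ) := Real.log_nonneg hdr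
    have hf : (f : ℝ) ≤ Fr := by
      have hf0r : (0 : ℝ) ≤ f := Nat.cast_nonneg _
      have h1 : (δ : ℝ) * f ^ 2 ≤ |((m : ℤ) : ℝ) ^ 2 - 4 * d| := by
        have h2 : ((m : ℤ) : ℝ) ^ 2 - 4 * d = u * δ * (f : ℝ) ^ 2 := by exact_mod_cast hDe
        rw [h2, abs_mul, abs_mul, abs_of_pos hδr, abs_of_nonneg (sq_nonneg (f : ℝ))]
        have : 0 ≤ (δ : ℝ) * f ^ 2 := by positivity
        nlinarith [hua.1]
      have h2 : (δ : ℝ) * f ^ 2 * n ^ 2 ≤ 9 / 4 * (X * (A * l) ^ 2) := by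
        calc (δ : ℝ) * f ^ 2 * n ^ 2 ≤ |((m : ℤ) : ℝ) ^ 2 - 4 * d| * n ^ 2 := by gcongr
          _ ≤ 9 / 4 * (d * Real.log d ^ 2) := hD
          _ ≤ _ := by gcongr
      have h3 : n ^ (4 * Real.exp (1 / 2) - ε) * f ^ 2 * n ^ 2 ≤ 9 / 2 * (X * (A * l) ^ 2) := by
        calc n ^ (4 * Real.exp (1 / 2) - ε) * f ^ 2 * n ^ 2 ≤ (2 * δ) * f ^ 2 * n ^ 2 := by gcongr
          _ = 2 * ((δ : ℝ) * f ^ 2 * n ^ 2) := by ring
          _ ≤ _ := by linarith
      rw [hFr, le_div_iff₀ (by positivity)]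
      have h4 : ((f : ℝ) * n ^ (1 + 2 * Real.exp (1 / 2) - ε / 2)) ^ 2 ≤ (3 * √X * (A * l)) ^ 2 := by
        have e1 : ((f : ℝ) * n ^ (1 + 2 * Real.exp (1 / 2) - ε / 2)) ^ 2 =
            n ^ (4 * Real.exp (1 / 2) - ε) * f ^ 2 * n ^ 2 := by
          rw [mul_pow, ← Real.rpow_natCast (n ^ _) 2, ← Real.rpow_mul hn0.le]
          have e2 : (1 + 2 * Real.exp (1 / 2) - ε / 2) * ((2 : ℕ) : ℝ) =
              (4 * Real.exp (1 / 2) - ε) + ((2 : ℕ) : ℝ) := by push_cast; ring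
          rw [e2, Real.rpow_add hn0, Real.rpow_natCast]
          ring
        rw [e1, mul_pow, mul_pow, Real.sq_sqrt (by linarith)]
        have : 0 ≤ (X : ℝ) * (A * l) ^ 2 := by positivity
        nlinarith
      exact (pow_le_pow_iff_left₀ (by positivity) (by positivity) two_ne_zero).mp h4
    have hδle : δ ≤ (x + 1) ^ A := by
      refine le_trans ?_ hDn
      rw [hDe, Int.natAbs_mul, Int.natAbs_mul, Int.natAbs_pow, Int.natAbs_natCast, Int.natAbs_natCast]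
      have hun : 1 ≤ u.natAbs := by rcases hu with rfl | rfl | rfl | rfl <;> decide
      calc δ = 1 * δ * 1 := by ring
        _ ≤ u.natAbs * δ * f ^ 2 :=
          Nat.mul_le_mul (Nat.mul_le_mul_right _ hun) (Nat.one_le_pow _ _ hf0)
    rw [mem_image]
    refine ⟨(((u, δ), f), m), ?_, ?_⟩
    · rw [hT, mem_product, mem_product, mem_product, mem_Icc, mem_Icc]
      refine ⟨⟨⟨by simpa using hu, ?_⟩, hf0, Nat.le_floor hf⟩, ?_, hm⟩
      · unfold DD
        rw [mem_filter, mem_range]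
        exact ⟨Nat.lt_succ_of_le hδle, hodd, hsqf, hfew, hld⟩
      · have : (2 : ℤ) ≤ m := hc2
        omega
    · simp only [Prod.mk.injEq, true_and]
      have : ((m : ℤ)) ^ 2 - u * δ * (f : ℤ) ^ 2 = d * 4 := by linarith
      rw [this]
      exact Int.mul_ediv_cancel _ (by norm_num)
  have hcard : (S.card : ℝ) ≤ 4 * l ^ K * Fr * (3 * √X) := by
    have h1 : S.card ≤ 4 * (DD x A 1).card * ⌊Fr⌋₊ * ⌊3 * √(X : ℝ)⌋₊ := by
      refine (card_le_card hsub).trans (card_image_le.trans (le_of_eq ?_))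
      rw [hT, card_product, card_product, card_product, Nat.card_Icc, Nat.card_Icc]
      have : ({1, -1, 2, -2} : Finset ℤ).card = 4 := by decide
      rw [this, Nat.add_sub_cancel, Nat.add_sub_cancel]
    have h2 : (S.card : ℝ) ≤ 4 * ((DD x A 1).card : ℝ) * (⌊Fr⌋₊ : ℝ) * (⌊3 * √(X : ℝ)⌋₊ : ℝ) := by
      exact_mod_cast h1
    have hlx : Real.log (x : ℝ) ≤ l := by
      rw [hl]
      apply Real.log_le_log
      · exact_mod_cast (by omega : 0 < x)
      · rw [hn]; push_cast; linarith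
    have hlx0 : 0 ≤ Real.log (x : ℝ) := Real.log_natCast_nonneg x
    have h3 : ((DD x A 1).card : ℝ) ≤ l ^ K := hDD.trans (pow_le_pow_left₀ hlx0 hlx K)
    calc (S.card : ℝ) ≤ _ := h2
      _ ≤ 4 * l ^ K * Fr * (3 * √X) := by
        gcongr
        · exact Nat.floor_le hFr0
        · exact Nat.floor_le (by positivity)
  have hP : (0 : ℝ) < n ^ (1 + 2 * Real.exp (1 / 2) - ε) := by positivity
  calc (S.card : ℝ) * n ^ (1 + 2 * Real.exp (1 / 2) - ε)
      ≤ 4 * l ^ K * Fr * (3 * √X) * n ^ (1 + 2 * Real.exp (1 / 2) - ε) := by gcongr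
    _ = (36 * A * l ^ (K + 1)) * X * (n ^ (1 + 2 * Real.exp (1 / 2) - ε) /
          n ^ (1 + 2 * Real.exp (1 / 2) - ε / 2)) := by
        have e1 : √(X : ℝ) * √X = X := Real.mul_self_sqrt (by linarith)
        have e2 : ∀ P Q w : ℝ, 4 * l ^ K * (3 * w * (A * l) / P) * (3 * w) * Q =
            (36 * A * l ^ (K + 1)) * (w * w) * (Q / P) := fun P Q w => by ring
        rw [hFr, e2, e1]
    _ = (36 * A * l ^ (K + 1)) * X * n ^ (-(ε / 2)) := by
        rw [← Real.rpow_sub hn0]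
        congr 2
        ring
    _ ≤ n ^ (ε / 2) * X * n ^ (-(ε / 2)) := by gcongr
    _ = X := by
        rw [mul_right_comm, ← Real.rpow_add hn0, add_neg_cancel, Real.rpow_zero, one_mul]

end Pool.Agent.L5helper13.Ha
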