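import Pool.Agent.L5helper13.Hart2

set_option autoImplicit false

/-! Codimension two: almost all degrees, second part. -/

namespace Pool.Agent.L5helper13.Ha

open Finset Filter Topology Pool.Agent.R920.CH Pool.Agent.R852.BC Pool.Agent.N998.CT Pool.Agent.R503.PS

/-- the larger factor -/
lemma factor_le {N : ℕ} {a b d : ℤ} (hN0 : (0 : ℝ) < N) (hb : 0 < b) (hba : b ≤ a) (hab : d = a * b)
    (hcl : ((a : ℝ) - b) * N ≤ 3 / 2 * (√d * Real.log d)) (hl : 3 / 2 * Real.log d ≤ N) :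
    (a : ℝ) ≤ 2 * √d := by
  have h5 : ((a : ℝ) - b) * N ≤ √d * N := by
    refine hcl.trans ?_
    have h7 := mul_le_mul_of_nonneg_left hl (Real.sqrt_nonneg (d : ℝ))
    linarith
  have h6 : (a : ℝ) - b ≤ √d := le_of_mul_le_mul_right h5 hN0
  have h7 : (b : ℝ) ≤ √d := by
    apply Real.le_sqrt_of_sq_le
    have h8 : b ^ 2 ≤ d := by rw [hab]; nlinarith
    exact_mod_cast h8
  linarith

/-- degrees with a large prime factor -/
theorem large_factor (A : ℕ) (ε : ℝ) (hε : 0 < ε) : ∀ᶠ N : ℕ in atTop, ∀ X : ℕ, X ≤ N ^ A →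
    ∀ S : Finset ℕ, (∀ d ∈ S, 1 ≤ d ∧ d ≤ X ∧ (∃ c : ℤ, Cond N c d) ∧
      ∃ p : ℕ, p.Prime ∧ p ∣ d ∧ 2 * √(d : ℝ) < p) →
      (S.card : ℝ) * (N : ℝ) ^ (1 + 2 * Real.exp (1 / 2) - ε) ≤ X := by
  classical
  filter_upwards [pairs_nonsq A ε hε, disc (A : ℝ), ev_log (3 / 2 * A), eventually_ge_atTop 2]
    with N h1 h2 h3 hN X hX S hS
  have hN2 : (2 : ℝ) ≤ N := by exact_mod_cast hN
  have hN0 : (0 : ℝ) < N := by linarith
  have hex : ∀ d ∈ S, ∃ c : ℤ, Cond N c d := fun d hd => (hS d hd).2.2.1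
  choose! c hc using hex
  have h4 := h1 X hX (S.image fun d : ℕ => (c d, (d : ℤ))) (by
    intro s hs
    rw [mem_image] at hs
    obtain ⟨d, hd, rfl⟩ := hs
    obtain ⟨g1, g2, -, p, hp, hpd, hbig⟩ := hS d hd
    refine ⟨hc d hd, by show ((d : ℕ) : ℤ) ≤ X; exact_mod_cast g2, fun hsq => ?_⟩
    simp only at hsq
    have hdA : (((d : ℕ) : ℤ) : ℝ) ≤ (N : ℝ) ^ (A : ℝ) := by
      rw [Real.rpow_natCast]
      exact_mod_cast g2.trans hX
    obtain ⟨hc2, hD⟩ := h2 _ _ (hc d hd) hdA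
    obtain ⟨a, b, hb, hba, -, hab, hcl⟩ := square_case (by omega) (hc d hd).pos hc2 hD hsq
    have hd1 : (1 : ℝ) ≤ (((d : ℕ) : ℤ) : ℝ) := by exact_mod_cast g1
    have hlog : 3 / 2 * Real.log (((d : ℕ) : ℤ) : ℝ) ≤ N := by
      have h5 := Real.log_le_log (by linarith) hdA
      rw [Real.log_rpow hN0] at h5
      linarith
    have h6 := factor_le hN0 hb hba hab hcl hlog
    have h7 : (p : ℤ) ≤ a := by
      have hpZ : Prime (p : ℤ) := Nat.prime_iff_prime_int.1 hp
      have hpd' : (p : ℤ) ∣ ((d : ℕ) : ℤ) := by exact_mod_cast hpd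
      rw [hab] at hpd'
      rcases hpZ.dvd_or_dvd hpd' with h | h
      · exact Int.le_of_dvd (by linarith) h
      · exact (Int.le_of_dvd hb h).trans hba
    have h8 : (p : ℝ) ≤ a := by exact_mod_cast h7
    push_cast at h6
    linarith)
  rw [card_image_of_injective _ (by
    intro a b hab
    simp only [Prod.mk.injEq] at hab
    exact_mod_cast hab.2)] at h4
  exact h4

/-- **Almost all degrees.** -/
theorem degrees (A : ℕ) (hA : 1 ≤ A) : ∀ᶠ N : ℕ in atTop, ∀ X : ℕ, X ≤ N ^ A →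
    ∀ S : Finset ℕ, (∀ d ∈ S, 1 ≤ d ∧ d ≤ X ∧ ∃ c : ℤ, Cond N c d) →
      (S.card : ℝ) * N ≤ 2 * A * X * Real.log N := by
  classical
  filter_upwards [pairs_nonsq A 1 one_pos, disc (A : ℝ), ev_ge' 500 1 one_pos]
    with N h1 h2 hN500 X hX S hS
  rw [Real.rpow_one] at hN500
  have hN0 : (0 : ℝ) < N := by linarith
  set l : ℝ := Real.log N with hl
  have hl6 : 6 ≤ l := by
    rw [hl, Real.le_log_iff_exp_le hN0]
    have h5 : Real.exp 6 = Real.exp 1 ^ 6 := by
      rw [← Real.exp_nat_mul]; norm_num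
    rw [h5]
    have h6 := Real.exp_one_lt_d9
    have h7 : Real.exp 1 ^ 6 ≤ 2.7182818286 ^ 6 :=
      pow_le_pow_left₀ (Real.exp_pos 1).le h6.le 6
    have h8 : (2.7182818286 : ℝ) ^ 6 ≤ 500 := by norm_num
    linarith
  have hAr : (1 : ℝ) ≤ A := by exact_mod_cast hA
  have hX0 : (0 : ℝ) ≤ X := Nat.cast_nonneg X
  have hex : ∀ d ∈ S, ∃ c : ℤ, Cond N c d := fun d hd => (hS d hd).2.2
  choose! c hc using hex
  set S₁ := S.filter fun d : ℕ => ¬ IsSquare (c d ^ 2 - 4 * (d : ℤ)) with hS₁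
  set S₂ := S.filter fun d : ℕ => ¬ ¬ IsSquare (c d ^ 2 - 4 * (d : ℤ)) with hS₂
  have hcard : S.card = S₁.card + S₂.card := (card_filter_add_card_filter_not _).symm
  -- the nonsquare discriminants
  have hc1 : (S₁.card : ℝ) * N ≤ X := by
    have h4 := h1 X hX (S₁.image fun d : ℕ => (c d, (d : ℤ))) (by
      intro s hs
      rw [mem_image] at hs
      obtain ⟨d, hd, rfl⟩ := hs
      rw [hS₁, mem_filter] at hd
      obtain ⟨g1, g2, -⟩ := hS d hd.1
      exact ⟨hc d hd.1, by show ((d : ℕ) : ℤ) ≤ X; exact_mod_cast g2, hd.2⟩)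
    rw [card_image_of_injective _ (by
      intro a b hab
      simp only [Prod.mk.injEq] at hab
      exact_mod_cast hab.2)] at h4
    refine le_trans ?_ h4
    apply mul_le_mul_of_nonneg_left _ (Nat.cast_nonneg _)
    conv_lhs => rw [← Real.rpow_one (N : ℝ)]
    apply Real.rpow_le_rpow_of_exponent_le (by linarith)
    have := exp_half_bounds.1
    linarith
  -- the square discriminants
  have hc2 : (S₂.card : ℝ) * N ≤ 3 / 2 * A * X * l + 2 * X := by
    rcases S₂.eq_empty_or_nonempty with he | hne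
    · rw [he]
      simp only [card_empty, Nat.cast_zero, zero_mul]
      positivity
    have hsh : ∀ d ∈ S₂, ∃ a b : ℤ, 0 < b ∧ b ≤ a ∧ (d : ℤ) = a * b ∧
        ((a : ℝ) - b) * N ≤ 3 / 2 * (√(X : ℝ) * (A * l)) ∧ b * b ≤ X ∧ (N : ℝ) ^ 2 ≤ 4 * X := by
      intro d hd
      rw [hS₂, mem_filter, not_not] at hd
      obtain ⟨hdS, hsq⟩ := hd
      obtain ⟨g1, g2, -⟩ := hS d hdS
      have hdA : (((d : ℕ) : ℤ) : ℝ) ≤ (N : ℝ) ^ (A : ℝ) := by
        rw [Real.rpow_natCast]
        exact_mod_cast g2.trans hX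
      obtain ⟨hc2, hD⟩ := h2 _ _ (hc d hdS) hdA
      have hN1 : 1 ≤ N := by
        have : (1 : ℝ) ≤ N := by linarith
        exact_mod_cast this
      obtain ⟨a, b, hb, hba, hcab, hab, hcl⟩ := square_case hN1 (hc d hdS).pos hc2 hD hsq
      have hd1 : (1 : ℝ) ≤ (((d : ℕ) : ℤ) : ℝ) := by exact_mod_cast g1
      have hlog : Real.log (((d : ℕ) : ℤ) : ℝ) ≤ A * l := by
        have h5 := Real.log_le_log (by linarith) hdA
        rwa [Real.log_rpow hN0] at h5
      have hlog0 : 0 ≤ Real.log (((d : ℕ) : ℤ) : ℝ) := Real.log_nonneg hd1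
      have hdX : (((d : ℕ) : ℤ) : ℝ) ≤ X := by exact_mod_cast g2
      refine ⟨a, b, hb, hba, hab, ?_, ?_, ?_⟩
      · refine hcl.trans ?_
        have := mul_le_mul (Real.sqrt_le_sqrt hdX) hlog hlog0 (Real.sqrt_nonneg _)
        linarith
      · have h5 : b * b ≤ a * b := mul_le_mul_of_nonneg_right hba hb.le
        rw [← hab] at h5
        have : ((d : ℕ) : ℤ) ≤ X := by exact_mod_cast g2
        linarith
      · obtain ⟨r, hr⟩ := hsq
        have h4d : 4 * ((d : ℕ) : ℤ) ≤ c d ^ 2 := by nlinarith [mul_self_nonneg r]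
        obtain ⟨a', b', hab', hb', hba', hz, -⟩ := (hc d hdS).unstable h4d
        have h5 : 0 < a' * b' := mul_pos (by linarith) hb'
        have h6 : (N : ℤ) ^ 2 ≤ 4 * ((d : ℕ) : ℤ) := by omega
        have h7 : (N : ℤ) ^ 2 ≤ 4 * (X : ℤ) := by
          have : ((d : ℕ) : ℤ) ≤ X := by exact_mod_cast g2
          linarith
        exact_mod_cast h7
    choose! a b hb hba hab hcl hbb hNX using hsh
    obtain ⟨d₀, hd₀⟩ := hne
    have hNX' := hNX d₀ hd₀
    -- the counting
    set M : ℝ := 3 / 2 * (√(X : ℝ) * (A * l)) / N with hM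
    have hM0 : 0 ≤ M := by positivity
    have hcount : S₂.card ≤ (Icc 1 ⌊√(X : ℝ)⌋₊ ×ˢ range (⌊M⌋₊ + 1)).card := by
      apply card_le_card_of_injOn (fun d => ((b d).toNat, (a d - b d).toNat))
      · intro d hd
        have hd' : d ∈ S₂ := hd
        have e1 : ((b d).toNat : ℤ) = b d := Int.toNat_of_nonneg (hb d hd').le
        have e2 : ((a d - b d).toNat : ℤ) = a d - b d := Int.toNat_of_nonneg (by have := hba d hd'; linarith)
        rw [mem_coe, mem_product, mem_Icc, mem_range]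
        refine ⟨⟨?_, ?_⟩, ?_⟩
        · have := hb d hd'; simp only; omega
        · apply Nat.le_floor
          apply Real.le_sqrt_of_sq_le
          have h5 := hbb d hd'
          rw [← e1] at h5
          have h6 : (((b d).toNat : ℕ) : ℝ) * (((b d).toNat : ℕ) : ℝ) ≤ X := by exact_mod_cast h5
          simp only
          nlinarith
        · rw [Nat.lt_succ_iff]
          apply Nat.le_floor
          have h5 : (((a d - b d).toNat : ℕ) : ℝ) = (a d : ℝ) - b d := by
            have : (((a d - b d).toNat : ℤ) : ℝ) = ((a d - b d : ℤ) : ℝ) := by rw [e2]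
            push_cast at this
            exact_mod_cast this
          simp only
          rw [h5, hM, le_div_iff₀ hN0]
          exact hcl d hd'
      · intro d hd d' hd' heq
        simp only [Prod.mk.injEq] at heq
        have hd1 : d ∈ S₂ := hd
        have hd2 : d' ∈ S₂ := hd'
        have e1 : ((b d).toNat : ℤ) = b d := Int.toNat_of_nonneg (hb d hd1).le
        have e2 : ((a d - b d).toNat : ℤ) = a d - b d := Int.toNat_of_nonneg (by have := hba d hd1; linarith)
        have e3 : ((b d').toNat : ℤ) = b d' := Int.toNat_of_nonneg (hb d' hd2).le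
        have e4 : ((a d' - b d').toNat : ℤ) = a d' - b d' := Int.toNat_of_nonneg (by have := hba d' hd2; linarith)
        have h5 : b d = b d' := by rw [← e1, ← e3, heq.1]
        have h6 : a d = a d' := by
          have : a d - b d = a d' - b d' := by rw [← e2, ← e4, heq.2]
          linarith
        have h7 : (d : ℤ) = (d' : ℤ) := by rw [hab d hd1, hab d' hd2, h5, h6]
        exact_mod_cast h7
    rw [card_product, Nat.card_Icc, card_range, Nat.add_sub_cancel] at hcount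
    have h5 : (S₂.card : ℝ) ≤ √X * (M + 1) := by
      have h6 : (S₂.card : ℝ) ≤ (⌊√(X : ℝ)⌋₊ : ℝ) * ((⌊M⌋₊ : ℝ) + 1) := by exact_mod_cast hcount
      refine h6.trans ?_
      gcongr
      · exact Nat.floor_le (Real.sqrt_nonneg _)
      · exact Nat.floor_le hM0
    have hsX : √(X : ℝ) * √X = X := Real.mul_self_sqrt hX0
    have h6 : √(X : ℝ) * N ≤ 2 * X := by
      have h7 : (N : ℝ) ≤ 2 * √X := by
        have h8 : (N : ℝ) ^ 2 ≤ (2 * √(X : ℝ)) ^ 2 := by
          rw [mul_pow, Real.sq_sqrt hX0]; linarith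
        exact (pow_le_pow_iff_left₀ hN0.le (by positivity) two_ne_zero).mp h8
      have := mul_le_mul_of_nonneg_left h7 (Real.sqrt_nonneg (X : ℝ))
      linarith
    calc (S₂.card : ℝ) * N ≤ √X * (M + 1) * N := by gcongr
      _ = √X * (M * N) + √X * N := by ring
      _ = √X * (3 / 2 * (√(X : ℝ) * (A * l))) + √X * N := by
          rw [hM, div_mul_cancel₀ _ hN0.ne']
      _ = 3 / 2 * (√(X : ℝ) * √X) * A * l + √X * N := by ring
      _ ≤ 3 / 2 * A * X * l + 2 * X := by
          rw [hsX]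
          linarith
  rw [hcard]
  push_cast
  have h9 : 3 * (X : ℝ) ≤ 1 / 2 * (A * X * l) := by
    have h10 : 6 ≤ (A : ℝ) * l := by nlinarith
    nlinarith
  nlinarith

end Pool.Agent.L5helper13.Ha
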