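import Mathlib

set_option autoImplicit false

/-! The number of the solutions of `c² - Δ f² = M`. -/

namespace Pool.Agent.L5helper13.Pe

open Finset

lemma e_dvd_two {Δ e : ℤ} (hΔ : Squarefree Δ) (h : e ^ 2 ∣ 4 * Δ) : e ∣ 2 := by
  rcases Int.even_or_odd e with ⟨k, hk⟩ | ho
  · have h1 : k * k ∣ Δ := by
      obtain ⟨z, hz⟩ := h
      refine ⟨z, ?_⟩
      have : 4 * Δ = 4 * (k * k * z) := by rw [hz, hk]; ring
      linarith
    have h2 := hΔ k h1
    rw [hk]
    obtain ⟨v, hv⟩ := h2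
    have h3 : k ∣ 1 := isUnit_iff_dvd_one.1 ⟨v, hv⟩
    have := mul_dvd_mul_left 2 h3
    rw [mul_one] at this
    rwa [← two_mul]
  · have hc : IsCoprime (e ^ 2) 4 := by
      have h1 : IsCoprime e 2 := by
        obtain ⟨k, hk⟩ := ho
        exact ⟨1, -k, by rw [hk]; ring⟩
      have := h1.pow (m := 2) (n := 2)
      norm_num at this
      exact this
    have h1 : e ^ 2 ∣ Δ := hc.dvd_of_dvd_mul_left h
    rw [pow_two] at h1
    have h2 := hΔ e h1
    exact h2.dvd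

/-- two roots of `t² = Δ` modulo `m` in the same class -/
lemma root_key {Δ : ℤ} (hΔ : Squarefree Δ) {m t₀ t t' : ℤ} (hm : 0 < m) (h0 : m ∣ t₀ ^ 2 - Δ)
    (h1 : m ∣ t ^ 2 - Δ) (h2 : m ∣ t' ^ 2 - Δ) (hg : Int.gcd m (t - t₀) = Int.gcd m (t' - t₀)) :
    m ∣ 2 * (t - t') := by
  obtain ⟨G, hG⟩ : ∃ G : ℤ, G = (Int.gcd m (t - t₀) : ℤ) := ⟨_, rfl⟩
  have hGm : G ∣ m := by rw [hG]; exact Int.gcd_dvd_left _ _
  have hG1 : G ∣ t - t₀ := by rw [hG]; exact Int.gcd_dvd_right _ _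
  have hG2 : G ∣ t' - t₀ := by rw [hG, hg]; exact Int.gcd_dvd_right _ _
  have hG0 : 0 < G := by
    rw [hG]
    have : Int.gcd m (t - t₀) ≠ 0 := by
      rw [Ne, Int.gcd_eq_zero_iff]
      intro h
      exact hm.ne' h.1
    omega
  obtain ⟨H, hH⟩ := hGm
  have key : ∀ s : ℤ, m ∣ s ^ 2 - Δ → G = (Int.gcd m (s - t₀) : ℤ) → H ∣ s + t₀ := by
    intro s hs hgs
    have hGs : G ∣ s - t₀ := by rw [hgs]; exact Int.gcd_dvd_right _ _
    obtain ⟨a, ha⟩ := hGs
    have hcop : Int.gcd H a = 1 := by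
      rw [hH, ha, Int.gcd_mul_left] at hgs
      have h3 : (G.natAbs : ℤ) = G := Int.natAbs_of_nonneg hG0.le
      push_cast at hgs
      have h4 : G * 1 = G * (Int.gcd H a : ℤ) := by
        rw [mul_one]
        conv_lhs => rw [hgs]
        rw [abs_of_pos hG0]
      have h5 := mul_left_cancel₀ hG0.ne' h4
      exact_mod_cast h5.symm
    have h3 : G * H ∣ G * (a * (s + t₀)) := by
      have h4 : m ∣ (s ^ 2 - Δ) - (t₀ ^ 2 - Δ) := dvd_sub hs h0
      have h5 : (s ^ 2 - Δ) - (t₀ ^ 2 - Δ) = G * (a * (s + t₀)) := by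
        rw [← mul_assoc, ← ha]; ring
      rw [h5, hH] at h4
      exact h4
    have h4 : H ∣ a * (s + t₀) := (mul_dvd_mul_iff_left hG0.ne').1 h3
    exact (Int.isCoprime_iff_gcd_eq_one.2 hcop).dvd_of_dvd_mul_left h4
  have hH1 := key t h1 hG
  have hH2 := key t' h2 (by rw [hG, hg])
  have hx1 : G ∣ t - t' := by
    have := dvd_sub hG1 hG2
    have e : t - t₀ - (t' - t₀) = t - t' := by ring
    rwa [e] at this
  have hx2 : H ∣ t - t' := by
    have := dvd_sub hH1 hH2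
    have e : t + t₀ - (t' + t₀) = t - t' := by ring
    rwa [e] at this
  obtain ⟨e, he⟩ : ∃ e : ℤ, e = (Int.gcd G H : ℤ) := ⟨_, rfl⟩
  have heG : e ∣ G := by rw [he]; exact Int.gcd_dvd_left _ _
  have heH : e ∣ H := by rw [he]; exact Int.gcd_dvd_right _ _
  have he0 : e ≠ 0 := by
    rw [he]
    intro h
    have : Int.gcd G H = 0 := by exact_mod_cast h
    rw [Int.gcd_eq_zero_iff] at this
    exact hG0.ne' this.1
  have he2 : e ∣ 2 := by
    apply e_dvd_two hΔ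
    have h3 : e ∣ 2 * t₀ := by
      have h4 := dvd_sub (heH.trans hH1) (heG.trans hG1)
      have e1 : t + t₀ - (t - t₀) = 2 * t₀ := by ring
      rwa [e1] at h4
    have h4 : e ^ 2 ∣ t₀ ^ 2 - Δ := by
      refine dvd_trans ?_ h0
      rw [hH, pow_two]
      exact mul_dvd_mul heG heH
    have h5 : e ^ 2 ∣ (2 * t₀) ^ 2 := pow_dvd_pow_of_dvd h3 2
    have h6 := dvd_sub h5 (dvd_mul_of_dvd_right h4 4)
    have e1 : (2 * t₀) ^ 2 - 4 * (t₀ ^ 2 - Δ) = 4 * Δ := by ring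
    rwa [e1] at h6
  -- `G H ∣ e (t - t')`
  have hfin : G * H ∣ e * (t - t') := by
    obtain ⟨G₁, hG₁⟩ := heG
    obtain ⟨H₁, hH₁⟩ := heH
    have hcop : Int.gcd G₁ H₁ = 1 := by
      rw [hG₁, hH₁, Int.gcd_mul_left] at he
      have hepos : 0 < e := lt_of_le_of_ne (by rw [he]; positivity) (Ne.symm he0)
      push_cast at he
      have h4 : e * 1 = e * (Int.gcd G₁ H₁ : ℤ) := by
        rw [mul_one]
        conv_lhs => rw [he]
        rw [abs_of_pos hepos]
      have h5 := mul_left_cancel₀ he0 h4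
      exact_mod_cast h5.symm
    obtain ⟨y, hy⟩ := hx1
    have h3 : e * H₁ ∣ e * (G₁ * y) := by
      rw [← hH₁]
      have : t - t' = e * (G₁ * y) := by rw [hy, hG₁]; ring
      rw [← this]
      exact hx2
    have h4 : H₁ ∣ G₁ * y := (mul_dvd_mul_iff_left he0).1 h3
    have h5 : H₁ ∣ y := by
      have hc : IsCoprime H₁ G₁ := (Int.isCoprime_iff_gcd_eq_one.2 hcop).symm
      exact hc.dvd_of_dvd_mul_left h4
    obtain ⟨z, hz⟩ := h5
    refine ⟨z, ?_⟩
    rw [hy, hz, hG₁, hH₁]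
    ring
  rw [hH]
  exact hfin.trans (mul_dvd_mul_right he2 _)

/-- the roots of `t² = Δ` modulo `m` -/
def roots (Δ : ℤ) (m : ℕ) : Finset ℕ := (range m).filter fun t => (m : ℤ) ∣ (t : ℤ) ^ 2 - Δ

lemma roots_card {Δ : ℤ} (hΔ : Squarefree Δ) (m : ℕ) (hm : 0 < m) :
    (roots Δ m).card ≤ 2 * m.divisors.card := by
  rcases (roots Δ m).eq_empty_or_nonempty with he | ⟨t₀, ht₀⟩
  · rw [he]; simp
  have h0 : (m : ℤ) ∣ (t₀ : ℤ) ^ 2 - Δ := (mem_filter.1 ht₀).2
  have h1 : (roots Δ m).card ≤ (m.divisors ×ˢ range 2).card := by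
    apply card_le_card_of_injOn (fun t : ℕ => (Int.gcd (m : ℤ) ((t : ℤ) - t₀), 2 * t / m))
    · intro t ht
      have ht' : t ∈ roots Δ m := ht
      unfold roots at ht'
      rw [mem_filter, mem_range] at ht'
      rw [mem_coe, mem_product, Nat.mem_divisors, mem_range]
      refine ⟨⟨?_, hm.ne'⟩, ?_⟩
      · have := Int.gcd_dvd_left (a := (m : ℤ)) (b := (t : ℤ) - t₀)
        exact_mod_cast this
      · rw [Nat.div_lt_iff_lt_mul hm]
        omega
    · intro t ht t' ht' heq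
      have g1 : t ∈ roots Δ m := ht
      have g2 : t' ∈ roots Δ m := ht'
      unfold roots at g1 g2
      rw [mem_filter, mem_range] at g1 g2
      simp only [Prod.mk.injEq] at heq
      have h3 := root_key hΔ (by exact_mod_cast hm) h0 g1.2 g2.2 heq.1
      have h4 : (2 * t) % m = (2 * t') % m := by
        have h5 : (2 * (t' : ℤ)) % m = (2 * (t : ℤ)) % m := by
          apply Int.emod_eq_emod_iff_emod_sub_eq_zero.2
          apply Int.emod_eq_zero_of_dvd
          have h7 : 2 * (t' : ℤ) - 2 * t = -(2 * ((t : ℤ) - t')) := by ring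
          rw [h7]
          exact (dvd_neg.2 h3)
        have h6 : (((2 * t') % m : ℕ) : ℤ) = (((2 * t) % m : ℕ) : ℤ) := by push_cast; exact h5
        exact_mod_cast h6.symm
      have h5 := Nat.div_add_mod (2 * t) m
      have h6 := Nat.div_add_mod (2 * t') m
      rw [heq.2, h4] at h5
      omega
  rw [card_product, card_range] at h1
  omega

lemma pos_of_mul_pos_of_pos_left' {a b : ℤ} (h : 0 < a * b) (ha : 0 < a) : 0 < b := by
  by_contra hcon
  push Not at hcon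
  nlinarith

/-- two solutions in the same class -/
lemma gap {Δ M : ℤ} (hΔ : 3 ≤ |Δ|) (hM : 0 < M) {c₁ f₁ c₂ f₂ : ℤ} (hc₁ : 0 < c₁) (hf₁ : 0 < f₁) (hc₂ : 0 < c₂)
    (hf₂ : 0 < f₂) (h1 : c₁ ^ 2 - Δ * f₁ ^ 2 = M) (h2 : c₂ ^ 2 - Δ * f₂ ^ 2 = M) (hlt : c₁ < c₂)
    (hU : M ∣ c₁ * c₂ - Δ * f₁ * f₂) (hV : M ∣ c₁ * f₂ - c₂ * f₁) : 2 * c₁ ≤ c₂ := by
  obtain ⟨U, hU⟩ := hU
  obtain ⟨V, hV⟩ := hV
  have hUV : U ^ 2 - Δ * V ^ 2 = 1 := by
    have h3 : M ^ 2 * (U ^ 2 - Δ * V ^ 2) = M ^ 2 * 1 := by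
      have : M ^ 2 * (U ^ 2 - Δ * V ^ 2) = (M * U) ^ 2 - Δ * (M * V) ^ 2 := by ring
      rw [this, ← hU, ← hV]
      have e : (c₁ * c₂ - Δ * f₁ * f₂) ^ 2 - Δ * (c₁ * f₂ - c₂ * f₁) ^ 2 =
          (c₁ ^ 2 - Δ * f₁ ^ 2) * (c₂ ^ 2 - Δ * f₂ ^ 2) := by ring
      rw [e, h1, h2]; ring
    exact mul_left_cancel₀ (by positivity) h3
  have hsq : c₁ ^ 2 < c₂ ^ 2 := by nlinarith
  have hVV : (M * V) * (c₁ * f₂ + c₂ * f₁) = M * (f₂ ^ 2 - f₁ ^ 2) := by
    rw [← hV]
    have e : (c₁ * f₂ - c₂ * f₁) * (c₁ * f₂ + c₂ * f₁) =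
        (c₁ ^ 2 - Δ * f₁ ^ 2) * f₂ ^ 2 - (c₂ ^ 2 - Δ * f₂ ^ 2) * f₁ ^ 2 := by ring
    rw [e, h1, h2]; ring
  rcases lt_or_ge Δ 0 with hneg | hpos
  · exfalso
    rw [abs_of_neg hneg] at hΔ
    have hV0 : V = 0 := by
      by_contra hV0
      have h3 : 1 ≤ V ^ 2 := by
        have := Int.one_le_abs hV0
        nlinarith [sq_abs V]
      nlinarith [sq_nonneg U]
    rw [hV0, mul_zero, zero_mul] at hVV
    have h4 : f₂ ^ 2 - f₁ ^ 2 = 0 := by
      rcases mul_eq_zero.1 hVV.symm with h | h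
      · omega
      · exact h
    have h5 : c₂ ^ 2 = c₁ ^ 2 := by
      have : f₂ ^ 2 = f₁ ^ 2 := by linarith
      rw [this] at h2
      linarith
    linarith
  · rw [abs_of_nonneg hpos] at hΔ
    have hff : f₁ ^ 2 < f₂ ^ 2 := by
      by_contra hcon
      push Not at hcon
      nlinarith
    have hVpos : 0 < V := by
      have h3 : 0 < M * (f₂ ^ 2 - f₁ ^ 2) := mul_pos hM (by linarith)
      rw [← hVV] at h3
      have h4 : 0 < c₁ * f₂ + c₂ * f₁ := by positivity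
      have h5 : 0 < M * V := by
        by_contra hcon
        push Not at hcon
        nlinarith
      exact pos_of_mul_pos_of_pos_left' h5 hM
    have hUpos : 0 < U := by
      have h3 : (M * U) * (c₁ * c₂ + Δ * f₁ * f₂) = M ^ 2 + M * Δ * (f₁ ^ 2 + f₂ ^ 2) := by
        rw [← hU]
        have e : (c₁ * c₂ - Δ * f₁ * f₂) * (c₁ * c₂ + Δ * f₁ * f₂) =
            (c₁ ^ 2 - Δ * f₁ ^ 2) * (c₂ ^ 2 - Δ * f₂ ^ 2) + Δ * f₂ ^ 2 * (c₁ ^ 2 - Δ * f₁ ^ 2) +
              Δ * f₁ ^ 2 * (c₂ ^ 2 - Δ * f₂ ^ 2) := by ring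
        rw [e, h1, h2]; ring
      have h4 : 0 < M ^ 2 + M * Δ * (f₁ ^ 2 + f₂ ^ 2) := by positivity
      rw [← h3] at h4
      have h5 : 0 < c₁ * c₂ + Δ * f₁ * f₂ := by positivity
      have h6 : 0 < M * U := by
        by_contra hcon
        push Not at hcon
        nlinarith
      exact pos_of_mul_pos_of_pos_left' h6 hM
    have hU2 : 2 ≤ U := by
      by_contra hcon
      push Not at hcon
      have hU1 : U = 1 := by omega
      rw [hU1] at hUV
      nlinarith [pow_pos hVpos 2]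
    have h3 : c₂ = c₁ * U + Δ * f₁ * V := by
      have h4 : M * c₂ = M * (c₁ * U + Δ * f₁ * V) := by
        have e : M * (c₁ * U + Δ * f₁ * V) = c₁ * (M * U) + Δ * f₁ * (M * V) := by ring
        rw [e, ← hU, ← hV, ← h1]
        ring
      exact mul_left_cancel₀ hM.ne' h4
    rw [h3]
    have h4 : 0 ≤ Δ * f₁ * V := by positivity
    nlinarith

/-- **The number of the solutions with given gcd.** -/
theorem sol_card {Δ : ℤ} (hΔ : Squarefree Δ) (h3 : 3 ≤ |Δ|) (M Z g : ℕ) (hM : 0 < M) (S : Finset ℕ)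
    (hS : ∀ c ∈ S, 1 ≤ c ∧ c ≤ Z ∧ ∃ f : ℕ, 0 < f ∧ (c : ℤ) ^ 2 - Δ * (f : ℤ) ^ 2 = M ∧ Nat.gcd c f = g) :
    S.card ≤ 2 * M.divisors.card * (Nat.log 2 Z + 1) := by
  rcases S.eq_empty_or_nonempty with he | ⟨c₀, hc₀⟩
  · rw [he]; simp
  -- the common divisor
  have hg : 0 < g ∧ g ^ 2 ∣ M := by
    obtain ⟨g1, -, f, hf, hcf, hgcd⟩ := hS c₀ hc₀
    constructor
    · rw [← hgcd]
      exact Nat.gcd_pos_of_pos_left _ (by omega)
    · have h4 : ((g ^ 2 : ℕ) : ℤ) ∣ (M : ℤ) := by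
        rw [← hcf, ← hgcd]
        push_cast
        have h5 : ((Nat.gcd c₀ f : ℕ) : ℤ) ∣ c₀ := by exact_mod_cast Nat.gcd_dvd_left c₀ f
        have h6 : ((Nat.gcd c₀ f : ℕ) : ℤ) ∣ f := by exact_mod_cast Nat.gcd_dvd_right c₀ f
        exact dvd_sub (pow_dvd_pow_of_dvd h5 2) (dvd_mul_of_dvd_right (pow_dvd_pow_of_dvd h6 2) _)
      exact_mod_cast h4
  obtain ⟨hg0, m, hm⟩ := hg
  have hm0 : 0 < m := by
    rcases Nat.eq_zero_or_pos m with h | h
    · rw [h] at hm; omega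
    · exact h
  -- the data
  have hdat : ∀ c ∈ S, ∃ (a b t : ℕ), c = g * a ∧ 0 < a ∧ 0 < b ∧ (a : ℤ) ^ 2 - Δ * (b : ℤ) ^ 2 = m ∧
      t ∈ roots Δ m ∧ (m : ℤ) ∣ (t : ℤ) * b - a := by
    intro c hc
    obtain ⟨g1, -, f, hf, hcf, hgcd⟩ := hS c hc
    obtain ⟨a, ha⟩ : g ∣ c := by rw [← hgcd]; exact Nat.gcd_dvd_left c f
    obtain ⟨b, hb⟩ : g ∣ f := by rw [← hgcd]; exact Nat.gcd_dvd_right c f
    have hab : Nat.gcd a b = 1 := by
      rw [ha, hb, Nat.gcd_mul_left] at hgcd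
      exact Nat.eq_of_mul_eq_mul_left hg0 (by rw [hgcd, mul_one])
    have ha0 : 0 < a := by
      rcases Nat.eq_zero_or_pos a with h | h
      · rw [h] at ha; omega
      · exact h
    have hb0 : 0 < b := by
      rcases Nat.eq_zero_or_pos b with h | h
      · rw [h] at hb; omega
      · exact h
    have heq : (a : ℤ) ^ 2 - Δ * (b : ℤ) ^ 2 = m := by
      have hgz : ((g : ℤ)) ^ 2 ≠ 0 := by positivity
      apply mul_left_cancel₀ hgz
      have h5 : (M : ℤ) = (g : ℤ) ^ 2 * m := by rw [hm]; push_cast; ring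
      rw [← h5, ← hcf, ha, hb]
      push_cast
      ring
    -- `b` is prime to `m`
    have hcop : IsCoprime (b : ℤ) (m : ℤ) := by
      have h5 : IsCoprime (b : ℤ) ((a : ℤ) ^ 2) := by
        apply IsCoprime.pow_right
        rw [Int.isCoprime_iff_gcd_eq_one]
        rw [Int.gcd_natCast_natCast, Nat.gcd_comm]
        exact hab
      rw [← heq]
      have h6 : (a : ℤ) ^ 2 - Δ * (b : ℤ) ^ 2 = (a : ℤ) ^ 2 + b * (-(Δ * b)) := by ring
      rw [h6]
      exact h5.add_mul_left_right _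
    obtain ⟨x, y, hxy⟩ := hcop
    have hmz : (0 : ℤ) < m := by exact_mod_cast hm0
    set t : ℕ := ((a * x) % (m : ℤ)).toNat with ht
    have htz : (t : ℤ) = (a * x) % (m : ℤ) := Int.toNat_of_nonneg (Int.emod_nonneg _ hmz.ne')
    have htb : (m : ℤ) ∣ (t : ℤ) * b - a := by
      have h5 : (t : ℤ) = a * x - m * ((a * x) / m) := by
        rw [htz]
        have := Int.emod_add_mul_ediv (a * x) m
        linarith
      rw [h5]
      refine ⟨-(a * y) - ((a * x) / m) * b, ?_⟩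
      have h6 : x * (b : ℤ) = 1 - y * m := by linarith
      linear_combination (a : ℤ) * h6
    refine ⟨a, b, t, ha, ha0, hb0, heq, ?_, htb⟩
    unfold roots
    rw [mem_filter, mem_range]
    constructor
    · have := Int.emod_lt_of_pos (a * x) hmz
      rw [← htz] at this
      exact_mod_cast this
    · have hcop : IsCoprime (m : ℤ) ((b : ℤ) ^ 2) := by
        apply IsCoprime.pow_right
        exact ⟨y, x, by linarith⟩
      apply hcop.dvd_of_dvd_mul_right
      have h5 : ((t : ℤ) ^ 2 - Δ) * (b : ℤ) ^ 2 = (t * b - a) * (t * b + a) + ((a : ℤ) ^ 2 - Δ * (b : ℤ) ^ 2) := by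
        ring
      rw [h5, heq]
      exact dvd_add (dvd_mul_of_dvd_left htb _) (dvd_refl _)
  choose! a b t hca ha hb hab ht htb using hdat
  have hcard : S.card ≤ ((roots Δ m) ×ˢ range (Nat.log 2 Z + 1)).card := by
    have key : ∀ c ∈ S, ∀ c' ∈ S, t c = t c' → Nat.log 2 c = Nat.log 2 c' → ¬ c < c' := by
      intro c hc c' hc' htt hll hlt
      have hlt' : a c < a c' := by
        rw [hca c hc, hca c' hc'] at hlt
        exact lt_of_mul_lt_mul_left hlt (Nat.zero_le _)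
      have h5 := htb c hc
      have h6 := htb c' hc'
      rw [← htt] at h6
      have h7 : (m : ℤ) ∣ (t c : ℤ) ^ 2 - Δ := (mem_filter.1 (ht c hc)).2
      have hgap := gap (M := m) h3 (by exact_mod_cast hm0) (c₁ := a c) (f₁ := b c) (c₂ := a c') (f₂ := b c')
        (by exact_mod_cast ha c hc) (by exact_mod_cast hb c hc) (by exact_mod_cast ha c' hc')
        (by exact_mod_cast hb c' hc') (hab c hc) (hab c' hc') (by exact_mod_cast hlt') ?_ ?_
      · have h8 : 2 * a c ≤ a c' := by exact_mod_cast hgap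
        have h9 : 2 * c ≤ c' := by
          rw [hca c hc, hca c' hc']
          calc 2 * (g * a c) = g * (2 * a c) := by ring
            _ ≤ _ := Nat.mul_le_mul_left g h8
        have h10 : Nat.log 2 (c * 2) = Nat.log 2 c + 1 :=
          Nat.log_mul_base (by norm_num) (by have := (hS c hc).1; omega)
        have h11 : Nat.log 2 (c * 2) ≤ Nat.log 2 c' := Nat.log_mono_right (by omega)
        omega
      · have e : (a c : ℤ) * a c' - Δ * b c * b c' = ((t c : ℤ) * b c - a c) * (t c * b c' - a c') * 1 -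
            ((t c : ℤ) * b c - a c) * (t c * b c') - ((t c : ℤ) * b c' - a c') * (t c * b c) +
              ((t c : ℤ) ^ 2 - Δ) * (b c * b c') := by ring
        rw [e]
        refine dvd_add (dvd_sub (dvd_sub ?_ ?_) ?_) ?_
        · exact dvd_mul_of_dvd_left (dvd_mul_of_dvd_left h5 _) _
        · exact dvd_mul_of_dvd_left h5 _
        · exact dvd_mul_of_dvd_left h6 _
        · exact dvd_mul_of_dvd_left h7 _
      · have e : (a c : ℤ) * b c' - a c' * b c = ((t c : ℤ) * b c' - a c') * b c - ((t c : ℤ) * b c - a c) * b c' := by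
          ring
        rw [e]
        exact dvd_sub (dvd_mul_of_dvd_left h6 _) (dvd_mul_of_dvd_left h5 _)
    apply card_le_card_of_injOn (fun c : ℕ => (t c, Nat.log 2 c))
    · intro c hc
      have hc' : c ∈ S := hc
      rw [mem_coe, mem_product, mem_range]
      have h5 : Nat.log 2 c ≤ Nat.log 2 Z := Nat.log_mono_right (hS c hc').2.1
      exact ⟨ht c hc', Nat.lt_succ_of_le h5⟩
    · intro c hc c' hc' heq
      simp only [Prod.mk.injEq] at heq
      have g1 : c ∈ S := hc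
      have g2 : c' ∈ S := hc'
      rcases lt_trichotomy c c' with h | h | h
      · exact absurd h (key c g1 c' g2 heq.1 heq.2)
      · exact h
      · exact absurd h (key c' g2 c g1 heq.1.symm heq.2.symm)
  rw [card_product, card_range] at hcard
  refine hcard.trans (Nat.mul_le_mul_right _ ?_)
  refine (roots_card hΔ m hm0).trans (Nat.mul_le_mul_left 2 ?_)
  exact card_le_card (Nat.divisors_subset_of_dvd hM.ne' ⟨g ^ 2, by rw [hm]; ring⟩)

end Pool.Agent.L5helper13.Pe
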