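import Pool.Agent.L5helper13.Hart3
import Pool.Agent.L5helper13.Pell

set_option autoImplicit false

/-! Codimension two: every degree. -/

namespace Pool.Agent.L5helper13.Ha

open Finset Filter Topology Pool.Agent.R920.CH Pool.Agent.R852.BC Pool.Agent.R503.PS

lemma tau_four (d : ℕ) : (4 * d).divisors.card ≤ 3 * d.divisors.card := by
  have h1 : (4 * d).divisors ⊆ (Nat.divisors 4 ×ˢ d.divisors).image fun p => p.1 * p.2 := by
    rcases Nat.eq_zero_or_pos d with h | h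
    · rw [h]; simp
    intro n hn
    rw [Nat.mem_divisors] at hn
    obtain ⟨a, b, ha, hb, hab⟩ := (Nat.dvd_mul).1 hn.1
    rw [mem_image]
    exact ⟨(a, b), by rw [mem_product, Nat.mem_divisors, Nat.mem_divisors]; exact ⟨⟨ha, by norm_num⟩, hb, h.ne'⟩, hab⟩
  refine (card_le_card h1).trans (card_image_le.trans ?_)
  rw [card_product]
  exact Nat.mul_le_mul_right _ (by decide)

/-- **Every degree.** -/
theorem every (A : ℕ) : ∀ᶠ N : ℕ in atTop, ∀ d : ℕ, 1 ≤ d → d ≤ N ^ A → ∀ S : Finset ℕ,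
    (∀ c ∈ S, 1 ≤ c ∧ c ≤ d + 1 ∧ RiemannRoch N (poly2 c d)) →
      (S.card : ℝ) ≤ Real.log N ^ (12 * A + 18) * (d.divisors.card : ℝ) ^ 2 := by
  classical
  obtain ⟨A', hA'⟩ : ∃ A' : ℕ, A' = 2 * A + 2 := ⟨_, rfl⟩
  set K : ℕ := 3 * (2 * A' + 1) + 1 with hK
  have hpred : Tendsto (fun N : ℕ => N - 1) atTop atTop := tendsto_sub_atTop_nat 1
  have hlogt : Tendsto (fun N : ℕ => Real.log (N : ℝ)) atTop atTop :=
    Real.tendsto_log_atTop.comp tendsto_natCast_atTop_atTop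
  filter_upwards [hpred.eventually (DD_card A' 1), hpred.eventually (struct A' 1),
    hpred.eventually (hlogt.eventually_ge_atTop 3), eventually_ge_atTop 8,
    hlogt.eventually_ge_atTop (72 * (2 * A + 4) + 1)] with N hDD hst hx3 hN8 hlA d hd1 hdA S hS
  obtain ⟨x, rfl⟩ : ∃ x, N = x + 1 := ⟨N - 1, by omega⟩
  rw [Nat.add_sub_cancel] at hDD hst hx3
  set n : ℝ := ((x + 1 : ℕ) : ℝ) with hn
  have hn8 : (8 : ℝ) ≤ n := by rw [hn]; exact_mod_cast hN8
  have hn0 : 0 < n := by linarith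
  set l : ℝ := Real.log n with hl
  have hl1 : 1 ≤ l := by
    have : (0 : ℝ) ≤ A := Nat.cast_nonneg A
    linarith
  -- squares and nonsquares
  set S₁ := S.filter fun c : ℕ => ¬ IsSquare ((c : ℤ) ^ 2 - 4 * (d : ℤ)) with hS₁
  set S₂ := S.filter fun c : ℕ => ¬ ¬ IsSquare ((c : ℤ) ^ 2 - 4 * (d : ℤ)) with hS₂
  have hcard : S.card = S₁.card + S₂.card := (card_filter_add_card_filter_not _).symm
  have hc2 : S₂.card ≤ d.divisors.card := by
    have h1 : S₂ ⊆ d.divisors.image fun a => a + d / a := by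
      intro c hc
      rw [hS₂, mem_filter, not_not] at hc
      obtain ⟨a, b, hab1, hab2⟩ := split_of_square hc.2
      simp only at hab1 hab2
      have hd0 : (0 : ℤ) < d := by exact_mod_cast hd1
      have hc0 : (0 : ℤ) < c := by exact_mod_cast (hS c hc.1).1
      have hpos : 0 < a ∧ 0 < b := by
        rw [hab2] at hd0
        rcases mul_pos_iff.1 hd0 with h | h
        · exact h
        · linarith [h.1, h.2]
      obtain ⟨a', rfl⟩ : ∃ a' : ℕ, a = a' := ⟨a.toNat, by rw [Int.toNat_of_nonneg hpos.1.le]⟩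
      obtain ⟨b', rfl⟩ : ∃ b' : ℕ, b = b' := ⟨b.toNat, by rw [Int.toNat_of_nonneg hpos.2.le]⟩
      have h2 : d = a' * b' := by exact_mod_cast hab2
      have h3 : c = a' + b' := by exact_mod_cast hab1
      have ha0 : 0 < a' := by exact_mod_cast hpos.1
      rw [mem_image]
      refine ⟨a', ?_, ?_⟩
      · rw [Nat.mem_divisors]
        exact ⟨⟨b', h2⟩, by omega⟩
      · rw [h2, Nat.mul_div_cancel_left _ ha0, h3]
    exact (card_le_card h1).trans card_image_le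
  -- the nonsquares
  set Q : Finset ((ℤ × ℕ) × ℕ) := (({1, -1, 2, -2} : Finset ℤ) ×ˢ DD x A' 1) ×ˢ (4 * d).divisors with hQ
  have hsub : S₁ ⊆ Q.biUnion fun q => S₁.filter fun c => ∃ f : ℕ, 0 < f ∧
      (c : ℤ) ^ 2 - (q.1.1 * q.1.2) * (f : ℤ) ^ 2 = ((4 * d : ℕ) : ℤ) ∧ Nat.gcd c f = q.2 := by
    intro c hc
    have hc' := hc
    rw [hS₁, mem_filter] at hc
    obtain ⟨h1, h2, h3⟩ := hS c hc.1
    have hd0 : (1 : ℤ) ≤ d := by exact_mod_cast hd1
    have hc0 : (1 : ℤ) ≤ c := by exact_mod_cast h1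
    have hcd : (c : ℤ) ≤ d + 1 := by exact_mod_cast h2
    have hDn : ((c : ℤ) ^ 2 - 4 * (d : ℤ)).natAbs ≤ (x + 1) ^ A' := by
      have k1 : |(c : ℤ) ^ 2 - 4 * (d : ℤ)| ≤ 4 * (d : ℤ) ^ 2 := by
        rw [abs_le]
        constructor <;> nlinarith
      have k2 : (((c : ℤ) ^ 2 - 4 * (d : ℤ)).natAbs : ℤ) ≤ ((4 * d ^ 2 : ℕ) : ℤ) := by
        rw [Int.natCast_natAbs]
        push_cast
        exact k1
      have k3 : ((c : ℤ) ^ 2 - 4 * (d : ℤ)).natAbs ≤ 4 * d ^ 2 := by exact_mod_cast k2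
      refine k3.trans ?_
      calc 4 * d ^ 2 ≤ (x + 1) ^ 2 * ((x + 1) ^ A) ^ 2 :=
            Nat.mul_le_mul (by nlinarith) (Nat.pow_le_pow_left hdA 2)
        _ = (x + 1) ^ A' := by rw [hA', ← pow_mul, ← pow_add]; ring_nf
    obtain ⟨u, δ, f, hu, hDe, hodd, hsqf, hf0, hfew, hld⟩ := hst _ hc.2 hDn
      (fun p hp hp2 hpn => square_mod h3 p hp hp2 hpn)
    have hδle : δ ≤ (x + 1) ^ A' := by
      refine le_trans ?_ hDn
      rw [hDe, Int.natAbs_mul, Int.natAbs_mul, Int.natAbs_pow, Int.natAbs_natCast, Int.natAbs_natCast]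
      have hun : 1 ≤ u.natAbs := by rcases hu with rfl | rfl | rfl | rfl <;> decide
      calc δ = 1 * δ * 1 := by ring
        _ ≤ u.natAbs * δ * f ^ 2 :=
          Nat.mul_le_mul (Nat.mul_le_mul_right _ hun) (Nat.one_le_pow _ _ hf0)
    rw [mem_biUnion]
    refine ⟨((u, δ), Nat.gcd c f), ?_, ?_⟩
    · rw [hQ, mem_product, mem_product, Nat.mem_divisors]
      refine ⟨⟨by simpa using hu, ?_⟩, ?_, by omega⟩
      · unfold DD
        rw [mem_filter, mem_range]
        exact ⟨Nat.lt_succ_of_le hδle, hodd, hsqf, hfew, hld⟩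
      · have h5 : ((Nat.gcd c f : ℕ) : ℤ) ∣ c := by exact_mod_cast Nat.gcd_dvd_left c f
        have h6 : ((Nat.gcd c f : ℕ) : ℤ) ∣ f := by exact_mod_cast Nat.gcd_dvd_right c f
        have h7 : ((Nat.gcd c f : ℕ) : ℤ) ∣ ((4 * d : ℕ) : ℤ) := by
          have h8 : ((4 * d : ℕ) : ℤ) = (c : ℤ) ^ 2 - u * δ * (f : ℤ) ^ 2 := by push_cast; linarith
          rw [h8]
          exact dvd_sub (dvd_pow h5 two_ne_zero) (dvd_mul_of_dvd_right (dvd_pow h6 two_ne_zero) _)
        exact_mod_cast h7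
    · rw [mem_filter]
      refine ⟨hc', f, hf0, ?_, rfl⟩
      simp only
      push_cast
      linarith
  have hterm : ∀ q ∈ Q, (S₁.filter fun c : ℕ => ∃ f : ℕ, 0 < f ∧
      (c : ℤ) ^ 2 - (q.1.1 * q.1.2) * (f : ℤ) ^ 2 = ((4 * d : ℕ) : ℤ) ∧ Nat.gcd c f = q.2).card ≤
      2 * (4 * d).divisors.card * (Nat.log 2 (d + 1) + 1) := by
    rintro ⟨⟨u, δ⟩, g⟩ hq
    rw [hQ, mem_product, mem_product] at hq
    obtain ⟨⟨hu, hδ⟩, -⟩ := hq
    simp only at hu hδ ⊢
    unfold DD at hδ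
    rw [mem_filter] at hδ
    obtain ⟨-, hodd, hsqf, -, hld⟩ := hδ
    have hδ3 : 3 ≤ δ := by
      rw [pow_one] at hld
      have : (3 : ℝ) < δ := lt_of_le_of_lt hx3 hld
      have : 3 < δ := by exact_mod_cast this
      omega
    have hu' : u = 1 ∨ u = -1 ∨ u = 2 ∨ u = -2 := by simpa using hu
    have hsq : Squarefree (u * (δ : ℤ)) := by
      have h1 : Squarefree (δ : ℤ) := Int.squarefree_natCast.2 hsqf
      have h2 : IsCoprime (2 : ℤ) (δ : ℤ) := by
        obtain ⟨k, hk⟩ := hodd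
        exact ⟨-k, 1, by rw [hk]; push_cast; ring⟩
      have h3 : Squarefree (2 * (δ : ℤ)) := by
        rw [squarefree_mul_iff]
        exact ⟨h2.isRelPrime, Int.prime_two.squarefree, h1⟩
      rcases hu' with rfl | rfl | rfl | rfl
      · rwa [one_mul]
      · rw [neg_one_mul]
        intro z hz
        exact h1 z ((dvd_neg).1 hz)
      · exact h3
      · rw [neg_mul]
        intro z hz
        exact h3 z ((dvd_neg).1 hz)
    have habs : 3 ≤ |u * (δ : ℤ)| := by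
      rw [abs_mul]
      have h1 : 1 ≤ |u| := by rcases hu' with rfl | rfl | rfl | rfl <;> norm_num
      have h2 : |(δ : ℤ)| = δ := abs_of_nonneg (by positivity)
      rw [h2]
      have h3 : (3 : ℤ) ≤ δ := by exact_mod_cast hδ3
      nlinarith
    refine Pool.Agent.L5helper13.Pe.sol_card hsq habs (4 * d) (d + 1) g (by omega) _ fun c hc => ?_
    rw [mem_filter, hS₁, mem_filter] at hc
    obtain ⟨⟨h1, -⟩, f, hf0, hf1, hf2⟩ := hc
    obtain ⟨k1, k2, -⟩ := hS c h1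
    exact ⟨k1, k2, f, hf0, hf1, hf2⟩
  have hc1 : S₁.card ≤ (4 * (DD x A' 1).card * (4 * d).divisors.card) *
      (2 * (4 * d).divisors.card * (Nat.log 2 (d + 1) + 1)) := by
    refine (card_le_card hsub).trans (card_biUnion_le.trans ((sum_le_sum hterm).trans (le_of_eq ?_)))
    rw [sum_const, smul_eq_mul, hQ, card_product, card_product]
    have : ({1, -1, 2, -2} : Finset ℤ).card = 4 := by decide
    rw [this]
  -- the sizes
  have hlx : Real.log (x : ℝ) ≤ l := by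
    rw [hl]
    apply Real.log_le_log
    · exact_mod_cast (by omega : 0 < x)
    · rw [hn]; push_cast; linarith
  have hlx0 : 0 ≤ Real.log (x : ℝ) := Real.log_natCast_nonneg x
  have hDDl : ((DD x A' 1).card : ℝ) ≤ l ^ K := hDD.trans (pow_le_pow_left₀ hlx0 hlx K)
  have htau : (((4 * d).divisors.card : ℕ) : ℝ) ≤ 3 * (d.divisors.card : ℝ) := by exact_mod_cast tau_four d
  set τ : ℝ := (d.divisors.card : ℝ) with hτ
  have hτ1 : 1 ≤ τ := by
    rw [hτ]
    exact_mod_cast Finset.card_pos.2 ⟨1, Nat.one_mem_divisors.2 (by omega)⟩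
  have hlog2 : ((Nat.log 2 (d + 1) : ℕ) : ℝ) + 1 ≤ (2 * A + 4) * l := by
    have h1 : ((Nat.log 2 (d + 1) : ℕ) : ℝ) ≤ Real.log (((d + 1 : ℕ) : ℝ)) / Real.log 2 := by
      have h2 : (2 : ℝ) ^ (Nat.log 2 (d + 1)) ≤ ((d + 1 : ℕ) : ℝ) := by
        exact_mod_cast Nat.pow_log_le_self 2 (by omega : d + 1 ≠ 0)
      have h3 := Real.log_le_log (by positivity) h2
      rw [Real.log_pow] at h3
      rw [le_div_iff₀ (Real.log_pos (by norm_num))]
      exact h3
    have h2 : Real.log (((d + 1 : ℕ) : ℝ)) ≤ (A + 1) * l := by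
      have h3 : ((d + 1 : ℕ) : ℝ) ≤ n ^ (A + 1) := by
        have h4 : d + 1 ≤ (x + 1) ^ (A + 1) := by
          have h5 : 1 ≤ (x + 1) ^ A := Nat.one_le_pow _ _ (by omega)
          rw [pow_succ]
          nlinarith
        rw [hn]
        exact_mod_cast h4
      have h4 := Real.log_le_log (by positivity) h3
      rw [Real.log_pow] at h4
      push_cast at h4 ⊢
      exact h4
    have h3 : (0.6931471803 : ℝ) < Real.log 2 := Real.log_two_gt_d9
    have h4 : Real.log (((d + 1 : ℕ) : ℝ)) / Real.log 2 ≤ (2 * A + 2) * l := by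
      rw [div_le_iff₀ (by linarith)]
      have h5 : 0 ≤ ((A : ℝ) + 1) * l := by positivity
      nlinarith
    nlinarith
  have hc1r : (S₁.card : ℝ) ≤ (4 * l ^ K * (3 * τ)) * (2 * (3 * τ) * ((2 * A + 4) * l)) := by
    have h1 : (S₁.card : ℝ) ≤ (4 * ((DD x A' 1).card : ℝ) * ((4 * d).divisors.card : ℝ)) *
        (2 * ((4 * d).divisors.card : ℝ) * (((Nat.log 2 (d + 1) : ℕ) : ℝ) + 1)) := by exact_mod_cast hc1
    refine h1.trans ?_
    gcongr
  have hc2r : (S₂.card : ℝ) ≤ τ := by rw [hτ]; exact_mod_cast hc2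
  have hA0 : (0 : ℝ) ≤ A := Nat.cast_nonneg A
  have hfin : (4 * l ^ K * (3 * τ)) * (2 * (3 * τ) * ((2 * A + 4) * l)) + τ ≤ l ^ (K + 2) * τ ^ 2 := by
    have h1 : (4 * l ^ K * (3 * τ)) * (2 * (3 * τ) * ((2 * A + 4) * l)) =
        (72 * (2 * A + 4)) * (l ^ (K + 1) * τ ^ 2) := by ring
    have h2 : τ ≤ l ^ (K + 1) * τ ^ 2 := by
      have h3 : 1 ≤ l ^ (K + 1) := one_le_pow₀ hl1
      have h4 : τ ≤ τ ^ 2 := by nlinarith
      calc τ ≤ 1 * τ ^ 2 := by linarith
        _ ≤ _ := by gcongr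
    have h3 : l ^ (K + 2) * τ ^ 2 = l * (l ^ (K + 1) * τ ^ 2) := by ring
    have h4 : 0 ≤ l ^ (K + 1) * τ ^ 2 := by positivity
    rw [h1, h3]
    nlinarith
  have hKK : K + 2 = 12 * A + 18 := by rw [hK, hA']; ring
  rw [← hKK, hcard]
  push_cast
  linarith

end Pool.Agent.L5helper13.Ha
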