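import Pool.Agent.L5helper13.Hart3

set_option autoImplicit false

/-! Codimension two: every canonical class. -/

namespace Pool.Agent.L5helper13.Ha

open Finset Filter Topology Pool.Agent.R920.CH Pool.Agent.R852.BC Pool.Agent.N998.CT Pool.Agent.R503.PS

/-- the degree is at most the square of `c₁` -/
lemma deg_le : ∀ᶠ N : ℕ in atTop, ∀ c d : ℤ, Cond N c d → 2 ≤ c ∧ d ≤ c ^ 2 := by
  filter_upwards [stable 1 one_pos, eventually_ge_atTop 9] with N h2 hN c d hC
  have hc : 2 ≤ c := by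
    have := hC.positive 1 (by omega)
    simp only [seg] at this
    linarith
  refine ⟨hc, ?_⟩
  rcases le_or_gt (4 * d) (c ^ 2) with h | h
  · nlinarith [hC.pos]
  · obtain ⟨-, -, g3⟩ := h2 c d hC.positive hC.rr h
    have hcd : (c : ℝ) ^ 2 < 4 * d := by exact_mod_cast h
    rw [abs_of_neg (by linarith)] at g3
    have hN9 : (9 : ℝ) ≤ N := by exact_mod_cast hN
    have h3 : (64 : ℝ) ≤ ((N : ℝ) - 1) ^ 2 := by nlinarith
    have h4 : (4 * (d : ℝ) - (c : ℝ) ^ 2) * 64 ≤ 16 * (c : ℝ) ^ 2 := by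
      refine le_trans ?_ g3
      have : 0 ≤ 4 * (d : ℝ) - (c : ℝ) ^ 2 := by linarith
      nlinarith
    have h5 : (d : ℝ) ≤ (c : ℝ) ^ 2 := by nlinarith [sq_nonneg (c : ℝ)]
    exact_mod_cast h5

/-- **The nonsquare discriminants.** -/
theorem class_nonsq (A : ℕ) (ε : ℝ) (hε : 0 < ε) : ∀ᶠ N : ℕ in atTop, ∀ c : ℤ, c ≤ (N : ℤ) ^ A →
    ∀ S : Finset ℤ, (∀ d ∈ S, Cond N c d ∧ ¬ IsSquare (c ^ 2 - 4 * d)) → 0 ≤ c →
      (S.card : ℝ) * (N : ℝ) ^ (1 + 2 * Real.exp (1 / 2) - ε) ≤ c := by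
  classical
  obtain ⟨B, hB⟩ : ∃ B : ℕ, B = 2 * A := ⟨_, rfl⟩
  set K : ℕ := 3 * (2 * B + 1) + 1 with hK
  have hpred : Tendsto (fun N : ℕ => N - 1) atTop atTop := tendsto_sub_atTop_nat 1
  filter_upwards [hpred.eventually (DD_card B 1), hpred.eventually (struct B 1),
    hpred.eventually (eventually_ge_atTop 2), disc (B : ℝ), disc_le (B : ℝ),
    kernel (B : ℝ) ε hε, ev_logp (12 * B) (K + 1) (ε / 2) (by positivity), deg_le]
    with N hDD hst hx2 hdisc hdl hker hlp hdeg c hcA S hS hc0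
  obtain ⟨x, rfl⟩ : ∃ x, N = x + 1 := ⟨N - 1, by omega⟩
  rw [Nat.add_sub_cancel] at hDD hst hx2
  rcases S.eq_empty_or_nonempty with hSe | hSne
  · rw [hSe]
    simp only [card_empty, Nat.cast_zero, zero_mul]
    exact_mod_cast hc0
  set n : ℝ := ((x + 1 : ℕ) : ℝ) with hn
  have hn3 : (3 : ℝ) ≤ n := by rw [hn]; exact_mod_cast (by omega : 3 ≤ x + 1)
  have hn0 : 0 < n := by linarith
  set l : ℝ := Real.log n with hl
  have hl1 : 1 ≤ l := by
    rw [hl, Real.le_log_iff_exp_le hn0]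
    exact (Real.exp_one_lt_d9.le.trans (by norm_num)).trans hn3
  have hc2 : 2 ≤ c := by
    obtain ⟨d, hd⟩ := hSne
    exact (hdeg c d (hS d hd).1).1
  have hcr : (2 : ℝ) ≤ c := by exact_mod_cast hc2
  have hcn : (c : ℝ) ≤ n ^ A := by rw [hn]; exact_mod_cast hcA
  set Fr : ℝ := 3 * c * (B * l) / n ^ (1 + 2 * Real.exp (1 / 2) - ε / 2) with hFr
  have hFr0 : 0 ≤ Fr := by positivity
  set T : Finset ((ℤ × ℕ) × ℕ) := (({1, -1, 2, -2} : Finset ℤ) ×ˢ DD x B 1) ×ˢ Icc 1 ⌊Fr⌋₊ with hT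
  have hsub : S ⊆ T.image fun t => (c ^ 2 - t.1.1 * t.1.2 * (t.2 : ℤ) ^ 2) / 4 := by
    intro d hs
    obtain ⟨hC, hnsq⟩ := hS _ hs
    have hdr : (1 : ℝ) ≤ d := by exact_mod_cast hC.pos
    have hdc : (d : ℝ) ≤ (c : ℝ) ^ 2 := by exact_mod_cast (hdeg c d hC).2
    have hdA : (d : ℝ) ≤ n ^ (B : ℝ) := by
      rw [Real.rpow_natCast, hB, mul_comm, pow_mul]
      exact hdc.trans (pow_le_pow_left₀ (by linarith) hcn 2)
    obtain ⟨-, hD⟩ := hdisc c d hC hdA
    have hDd := hdl c d hC hdA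
    have hDn : (c ^ 2 - 4 * d).natAbs ≤ (x + 1) ^ B := by
      have h1 : (((c ^ 2 - 4 * d).natAbs : ℤ) : ℝ) ≤ (((x + 1) ^ B : ℕ) : ℝ) := by
        rw [Int.natCast_natAbs]
        rw [Real.rpow_natCast, hn] at hdA
        have h2 : ((|c ^ 2 - 4 * d| : ℤ) : ℝ) ≤ d := by exact_mod_cast hDd
        refine h2.trans (hdA.trans (le_of_eq ?_))
        push_cast
        rfl
      exact_mod_cast h1
    obtain ⟨u, δ, f, hu, hDe, hodd, hsqf, hf0, hfew, hld⟩ := hst _ hnsq hDn (cond_sq hC)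
    have hδ0 : 0 < δ := Nat.pos_of_ne_zero hsqf.ne_zero
    have hδr : (0 : ℝ) < δ := by exact_mod_cast hδ0
    have hk := hker c d hC hdA hnsq (u * δ) f hDe
    have hua : 1 ≤ |(u : ℝ)| ∧ |(u : ℝ)| ≤ 2 := by
      rcases hu with rfl | rfl | rfl | rfl <;> norm_num
    have hδbig : n ^ (4 * Real.exp (1 / 2) - ε) < 2 * δ := by
      refine hk.trans_le ?_
      push_cast
      rw [abs_mul, abs_of_pos hδr]
      nlinarith [hua.2]
    have hlogd : Real.log d ≤ B * l := by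
      have h2 := Real.log_le_log (by linarith) hdA
      rwa [Real.log_rpow hn0] at h2
    have hlogd0 : 0 ≤ Real.log (d : ℝ) := Real.log_nonneg hdr
    have hf : (f : ℝ) ≤ Fr := by
      have h1 : (δ : ℝ) * f ^ 2 ≤ |(c : ℝ) ^ 2 - 4 * d| := by
        have h2 : (c : ℝ) ^ 2 - 4 * d = u * δ * (f : ℝ) ^ 2 := by exact_mod_cast hDe
        rw [h2, abs_mul, abs_mul, abs_of_pos hδr, abs_of_nonneg (sq_nonneg (f : ℝ))]
        have : 0 ≤ (δ : ℝ) * f ^ 2 := by positivity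
        nlinarith [hua.1]
      have h2 : (δ : ℝ) * f ^ 2 * n ^ 2 ≤ 9 / 4 * ((c : ℝ) ^ 2 * (B * l) ^ 2) := by
        calc (δ : ℝ) * f ^ 2 * n ^ 2 ≤ |(c : ℝ) ^ 2 - 4 * d| * n ^ 2 := by gcongr
          _ ≤ 9 / 4 * (d * Real.log d ^ 2) := hD
          _ ≤ _ := by gcongr
      have h3 : n ^ (4 * Real.exp (1 / 2) - ε) * f ^ 2 * n ^ 2 ≤ 9 / 2 * ((c : ℝ) ^ 2 * (B * l) ^ 2) := by
        calc n ^ (4 * Real.exp (1 / 2) - ε) * f ^ 2 * n ^ 2 ≤ (2 * δ) * f ^ 2 * n ^ 2 := by gcongr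
          _ = 2 * ((δ : ℝ) * f ^ 2 * n ^ 2) := by ring
          _ ≤ _ := by linarith
      rw [hFr, le_div_iff₀ (by positivity)]
      have h4 : ((f : ℝ) * n ^ (1 + 2 * Real.exp (1 / 2) - ε / 2)) ^ 2 ≤ (3 * c * (B * l)) ^ 2 := by
        have e1 : ((f : ℝ) * n ^ (1 + 2 * Real.exp (1 / 2) - ε / 2)) ^ 2 =
            n ^ (4 * Real.exp (1 / 2) - ε) * f ^ 2 * n ^ 2 := by
          rw [mul_pow, ← Real.rpow_natCast (n ^ _) 2, ← Real.rpow_mul hn0.le]
          have e2 : (1 + 2 * Real.exp (1 / 2) - ε / 2) * ((2 : ℕ) : ℝ) =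
              (4 * Real.exp (1 / 2) - ε) + ((2 : ℕ) : ℝ) := by push_cast; ring
          rw [e2, Real.rpow_add hn0, Real.rpow_natCast]
          ring
        rw [e1, mul_pow, mul_pow]
        have : 0 ≤ (c : ℝ) ^ 2 * (B * l) ^ 2 := by positivity
        nlinarith
      exact (pow_le_pow_iff_left₀ (by positivity) (by positivity) two_ne_zero).mp h4
    have hδle : δ ≤ (x + 1) ^ B := by
      refine le_trans ?_ hDn
      rw [hDe, Int.natAbs_mul, Int.natAbs_mul, Int.natAbs_pow, Int.natAbs_natCast, Int.natAbs_natCast]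
      have hun : 1 ≤ u.natAbs := by rcases hu with rfl | rfl | rfl | rfl <;> decide
      calc δ = 1 * δ * 1 := by ring
        _ ≤ u.natAbs * δ * f ^ 2 :=
          Nat.mul_le_mul (Nat.mul_le_mul_right _ hun) (Nat.one_le_pow _ _ hf0)
    rw [mem_image]
    refine ⟨((u, δ), f), ?_, ?_⟩
    · rw [hT, mem_product, mem_product, mem_Icc]
      refine ⟨⟨by simpa using hu, ?_⟩, hf0, Nat.le_floor hf⟩
      unfold DD
      rw [mem_filter, mem_range]
      exact ⟨Nat.lt_succ_of_le hδle, hodd, hsqf, hfew, hld⟩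
    · have : c ^ 2 - u * δ * (f : ℤ) ^ 2 = d * 4 := by linarith
      simp only
      rw [this]
      exact Int.mul_ediv_cancel _ (by norm_num)
  have hcard : (S.card : ℝ) ≤ 4 * l ^ K * Fr := by
    have h1 : S.card ≤ 4 * (DD x B 1).card * ⌊Fr⌋₊ := by
      refine (card_le_card hsub).trans (card_image_le.trans (le_of_eq ?_))
      rw [hT, card_product, card_product, Nat.card_Icc]
      have : ({1, -1, 2, -2} : Finset ℤ).card = 4 := by decide
      rw [this, Nat.add_sub_cancel]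
    have h2 : (S.card : ℝ) ≤ 4 * ((DD x B 1).card : ℝ) * (⌊Fr⌋₊ : ℝ) := by exact_mod_cast h1
    have hlx : Real.log (x : ℝ) ≤ l := by
      rw [hl]
      apply Real.log_le_log
      · exact_mod_cast (by omega : 0 < x)
      · rw [hn]; push_cast; linarith
    have hlx0 : 0 ≤ Real.log (x : ℝ) := Real.log_natCast_nonneg x
    have h3 : ((DD x B 1).card : ℝ) ≤ l ^ K := hDD.trans (pow_le_pow_left₀ hlx0 hlx K)
    calc (S.card : ℝ) ≤ _ := h2
      _ ≤ 4 * l ^ K * Fr := by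
        gcongr
        exact Nat.floor_le hFr0
  calc (S.card : ℝ) * n ^ (1 + 2 * Real.exp (1 / 2) - ε)
      ≤ 4 * l ^ K * Fr * n ^ (1 + 2 * Real.exp (1 / 2) - ε) := by gcongr
    _ = (12 * B * l ^ (K + 1)) * c * (n ^ (1 + 2 * Real.exp (1 / 2) - ε) /
          n ^ (1 + 2 * Real.exp (1 / 2) - ε / 2)) := by
        rw [hFr]
        ring
    _ = (12 * B * l ^ (K + 1)) * c * n ^ (-(ε / 2)) := by
        rw [← Real.rpow_sub hn0]
        congr 2
        ring
    _ ≤ n ^ (ε / 2) * c * n ^ (-(ε / 2)) := by gcongr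
    _ = c := by
        rw [mul_right_comm, ← Real.rpow_add hn0, add_neg_cancel, Real.rpow_zero, one_mul]

/-- **All degrees for a given canonical class.** -/
theorem class_all (A : ℕ) (hA : 1 ≤ A) : ∀ᶠ N : ℕ in atTop, ∀ c : ℤ, c ≤ (N : ℤ) ^ A →
    ∀ S : Finset ℤ, (∀ d ∈ S, Cond N c d) → 0 ≤ c →
      (S.card : ℝ) * N ≤ 2 * A * c * Real.log N := by
  classical
  filter_upwards [class_nonsq A 1 one_pos, disc ((2 * A : ℕ) : ℝ), deg_le, ev_ge' 3000 1 one_pos]
    with N h1 h2 hdeg hN500 c hcA S hS hc0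
  rw [Real.rpow_one] at hN500
  have hN0 : (0 : ℝ) < N := by linarith
  set l : ℝ := Real.log N with hl
  have hl8 : 8 ≤ l := by
    rw [hl, Real.le_log_iff_exp_le hN0]
    have h5 : Real.exp 8 = Real.exp 1 ^ 8 := by
      rw [← Real.exp_nat_mul]; norm_num
    rw [h5]
    have h6 := Real.exp_one_lt_d9
    have h7 : Real.exp 1 ^ 8 ≤ 2.7182818286 ^ 8 :=
      pow_le_pow_left₀ (Real.exp_pos 1).le h6.le 8
    have h8 : (2.7182818286 : ℝ) ^ 8 ≤ 3000 := by norm_num
    linarith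
  have hAr : (1 : ℝ) ≤ A := by exact_mod_cast hA
  have hcr0 : (0 : ℝ) ≤ c := by exact_mod_cast hc0
  have hcn : (c : ℝ) ≤ (N : ℝ) ^ A := by exact_mod_cast hcA
  set S₁ := S.filter fun d : ℤ => ¬ IsSquare (c ^ 2 - 4 * d) with hS₁
  set S₂ := S.filter fun d : ℤ => ¬ ¬ IsSquare (c ^ 2 - 4 * d) with hS₂
  have hcard : S.card = S₁.card + S₂.card := (card_filter_add_card_filter_not _).symm
  have hc1 : (S₁.card : ℝ) * N ≤ c := by
    have h4 := h1 c hcA S₁ (by
      intro d hd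
      rw [hS₁, mem_filter] at hd
      exact ⟨hS d hd.1, hd.2⟩) hc0
    refine le_trans ?_ h4
    apply mul_le_mul_of_nonneg_left _ (Nat.cast_nonneg _)
    conv_lhs => rw [← Real.rpow_one (N : ℝ)]
    apply Real.rpow_le_rpow_of_exponent_le (by linarith)
    have := exp_half_bounds.1
    linarith
  have hc2 : (S₂.card : ℝ) * N ≤ 3 / 2 * A * c * l + c := by
    rcases S₂.eq_empty_or_nonempty with he | hne
    · rw [he]
      simp only [card_empty, Nat.cast_zero, zero_mul]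
      positivity
    have hsh : ∀ d ∈ S₂, ∃ s : ℕ, c ^ 2 - 4 * d = (s : ℤ) ^ 2 ∧ (s : ℝ) * N ≤ 3 / 2 * (A * c * l) ∧
        (N : ℝ) ≤ c := by
      intro d hd
      rw [hS₂, mem_filter, not_not] at hd
      obtain ⟨hdS, r, hr⟩ := hd
      have hC := hS d hdS
      have hdr : (1 : ℝ) ≤ d := by exact_mod_cast hC.pos
      have h4d : 4 * d ≤ c ^ 2 := by nlinarith [mul_self_nonneg r]
      have h4dr : 4 * (d : ℝ) ≤ (c : ℝ) ^ 2 := by exact_mod_cast h4d
      have hdA : (d : ℝ) ≤ (N : ℝ) ^ (((2 * A : ℕ) : ℝ)) := by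
        rw [Real.rpow_natCast, mul_comm, pow_mul]
        have := pow_le_pow_left₀ hcr0 hcn 2
        linarith
      obtain ⟨-, hD⟩ := h2 c d hC hdA
      have hlog : Real.log d ≤ 2 * A * l := by
        have h5 := Real.log_le_log (by linarith) hdA
        rw [Real.log_rpow hN0] at h5
        push_cast at h5
        linarith
      have hlog0 : 0 ≤ Real.log (d : ℝ) := Real.log_nonneg hdr
      refine ⟨r.natAbs, ?_, ?_, ?_⟩
      · rw [hr, Int.natAbs_sq]; ring
      · have e1 : ((r.natAbs : ℕ) : ℝ) ^ 2 = |(c : ℝ) ^ 2 - 4 * d| := by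
          have h5 : (c : ℝ) ^ 2 - 4 * d = (r : ℝ) * r := by exact_mod_cast hr
          have h6 : ((r.natAbs : ℕ) : ℝ) = |(r : ℝ)| := by rw [Nat.cast_natAbs, Int.cast_abs]
          rw [h5, abs_mul_self, h6, sq_abs, pow_two]
        have h5 : (((r.natAbs : ℕ) : ℝ) * N) ^ 2 ≤ (3 / 2 * (A * c * l)) ^ 2 := by
          rw [mul_pow, e1]
          refine hD.trans ?_
          have h6 : Real.log d ^ 2 ≤ (2 * A * l) ^ 2 := pow_le_pow_left₀ hlog0 hlog 2
          calc 9 / 4 * ((d : ℝ) * Real.log d ^ 2) ≤ 9 / 4 * ((c : ℝ) ^ 2 / 4 * (2 * A * l) ^ 2) := by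
                gcongr
                linarith
            _ = (3 / 2 * (A * c * l)) ^ 2 := by ring
        exact (pow_le_pow_iff_left₀ (by positivity) (by positivity) two_ne_zero).mp h5
      · obtain ⟨a', b', hab', hb', hba', hz, -⟩ := hC.unstable h4d
        have h5 : 0 < a' * b' := mul_pos (by linarith) hb'
        have h6 : (N : ℤ) ^ 2 ≤ 4 * d := by omega
        have h7 : (N : ℤ) ^ 2 ≤ c ^ 2 := by linarith
        have h8 : (N : ℤ) ≤ c := by
          by_contra hcon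
          push Not at hcon
          nlinarith
        exact_mod_cast h8
    choose! s hs1 hs2 hs3 using hsh
    obtain ⟨d₀, hd₀⟩ := hne
    have hNc := hs3 d₀ hd₀
    set M : ℝ := 3 / 2 * (A * c * l) / N with hM
    have hM0 : 0 ≤ M := by positivity
    have hcount : S₂.card ≤ (range (⌊M⌋₊ + 1)).card := by
      apply card_le_card_of_injOn s
      · intro d hd
        have hd' : d ∈ S₂ := hd
        rw [mem_coe, mem_range, Nat.lt_succ_iff]
        apply Nat.le_floor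
        rw [hM, le_div_iff₀ hN0]
        exact hs2 d hd'
      · intro d hd d' hd' heq
        have hd1 : d ∈ S₂ := hd
        have hd2 : d' ∈ S₂ := hd'
        have h5 := hs1 d hd1
        have h6 := hs1 d' hd2
        rw [heq] at h5
        linarith
    rw [card_range] at hcount
    have h5 : (S₂.card : ℝ) ≤ M + 1 := by
      have h6 : (S₂.card : ℝ) ≤ (⌊M⌋₊ : ℝ) + 1 := by exact_mod_cast hcount
      have := Nat.floor_le hM0
      linarith
    calc (S₂.card : ℝ) * N ≤ (M + 1) * N := by gcongr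
      _ = M * N + N := by ring
      _ = 3 / 2 * (A * c * l) + N := by rw [hM, div_mul_cancel₀ _ hN0.ne']
      _ ≤ _ := by linarith
  rw [hcard]
  push_cast
  have h9 : 2 * (c : ℝ) ≤ 1 / 2 * (A * c * l) := by
    have h10 : 8 ≤ (A : ℝ) * l := by nlinarith
    nlinarith
  nlinarith

end Pool.Agent.L5helper13.Ha
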