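import Pool.Agent.L5helper13.Shat

/-!
Library L5helper13: infinite sets of positions contain infinite subsets with nearly independent values.
-/

set_option autoImplicit false

namespace Pool.Agent.L5helper13

open Finset Filter Topology

lemma step (C : Finset ℕ → ℝ) (hB : ∀ T H : Finset ℕ, Disjoint T H → ∑ h ∈ H, C (insert h T) ^ 2 ≤ 1)
    (a : ℕ → ℕ) (ha : StrictMono a) (B : Finset ℕ) (m M : ℕ) (hM : 1 ≤ M) (hBm : ∀ b ∈ B, b ≤ a m) :
    ∃ m' ∈ Ioc m (m + M), ∑ T ∈ B.powerset, |C (insert (a m') T)| ≤ 2 ^ B.card / Real.sqrt M := by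
  have hMr : (0 : ℝ) < M := by exact_mod_cast hM
  have h1 : ∑ m' ∈ Ioc m (m + M), ∑ T ∈ B.powerset, C (insert (a m') T) ^ 2 ≤
      ∑ _m' ∈ Ioc m (m + M), (2 : ℝ) ^ B.card / M := by
    rw [sum_comm]
    have h2 : ∀ T ∈ B.powerset, ∑ m' ∈ Ioc m (m + M), C (insert (a m') T) ^ 2 ≤ 1 := by
      intro T hT
      rw [mem_powerset] at hT
      have h3 := hB T ((Ioc m (m + M)).image a) (by
        rw [Finset.disjoint_left]
        intro x hx hx'
        rw [Finset.mem_image] at hx'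
        obtain ⟨i, hi, rfl⟩ := hx'
        rw [mem_Ioc] at hi
        have h4 := hBm _ (hT hx)
        have h5 := ha hi.1
        omega)
      rw [sum_image (fun x _ y _ h => ha.injective h)] at h3
      exact h3
    refine (sum_le_sum h2).trans (le_of_eq ?_)
    rw [sum_const, sum_const, card_powerset, Nat.card_Ioc, nsmul_eq_mul, nsmul_eq_mul, mul_one]
    push_cast
    rw [Nat.add_sub_cancel_left]
    field_simp
  obtain ⟨m', hm', h2⟩ := exists_le_of_sum_le (by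
    rw [nonempty_Ioc]
    omega) h1
  refine ⟨m', hm', ?_⟩
  have h3 : (∑ T ∈ B.powerset, |C (insert (a m') T)|) ^ 2 ≤ (2 ^ B.card / Real.sqrt M) ^ 2 := by
    refine sq_sum_le_card_mul_sum_sq.trans ?_
    rw [div_pow, Real.sq_sqrt hMr.le, card_powerset]
    push_cast
    have h4 : ∑ T ∈ B.powerset, |C (insert (a m') T)| ^ 2 = ∑ T ∈ B.powerset, C (insert (a m') T) ^ 2 :=
      sum_congr rfl fun T _ => sq_abs _
    rw [h4]
    calc (2 : ℝ) ^ B.card * ∑ T ∈ B.powerset, C (insert (a m') T) ^ 2 ≤ 2 ^ B.card * (2 ^ B.card / M) :=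
          mul_le_mul_of_nonneg_left h2 (by positivity)
      _ = _ := by ring
  exact le_of_sq_le_sq h3 (by positivity)

/-- the choice of the positions -/
theorem greedy (q ε : ℝ) (hq : 4 < q) (hε : 0 < ε) : ∃ K : ℝ, ∀ (C : Finset ℕ → ℝ), C ∅ = 1 →
    (∀ T H : Finset ℕ, Disjoint T H → ∑ h ∈ H, C (insert h T) ^ 2 ≤ 1) → ∀ a : ℕ → ℕ, StrictMono a →
    ∃ ψ : ℕ → ℕ, StrictMono ψ ∧ (∀ j, (ψ j : ℝ) ≤ K * q ^ j) ∧
      ∀ n, ∑ S ∈ ((range n).image (a ∘ ψ)).powerset.erase ∅, |C S| ≤ ε := by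
  have hq0 : 0 < q := by linarith
  obtain ⟨r, hr⟩ : ∃ r : ℝ, r = 2 / Real.sqrt q := ⟨_, rfl⟩
  have hsq : Real.sqrt q ^ 2 = q := Real.sq_sqrt hq0.le
  have hs0 : 0 < Real.sqrt q := Real.sqrt_pos.2 hq0
  have hs2 : 2 < Real.sqrt q := by
    by_contra h
    rw [not_lt] at h
    nlinarith
  have hr0 : 0 < r := by rw [hr]; positivity
  have hr1 : r < 1 := by rw [hr, div_lt_one hs0]; exact hs2
  have hr2 : r ^ 2 = 4 / q := by
    rw [hr, div_pow, hsq]
    norm_num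
  obtain ⟨w, hw⟩ : ∃ w : ℕ → ℝ, w = fun j => ε * (1 - r) * r ^ j := ⟨_, rfl⟩
  have hw0 : ∀ j, 0 < w j := by
    intro j
    rw [hw]
    have : 0 < 1 - r := by linarith
    positivity
  obtain ⟨c, hc⟩ : ∃ c : ℝ, c = 1 / (ε * (1 - r)) ^ 2 := ⟨_, rfl⟩
  have hc0 : 0 < c := by
    rw [hc]
    have : 0 < 1 - r := by linarith
    positivity
  have hcw : ∀ j : ℕ, (4 : ℝ) ^ j / w j ^ 2 = c * q ^ j := by
    intro j
    have h1 : 0 < 1 - r := by linarith
    rw [hw]
    simp only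
    have e1 : (ε * (1 - r) * r ^ j) ^ 2 = (ε * (1 - r)) ^ 2 * (4 ^ j / q ^ j) := by
      rw [mul_pow, ← pow_mul, mul_comm j 2, pow_mul, hr2, div_pow]
    rw [e1, hc]
    field_simp
  obtain ⟨M, hM⟩ : ∃ M : ℕ → ℕ, M = fun j => ⌈c * q ^ j⌉₊ := ⟨_, rfl⟩
  have hM1 : ∀ j, c * q ^ j ≤ M j := fun j => by rw [hM]; exact Nat.le_ceil _
  have hM2 : ∀ j, (M j : ℝ) ≤ c * q ^ j + 1 := fun j => by
    rw [hM]
    exact (Nat.ceil_lt_add_one (by positivity)).le
  have hM3 : ∀ j, 1 ≤ M j := by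
    intro j
    have h1 : (0 : ℝ) < M j := lt_of_lt_of_le (by positivity) (hM1 j)
    exact_mod_cast h1
  refine ⟨(c + 1) * q / (q - 1), fun C hC0 hB a ha => ?_⟩
  have key : ∀ (j : ℕ) (B : Finset ℕ) (m : ℕ), ∃ m' : ℕ, (∀ b ∈ B, b ≤ a m) → B.card = j →
      m' ∈ Ioc m (m + M j) ∧ ∑ T ∈ B.powerset, |C (insert (a m') T)| ≤ w j := by
    intro j B m
    by_cases h : (∀ b ∈ B, b ≤ a m) ∧ B.card = j
    · obtain ⟨m', h1, h2⟩ := step C hB a ha B m (M j) (hM3 j) h.1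
      refine ⟨m', fun _ _ => ⟨h1, h2.trans ?_⟩⟩
      rw [h.2]
      have hMr : (0 : ℝ) < M j := by exact_mod_cast hM3 j
      have h3 : (2 ^ j / Real.sqrt (M j)) ^ 2 ≤ w j ^ 2 := by
        rw [div_pow, Real.sq_sqrt hMr.le, div_le_iff₀ hMr]
        have h4 := hM1 j
        rw [← hcw j, div_le_iff₀ (pow_pos (hw0 j) 2)] at h4
        calc ((2 : ℝ) ^ j) ^ 2 = 4 ^ j := by rw [← pow_mul, mul_comm, pow_mul]; norm_num
          _ ≤ _ := by linarith
      exact le_of_sq_le_sq h3 (hw0 j).le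
    · exact ⟨0, fun h1 h2 => absurd ⟨h1, h2⟩ h⟩
  choose nx hnx using key
  obtain ⟨st, hst0, hstS⟩ : ∃ st : ℕ → Finset ℕ × ℕ, st 0 = (∅, 0) ∧
      ∀ j, st (j + 1) = (insert (a (nx j (st j).1 (st j).2)) (st j).1, nx j (st j).1 (st j).2) := by
    refine ⟨fun n => Nat.rec (∅, 0) (fun j p => (insert (a (nx j p.1 p.2)) p.1, nx j p.1 p.2)) n, rfl, fun j => rfl⟩
  have hinv : ∀ j, (∀ b ∈ (st j).1, b ≤ a (st j).2) ∧ (st j).1.card = j := by
    intro j
    induction j with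
    | zero => rw [hst0]; simp
    | succ j ih =>
      obtain ⟨h1, -⟩ := hnx j (st j).1 (st j).2 ih.1 ih.2
      rw [mem_Ioc] at h1
      rw [hstS]
      refine ⟨?_, ?_⟩
      · intro b hb
        rw [mem_insert] at hb
        rcases hb with rfl | hb
        · exact le_rfl
        · exact (ih.1 b hb).trans (ha h1.1).le
      · rw [card_insert_of_notMem, ih.2]
        intro h2
        have h3 := ih.1 _ h2
        have h4 := ha h1.1
        omega
  have hnx' := fun j => hnx j (st j).1 (st j).2 (hinv j).1 (hinv j).2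
  obtain ⟨ψ, hψ⟩ : ∃ ψ : ℕ → ℕ, ψ = fun j => (st (j + 1)).2 := ⟨_, rfl⟩
  have hψ1 : ∀ j, ψ j = nx j (st j).1 (st j).2 := by
    intro j
    rw [hψ]
    simp only
    rw [hstS]
  have hψ2 : ∀ j, (st (j + 1)).2 = ψ j := fun j => by rw [hψ]
  have hset : ∀ n, (st n).1 = (range n).image (a ∘ ψ) := by
    intro n
    induction n with
    | zero => rw [hst0]; simp
    | succ n ih =>
      rw [range_add_one, image_insert, ← ih, hstS]
      simp only [Function.comp_apply]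
      rw [hψ1]
  refine ⟨ψ, ?_, ?_, ?_⟩
  · refine strictMono_nat_of_lt_succ fun j => ?_
    have h1 := (hnx' (j + 1)).1
    rw [mem_Ioc, ← hψ1, hψ2] at h1
    exact h1.1
  · intro j
    have hq1 : 0 < q - 1 := by linarith
    induction j with
    | zero =>
      have h1 := (hnx' 0).1
      rw [mem_Ioc, ← hψ1, hst0] at h1
      have h2 : (ψ 0 : ℝ) ≤ M 0 := by
        have : ψ 0 ≤ 0 + M 0 := h1.2
        rw [zero_add] at this
        exact_mod_cast this
      refine h2.trans ((hM2 0).trans ?_)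
      rw [pow_zero, mul_one, mul_one, le_div_iff₀ hq1]
      nlinarith
    | succ j ih =>
      have h1 := (hnx' (j + 1)).1
      rw [mem_Ioc, ← hψ1, hψ2] at h1
      have h2 : (ψ (j + 1) : ℝ) ≤ ψ j + M (j + 1) := by exact_mod_cast h1.2
      have h3 := hM2 (j + 1)
      have h4 : (1 : ℝ) ≤ q ^ (j + 1) := one_le_pow₀ (by linarith)
      have h5 : (c + 1) * q / (q - 1) * q ^ (j + 1) = (c + 1) * q / (q - 1) * q ^ j + (c + 1) * q ^ (j + 1) := by
        rw [pow_succ]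
        field_simp
        ring
      rw [h5]
      nlinarith
  · intro n
    have h1 : ∑ S ∈ ((range n).image (a ∘ ψ)).powerset, |C S| ≤ 1 + ∑ j ∈ range n, w j := by
      induction n with
      | zero => simp [hC0]
      | succ n ih =>
        have h2 : a (ψ n) ∉ (range n).image (a ∘ ψ) := by
          rw [← hset n]
          intro h2
          have h3 := (hinv n).1 _ h2
          have h4 := (hnx' n).1
          rw [mem_Ioc, ← hψ1] at h4
          have h5 := ha h4.1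
          omega
        rw [range_add_one, image_insert, Function.comp_apply, sum_powerset_insert h2, sum_insert notMem_range_self]
        have h3 := (hnx' n).2
        rw [← hψ1, hset n] at h3
        linarith
    have h2 : ∑ j ∈ range n, w j ≤ ε := by
      rw [hw]
      rw [← mul_sum, geom_sum_eq hr1.ne]
      have h3 : (r ^ n - 1) / (r - 1) = (1 - r ^ n) / (1 - r) := by
        rw [← neg_div_neg_eq]
        congr 1 <;> ring
      rw [h3]
      have h4 : 0 < 1 - r := by linarith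
      have h5 : 0 < r ^ n := by positivity
      calc ε * (1 - r) * ((1 - r ^ n) / (1 - r)) = ε * (1 - r ^ n) := by field_simp
        _ ≤ ε := by nlinarith
    rw [← sum_erase_add _ _ (empty_mem_powerset _), hC0, abs_one] at h1
    linarith

lemma cr_le (S : Finset ℕ) (N : ℕ) : |cr S N| ≤ N := by
  unfold cr
  refine (abs_sum_le_sum_abs _ _).trans ?_
  have h1 : ∀ n ∈ Icc 1 N, |∏ h ∈ S, lr (n + h)| ≤ 1 := by
    intro n _
    rw [abs_prod]
    refine prod_le_one (fun _ _ => abs_nonneg _) fun h _ => ?_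
    rcases lr_cases (n + h) with h1 | h1 <;> rw [h1] <;> norm_num
  refine (sum_le_sum h1).trans (le_of_eq ?_)
  simp

lemma cr_empty (N : ℕ) : cr ∅ N = N := by
  unfold cr
  simp

/-- **infinite sets of positions** -/
theorem inf_shat {F : Set ℕ} (hF : SmallC F) (q ε : ℝ) (hq : 4 < q) (hε : 0 < ε) : ∃ K : ℝ, ∀ a s : ℕ → ℕ,
    StrictMono a → StrictMono s → (∀ j, s j ∉ F) → ∃ φ ψ : ℕ → ℕ, StrictMono φ ∧ StrictMono ψ ∧
      (∀ j, (ψ j : ℝ) ≤ K * q ^ j) ∧ ∀ G : Finset ℕ, ∃ j₀ : ℕ, ∀ j : ℕ, j₀ ≤ j → ∀ P ⊆ G.image (a ∘ ψ),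
        |(occ (G.image (a ∘ ψ)) P (s (φ j)) : ℝ) - s (φ j) / 2 ^ G.card| ≤ ε * (s (φ j) / 2 ^ G.card) := by
  obtain ⟨K, hK⟩ := greedy q (ε / 2) hq (by positivity)
  refine ⟨K, fun a s ha hs hsF => ?_⟩
  -- the limit of the correlations
  have hx : ∀ (j : ℕ) (S : Finset ℕ), cr S (s (j + 1)) / s (j + 1) ∈ Set.Icc (-1 : ℝ) 1 := by
    intro j S
    have h1 : 0 < s (j + 1) := lt_of_le_of_lt (Nat.zero_le _) (hs (Nat.lt_succ_self j))
    have h2 : (0 : ℝ) < s (j + 1) := by exact_mod_cast h1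
    rw [Set.mem_Icc, ← abs_le, abs_div, abs_of_pos h2, div_le_one h2]
    exact cr_le S _
  obtain ⟨L, φ, hφ, hL⟩ := CompactSpace.tendsto_subseq
    (fun j => (fun S => ⟨cr S (s (j + 1)) / s (j + 1), hx j S⟩ : Finset ℕ → Set.Icc (-1 : ℝ) 1))
  have hφ1 : StrictMono (fun j => φ j + 1) := fun i j h => Nat.succ_lt_succ (hφ h)
  obtain ⟨C, hC⟩ : ∃ C : Finset ℕ → ℝ, C = fun S => (L S : ℝ) := ⟨_, rfl⟩
  have hlim : ∀ S, Tendsto (fun j => cr S (s (φ j + 1)) / s (φ j + 1)) atTop (𝓝 (C S)) := by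
    intro S
    rw [hC]
    have h1 := tendsto_pi_nhds.1 hL S
    exact (continuous_subtype_val.tendsto _).comp h1
  have hpos : ∀ j, 0 < s (φ j + 1) := fun j => lt_of_le_of_lt (Nat.zero_le _) (hs (Nat.lt_succ_self (φ j)))
  have hposr : ∀ j, (0 : ℝ) < s (φ j + 1) := fun j => by exact_mod_cast hpos j
  have hsφ : StrictMono (fun j => s (φ j + 1)) := fun i j h => hs (hφ1 h)
  have hC0 : C ∅ = 1 := by
    refine tendsto_nhds_unique (hlim ∅) ?_
    refine tendsto_const_nhds.congr fun j => ?_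
    rw [cr_empty, div_self (hposr j).ne']
  have hB : ∀ T H : Finset ℕ, Disjoint T H → ∑ h ∈ H, C (insert h T) ^ 2 ≤ 1 := by
    intro T H hTH
    refine le_of_forall_pos_le_add fun ε' hε' => ?_
    obtain ⟨N₀, hN₀⟩ := bes F hF T H hTH ε' hε'
    have h1 : Tendsto (fun j => ∑ h ∈ H, (cr (insert h T) (s (φ j + 1)) / s (φ j + 1)) ^ 2) atTop
        (𝓝 (∑ h ∈ H, C (insert h T) ^ 2)) := tendsto_finsetSum _ fun h _ => (hlim _).pow 2
    refine le_of_tendsto h1 ?_
    filter_upwards [eventually_ge_atTop N₀] with j hj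
    have h2 := hN₀ (s (φ j + 1)) (hj.trans (hsφ.id_le j)) (hsF _)
    have h3 : ∑ h ∈ H, (cr (insert h T) (s (φ j + 1)) / s (φ j + 1)) ^ 2 =
        (∑ h ∈ H, cr (insert h T) (s (φ j + 1)) ^ 2) / (s (φ j + 1) : ℝ) ^ 2 := by
      rw [sum_div]
      refine sum_congr rfl fun h _ => ?_
      rw [div_pow]
    rw [h3, div_le_iff₀ (by have := hposr j; positivity)]
    exact h2
  obtain ⟨ψ, hψ1, hψ2, hψ3⟩ := hK C hC0 hB a ha
  refine ⟨fun j => φ j + 1, ψ, hφ1, hψ1, hψ2, fun G => ?_⟩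
  have haψ : Function.Injective (a ∘ ψ) := ha.injective.comp hψ1.injective
  have hcard : (G.image (a ∘ ψ)).card = G.card := card_image_of_injective _ haψ
  have h1 : ∑ S ∈ (G.image (a ∘ ψ)).powerset.erase ∅, |C S| ≤ ε / 2 := by
    obtain ⟨n, hn⟩ : ∃ n, G ⊆ range n := ⟨G.sup id + 1, fun x hx => mem_range.2 (Nat.lt_succ_of_le (le_sup (f := id) hx))⟩
    refine le_trans ?_ (hψ3 n)
    refine sum_le_sum_of_subset_of_nonneg ?_ fun _ _ _ => abs_nonneg _
    exact erase_subset_erase _ (powerset_mono.2 (image_subset_image hn))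
  have h2 : Tendsto (fun j => ∑ S ∈ (G.image (a ∘ ψ)).powerset.erase ∅, |cr S (s (φ j + 1)) / s (φ j + 1)|) atTop
      (𝓝 (∑ S ∈ (G.image (a ∘ ψ)).powerset.erase ∅, |C S|)) := tendsto_finsetSum _ fun S _ => (hlim S).abs
  have h3 := h2.eventually_lt_const (lt_of_le_of_lt h1 (by linarith : ε / 2 < ε))
  obtain ⟨j₀, hj₀⟩ := eventually_atTop.1 h3
  refine ⟨j₀, fun j hj P hP => ?_⟩
  have h4 := occ_dev (G.image (a ∘ ψ)) P hP (s (φ j + 1))
  rw [hcard] at h4
  refine h4.trans ?_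
  rw [mul_div_assoc']
  apply div_le_div_of_nonneg_right _ (by positivity)
  have h5 := hj₀ j hj
  have h6 : ∑ S ∈ (G.image (a ∘ ψ)).powerset.erase ∅, |cr S (s (φ j + 1)) / s (φ j + 1)| =
      (∑ S ∈ (G.image (a ∘ ψ)).powerset.erase ∅, |cr S (s (φ j + 1))|) / s (φ j + 1) := by
    rw [sum_div]
    refine sum_congr rfl fun S _ => ?_
    rw [abs_div, abs_of_pos (hposr j)]
  rw [h6, div_lt_iff₀ (hposr j)] at h5
  exact h5.le

end Pool.Agent.L5helper13
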