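import Mathlib

/-!
Library L5helper13: sign patterns and the products of signs over the subsets (finite Fourier analysis).
-/

set_option autoImplicit false

namespace Pool.Agent.L5helper13

open Finset

variable {ι : Type} [DecidableEq ι]

/-- the character -/
def chi (P S : Finset ι) : ℂ := ∏ i ∈ S, (if i ∈ P then 1 else -1)

lemma chi_real (P S : Finset ι) : (starRingEnd ℂ) (chi P S) = chi P S := by
  unfold chi
  rw [map_prod]
  refine prod_congr rfl fun i _ => ?_
  split_ifs <;> simp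

lemma chi_orth (B S S' : Finset ι) (hS : S ⊆ B) (hS' : S' ⊆ B) :
    ∑ P ∈ B.powerset, chi P S * chi P S' = if S = S' then (2 : ℂ) ^ B.card else 0 := by
  set b : ι → ℂ := fun i => (if i ∈ S then -1 else 1) * (if i ∈ S' then -1 else 1) with hb
  have h1 : ∀ P ∈ B.powerset, chi P S * chi P S' = (∏ i ∈ P, (fun _ => (1 : ℂ)) i) * ∏ i ∈ B \ P, b i := by
    intro P hP
    rw [mem_powerset] at hP
    rw [prod_const_one, one_mul]
    have e1 : ∀ T : Finset ι, T ⊆ B → chi P T = ∏ i ∈ B \ P, (if i ∈ T then (-1 : ℂ) else 1) := by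
      intro T hT
      unfold chi
      have e2 : ∏ i ∈ B \ P, (if i ∈ T then (-1 : ℂ) else 1) = ∏ i ∈ T \ P, (-1 : ℂ) := by
        rw [prod_ite_mem]
        congr 1
        ext i
        simp only [mem_inter, mem_sdiff]
        exact ⟨fun h => ⟨h.2, h.1.2⟩, fun h => ⟨⟨hT h.1, h.2⟩, h.1⟩⟩
      rw [e2, ← prod_sdiff (inter_subset_left : T ∩ P ⊆ T)]
      have e3 : ∏ i ∈ T ∩ P, (if i ∈ P then (1 : ℂ) else -1) = 1 := by
        apply prod_eq_one
        intro i hi
        rw [if_pos (mem_inter.1 hi).2]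
      rw [e3, mul_one, sdiff_inter_self_left]
      refine prod_congr rfl fun i hi => ?_
      rw [if_neg (mem_sdiff.1 hi).2]
    rw [e1 S hS, e1 S' hS', ← prod_mul_distrib]
  rw [sum_congr rfl h1, ← prod_add]
  split_ifs with h
  · subst h
    rw [← prod_const]
    refine prod_congr rfl fun i _ => ?_
    rw [hb]
    simp only
    split_ifs <;> norm_num
  · have h2 : ∃ i ∈ B, b i = -1 := by
      by_contra hcon
      push Not at hcon
      apply h
      ext i
      by_cases hi : i ∈ B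
      · have h3 := hcon i hi
        rw [hb] at h3
        simp only at h3
        by_cases h4 : i ∈ S <;> by_cases h5 : i ∈ S' <;> simp [h4, h5] at h3 ⊢
      · exact ⟨fun h4 => absurd (hS h4) hi, fun h4 => absurd (hS' h4) hi⟩
    obtain ⟨i, hi, h3⟩ := h2
    exact prod_eq_zero hi (by rw [h3]; norm_num)

/-- **Parseval** -/
lemma parseval (B : Finset ι) (Q : Finset (Finset ι)) (hQ : Q ⊆ B.powerset) (c : Finset ι → ℂ) :
    ∑ P ∈ B.powerset, ‖∑ S ∈ Q, chi P S * c S‖ ^ 2 = 2 ^ B.card * ∑ S ∈ Q, ‖c S‖ ^ 2 := by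
  have h1 : ((∑ P ∈ B.powerset, ‖∑ S ∈ Q, chi P S * c S‖ ^ 2 : ℝ) : ℂ) =
      ((2 ^ B.card * ∑ S ∈ Q, ‖c S‖ ^ 2 : ℝ) : ℂ) := by
    push_cast
    have e1 : ∀ P ∈ B.powerset, ((‖∑ S ∈ Q, chi P S * c S‖ : ℂ)) ^ 2 =
        ∑ S ∈ Q, ∑ S' ∈ Q, (c S * (starRingEnd ℂ) (c S')) * (chi P S * chi P S') := by
      intro P _
      rw [← Complex.ofReal_pow, ← Complex.normSq_eq_norm_sq, ← Complex.mul_conj, map_sum, sum_mul_sum]
      refine sum_congr rfl fun S _ => sum_congr rfl fun S' _ => ?_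
      rw [map_mul, chi_real]
      ring
    rw [sum_congr rfl e1, sum_comm, mul_sum]
    refine sum_congr rfl fun S hS => ?_
    rw [sum_comm]
    have e2 : ∀ S' ∈ Q, ∑ P ∈ B.powerset, (c S * (starRingEnd ℂ) (c S')) * (chi P S * chi P S') =
        if S = S' then (2 : ℂ) ^ B.card * (c S * (starRingEnd ℂ) (c S)) else 0 := by
      intro S' hS'
      rw [← mul_sum, chi_orth B S S' (mem_powerset.1 (hQ hS)) (mem_powerset.1 (hQ hS'))]
      split_ifs with h
      · subst h; ring
      · rw [mul_zero]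
    rw [sum_congr rfl e2, sum_ite_eq, if_pos hS, Complex.mul_conj, Complex.normSq_eq_norm_sq]
    push_cast
    rfl
  exact_mod_cast h1

/-- the indicator function of a pattern -/
lemma pat_ind (B P : Finset ι) (hP : P ⊆ B) (x : ι → ℂ) (hx : ∀ i, x i = 1 ∨ x i = -1)
    [DecidablePred fun i => x i = 1] :
    (if B.filter (fun i => x i = 1) = P then (1 : ℂ) else 0) =
      (1 / 2 ^ B.card) * ∑ S ∈ B.powerset, chi P S * ∏ i ∈ S, x i := by
  have h1 : ∑ S ∈ B.powerset, chi P S * ∏ i ∈ S, x i =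
      ∏ i ∈ B, (1 + (if i ∈ P then 1 else -1) * x i) := by
    rw [prod_one_add]
    refine sum_congr rfl fun S _ => ?_
    unfold chi
    rw [← prod_mul_distrib]
  rw [h1]
  have h2 : (2 : ℂ) ^ B.card ≠ 0 := pow_ne_zero _ two_ne_zero
  split_ifs with h
  · have h3 : ∏ i ∈ B, (1 + (if i ∈ P then 1 else -1) * x i) = (2 : ℂ) ^ B.card := by
      rw [← prod_const]
      refine prod_congr rfl fun i hi => ?_
      by_cases hiP : i ∈ P
      · rw [if_pos hiP]
        rw [← h, mem_filter] at hiP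
        rw [hiP.2]; norm_num
      · rw [if_neg hiP]
        have h4 : x i ≠ 1 := fun h5 => hiP (by rw [← h, mem_filter]; exact ⟨hi, h5⟩)
        rw [(hx i).resolve_left h4]; norm_num
    rw [h3]
    field_simp
  · have h3 : ∃ i ∈ B, (1 + (if i ∈ P then 1 else -1) * x i) = 0 := by
      by_contra hcon
      push Not at hcon
      apply h
      ext i
      rw [mem_filter]
      constructor
      · rintro ⟨hi, h4⟩
        by_contra hiP
        apply hcon i hi
        rw [if_neg hiP, h4]; norm_num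
      · intro hiP
        refine ⟨hP hiP, ?_⟩
        by_contra h4
        apply hcon i (hP hiP)
        rw [if_pos hiP, (hx i).resolve_left h4]; norm_num
    obtain ⟨i, hi, h4⟩ := h3
    rw [prod_eq_zero hi h4, mul_zero]

/-- the distribution of the patterns in terms of the sums of the products -/
lemma pat_sum {κ : Type} (I : Finset κ) (B : Finset ι) (x : ι → κ → ℂ) (hx : ∀ i n, x i n = 1 ∨ x i n = -1)
    (w : κ → ℂ) [∀ n, DecidablePred fun i => x i n = 1] :
    ∑ P ∈ B.powerset, ‖∑ n ∈ I.filter (fun n => B.filter (fun i => x i n = 1) = P), w n -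
      1 / 2 ^ B.card * ∑ n ∈ I, w n‖ ≤
      Real.sqrt (∑ S ∈ B.powerset.erase ∅, ‖∑ n ∈ I, w n * ∏ i ∈ S, x i n‖ ^ 2) := by
  have h1 : ∀ P ∈ B.powerset, ∑ n ∈ I.filter (fun n => B.filter (fun i => x i n = 1) = P), w n -
      1 / 2 ^ B.card * ∑ n ∈ I, w n =
      1 / 2 ^ B.card * ∑ S ∈ B.powerset.erase ∅, chi P S * ∑ n ∈ I, w n * ∏ i ∈ S, x i n := by
    intro P hP
    rw [mem_powerset] at hP
    have e1 : ∑ n ∈ I.filter (fun n => B.filter (fun i => x i n = 1) = P), w n =
        1 / 2 ^ B.card * ∑ S ∈ B.powerset, chi P S * ∑ n ∈ I, w n * ∏ i ∈ S, x i n := by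
      rw [sum_filter]
      have e2 : ∀ n ∈ I, (if B.filter (fun i => x i n = 1) = P then w n else 0) =
          1 / 2 ^ B.card * ∑ S ∈ B.powerset, chi P S * (w n * ∏ i ∈ S, x i n) := by
        intro n _
        have e3 := pat_ind B P hP (fun i => x i n) (fun i => hx i n)
        have e4 : (if B.filter (fun i => x i n = 1) = P then w n else 0) =
            w n * (if B.filter (fun i => x i n = 1) = P then (1 : ℂ) else 0) := by
          split_ifs <;> simp
        rw [e4, e3]
        rw [mul_left_comm, mul_sum]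
        congr 1
        refine sum_congr rfl fun S _ => ?_
        ring
      rw [sum_congr rfl e2, ← mul_sum, sum_comm]
      congr 1
      refine sum_congr rfl fun S _ => ?_
      rw [mul_sum]
    rw [e1, ← sum_erase_add _ _ (empty_mem_powerset B)]
    have e5 : chi P ∅ * ∑ n ∈ I, w n * ∏ i ∈ (∅ : Finset ι), x i n = ∑ n ∈ I, w n := by
      unfold chi
      simp
    rw [e5]
    ring
  rw [sum_congr rfl fun P hP => by rw [h1 P hP]]
  have h2 : ∑ P ∈ B.powerset, ‖(1 : ℂ) / 2 ^ B.card * ∑ S ∈ B.powerset.erase ∅, chi P S * ∑ n ∈ I, w n * ∏ i ∈ S, x i n‖ =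
      1 / 2 ^ B.card * ∑ P ∈ B.powerset, ‖∑ S ∈ B.powerset.erase ∅, chi P S * ∑ n ∈ I, w n * ∏ i ∈ S, x i n‖ := by
    rw [mul_sum]
    refine sum_congr rfl fun P _ => ?_
    rw [norm_mul]
    congr 1
    rw [norm_div, norm_one, norm_pow, Complex.norm_ofNat]
  rw [h2]
  have h3 := parseval B (B.powerset.erase ∅) (erase_subset _ _) (fun S => ∑ n ∈ I, w n * ∏ i ∈ S, x i n)
  have h4 : (∑ P ∈ B.powerset, ‖∑ S ∈ B.powerset.erase ∅, chi P S * ∑ n ∈ I, w n * ∏ i ∈ S, x i n‖) ^ 2 ≤
      2 ^ B.card * ∑ P ∈ B.powerset, ‖∑ S ∈ B.powerset.erase ∅, chi P S * ∑ n ∈ I, w n * ∏ i ∈ S, x i n‖ ^ 2 := by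
    have := sq_sum_le_card_mul_sum_sq (s := B.powerset)
      (f := fun P => ‖∑ S ∈ B.powerset.erase ∅, chi P S * ∑ n ∈ I, w n * ∏ i ∈ S, x i n‖)
    rw [card_powerset] at this
    push_cast at this
    exact this
  rw [h3] at h4
  apply Real.le_sqrt_of_sq_le
  have h5 : (0 : ℝ) < 2 ^ B.card := by positivity
  rw [mul_pow, div_pow, one_pow, one_div_mul_eq_div, div_le_iff₀ (by positivity)]
  refine h4.trans (le_of_eq ?_)
  ring

end Pool.Agent.L5helper13
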