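import Pool.Agent.L5helper13.Two
import Pool.Agent.L5helper13.Bessel
import Pool.Agent.L5helper13.Comb
import Pool.Agent.L5helper13.Pat

/-!
Library L5helper13: joint distribution of the values of the Liouville function along many linear forms.
-/

set_option autoImplicit false

namespace Pool.Agent.L5helper13

open Finset
open Pool.Agent.Helper602.MK (ee)
open Pool.Agent.Helper602.MK.N_J1c (c_ee_add c_ee_int c_norm_ee)
open Pool.Agent.Y958.U (LZ)

/-- the sum over `1 ≤ n ≤ y` of `w n e(α n) ∏ i ∈ S, λ(a i n + b i)` -/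
noncomputable def cor {R : ℕ} (a b : Fin R → ℕ) (w : ℕ → ℂ) (S : Finset (Fin R)) (y : ℕ) (α : ℝ) : ℂ :=
  ∑ n ∈ Icc 1 y, w n * ee (α * n) * ∏ i ∈ S, lc (a i * n + b i)

lemma lc_conj (n : ℕ) : (starRingEnd ℂ) (lc n) = lc n := by
  unfold lc
  rw [map_pow, map_neg, map_one]

lemma ee_conj (x : ℝ) : (starRingEnd ℂ) (ee x) = ee (-x) := by
  unfold Pool.Agent.Helper602.MK.ee
  rw [← Complex.exp_conj]
  congr 1
  simp only [map_mul, Complex.conj_ofReal, Complex.conj_I]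
  rw [Complex.conj_ofNat]
  push_cast
  ring

lemma lc_prod_norm {R : ℕ} (a b : Fin R → ℕ) (T : Finset (Fin R)) (n : ℕ) : ‖∏ i ∈ T, lc (a i * n + b i)‖ = 1 := by
  rw [norm_prod]
  exact prod_eq_one fun i _ => lc_norm _

/-- the forms -/
def Forms {R : ℕ} (a b : Fin R → ℕ) : Prop := (∀ i, 1 ≤ a i) ∧ ∀ i j, i ≠ j → a i * b j ≠ a j * b i

/-- **one step** -/
theorem nbr : ∃ F : Set ℕ, LZ F ∧ ∀ (R : ℕ) (a b : Fin R → ℕ), Forms a b → ∀ ε : ℝ, 0 < ε →
    ∃ N₀ : ℕ, ∀ N : ℕ, N₀ ≤ N → N ∉ F → ∀ w : ℕ → ℂ, (∀ n, ‖w n‖ ≤ 1) →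
      ∀ (y : Fin R → ℕ) (α : Fin R → ℝ), (∀ i, y i ≤ N) → ∀ T : Finset (Fin R),
        ∑ i ∈ Tᶜ, ‖cor a b w (insert i T) (y i) (α i)‖ ^ 2 ≤ (1 + ε) * N ^ 2 := by
  classical
  obtain ⟨F, hF, hF2⟩ := two_forms
  refine ⟨F, hF, fun R a b hab ε hε => ?_⟩
  have h1 : ∀ t : Fin R × Fin R, t.1 ≠ t.2 → ∃ N₀ : ℕ, ∀ N : ℕ, N₀ ≤ N → N ∉ F → ∀ (α : ℝ) (y : ℕ), y ≤ N →
      ‖∑ n ∈ Icc 1 y, lc (a t.1 * n + b t.1) * lc (a t.2 * n + b t.2) * ee (α * n)‖ ≤ ε / (R + 1) * N := by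
    intro t ht
    exact hF2 (a t.1) (b t.1) (a t.2) (b t.2) (hab.1 _) (hab.1 _) (hab.2 _ _ ht) _ (by positivity)
  choose! N₁ hN₁ using h1
  refine ⟨∑ t, N₁ t, fun N hN hNF w hw y α hy T => ?_⟩
  set g : ℕ → ℂ := fun n => w n * ∏ i ∈ T, lc (a i * n + b i) with hg
  set u : Fin R → ℕ → ℂ := fun i n => if n ≤ y i then ee (α i * n) * lc (a i * n + b i) else 0 with hu
  have hcor : ∀ i ∈ Tᶜ, cor a b w (insert i T) (y i) (α i) = ∑ n ∈ Icc 1 N, g n * u i n := by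
    intro i hi
    rw [mem_compl] at hi
    have e1 : Icc 1 (y i) = (Icc 1 N).filter (fun n => n ≤ y i) := by
      ext n
      simp only [mem_Icc, mem_filter]
      have := hy i
      omega
    unfold cor
    rw [e1, sum_filter]
    refine sum_congr rfl fun n _ => ?_
    rw [hu]
    simp only
    split_ifs
    · rw [prod_insert hi, hg]
      ring
    · rw [mul_zero]
  rw [sum_congr rfl fun i hi => by rw [hcor i hi]]
  have hgn : ∀ n, ‖g n‖ ≤ 1 := by
    intro n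
    rw [hg]
    simp only
    rw [norm_mul, lc_prod_norm, mul_one]
    exact hw n
  have hb := bessel Tᶜ (Icc 1 N) g u N (ε / (R + 1) * N) (by
      refine (sum_le_sum (g := fun _ => (1 : ℝ)) fun n _ => pow_le_one₀ (norm_nonneg _) (hgn n)).trans ?_
      simp) (by positivity) (by
      intro i _
      refine (norm_sum_le _ _).trans ((sum_le_sum (g := fun _ => (1 : ℝ)) fun n _ => ?_).trans (by simp))
      rw [norm_mul, RCLike.norm_conj, hu]
      simp only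
      split_ifs
      · rw [norm_mul, c_norm_ee, lc_norm]; norm_num
      · simp) (by
      intro i _ j _ hij
      have h2 := hN₁ (i, j) hij N (by
        have := single_le_sum (f := N₁) (fun _ _ => Nat.zero_le _) (mem_univ ((i, j) : Fin R × Fin R))
        omega) hNF (α i - α j) (min (y i) (y j)) ((min_le_left _ _).trans (hy i))
      refine le_trans (le_of_eq ?_) h2
      congr 1
      have e1 : Icc 1 (min (y i) (y j)) = (Icc 1 N).filter (fun n => n ≤ y i ∧ n ≤ y j) := by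
        ext n
        simp only [mem_Icc, mem_filter]
        have := hy i
        omega
      rw [e1, sum_filter]
      refine sum_congr rfl fun n _ => ?_
      rw [hu]
      simp only
      by_cases h3 : n ≤ y i <;> by_cases h4 : n ≤ y j
      · rw [if_pos h3, if_pos h4, if_pos ⟨h3, h4⟩, map_mul, lc_conj, ee_conj]
        have e2 : (α i - α j) * n = α i * n + -(α j * n) := by ring
        rw [e2, c_ee_add]
        ring
      · simp [h3, h4]
      · simp [h3, h4]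
      · simp [h3, h4])
  refine hb.trans ?_
  have hcard : ((Tᶜ : Finset (Fin R)).card : ℝ) ≤ R := by
    have := card_le_univ (Tᶜ : Finset (Fin R))
    rw [Fintype.card_fin] at this
    exact_mod_cast this
  have hR : (0 : ℝ) < (R : ℝ) + 1 := by positivity
  calc (N : ℝ) * (N + ((Tᶜ : Finset (Fin R)).card : ℝ) * (ε / (R + 1) * N)) ≤ (N : ℝ) * (N + R * (ε / (R + 1) * N)) := by
        gcongr
    _ = (1 + R / (R + 1) * ε) * N ^ 2 := by
        field_simp
    _ ≤ (1 + ε) * N ^ 2 := by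
        apply mul_le_mul_of_nonneg_right _ (by positivity)
        have : (R : ℝ) / (R + 1) ≤ 1 := by
          rw [div_le_one hR]; linarith
        nlinarith

/-- **main theorem** -/
theorem main : ∃ F : Set ℕ, LZ F ∧ ∀ (R : ℕ) (a b : Fin R → ℕ), Forms a b → ∀ ε : ℝ, 0 < ε →
    ∃ N₀ : ℕ, ∀ N : ℕ, N₀ ≤ N → N ∉ F → ∀ w : ℕ → ℂ, (∀ n, ‖w n‖ ≤ 1) →
      ∀ (y : Finset (Fin R) → ℕ) (α : Finset (Fin R) → ℝ), (∀ S, y S ≤ N) →
        (∀ T : Finset (Fin R), ∑ i ∈ Tᶜ, ‖cor a b w (insert i T) (y (insert i T)) (α (insert i T))‖ ^ 2 ≤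
          (1 + ε) * N ^ 2) ∧
        (∀ j : ℕ, 1 ≤ j → j ≤ R → ∑ S ∈ powersetCard j univ, ‖cor a b w S (y S) (α S)‖ ^ 2 ≤
          (1 + ε) * N ^ 2 * (R.choose j) / ((R : ℝ) - j + 1)) ∧
        (∀ k : ℕ, k ≤ R → ∑ B ∈ powersetCard k univ, ∑ P ∈ B.powerset,
          ‖∑ n ∈ (Icc 1 (y B)).filter (fun n => B.filter (fun i => lc (a i * n + b i) = 1) = P), w n * ee (α B * n) -
            1 / 2 ^ k * ∑ n ∈ Icc 1 (y B), w n * ee (α B * n)‖ ≤
          Real.sqrt ((1 + ε) * ((2 ^ k - 1) / ((R : ℝ) - k + 1))) * N * R.choose k) := by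
  classical
  obtain ⟨F, hF, hF2⟩ := nbr
  refine ⟨F, hF, fun R a b hab ε hε => ?_⟩
  obtain ⟨N₀, hN₀⟩ := hF2 R a b hab ε hε
  refine ⟨N₀, fun N hN hNF w hw => ?_⟩
  have hA : ∀ (y : Finset (Fin R) → ℕ) (α : Finset (Fin R) → ℝ), (∀ S, y S ≤ N) → ∀ T : Finset (Fin R),
      ∑ i ∈ Tᶜ, ‖cor a b w (insert i T) (y (insert i T)) (α (insert i T))‖ ^ 2 ≤ (1 + ε) * N ^ 2 := by
    intro y α hy T
    exact hN₀ N hN hNF w hw (fun i => y (insert i T)) (fun i => α (insert i T)) (fun i => hy _) T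
  have hB : ∀ (y : Finset (Fin R) → ℕ) (α : Finset (Fin R) → ℝ), (∀ S, y S ≤ N) → ∀ j : ℕ, 1 ≤ j → j ≤ R →
      ∑ S ∈ powersetCard j univ, ‖cor a b w S (y S) (α S)‖ ^ 2 ≤
          (1 + ε) * N ^ 2 * (R.choose j) / ((R : ℝ) - j + 1) := by
    intro y α hy j hj1 hj
    exact level_of_nbr (fun S => ‖cor a b w S (y S) (α S)‖ ^ 2) ((1 + ε) * N ^ 2)
      (fun T => hA y α hy T) j hj1 hj
  intro y α hy
  refine ⟨hA y α hy, hB y α hy, fun k hk => ?_⟩
  -- a best choice of the set `B` for each `S`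
  have hkR : (0 : ℝ) < (R : ℝ) - k + 1 := by
    have : (k : ℝ) ≤ R := by exact_mod_cast hk
    linarith
  set PK : Finset (Finset (Fin R)) := powersetCard k univ with hPK
  have hPKne : PK.Nonempty := powersetCard_nonempty.2 (by rw [card_univ, Fintype.card_fin]; exact hk)
  have hbest : ∀ S : Finset (Fin R), ∃ B ∈ PK, ∀ B' ∈ PK, ‖cor a b w S (y B') (α B')‖ ^ 2 ≤ ‖cor a b w S (y B) (α B)‖ ^ 2 :=
    fun S => exists_max_image PK _ hPKne
  choose β hβ1 hβ2 using hbest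
  set f : Finset (Fin R) → ℝ := fun S => ‖cor a b w S (y (β S)) (α (β S))‖ ^ 2 with hf
  have hf0 : ∀ S, 0 ≤ f S := fun S => by rw [hf]; positivity
  have h1 := sub_average f hf0 ((1 + ε) * N ^ 2) (by positivity)
    (hB (fun S => y (β S)) (fun S => α (β S)) (fun S => hy _)) k hk
  have h2 : ∀ B ∈ PK, ∑ P ∈ B.powerset,
      ‖∑ n ∈ (Icc 1 (y B)).filter (fun n => B.filter (fun i => lc (a i * n + b i) = 1) = P), w n * ee (α B * n) -
        1 / 2 ^ k * ∑ n ∈ Icc 1 (y B), w n * ee (α B * n)‖ ≤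
      Real.sqrt (∑ S ∈ B.powerset.erase ∅, f S) := by
    intro B hB'
    have hBk : B.card = k := (mem_powersetCard.1 hB').2
    have h3 := pat_sum (Icc 1 (y B)) B (fun i n => lc (a i * n + b i))
      (fun i n => by unfold lc; exact neg_one_pow_eq_or ℂ _) (fun n => w n * ee (α B * n))
    rw [hBk] at h3
    refine h3.trans (Real.sqrt_le_sqrt (sum_le_sum fun S _ => ?_))
    exact hβ2 S B hB'
  refine (sum_le_sum h2).trans ?_
  have h3 : (∑ B ∈ PK, Real.sqrt (∑ S ∈ B.powerset.erase ∅, f S)) ^ 2 ≤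
      (R.choose k) * ∑ B ∈ PK, ∑ S ∈ B.powerset.erase ∅, f S := by
    have h4 := sq_sum_le_card_mul_sum_sq (s := PK) (f := fun B => Real.sqrt (∑ S ∈ B.powerset.erase ∅, f S))
    rw [hPK, card_powersetCard, card_univ, Fintype.card_fin] at h4
    refine h4.trans (le_of_eq ?_)
    congr 1
    refine sum_congr rfl fun B _ => ?_
    rw [Real.sq_sqrt (sum_nonneg fun S _ => hf0 S)]
  have h4 : (∑ B ∈ PK, Real.sqrt (∑ S ∈ B.powerset.erase ∅, f S)) ^ 2 ≤
      (Real.sqrt ((1 + ε) * ((2 ^ k - 1) / ((R : ℝ) - k + 1))) * N * R.choose k) ^ 2 := by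
    have h5 : (0 : ℝ) ≤ (1 + ε) * ((2 ^ k - 1) / ((R : ℝ) - k + 1)) := by
      have : (1 : ℝ) ≤ 2 ^ k := one_le_pow₀ (by norm_num)
      apply mul_nonneg (by positivity) (div_nonneg (by linarith) hkR.le)
    rw [mul_pow, mul_pow, Real.sq_sqrt h5]
    refine h3.trans ?_
    calc (R.choose k : ℝ) * ∑ B ∈ PK, ∑ S ∈ B.powerset.erase ∅, f S ≤
        (R.choose k : ℝ) * ((1 + ε) * N ^ 2 * ((2 ^ k - 1) / ((R : ℝ) - k + 1)) * R.choose k) :=
          mul_le_mul_of_nonneg_left h1 (Nat.cast_nonneg _)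
      _ = _ := by ring
  exact le_of_sq_le_sq h4 (by positivity)

end Pool.Agent.L5helper13
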