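import Pool.Agent.Y842.PH.Tri
import Pool.Agent.Y842.PH.Sqf
import Pool.Agent.Y958.U.Fin

/-!
Library L5helper13: the two point theorem for the Liouville function along two linear forms, twisted by all
linear phases, for all partial sums, outside of one exceptional set of scales.
-/

set_option autoImplicit false

namespace Pool.Agent.L5helper13

open Finset
open Pool.Agent.Helper602.MK (ee)
open Pool.Agent.Helper602.MK.N_J1c (c_ee_add c_ee_int c_norm_ee)
open Pool.Agent.TH823.MRS (FlipAll ExpoSmall lam_bdd lam_flip expo_lam)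
open Pool.Agent.Y958.U (LZ s_avc)
open Pool.Agent.Y842.EL (LZ_mono LZ_empty LZ_pull LZ_diag')
open Pool.Agent.Y842.PH (Cr one_E part per_w)

/-- the Liouville function -/
noncomputable def lc (n : ℕ) : ℂ := (-1) ^ ArithmeticFunction.cardFactors n

lemma lc_norm (n : ℕ) : ‖lc n‖ = 1 := by
  unfold lc
  rw [norm_pow, norm_neg, norm_one, one_pow]

lemma lc_mul {m n : ℕ} (hm : m ≠ 0) (hn : n ≠ 0) : lc (m * n) = lc m * lc n := by
  unfold lc
  rw [ArithmeticFunction.cardFactors_mul hm hn, pow_add]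

lemma lc_sq (n : ℕ) : lc n * lc n = 1 := by
  unfold lc
  rw [← mul_pow]
  norm_num

lemma lc_cast (n : ℕ) : ((Pool.Agent.H376R2.MR.lam n : ℤ) : ℂ) = lc n := by
  unfold Pool.Agent.H376R2.MR.lam lc
  push_cast
  rfl

/-- two values at a fixed distance, all phases, all partial sums -/
theorem base : ∃ E : Set ℕ, LZ E ∧ ∀ h : ℕ, 1 ≤ h → ∀ ε : ℝ, 0 < ε → ∃ N₀ : ℕ, ∀ N : ℕ, N₀ ≤ N → N ∉ E →
    ∀ (α : ℝ) (y : ℕ), y ≤ N → ‖∑ k ∈ range y, (lc k * lc (k + h)) * ee (α * k)‖ ≤ ε * N := by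
  have hE : ExpoSmall (fun n => (Pool.Agent.H376R2.MR.lam n : ℂ)) := fun ε hε A hA => expo_lam ε hε A hA
  obtain ⟨E, hE1, hE2⟩ := one_E s_avc Pool.Agent.H376R2.MR.lam lam_bdd lam_flip hE
  refine ⟨E, hE1, fun h hh ε hε => ?_⟩
  set ε' : ℝ := min ε 1 with hε'
  have hε'0 : 0 < ε' := lt_min hε one_pos
  obtain ⟨N₀, hN₀⟩ := hE2 h hh (ε' ^ 2 / 16) (by positivity)
  refine ⟨N₀ + ⌈8 / ε'⌉₊, fun N hN hNE α y hy => ?_⟩
  have h8 : 8 / ε' ≤ N := (Nat.le_ceil _).trans (by exact_mod_cast (by omega : ⌈8 / ε'⌉₊ ≤ N))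
  have h1 := part N (fun k => lc k * lc (k + h)) (fun n => by rw [norm_mul, lc_norm, lc_norm, mul_one])
    ε' hε'0 (min_le_right _ _) h8 (fun β => by
      have h2 := hN₀ N (by omega) hNE β
      unfold Cr at h2
      simp only [lc_cast] at h2
      exact h2) y hy α
  exact h1.trans (mul_le_mul_of_nonneg_right (min_le_left _ _) (Nat.cast_nonneg N))

/-- residue classes -/
lemma classes (h : ℕ) (y q r : ℕ) (hq : 1 ≤ q) (S : ℝ)
    (hS : ∀ α : ℝ, ‖∑ k ∈ range y, (lc k * lc (k + h)) * ee (α * k)‖ ≤ S) (α : ℝ) :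
    ‖∑ k ∈ (range y).filter (fun k => k % q = r), (lc k * lc (k + h)) * ee (α * k)‖ ≤ q * S := by
  have h1 := per_w y q hq (fun k => lc k * lc (k + h)) (fun k => if k % q = r then 1 else 0)
    (fun n => by split_ifs <;> simp) (fun n => by rw [Nat.mod_mod]) S hS α
  refine le_trans (le_of_eq ?_) h1
  rw [sum_filter]
  congr 1
  refine sum_congr rfl fun k _ => ?_
  split_ifs <;> simp

/-- the sum over the values of a linear form as a sum over a residue class -/
lemma form_sum (A m₀ h y : ℕ) (hA : 1 ≤ A) (α : ℝ) (S : ℝ)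
    (hS : ∀ β : ℝ, ‖∑ k ∈ range (A * y + m₀ + 1), (lc k * lc (k + h)) * ee (β * k)‖ ≤ S) :
    ‖∑ n ∈ Icc 1 y, lc (A * n + m₀) * lc (A * n + m₀ + h) * ee (α * n)‖ ≤ A * S + (m₀ + 1) := by
  classical
  set F : ℕ → ℂ := fun k => (lc k * lc (k + h)) * ee (α / A * k) with hF
  have hA0 : (A : ℝ) ≠ 0 := by exact_mod_cast (by omega : A ≠ 0)
  have hF1 : ∀ k, ‖F k‖ = 1 := by
    intro k
    rw [hF]
    simp only
    rw [norm_mul, norm_mul, lc_norm, lc_norm, c_norm_ee]
    norm_num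
  have h1 := classes h (A * y + m₀ + 1) A (m₀ % A) hA S hS (α / A)
  set P := (range (A * y + m₀ + 1)).filter (fun k => k % A = m₀ % A) with hP
  set J := (Icc 1 y).image (fun n => A * n + m₀) with hJ
  have hJP : J ⊆ P := by
    intro k hk
    rw [hJ, mem_image] at hk
    obtain ⟨n, hn, rfl⟩ := hk
    rw [mem_Icc] at hn
    rw [hP, mem_filter, mem_range]
    refine ⟨?_, ?_⟩
    · have := Nat.mul_le_mul_left A hn.2
      omega
    · rw [Nat.mul_add_mod]
  have hrest : P \ J ⊆ range (m₀ + 1) := by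
    intro k hk
    rw [mem_sdiff, hP, mem_filter, mem_range] at hk
    obtain ⟨⟨hk1, hk2⟩, hk3⟩ := hk
    rw [mem_range]
    by_contra hcon
    rw [not_lt] at hcon
    apply hk3
    rw [hJ, mem_image]
    have hd : A ∣ k - m₀ := (Nat.modEq_iff_dvd' (by omega)).1 hk2.symm
    obtain ⟨n, hn⟩ := hd
    refine ⟨n, ?_, by omega⟩
    rw [mem_Icc]
    constructor
    · by_contra hn0
      have : n = 0 := by omega
      rw [this, mul_zero] at hn
      omega
    · have h2 : A * n ≤ A * y := by omega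
      exact Nat.le_of_mul_le_mul_left h2 (by omega)
  have h2 : ∑ n ∈ Icc 1 y, lc (A * n + m₀) * lc (A * n + m₀ + h) * ee (α * n) =
      ee (-(α / A * m₀)) * ∑ k ∈ J, F k := by
    rw [hJ, sum_image (fun a _ b _ hab => by
      have h3 : A * a + m₀ = A * b + m₀ := hab
      exact Nat.eq_of_mul_eq_mul_left (by omega) (by omega : A * a = A * b)), mul_sum]
    refine sum_congr rfl fun n _ => ?_
    rw [hF]
    simp only
    have e1 : α * n = -(α / A * m₀) + α / A * ((A * n + m₀ : ℕ) : ℝ) := by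
      push_cast
      field_simp
      ring
    rw [e1, c_ee_add]
    ring
  rw [h2, norm_mul, c_norm_ee, one_mul]
  have h3 : ∑ k ∈ J, F k = ∑ k ∈ P, F k - ∑ k ∈ P \ J, F k := by
    rw [← sum_sdiff hJP]
    ring
  rw [h3]
  refine (norm_sub_le _ _).trans ?_
  apply add_le_add h1
  refine (norm_sum_le _ _).trans ?_
  calc ∑ k ∈ P \ J, ‖F k‖ ≤ ∑ k ∈ range (m₀ + 1), ‖F k‖ :=
        sum_le_sum_of_subset_of_nonneg hrest fun _ _ _ => norm_nonneg _
    _ = (m₀ : ℝ) + 1 := by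
        rw [sum_congr rfl fun k _ => hF1 k]
        simp

/-- **two point theorem along two linear forms**, all phases, all partial sums, one exceptional set -/
theorem two_forms : ∃ F : Set ℕ, LZ F ∧ ∀ a b c d : ℕ, 1 ≤ a → 1 ≤ c → a * d ≠ c * b → ∀ ε : ℝ, 0 < ε →
    ∃ N₀ : ℕ, ∀ N : ℕ, N₀ ≤ N → N ∉ F → ∀ (α : ℝ) (y : ℕ), y ≤ N →
      ‖∑ n ∈ Icc 1 y, lc (a * n + b) * lc (c * n + d) * ee (α * n)‖ ≤ ε * N := by
  obtain ⟨E, hE1, hE2⟩ := base
  obtain ⟨F, hF, hF2⟩ := LZ_diag' (ι := ℕ × ℕ) (fun t => {N : ℕ | (t.1 + 1) * N + t.2 ∈ E})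
    (fun t => LZ_pull hE1 (t.1 + 1) t.2 (by omega))
  refine ⟨F, hF, fun a b c d ha hc hne ε hε => ?_⟩
  set A := a * c with hA
  have hA1 : 1 ≤ A := Nat.one_le_iff_ne_zero.2 (Nat.mul_ne_zero (by omega) (by omega))
  have hA0 : (0 : ℝ) < A := by exact_mod_cast hA1
  set x := c * b with hx
  set z := a * d with hz
  set m₀ := min x z with hm₀
  set h := max x z - min x z with hh
  have hxz : x ≠ z := fun h => hne h.symm
  have hh1 : 1 ≤ h := by omega
  obtain ⟨N₁, hN₁⟩ := hE2 h hh1 (ε / (4 * A ^ 2)) (by positivity)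
  obtain ⟨N₂, hN₂⟩ := hF2 (A - 1, m₀ + 1)
  obtain ⟨K, hK⟩ := exists_nat_ge ((2 * ((m₀ : ℝ) + 1)) / ε)
  refine ⟨N₁ + N₂ + K + m₀ + 1, fun N hN hNF α y hy => ?_⟩
  have hNE : A * N + m₀ + 1 ∉ E := by
    intro hcon
    apply hNF
    apply hN₂ N (by omega)
    rw [Set.mem_ofPred_eq]
    have e1 : (A - 1 + 1) * N + (m₀ + 1) = A * N + m₀ + 1 := by
      rw [Nat.sub_add_cancel hA1]; ring
    show (A - 1 + 1) * N + (m₀ + 1) ∈ E
    rw [e1]
    exact hcon
  have hNA : N ≤ A * N := Nat.le_mul_of_pos_left N hA1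
  have h1 := form_sum A m₀ h y hA1 α (ε / (4 * A ^ 2) * ((A * N + m₀ + 1 : ℕ) : ℝ)) (fun β =>
    hN₁ (A * N + m₀ + 1) (by omega) hNE β (A * y + m₀ + 1) (by
      have := Nat.mul_le_mul_left A hy
      omega))
  have h2 : ∀ n ∈ Icc 1 y, lc (a * n + b) * lc (c * n + d) * ee (α * n) =
      (lc a * lc c) * (lc (A * n + m₀) * lc (A * n + m₀ + h) * ee (α * n)) := by
    intro n hn
    rw [mem_Icc] at hn
    have e1 : lc (A * n + x) = lc c * lc (a * n + b) := by
      rw [← lc_mul (by omega) (by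
        have : 1 ≤ a * n := Nat.one_le_iff_ne_zero.2 (Nat.mul_ne_zero (by omega) (by omega))
        omega)]
      congr 1
      rw [hA, hx]; ring
    have e2 : lc (A * n + z) = lc a * lc (c * n + d) := by
      rw [← lc_mul (by omega) (by
        have : 1 ≤ c * n := Nat.one_le_iff_ne_zero.2 (Nat.mul_ne_zero (by omega) (by omega))
        omega)]
      congr 1
      rw [hA, hz]; ring
    have e3 : lc (A * n + m₀) * lc (A * n + m₀ + h) = lc (A * n + x) * lc (A * n + z) := by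
      rcases le_total x z with h3 | h3
      · have e4 : m₀ = x := min_eq_left h3
        have e5 : A * n + x + h = A * n + z := by
          rw [hh, max_eq_right h3, min_eq_left h3]; omega
        rw [e4, e5]
      · have e4 : m₀ = z := min_eq_right h3
        have e5 : A * n + z + h = A * n + x := by
          rw [hh, max_eq_left h3, min_eq_right h3]; omega
        rw [e4, e5, mul_comm]
    rw [e3, e1, e2]
    calc lc (a * n + b) * lc (c * n + d) * ee (α * n) =
        (lc a * lc a) * (lc c * lc c) * (lc (a * n + b) * lc (c * n + d) * ee (α * n)) := by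
          rw [lc_sq, lc_sq]; ring
      _ = _ := by ring
  rw [sum_congr rfl h2, ← mul_sum, norm_mul, norm_mul, lc_norm, lc_norm, one_mul, one_mul]
  refine h1.trans ?_
  have hNr : (0 : ℝ) ≤ N := Nat.cast_nonneg N
  have h3 : ((A * N + m₀ + 1 : ℕ) : ℝ) ≤ 2 * (A * N) := by
    have : A * N + m₀ + 1 ≤ 2 * (A * N) := by omega
    exact_mod_cast this
  have h4 : (2 * ((m₀ : ℝ) + 1)) ≤ ε * N := by
    rw [div_le_iff₀ hε] at hK
    have : (K : ℝ) ≤ N := by exact_mod_cast (by omega : K ≤ N)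
    nlinarith
  have h5 : (A : ℝ) * (ε / (4 * A ^ 2) * ((A * N + m₀ + 1 : ℕ) : ℝ)) ≤ ε / 2 * N := by
    calc (A : ℝ) * (ε / (4 * A ^ 2) * ((A * N + m₀ + 1 : ℕ) : ℝ)) ≤
        (A : ℝ) * (ε / (4 * A ^ 2) * (2 * (A * N))) := by gcongr
      _ = ε / 2 * N := by
          field_simp
          ring
  linarith

end Pool.Agent.L5helper13
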