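import Pool.Agent.V1213.CH.Equiv
import Pool.Agent.N781.P.Fin
import Pool.Agent.L5helper13.Two

/-!
Library L5helper13: odd order correlations of the Liouville function at almost all scales, uniformly in all linear
phases.
-/

set_option autoImplicit false

namespace Pool.Agent.L5helper13

open Finset
open Pool.Agent.Helper602.MK (ee)
open Pool.Agent.Helper602.MK.N_J1c (c_ee_add c_ee_int c_norm_ee)
open Pool.Agent.Y958.U (LZ)
open Pool.Agent.Y304.U (sE)
open Pool.Agent.TH112.BL (QD)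
open Pool.Agent.Y842.PH (th QD_mem)
open Pool.Agent.Y958.TC (iv iv_lt)
open Pool.Agent.Y842.EL (LZ_eps LZ_mono LZ_union LZ_empty)
open Pool.Agent.Y842.PG

open Pool.Agent.N675 Pool.Agent.N781.A Pool.Agent.N781.P in
/-- the sums of odd order along almost all prime dilates -/
theorem prime_dil (k : ℕ) (hs : Fin k → ℕ) (hk : Odd k) (ε : ℝ) (hε : 0 < ε) : ∃ K : ℕ, ∀ D x : ℕ, K ≤ D →
    D ≤ x → ∀ γ : ℝ, ∑ d ∈ Icc 1 D, ArithmeticFunction.vonMangoldt d *
      ‖∑ n ∈ Icc 1 x, ee (γ * n) * ∏ i, lc (n + d * hs i)‖ ≤ ε * (D * x) := by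
  obtain ⟨K, hK⟩ := p_lam k 1 (fun _ => 1) (fun i => (hs i : ℤ)) (fun _ => 1) (fun _ => 0) hk (fun _ => one_ne_zero)
    (fun _ => one_ne_zero) (fun j j' hjj => absurd (Subsingleton.elim j j') hjj) 1 ε hε
  refine ⟨K + 1, fun D x hD hDx γ => ?_⟩
  have h := hK D x (by omega) (by omega) γ
  have hx0 : (0 : ℝ) < x := by exact_mod_cast (by omega : 0 < x)
  have h1 : ∀ d : ℕ, ‖∑ n ∈ Icc 1 x, ee (γ * n) * ∏ i, lc (n + d * hs i)‖
      = x * ‖M.ccg (fun _ : Fin k => (1 : ℤ)) (fun i (_ : Fin 1) => (hs i : ℤ)) (fun _ m => M.lc m) γ x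
        (fun _ => (d : ℤ))‖ := by
    intro d
    unfold M.ccg av
    rw [norm_div, Complex.norm_natCast, mul_div_cancel₀ _ hx0.ne']
    congr 1
    refine sum_bij (fun n _ => (n : ℤ)) ?_ ?_ ?_ ?_
    · intro n hn
      rw [mem_Icc] at hn ⊢
      omega
    · intro a _ b _ hab
      exact_mod_cast hab
    · intro z hz
      rw [mem_Icc] at hz
      exact ⟨z.toNat, by rw [mem_Icc]; omega, by omega⟩
    · intro n _
      congr 1
      · unfold eR Pool.Agent.Helper602.MK.ee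
        congr 1
        push_cast
        ring
      · refine Finset.prod_congr rfl fun i _ => ?_
        unfold M.lc lamA LL lc
        rw [univ_unique, sum_singleton]
        have e1 : (1 * (n : ℤ) + (hs i : ℤ) * (d : ℤ)).natAbs = n + d * hs i := by
          have : (1 * (n : ℤ) + (hs i : ℤ) * (d : ℤ)) = ((n + d * hs i : ℕ) : ℤ) := by push_cast; ring
          rw [this, Int.natAbs_natCast]
        beta_reduce
        rw [e1]
        push_cast
        rfl
  have h2 : ∑ d ∈ Icc 1 D, ArithmeticFunction.vonMangoldt d *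
      ‖∑ n ∈ Icc 1 x, ee (γ * n) * ∏ i, lc (n + d * hs i)‖ =
      x * ∑ d ∈ Icc (1 : ℤ) D, (∏ _j : Fin 1, ArithmeticFunction.vonMangoldt (1 * d + 0 : ℤ).natAbs) *
        ‖M.ccg (fun _ : Fin k => (1 : ℤ)) (fun i (_ : Fin 1) => (hs i : ℤ)) (fun _ m => M.lc m) γ x
          (fun _ => d)‖ := by
    rw [mul_sum]
    refine sum_bij (fun n _ => (n : ℤ)) ?_ ?_ ?_ ?_
    · intro n hn
      rw [mem_Icc] at hn ⊢
      omega
    · intro a _ b _ hab
      exact_mod_cast hab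
    · intro z hz
      rw [mem_Icc] at hz
      exact ⟨z.toNat, by rw [mem_Icc]; omega, by omega⟩
    · intro d _
      rw [h1]
      simp only [univ_unique, prod_singleton, one_mul, add_zero, Int.natAbs_natCast]
      ring
  rw [h2]
  calc _ ≤ x * (ε * D) := mul_le_mul_of_nonneg_left h hx0.le
    _ = _ := by ring

/-- the functions -/
noncomputable def LG (k : ℕ) : Fin k → ℕ → ℂ := fun _ n => lc n

lemma LG_CF (k : ℕ) : CF (LG k) := by
  constructor
  · intro t n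
    exact (lc_norm n).le
  · intro p hp t
    refine ⟨-1, by rw [norm_neg, norm_one], fun n hn => ?_⟩
    have hn0 : n ≠ 0 := by
      rintro rfl
      exact hn (dvd_zero p)
    unfold LG
    rw [lc_mul hp.ne_zero hn0]
    congr 1
    unfold lc
    rw [ArithmeticFunction.cardFactors_apply_prime hp, pow_one]

lemma pr_LG (k : ℕ) (hs : Fin k → ℕ) (p m : ℕ) : pr (LG k) hs p m = ∏ i, lc (m + p * hs i) := rfl

/-- the bilinear sums -/
lemma bil_odd (k : ℕ) (hk : Odd k) (hs : Fin k → ℕ) (A : ℤ) (q : ℕ) (hq : 1 ≤ q) (e : ℝ) (he : 0 < e) :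
    ∃ I₀ : ℕ, ∀ i : ℕ, I₀ ≤ i → ∃ N₀ : ℕ, ∀ N : ℕ, N₀ ≤ N → ∀ P : Finset ℕ, P ⊆ QD i (i + 1) →
      ∑ p ∈ P, Real.log p / 2 ^ i * ‖∑ m ∈ range N, pr (LG k) hs p m * ee (th A q 0 p * m)‖ ≤ e * N := by
  have hq0 : (0 : ℝ) < q := by exact_mod_cast hq
  obtain ⟨K, hK⟩ := prime_dil k hs hk (e / (4 * q)) (by positivity)
  refine ⟨K, fun i hi => ?_⟩
  have hKi : K ≤ 2 ^ (i + 1) := by
    have : i + 1 < 2 ^ (i + 1) := Nat.lt_two_pow_self
    omega
  obtain ⟨N₁, hN₁⟩ := exists_nat_ge ((∑ p ∈ QD i (i + 1), Real.log p / 2 ^ i * 2) * (2 / e))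
  refine ⟨2 ^ (i + 1) + N₁, fun N hN P hP => ?_⟩
  have h2i : (0 : ℝ) < 2 ^ i := by positivity
  set γ : ℕ → ℝ := fun l => A * (l : ℝ) / q with hγ
  set V : ℕ → ℕ → ℝ := fun l p => ‖∑ n ∈ Icc 1 N, ee (γ l * n) * ∏ i, lc (n + p * hs i)‖ with hV
  have h1 : ∀ p ∈ P, Real.log p / 2 ^ i * ‖∑ m ∈ range N, pr (LG k) hs p m * ee (th A q 0 p * m)‖ ≤
      ∑ l ∈ range q, Real.log p / 2 ^ i * V l p + Real.log p / 2 ^ i * 2 := by
    intro p hp
    have hlog : 0 ≤ Real.log p / 2 ^ i := div_nonneg (Real.log_natCast_nonneg p) h2i.le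
    have e1 : th A q 0 p = γ (iv q p) := by
      unfold th
      rw [zero_div, add_zero, hγ]
    have e2 : ‖∑ m ∈ range N, pr (LG k) hs p m * ee (th A q 0 p * m)‖ ≤ V (iv q p) p + 2 := by
      rw [e1]
      set F : ℕ → ℂ := fun n => ee (γ (iv q p) * n) * ∏ i, lc (n + p * hs i) with hF
      have hF1 : ∀ n, ‖F n‖ ≤ 1 := by
        intro n
        rw [hF]
        simp only
        rw [norm_mul, c_norm_ee, norm_prod, one_mul]
        exact (prod_eq_one fun i _ => lc_norm _).le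
      have e3 : ∑ m ∈ range N, pr (LG k) hs p m * ee (γ (iv q p) * m) = ∑ n ∈ range N, F n := by
        refine sum_congr rfl fun m _ => ?_
        rw [pr_LG, hF, mul_comm]
      have e4 := Pool.Agent.Y842.PG.sum_shift F N
      rw [e3, show ∑ n ∈ range N, F n = ∑ n ∈ Icc 1 N, F n - F N + F 0 by rw [e4]; ring]
      have h3 := norm_add_le (∑ n ∈ Icc 1 N, F n - F N) (F 0)
      have h4 := norm_sub_le (∑ n ∈ Icc 1 N, F n) (F N)
      have h5 := hF1 0
      have h6 := hF1 N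
      have h7 : V (iv q p) p = ‖∑ n ∈ Icc 1 N, F n‖ := rfl
      rw [h7]
      linarith
    have e5 : V (iv q p) p ≤ ∑ l ∈ range q, V l p :=
      single_le_sum (f := fun l => V l p) (fun _ _ => norm_nonneg _) (mem_range.2 (iv_lt q p hq))
    calc _ ≤ Real.log p / 2 ^ i * (∑ l ∈ range q, V l p + 2) :=
          mul_le_mul_of_nonneg_left (e2.trans (by linarith)) hlog
      _ = _ := by rw [mul_add, mul_sum]
  refine (sum_le_sum h1).trans ?_
  rw [sum_add_distrib, sum_comm]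
  have hNr : (0 : ℝ) ≤ N := Nat.cast_nonneg N
  have h2 : ∀ l ∈ range q, ∑ p ∈ P, Real.log p / 2 ^ i * V l p ≤ e / (2 * q) * N := by
    intro l _
    have h3 := hK (2 ^ (i + 1)) N hKi (by omega) (γ l)
    have h4 : ∑ p ∈ P, Real.log p * V l p ≤ ∑ d ∈ Icc 1 (2 ^ (i + 1)), ArithmeticFunction.vonMangoldt d * V l d := by
      have h5 : P ⊆ Icc 1 (2 ^ (i + 1)) := by
        intro p hp
        have := QD_mem (hP hp)
        rw [mem_Icc]
        exact ⟨this.1.pos, this.2.2⟩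
      refine le_trans (le_of_eq ?_) (sum_le_sum_of_subset_of_nonneg h5 fun d _ _ =>
        mul_nonneg ArithmeticFunction.vonMangoldt_nonneg (norm_nonneg _))
      refine sum_congr rfl fun p hp => ?_
      rw [ArithmeticFunction.vonMangoldt_apply_prime (QD_mem (hP hp)).1]
    have h6 : ∑ p ∈ P, Real.log p / 2 ^ i * V l p = (∑ p ∈ P, Real.log p * V l p) / 2 ^ i := by
      rw [sum_div]
      refine sum_congr rfl fun p _ => ?_
      ring
    rw [h6, div_le_iff₀ h2i]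
    refine (h4.trans h3).trans (le_of_eq ?_)
    push_cast
    rw [pow_succ]
    field_simp
    ring
  have h3 : ∑ l ∈ range q, ∑ p ∈ P, Real.log p / 2 ^ i * V l p ≤ e / 2 * N := by
    refine (sum_le_sum h2).trans (le_of_eq ?_)
    rw [sum_const, card_range, nsmul_eq_mul]
    field_simp
  have h4 : ∑ p ∈ P, Real.log p / 2 ^ i * 2 ≤ e / 2 * N := by
    have h5 : ∑ p ∈ P, Real.log p / 2 ^ i * 2 ≤ ∑ p ∈ QD i (i + 1), Real.log p / 2 ^ i * 2 :=
      sum_le_sum_of_subset_of_nonneg hP fun p _ _ =>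
        mul_nonneg (div_nonneg (Real.log_natCast_nonneg p) h2i.le) (by norm_num)
    have h6 : (N₁ : ℝ) ≤ N := by exact_mod_cast (by omega : N₁ ≤ N)
    have h7 := hN₁.trans h6
    have h8 : (∑ p ∈ QD i (i + 1), Real.log p / 2 ^ i * 2) * (2 / e) * (e / 2) ≤ N * (e / 2) :=
      mul_le_mul_of_nonneg_right h7 (by positivity)
    have h9 : (∑ p ∈ QD i (i + 1), Real.log p / 2 ^ i * 2) * (2 / e) * (e / 2) =
        ∑ p ∈ QD i (i + 1), Real.log p / 2 ^ i * 2 := by
      have h10 : (2 / e) * (e / 2) = 1 := by field_simp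
      rw [mul_assoc, h10, mul_one]
    linarith
  linarith

/-- rational phases, odd order -/
theorem rat_odd (k : ℕ) (hk : Odd k) (hs : Fin k → ℕ) (A : ℤ) (q : ℕ) (hq : 1 ≤ q) (hAq : IsCoprime A (q : ℤ))
    (δ : ℝ) (hδ : 0 < δ) (hδ1 : δ ≤ 1) : LZ {N : ℕ | δ * N < ‖Cg (LG k) hs N (A / q)‖} := by
  rw [LZ_eps]
  intro η hη
  have h1 := cells (r := k) hs (fun G => G = LG k) (by
      rintro G rfl t n
      exact (lc_norm n).le) (fun _ _ α => α = A / q) (fun _ _ _ _ _ h => h) (fun _ _ _ _ _ h => h) ?_ δ hδ hδ1 η hη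
  · obtain ⟨R, X₀, h2⟩ := h1
    refine ⟨X₀, fun X hX => ?_⟩
    have h3 := h2 X hX (LG k) rfl
    refine le_trans (le_of_eq ?_) h3
    congr 1
    ext N
    unfold Bad
    rw [Set.mem_ofPred_eq, Set.mem_ofPred_eq]
    constructor
    · intro h
      exact ⟨_, rfl, h⟩
    · rintro ⟨α, rfl, h⟩
      exact h
  intro ε hε
  obtain ⟨D, hD, Bc, hBc, b₀, hch⟩ := chain_g (r := k) hk.pos (∑ t, hs t) hs (fun t =>
    single_le_sum (f := fun t => hs t) (fun _ _ => Nat.zero_le _) (mem_univ t)) ε hε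
  obtain ⟨I₁, hI₁⟩ := bil_odd k hk hs A q hq (ε / 10) (by positivity)
  refine ⟨D, hD, Bc, hBc, b₀ + I₁ + q + 1, fun b hb' n => ?_⟩
  obtain ⟨M₀, hM₀⟩ := hch b (by omega) n
  choose N₀ hN₀ using fun k : ℕ => hI₁ (b + k * D) (by omega)
  refine ⟨0, M₀ + 2 * ∑ k ∈ range n, N₀ k, fun M hM G hG α S hS hGd => ?_⟩
  subst hG
  have h1 := hM₀ M (by omega) (LG k) (fun t n => (lc_norm n).le) (fun _ => A) (fun _ => q) (fun _ => 0) S hS (by
      intro k' p hp t
      exact (LG_CF k).2 p (QD_mem (hS k' hp)).1 t) (fun _ => hq) (by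
      intro k'
      calc q ≤ 2 ^ q := (Nat.lt_two_pow_self).le
        _ ≤ 2 ^ (8 * 2 ^ (b + k' * D)) := Nat.pow_le_pow_right (by norm_num) (by
          have : b + k' * D < 2 ^ (b + k' * D) := Nat.lt_two_pow_self
          omega)) (fun _ => hAq) (by
      intro k'
      rw [abs_zero, zero_mul]
      exact zero_le_one) (by
      intro k' hk' N hNM hMN P hP _
      refine hN₀ k' N ?_ P (hP.trans (hS k'))
      have := single_le_sum (f := N₀) (fun _ _ => Nat.zero_le _) (mem_range.2 hk')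
      omega)
  refine le_trans (le_of_eq ?_) h1
  refine sum_congr rfl fun k' hk' => ?_
  rw [mem_range] at hk'
  congr 1
  rcases (S k').eq_empty_or_nonempty with hSe | hSne
  · rw [hSe, sum_empty, sum_empty]
  · rw [hGd k' hk' hSne, add_zero]

/-- **odd order, all phases, all partial sums** -/
theorem all_odd (k : ℕ) (hk : Odd k) (hs : Fin k → ℕ) (δ : ℝ) (hδ : 0 < δ) (hδ1 : δ ≤ 1) :
    LZ {N : ℕ | ∃ α : ℝ, ∃ y ≤ N, δ * N < ‖Cg (LG k) hs y α‖} := by
  refine Pool.Agent.V1213.CH.all_of_rat hk.pos (LG k) (LG_CF k) hs ?_ δ hδ hδ1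
  intro q j hq δ' hδ'
  obtain ⟨q', j', z, hq', -, -, hcop, hfr⟩ := red_frac q hq (j : ℤ)
  have h1 := rat_odd k hk hs j' q' hq' hcop (min δ' 1) (lt_min hδ' one_pos) (min_le_right _ _)
  refine LZ_mono ?_ h1
  intro N hN
  have hN1 : δ' * N < ‖Cg (LG k) hs N (j / q)‖ := hN
  show min δ' 1 * N < ‖Cg (LG k) hs N (((j' : ℤ) : ℝ) / q')‖
  have e1 : ((j : ℝ) / q) = (((j' : ℤ) : ℝ) / q') + z := by
    have := hfr
    push_cast at this ⊢
    exact this
  rw [e1, Cg_int] at hN1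
  refine lt_of_le_of_lt ?_ hN1
  exact mul_le_mul_of_nonneg_right (min_le_left _ _) (Nat.cast_nonneg N)

end Pool.Agent.L5helper13
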