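import Pool.Agent.Y744.PCR.Test

/-! # Uniqueness by an approximate identity (core) -/

open MeasureTheory Filter Topology Real

namespace Pool.Agent.L5helper13.PVUniq

open Pool.Agent.Y744

variable {κ : ℝ} {K : ℝ → ℝ}

lemma bd_int (hK : TK κ K) {B : ℝ → ℝ} {C : ℝ} (hC : 0 ≤ C) (hm : Measurable B)
    (hb : ∀ y, |B y| ≤ C * (1 + y ^ 2)) :
    Integrable (fun y => B y * ct K y) := by
  obtain ⟨c, hc0, hc⟩ := hK.decay 2
  refine Integrable.mono' (g := fun y => C * c * (1 + y ^ 2)⁻¹)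
    (integrable_inv_one_add_sq.const_mul _)
    (hm.mul hK.ct_cont.measurable).aestronglyMeasurable (Eventually.of_forall fun y => ?_)
  have hp : 0 < 1 + y ^ 2 := by positivity
  rw [Real.norm_eq_abs, abs_mul]
  calc |B y| * |ct K y| ≤ (C * (1 + y ^ 2)) * (c / (1 + y ^ 2) ^ 2) := by
        gcongr
        · exact hb y
        · exact hc y
    _ = C * c * (1 + y ^ 2)⁻¹ := by field_simp

lemma shift_bd {B : ℝ → ℝ} {C : ℝ} (hC : 0 ≤ C) (hb : ∀ y, |B y| ≤ C * (1 + y ^ 2)) {ε : ℝ}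
    (hε : 0 < ε) (hε1 : ε ≤ 1) (h u : ℝ) :
    |B (h + ε * u)| ≤ (C * (2 + 2 * h ^ 2)) * (1 + u ^ 2) := by
  refine (hb _).trans ?_
  rw [mul_assoc]
  refine mul_le_mul_of_nonneg_left ?_ hC
  have h1 : ε ^ 2 ≤ 1 := by nlinarith
  have h2 : (ε * u) ^ 2 ≤ u ^ 2 := by
    rw [mul_pow]
    nlinarith [sq_nonneg u]
  have h3 : (h + ε * u) ^ 2 ≤ 2 * h ^ 2 + 2 * (ε * u) ^ 2 := by
    nlinarith [sq_nonneg (h - ε * u)]
  nlinarith [sq_nonneg h, sq_nonneg u, mul_nonneg (sq_nonneg h) (sq_nonneg u)]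

lemma subst {B : ℝ → ℝ} (K : ℝ → ℝ) {ε : ℝ} (hε : 0 < ε) (h : ℝ) :
    ∫ y, B y * ct K (ε⁻¹ * (y - h)) = ε * ∫ u, B (h + ε * u) * ct K u := by
  have h1 := integral_sub_right_eq_self (μ := volume) (fun y => B (y + h) * ct K (ε⁻¹ * y)) h
  have h2 : ∀ y, B (y - h + h) * ct K (ε⁻¹ * (y - h)) = B y * ct K (ε⁻¹ * (y - h)) := by
    intro y
    rw [sub_add_cancel]
  simp_rw [h2] at h1
  rw [h1]
  have h3 := Measure.integral_comp_mul_left (fun y => B (y + h) * ct K (ε⁻¹ * y)) ε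
  simp only [smul_eq_mul, abs_of_pos (inv_pos.2 hε)] at h3
  have h4 : ∀ u, B (ε * u + h) * ct K (ε⁻¹ * (ε * u)) = B (h + ε * u) * ct K u := by
    intro u
    rw [inv_mul_cancel_left₀ hε.ne', add_comm]
  simp_rw [h4] at h3
  rw [h3, mul_inv_cancel_left₀ hε.ne']

lemma approx (hK : TK κ K) {B : ℝ → ℝ} {C : ℝ} (hC : 0 ≤ C) (hm : Measurable B)
    (hb : ∀ y, |B y| ≤ C * (1 + y ^ 2)) {h : ℝ} (hc : ContinuousAt B h) :
    Tendsto (fun ε : ℝ => ∫ u, B (h + ε * u) * ct K u) (𝓝[>] 0) (𝓝 (B h * ∫ u, ct K u)) := by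
  rw [← integral_const_mul]
  obtain ⟨c, hc0, hcd⟩ := hK.decay 2
  refine tendsto_integral_filter_of_dominated_convergence
    (fun u => (C * (2 + 2 * h ^ 2)) * c * (1 + u ^ 2)⁻¹) ?_ ?_
    (integrable_inv_one_add_sq.const_mul _) (Eventually.of_forall fun u => ?_)
  · refine Eventually.of_forall fun ε => ?_
    exact ((hm.comp (by fun_prop)).mul hK.ct_cont.measurable).aestronglyMeasurable
  · have : ∀ᶠ ε : ℝ in 𝓝[>] 0, 0 < ε ∧ ε ≤ 1 := by
      have h1 : ∀ᶠ ε : ℝ in 𝓝[>] 0, 0 < ε := eventually_mem_nhdsWithin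
      have h2 : ∀ᶠ ε : ℝ in 𝓝[>] 0, ε < 1 :=
        nhdsWithin_le_nhds (eventually_lt_nhds one_pos)
      filter_upwards [h1, h2] with ε a b using ⟨a, b.le⟩
    filter_upwards [this] with ε hε
    refine Eventually.of_forall fun u => ?_
    have hp : 0 < 1 + u ^ 2 := by positivity
    rw [Real.norm_eq_abs, abs_mul]
    calc |B (h + ε * u)| * |ct K u| ≤ ((C * (2 + 2 * h ^ 2)) * (1 + u ^ 2)) *
          (c / (1 + u ^ 2) ^ 2) := by
          gcongr
          · exact shift_bd hC hb hε.1 hε.2 h u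
          · exact hcd u
      _ = (C * (2 + 2 * h ^ 2)) * c * (1 + u ^ 2)⁻¹ := by field_simp
  · refine Tendsto.mul_const _ ?_
    have h1 : Tendsto (fun ε : ℝ => h + ε * u) (𝓝[>] 0) (𝓝 h) := by
      have h2 : Tendsto (fun ε : ℝ => h + ε * u) (𝓝 0) (𝓝 (h + 0 * u)) :=
        (continuous_const.add (continuous_id.mul continuous_const)).tendsto 0
      rw [zero_mul, add_zero] at h2
      exact h2.mono_left nhdsWithin_le_nhds
    exact hc.tendsto.comp h1

/-- a function orthogonal to all the tests vanishes at its points of continuity -/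
theorem core {D : ℝ → ℝ} {C : ℝ} (hC : 0 ≤ C) (hm : Measurable D)
    (hb : ∀ y, |D y| ≤ C * (1 + y ^ 2)) (hneg : ∀ y, y < 0 → D y = 0)
    (h0 : ∀ κ, 0 < κ → ∀ K, TK κ K → ∀ h, 0 < h →
      ∫ y, D y * (ct K (y + h) - ct K (y - h)) = 0)
    {h : ℝ} (hh : 0 < h) (hc : ContinuousAt D h) : D h = 0 := by
  obtain ⟨K, hK, hK0, hK1, -⟩ := exists_pos one_pos
  have hI : 0 < ∫ u, ct K u := by
    have hint : Integrable (ct K) := by
      have := bd_int hK (B := fun _ => 1) (C := 1) zero_le_one measurable_const (fun y => by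
        rw [abs_one, one_mul]
        nlinarith [sq_nonneg y])
      simpa using this
    rw [integral_pos_iff_support_of_nonneg hK0 hint]
    exact hK.ct_cont.isOpen_support.measure_pos volume ⟨0, hK1.ne'⟩
  have hcn : ContinuousAt D (-h) := by
    have : D =ᶠ[𝓝 (-h)] fun _ => 0 := by
      filter_upwards [eventually_lt_nhds (show -h < 0 by linarith)] with y hy using hneg y hy
    exact this.continuousAt
  have key : ∀ ε : ℝ, 0 < ε → ∫ u, D (-h + ε * u) * ct K u = ∫ u, D (h + ε * u) * ct K u := by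
    intro ε hε
    have hT := hK.dil (inv_pos.2 hε)
    have h1 := h0 (ε⁻¹ * 1) (by positivity) _ hT h hh
    have e : ∀ x, ct (fun α => ε⁻¹⁻¹ * K (ε⁻¹⁻¹ * α)) x = ct K (ε⁻¹ * x) := fun x =>
      TK.ct_dil K (inv_pos.2 hε) x
    simp_rw [e] at h1
    have i1 : ∀ h : ℝ, Integrable fun y => D y * ct K (ε⁻¹ * (y - h)) := by
      intro h
      have a1 := bd_int hT (B := fun y => D (y + h)) (C := C * (2 + 2 * h ^ 2)) (by positivity)
        (hm.comp (by fun_prop)) (fun y => by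
          have := shift_bd hC hb one_pos le_rfl h y
          rwa [one_mul, add_comm] at this)
      have a2 := a1.comp_sub_right h
      refine a2.congr (Eventually.of_forall fun y => ?_)
      show D (y - h + h) * ct _ (y - h) = _
      rw [e, sub_add_cancel]
    have i2 := i1 (-h)
    simp only [sub_neg_eq_add] at i2
    have e2 : ∫ y, D y * (ct K (ε⁻¹ * (y + h)) - ct K (ε⁻¹ * (y - h))) =
        (∫ y, D y * ct K (ε⁻¹ * (y + h))) - ∫ y, D y * ct K (ε⁻¹ * (y - h)) := by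
      rw [← integral_sub i2 (i1 h)]
      refine integral_congr_ae (Eventually.of_forall fun y => ?_)
      show D y * (ct K (ε⁻¹ * (y + h)) - ct K (ε⁻¹ * (y - h))) =
        D y * ct K (ε⁻¹ * (y + h)) - D y * ct K (ε⁻¹ * (y - h))
      ring
    rw [e2] at h1
    have s1 := subst (B := D) K hε h
    have s2 := subst (B := D) K hε (-h)
    simp only [sub_neg_eq_add] at s2
    rw [s1, s2, ← mul_sub] at h1
    have := (mul_eq_zero.1 h1).resolve_left hε.ne'
    linarith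
  have l1 := approx hK hC hm hb hc
  have l2 := approx hK hC hm hb hcn
  have l3 : Tendsto (fun ε : ℝ => ∫ u, D (h + ε * u) * ct K u) (𝓝[>] 0)
      (𝓝 (D (-h) * ∫ u, ct K u)) := by
    refine l2.congr' ?_
    filter_upwards [self_mem_nhdsWithin] with ε hε using key ε hε
  have h1 := tendsto_nhds_unique l1 l3
  rw [hneg (-h) (by linarith), zero_mul] at h1
  exact (mul_eq_zero.1 h1).resolve_right hI.ne'

end Pool.Agent.L5helper13.PVUniq
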