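import Pool.Agent.L5helper12.TW.Crit
import Pool.Agent.L5helper13.PVUniqCore

/-! # Montgomery's theorem for all supports determines the counting functions of the differences -/

open MeasureTheory Filter Topology Real

namespace Pool.Agent.L5helper13.PVUniq

open Pool.Agent.Y744 (TK ct AG AG_meas AG_bound gp gp_zero gp_cont Aa)

lemma AG_contAt {x : ℝ} (hx : 0 < x) : ContinuousAt AG x := by
  have h : (fun y => 1 + 2 * gp y) =ᶠ[𝓝 x] AG := by
    filter_upwards [eventually_gt_nhds hx] with y hy
    unfold AG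
    rw [if_neg (not_lt.2 hy.le)]
  exact (continuous_const.add (continuous_const.mul gp_cont)).continuousAt.congr h

/-- the limit function is determined -/
theorem eq_AG {A : ℝ → ℝ} {C0 : ℝ} (hA : Monotone A) (hneg : ∀ y, y < 0 → A y = 0)
    (hb : ∀ y, |A y| ≤ C0 * (1 + y ^ 2)) (h1 : 1 ≤ A 0)
    (hm : ∀ κ, 0 < κ → ∀ K, TK κ K → ∀ h, 0 < h →
      ∫ y, A y * (ct K (y + h) - ct K (y - h)) = ∫ y, AG y * (ct K (y + h) - ct K (y - h)))
    (x : ℝ) : A x = AG x := by
  have hC0 : 0 ≤ C0 := by
    have := (abs_nonneg _).trans (hb 0)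
    simpa using this
  have hint : ∀ κ K, TK κ K → ∀ h : ℝ, ∀ (B : ℝ → ℝ) (C : ℝ), 0 ≤ C → Measurable B →
      (∀ y, |B y| ≤ C * (1 + y ^ 2)) → Integrable fun y => B y * ct K (y - h) := by
    intro κ K hK h B C hC hB hBb
    have a1 := bd_int hK (B := fun y => B (y + h)) (C := C * (2 + 2 * h ^ 2)) (by positivity)
      (hB.comp (by fun_prop)) (fun y => by
        have := shift_bd hC hBb one_pos le_rfl h y
        rwa [one_mul, add_comm] at this)
    have a2 := a1.comp_sub_right h
    refine a2.congr (Eventually.of_forall fun y => ?_)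
    show B (y - h + h) * ct _ (y - h) = _
    rw [sub_add_cancel]
  have hint2 : ∀ κ K, TK κ K → ∀ h : ℝ, ∀ (B : ℝ → ℝ) (C : ℝ), 0 ≤ C → Measurable B →
      (∀ y, |B y| ≤ C * (1 + y ^ 2)) → Integrable fun y => B y * (ct K (y + h) - ct K (y - h)) := by
    intro κ K hK h B C hC hB hBb
    have i1 := hint κ K hK h B C hC hB hBb
    have i2 := hint κ K hK (-h) B C hC hB hBb
    simp only [sub_neg_eq_add] at i2
    refine (i2.sub i1).congr (Eventually.of_forall fun y => ?_)
    show B y * ct K (y + h) - B y * ct K (y - h) = _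
    ring
  have hD0 : ∀ κ, 0 < κ → ∀ K, TK κ K → ∀ h, 0 < h →
      ∫ y, (A y - AG y) * (ct K (y + h) - ct K (y - h)) = 0 := by
    intro κ hκ K hK h hh
    have e : ∀ y, (A y - AG y) * (ct K (y + h) - ct K (y - h)) =
        A y * (ct K (y + h) - ct K (y - h)) - AG y * (ct K (y + h) - ct K (y - h)) := fun y => by
      ring
    simp_rw [e]
    rw [integral_sub (hint2 κ K hK h A C0 hC0 hA.measurable hb)
      (hint2 κ K hK h AG 2 zero_le_two AG_meas AG_bound), hm κ hκ K hK h hh, sub_self]
  have hcont : ∀ y, 0 < y → ContinuousAt A y → A y = AG y := by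
    intro y hy hc
    have := core (D := fun y => A y - AG y) (C := C0 + 2) (by positivity)
      (hA.measurable.sub AG_meas) (fun y => by
        have a := hb y
        have b := AG_bound y
        calc |A y - AG y| ≤ |A y| + |AG y| := abs_sub _ _
          _ ≤ (C0 + 2) * (1 + y ^ 2) := by linarith) (fun y hy => by
        show A y - AG y = 0
        rw [hneg y hy]
        unfold AG
        rw [if_pos hy, sub_zero]) hD0 hy (hc.sub (AG_contAt hy))
    linarith
  have hdense : ∀ a b : ℝ, a < b → ∃ y, a < y ∧ y < b ∧ ContinuousAt A y := by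
    intro a b hab
    have hcount := hA.countable_not_continuousAt
    have h2 := hcount.dense_compl ℝ
    obtain ⟨y, hy1, hy2⟩ := h2.exists_between hab
    refine ⟨y, hy2.1, hy2.2, ?_⟩
    simpa using hy1
  have hpos : ∀ x, 0 < x → A x = AG x := by
    intro x hx
    have hc := AG_contAt hx
    refine le_antisymm ?_ ?_
    · refine le_of_forall_pos_le_add fun ε hε => ?_
      have h2 : ∀ᶠ y in 𝓝 x, AG y < AG x + ε := hc.eventually_lt_const (by linarith)
      obtain ⟨δ, hδ, h3⟩ := Metric.eventually_nhds_iff.1 h2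
      obtain ⟨y, hy1, hy2, hy3⟩ := hdense x (x + δ) (by linarith)
      have h4 := h3 (y := y) (by rw [Real.dist_eq, abs_lt]; constructor <;> linarith)
      have h5 := hcont y (by linarith) hy3
      have h6 := hA hy1.le
      linarith
    · refine le_of_forall_pos_le_add fun ε hε => ?_
      have h2 : ∀ᶠ y in 𝓝 x, AG x - ε < AG y ∧ 0 < y :=
        (hc.eventually_const_lt (by linarith)).and (eventually_gt_nhds hx)
      obtain ⟨δ, hδ, h3⟩ := Metric.eventually_nhds_iff.1 h2
      obtain ⟨y, hy1, hy2, hy3⟩ := hdense (x - δ) x (by linarith)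
      have h4 := h3 (y := y) (by rw [Real.dist_eq, abs_lt]; constructor <;> linarith)
      have h5 := hcont y h4.2 hy3
      have h6 := hA hy2.le
      linarith [h4.1]
  rcases lt_trichotomy x 0 with hx | hx | hx
  · rw [hneg x hx]
    unfold AG
    rw [if_pos hx]
  · subst hx
    have e0 : AG 0 = 1 := by
      unfold AG
      rw [if_neg (lt_irrefl _), gp_zero]
      norm_num
    rw [e0]
    refine le_antisymm ?_ h1
    have h2 : Tendsto (fun y => 1 + 2 * gp y) (𝓝[>] 0) (𝓝 1) := by
      have h3 : Tendsto (fun y => 1 + 2 * gp y) (𝓝 0) (𝓝 (1 + 2 * gp 0)) :=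
        (continuous_const.add (continuous_const.mul gp_cont)).tendsto 0
      rw [gp_zero, mul_zero, add_zero] at h3
      exact h3.mono_left nhdsWithin_le_nhds
    refine ge_of_tendsto h2 ?_
    filter_upwards [self_mem_nhdsWithin] with y hy
    have hy' : (0 : ℝ) < y := hy
    have h3 := hA hy'.le
    rw [hpos y hy'] at h3
    unfold AG at h3
    rwa [if_neg (not_lt.2 hy'.le)] at h3
  · exact hpos x hx

/-- **Montgomery's theorem for every support implies the convergence of all counting functions** -/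
theorem Aa_all {l : Filter ℝ} (hl : l ≤ atTop)
    (hm : ∀ κ : ℝ, 0 < κ → Pool.Agent.L5helper12.TW.Mont κ l) (x : ℝ) :
    Tendsto (fun T => Pool.Agent.Y744.Aa T x) l (𝓝 (Pool.Agent.Y744.AG x)) := by
  rw [tendsto_iff_ultrafilter]
  intro g hg
  have hgt : (g : Filter ℝ) ≤ atTop := hg.trans hl
  obtain ⟨A', C0, hA', hneg, hb, h0, hlim, -⟩ :=
    Pool.Agent.L5helper12.TW.exists_limit g hgt ((hm 1 one_pos).mono hg)
  have key : ∀ κ, 0 < κ → ∀ K, TK κ K → ∀ h, 0 < h →
      ∫ y, A' y * (ct K (y + h) - ct K (y - h)) = ∫ y, AG y * (ct K (y + h) - ct K (y - h)) := by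
    intro κ hκ
    obtain ⟨A2, -, -, -, -, -, hlim2, hm2⟩ :=
      Pool.Agent.L5helper12.TW.exists_limit g hgt ((hm κ hκ).mono hg)
    have e : A2 = A' := funext fun y => tendsto_nhds_unique (hlim2 y) (hlim y)
    rwa [e] at hm2
  have e := eq_AG hA' hneg hb h0 key x
  rw [← e]
  exact hlim x

end Pool.Agent.L5helper13.PVUniq
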