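import Pool.Agent.L5helper13.Phases

/-!
Library L5helper13: values of the Liouville function at products of linear forms in progressions, with an
arbitrary bounded weight.
-/

set_option autoImplicit false

namespace Pool.Agent.L5helper13

open Finset Filter Topology
open Pool.Agent.Helper602.MK (ee)
open Pool.Agent.Helper602.MK.N_J1c (c_ee_add c_ee_int c_norm_ee)
open Pool.Agent.Y958.U (LZ)
open Pool.Agent.Y842.PG

/-- The Liouville function on the integers, `λ(-m) = λ(m)`, `λ(0) = 0`. -/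
noncomputable def LL (m : ℤ) : ℝ := if m = 0 then 0 else (-1) ^ ArithmeticFunction.cardFactors m.natAbs

lemma LL_mul (x y : ℤ) : LL (x * y) = LL x * LL y := by
  unfold LL
  by_cases hx : x = 0
  · simp [hx]
  by_cases hy : y = 0
  · simp [hy]
  rw [if_neg hx, if_neg hy, if_neg (mul_ne_zero hx hy), Int.natAbs_mul,
    ArithmeticFunction.cardFactors_mul (Int.natAbs_ne_zero.2 hx) (Int.natAbs_ne_zero.2 hy), pow_add]

lemma LL_prod {ι : Type} (S : Finset ι) (f : ι → ℤ) : LL (∏ i ∈ S, f i) = ∏ i ∈ S, LL (f i) := by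
  classical
  induction S using Finset.induction_on with
  | empty => simp [LL]
  | insert i S hi ih => rw [prod_insert hi, prod_insert hi, LL_mul, ih]

lemma LL_cases {x : ℤ} (hx : x ≠ 0) : LL x = 1 ∨ LL x = -1 := by
  unfold LL
  rw [if_neg hx]
  exact neg_one_pow_eq_or ℝ _

lemma LL_le (x : ℤ) : |LL x| ≤ 1 := by
  by_cases hx : x = 0
  · simp [LL, hx]
  · rcases LL_cases hx with h | h <;> rw [h] <;> simp

lemma LL_nat {n : ℕ} (hn : 1 ≤ n) : ((LL (n : ℤ) : ℝ) : ℂ) = lc n := by
  unfold LL lc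
  rw [if_neg (by exact_mod_cast (by omega : n ≠ 0)), Int.natAbs_natCast]
  push_cast
  rfl

open Classical in
/-- the points of the progression -/
noncomputable def AP (N q : ℕ) (r : ℤ) : Finset ℕ := (Icc 1 N).filter (fun t => (t : ℤ) ≡ r [ZMOD q])

lemma AP_card (N q : ℕ) (hq : 1 ≤ q) (r : ℤ) : ((AP N q r).card : ℝ) ≤ N / q + 1 := by
  classical
  have hq0 : (0 : ℝ) < q := by exact_mod_cast hq
  set r' : ℕ := (r % q).toNat with hr'
  have hr0 : (r' : ℤ) = r % q := by
    rw [hr']
    exact Int.toNat_of_nonneg (Int.emod_nonneg _ (by omega))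
  have hsub : AP N q r ⊆ ((range (N + 1)).filter (fun t => t % q = r')) := by
    intro t ht
    unfold AP at ht
    rw [mem_filter, mem_Icc] at ht
    rw [mem_filter, mem_range]
    refine ⟨by omega, ?_⟩
    have h1 : (t : ℤ) % q = r % q := ht.2
    rw [← hr0] at h1
    exact_mod_cast h1
  have h1 : (AP N q r).card ≤ N / q + 1 := by
    refine (card_le_card hsub).trans ?_
    have h2 : ((range (N + 1)).filter (fun t => t % q = r')).card ≤ (range (N / q + 1)).card := by
      apply card_le_card_of_injOn (fun t => t / q)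
      · intro t ht
        rw [mem_coe, mem_filter, mem_range] at ht
        rw [mem_coe, mem_range]
        exact Nat.lt_succ_of_le (Nat.div_le_div_right (by omega))
      · intro t ht u hu htu
        rw [mem_coe, mem_filter] at ht hu
        have e1 := Nat.div_add_mod t q
        have e2 := Nat.div_add_mod u q
        have htu : t / q = u / q := htu
        rw [← e1, ← e2, ht.2, hu.2, htu]
    rwa [card_range] at h2
  have h2 : ((N / q : ℕ) : ℝ) ≤ N / q := Nat.cast_div_le
  have h3 : ((AP N q r).card : ℝ) ≤ ((N / q + 1 : ℕ) : ℝ) := by exact_mod_cast h1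
  push_cast at h3
  linarith

/-- products of the values at linear forms in progressions -/
theorem prog : ∃ F : Set ℕ, LZ F ∧ ∀ (R : ℕ) (a b : Fin R → ℤ), (∀ i, 0 < a i) → ∀ ε : ℝ, 0 < ε →
    ∃ N₀ : ℕ, ∀ N : ℕ, N₀ ≤ N → N ∉ F → ∀ q : ℕ, 1 ≤ q → ∀ (r : ℤ) (U : Finset (Fin R)),
      (Odd U.card ∨ ∃ i j, a i * b j ≠ a j * b i ∧ U = {i, j}) →
        |∑ t ∈ AP N q r, ∏ i ∈ U, LL (a i * t + b i)| ≤ ε * N := by
  classical
  obtain ⟨F, hF, h⟩ := phases (fun n => n) tendsto_id
  refine ⟨F, hF, fun R a b ha ε hε => ?_⟩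
  set m : ℕ := ∑ i, (b i).natAbs with hm
  have hmi : ∀ i, (b i).natAbs ≤ m := fun i =>
    single_le_sum (f := fun i => (b i).natAbs) (fun _ _ => Nat.zero_le _) (mem_univ i)
  set a' : Fin R → ℕ := fun i => (a i).toNat with ha'
  have hae : ∀ i, ((a' i : ℕ) : ℤ) = a i := fun i => Int.toNat_of_nonneg (ha i).le
  have hb0 : ∀ i, 0 ≤ a i * m + b i := by
    intro i
    have h1 := ha i
    have h2 := hmi i
    have h3 : (m : ℤ) ≤ a i * m := by nlinarith
    omega
  set b' : Fin R → ℕ := fun i => (a i * m + b i).toNat with hb'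
  have hbe : ∀ i, ((b' i : ℕ) : ℤ) = a i * m + b i := fun i => Int.toNat_of_nonneg (hb0 i)
  obtain ⟨Q, hQ⟩ := exists_nat_ge (2 / ε)
  set Q' : ℕ := Q + 1 with hQ'
  have hQ0 : (0 : ℝ) < Q' := by rw [hQ']; positivity
  obtain ⟨N₁, hN₁⟩ := h R a' b' (fun i => by have := ha i; have := hae i; omega) (ε / (2 * Q')) (by positivity)
  obtain ⟨N₂, hN₂⟩ := exists_nat_ge (2 * ((m : ℝ) + 1) / ε)
  refine ⟨N₁ + N₂ + m + 1, fun N hN hNF q hq r U hU => ?_⟩
  have hN0 : (0 : ℝ) < N := by exact_mod_cast (by omega : 0 < N)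
  have hmN : 2 * ((m : ℝ) + 1) ≤ ε * N := by
    have h1 : 2 * ((m : ℝ) + 1) / ε ≤ N := hN₂.trans (by exact_mod_cast (by omega : N₂ ≤ N))
    rw [div_le_iff₀ hε] at h1
    linarith
  have hterm : ∀ t : ℕ, |∏ i ∈ U, LL (a i * t + b i)| ≤ 1 := fun t => by
    rw [abs_prod]
    exact prod_le_one (fun _ _ => abs_nonneg _) fun _ _ => LL_le _
  by_cases hqQ : Q' < q
  · -- large moduli
    have h1 : |∑ t ∈ AP N q r, ∏ i ∈ U, LL (a i * t + b i)| ≤ (AP N q r).card := by
      refine (abs_sum_le_sum_abs _ _).trans ((sum_le_sum fun t _ => hterm t).trans ?_)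
      simp
    have h2 := AP_card N q hq r
    have h3 : (N : ℝ) / q ≤ ε / 2 * N := by
      have hq' : (Q : ℝ) ≤ q := by exact_mod_cast (by omega : Q ≤ q)
      have hq0 : (0 : ℝ) < q := by exact_mod_cast hq
      rw [div_le_iff₀ hq0]
      have h4 : 2 / ε ≤ q := hQ.trans hq'
      rw [div_le_iff₀ hε] at h4
      nlinarith
    have h4 : (0 : ℝ) ≤ m := Nat.cast_nonneg _
    linarith
  · rw [not_lt] at hqQ
    -- the sum over `n = t - m`
    set G : ℕ → ℂ := fun n => if n = 0 then 0 else ∏ i ∈ U, lc (a' i * n + b' i) with hG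
    have hcond : Odd U.card ∨ (U.Nonempty ∧ GdM N N 0) ∨ (∃ i j, a' i * b' j ≠ a' j * b' i ∧ U = {i, j}) := by
      rcases hU with h1 | ⟨i, j, hij, h1⟩
      · exact Or.inl h1
      · right; right
        refine ⟨i, j, fun hcon => hij ?_, h1⟩
        have h2 : ((a' i : ℕ) : ℤ) * ((b' j : ℕ) : ℤ) = ((a' j : ℕ) : ℤ) * ((b' i : ℕ) : ℤ) := by exact_mod_cast hcon
        rw [hae, hae, hbe, hbe] at h2
        linarith
    have hcond' : ∀ α : ℝ, Odd U.card ∨ (U.Nonempty ∧ GdM N N α) ∨ (∃ i j, a' i * b' j ≠ a' j * b' i ∧ U = {i, j}) := by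
      intro α
      rcases hU with h1 | ⟨i, j, hij, h1⟩
      · exact Or.inl h1
      · right; right
        refine ⟨i, j, fun hcon => hij ?_, h1⟩
        have h2 : ((a' i : ℕ) : ℤ) * ((b' j : ℕ) : ℤ) = ((a' j : ℕ) : ℤ) * ((b' i : ℕ) : ℤ) := by exact_mod_cast hcon
        rw [hae, hae, hbe, hbe] at h2
        linarith
    have h1 : ∀ α : ℝ, ‖∑ n ∈ range (N - m + 1), G n * ee (α * n)‖ ≤ ε / (2 * Q') * N := by
      intro α
      have h2 := hN₁ N (by omega) hNF α (N - m) (Nat.sub_le _ _) U (hcond' α)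
      refine le_trans (le_of_eq ?_) h2
      congr 1
      rw [range_eq_Ico, sum_eq_sum_Ico_succ_bot (by omega)]
      have e0 : G 0 = 0 := by simp [hG]
      rw [e0, zero_mul, zero_add]
      have e1 : Ico (0 + 1) (N - m + 1) = Icc 1 (N - m) := by
        ext n; simp only [mem_Ico, mem_Icc]; omega
      rw [e1]
      apply sum_congr rfl
      intro n hn
      rw [mem_Icc] at hn
      simp only [hG]
      rw [if_neg (by omega), mul_comm]
    set s : ℕ := ((r - m) % q).toNat with hs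
    have hs0 : (s : ℤ) = (r - m) % q := Int.toNat_of_nonneg (Int.emod_nonneg _ (by omega))
    have h3 := Pool.Agent.Y842.PH.per_w (N - m + 1) q hq G (fun n => if n % q = s then 1 else 0)
      (fun n => by split_ifs <;> simp) (fun n => by rw [Nat.mod_mod]) _ h1 0
    have h4 : ‖∑ n ∈ (Icc 1 (N - m)).filter (fun n => n % q = s), G n‖ ≤ q * (ε / (2 * Q') * N) := by
      refine le_trans (le_of_eq ?_) h3
      congr 1
      rw [range_eq_Ico, sum_eq_sum_Ico_succ_bot (by omega)]
      have e0 : G 0 = 0 := by simp [hG]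
      rw [e0, zero_mul, zero_mul, zero_add]
      have e1 : Ico (0 + 1) (N - m + 1) = Icc 1 (N - m) := by
        ext n; simp only [mem_Ico, mem_Icc]; omega
      rw [e1, sum_filter]
      apply sum_congr rfl
      intro n _
      have e2 : ee (0 * (n : ℝ)) = 1 := by unfold ee; simp
      rw [e2]
      split_ifs <;> simp
    have h5 : (q : ℝ) * (ε / (2 * Q') * N) ≤ ε / 2 * N := by
      have hq' : (q : ℝ) ≤ Q' := by exact_mod_cast hqQ
      calc (q : ℝ) * (ε / (2 * Q') * N) ≤ Q' * (ε / (2 * Q') * N) := by gcongr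
        _ = ε / 2 * N := by field_simp
    -- splitting the sum
    have h6 : ∑ t ∈ AP N q r, ∏ i ∈ U, LL (a i * t + b i) =
        ∑ t ∈ (AP N q r).filter (fun t => t ≤ m), ∏ i ∈ U, LL (a i * t + b i) +
        ∑ t ∈ (AP N q r).filter (fun t => ¬ t ≤ m), ∏ i ∈ U, LL (a i * t + b i) :=
      (sum_filter_add_sum_filter_not _ _ _).symm
    have h7 : |∑ t ∈ (AP N q r).filter (fun t => t ≤ m), ∏ i ∈ U, LL (a i * t + b i)| ≤ m := by
      refine (abs_sum_le_sum_abs _ _).trans ((sum_le_sum fun t _ => hterm t).trans ?_)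
      rw [sum_const, nsmul_eq_mul, mul_one]
      have : ((AP N q r).filter (fun t => t ≤ m)).card ≤ (Icc 1 m).card := by
        apply card_le_card
        intro t ht
        unfold AP at ht
        rw [mem_filter, mem_filter, mem_Icc] at ht
        rw [mem_Icc]
        exact ⟨ht.1.1.1, ht.2⟩
      rw [Nat.card_Icc, Nat.add_sub_cancel] at this
      exact_mod_cast this
    have h8 : ((∑ t ∈ (AP N q r).filter (fun t => ¬ t ≤ m), ∏ i ∈ U, LL (a i * t + b i) : ℝ) : ℂ) =
        ∑ n ∈ (Icc 1 (N - m)).filter (fun n => n % q = s), G n := by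
      push_cast
      symm
      apply sum_nbij (fun n => n + m)
      · intro n hn
        rw [mem_filter, mem_Icc] at hn
        unfold AP
        rw [mem_filter, mem_filter, mem_Icc]
        refine ⟨⟨by omega, ?_⟩, by omega⟩
        have h9 : ((n % q : ℕ) : ℤ) = (r - m) % q := by rw [hn.2, hs0]
        have h10 : (n : ℤ) ≡ r - m [ZMOD q] := by
          unfold Int.ModEq
          rw [← h9]
          push_cast
          rfl
        have h11 := h10.add_right (m : ℤ)
        rw [sub_add_cancel] at h11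
        push_cast
        exact h11
      · intro x _ y _ hxy
        have : x + m = y + m := hxy
        omega
      · intro t ht
        unfold AP at ht
        rw [mem_coe, mem_filter, mem_filter, mem_Icc] at ht
        refine ⟨t - m, ?_, by show t - m + m = t; omega⟩
        rw [mem_coe, mem_filter, mem_Icc]
        refine ⟨by omega, ?_⟩
        have h9 : (t : ℤ) - m ≡ r - m [ZMOD q] := ht.1.2.sub_right _
        have h10 : ((t - m : ℕ) : ℤ) = (t : ℤ) - m := by push_cast [show m ≤ t by omega]; ring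
        rw [← h10] at h9
        have h11 : ((t - m : ℕ) : ℤ) % q = (r - m) % q := h9
        rw [← hs0] at h11
        exact_mod_cast h11
      · intro n hn
        rw [mem_filter, mem_Icc] at hn
        simp only [hG]
        rw [if_neg (by omega)]
        apply prod_congr rfl
        intro i _
        have e1 : a i * ((n + m : ℕ) : ℤ) + b i = ((a' i * n + b' i : ℕ) : ℤ) := by
          push_cast
          rw [hae, hbe]
          ring
        rw [e1, LL_nat]
        have h9 : 1 ≤ a' i := by have := ha i; have := hae i; omega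
        nlinarith [hn.1.1]
    have h9 : |∑ t ∈ (AP N q r).filter (fun t => ¬ t ≤ m), ∏ i ∈ U, LL (a i * t + b i)| ≤ ε / 2 * N := by
      rw [← Real.norm_eq_abs, ← Complex.norm_real, h8]
      exact h4.trans h5
    rw [h6]
    have h10 := abs_add_le (∑ t ∈ (AP N q r).filter (fun t => t ≤ m), ∏ i ∈ U, LL (a i * t + b i))
      (∑ t ∈ (AP N q r).filter (fun t => ¬ t ≤ m), ∏ i ∈ U, LL (a i * t + b i))
    linarith

/-- two products with a common arbitrary factor -/
theorem pair_core : ∃ F : Set ℕ, LZ F ∧ ∀ (R : ℕ) (a b : Fin R → ℤ), (∀ i, 0 < a i) → ∀ ε : ℝ, 0 < ε →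
    ∃ N₀ : ℕ, ∀ N : ℕ, N₀ ≤ N → N ∉ F → ∀ Φ : ℕ → ℝ, (∀ t, |Φ t| ≤ 1) → ∀ q : ℕ, 1 ≤ q → ∀ (r : ℤ)
      (S T : Finset (Fin R)), (Odd (symmDiff S T).card ∨ ∃ i j, a i * b j ≠ a j * b i ∧ symmDiff S T = {i, j}) →
        |∑ t ∈ AP N q r, Φ t * ∏ i ∈ S, LL (a i * t + b i)| + |∑ t ∈ AP N q r, Φ t * ∏ i ∈ T, LL (a i * t + b i)| ≤
          (AP N q r).card + ε * N := by
  classical
  obtain ⟨F, hF, h⟩ := prog
  refine ⟨F, hF, fun R a b ha ε hε => ?_⟩
  obtain ⟨N₁, hN₁⟩ := h R a b ha (ε / 2) (by positivity)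
  set m : ℕ := ∑ i, (b i).natAbs with hm
  have hmi : ∀ i, (b i).natAbs ≤ m := fun i =>
    single_le_sum (f := fun i => (b i).natAbs) (fun _ _ => Nat.zero_le _) (mem_univ i)
  obtain ⟨N₂, hN₂⟩ := exists_nat_ge (4 * (m : ℝ) / ε)
  refine ⟨N₁ + N₂ + 1, fun N hN hNF Φ hΦ q hq r S T hST => ?_⟩
  have hmN : 4 * (m : ℝ) ≤ ε * N := by
    have h1 : 4 * (m : ℝ) / ε ≤ N := hN₂.trans (by exact_mod_cast (by omega : N₂ ≤ N))
    rw [div_le_iff₀ hε] at h1
    linarith
  have hU := hN₁ N (by omega) hNF q hq r (symmDiff S T) hST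
  set X : ℕ → ℝ := fun t => ∏ i ∈ S, LL (a i * t + b i) with hX
  set Y : ℕ → ℝ := fun t => ∏ i ∈ T, LL (a i * t + b i) with hY
  set W : ℕ → ℝ := fun t => ∏ i ∈ symmDiff S T, LL (a i * t + b i) with hW
  have hne : ∀ (t : ℕ) (i : Fin R), m < t → a i * t + b i ≠ 0 := by
    intro t i ht
    have h1 := ha i
    have h2 := hmi i
    have h3 : (t : ℤ) ≤ a i * t := by nlinarith
    omega
  have habs : ∀ (V : Finset (Fin R)) (t : ℕ), |∏ i ∈ V, LL (a i * t + b i)| ≤ 1 := fun V t => by
    rw [abs_prod]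
    exact prod_le_one (fun _ _ => abs_nonneg _) fun _ _ => LL_le _
  have hpm : ∀ (V : Finset (Fin R)) (t : ℕ), m < t → (∏ i ∈ V, LL (a i * t + b i)) = 1 ∨
      (∏ i ∈ V, LL (a i * t + b i)) = -1 := by
    intro V t ht
    rw [← LL_prod]
    exact LL_cases (prod_ne_zero_iff.2 fun i _ => hne t i ht)
  have hXY : ∀ t, m < t → X t * Y t = W t := by
    intro t ht
    simp only [hX, hY, hW]
    have e1 : ∏ i ∈ S, LL (a i * t + b i) = (∏ i ∈ S \ T, LL (a i * t + b i)) * ∏ i ∈ S ∩ T, LL (a i * t + b i) := by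
      rw [← prod_union (disjoint_sdiff_inter S T), sdiff_union_inter]
    have e2 : ∏ i ∈ T, LL (a i * t + b i) = (∏ i ∈ T \ S, LL (a i * t + b i)) * ∏ i ∈ S ∩ T, LL (a i * t + b i) := by
      rw [inter_comm, ← prod_union (disjoint_sdiff_inter T S), sdiff_union_inter]
    have e3 : ∏ i ∈ symmDiff S T, LL (a i * t + b i) = (∏ i ∈ S \ T, LL (a i * t + b i)) *
        ∏ i ∈ T \ S, LL (a i * t + b i) := by
      rw [← prod_union]
      · rfl
      · exact disjoint_sdiff_sdiff
    rw [e1, e2, e3]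
    have h1 : (∏ i ∈ S ∩ T, LL (a i * t + b i)) * (∏ i ∈ S ∩ T, LL (a i * t + b i)) = 1 := by
      rcases hpm (S ∩ T) t ht with h1 | h1 <;> rw [h1] <;> norm_num
    linear_combination ((∏ i ∈ S \ T, LL (a i * t + b i)) * ∏ i ∈ T \ S, LL (a i * t + b i)) * h1
  -- the bound for both signs
  have key : ∀ σ : ℝ, (σ = 1 ∨ σ = -1) → |∑ t ∈ AP N q r, (Φ t * X t + σ * (Φ t * Y t))| ≤
      (AP N q r).card + ε * N := by
    intro σ hσ
    have h1 : ∀ t ∈ AP N q r, |Φ t * X t + σ * (Φ t * Y t)| ≤ (1 + σ * W t) + (if t ≤ m then 2 else 0) := by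
      intro t _
      have h2 : |Φ t * X t + σ * (Φ t * Y t)| ≤ |X t + σ * Y t| := by
        have : Φ t * X t + σ * (Φ t * Y t) = Φ t * (X t + σ * Y t) := by ring
        rw [this, abs_mul]
        calc |Φ t| * |X t + σ * Y t| ≤ 1 * |X t + σ * Y t| := by gcongr; exact hΦ t
          _ = _ := one_mul _
      refine h2.trans ?_
      by_cases ht : t ≤ m
      · rw [if_pos ht]
        have hx := abs_le.1 (habs S t)
        have hy := abs_le.1 (habs T t)
        have hw := abs_le.1 (habs (symmDiff S T) t)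
        rw [abs_le]
        simp only [hX, hY, hW]
        rcases hσ with h | h <;> rw [h] <;> constructor <;> linarith [hx.1, hx.2, hy.1, hy.2, hw.1, hw.2]
      · rw [if_neg ht, add_zero]
        have h3 := hXY t (by omega)
        rw [← h3]
        have hx : X t = 1 ∨ X t = -1 := hpm S t (by omega)
        have hy : Y t = 1 ∨ Y t = -1 := hpm T t (by omega)
        rcases hx with h | h <;> rcases hy with h' | h' <;> rcases hσ with h'' | h'' <;> rw [h, h', h''] <;> norm_num
    refine (abs_sum_le_sum_abs _ _).trans ((sum_le_sum h1).trans ?_)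
    rw [sum_add_distrib, sum_add_distrib, ← mul_sum]
    have h4 : ∑ t ∈ AP N q r, (if t ≤ m then (2 : ℝ) else 0) ≤ 2 * m := by
      rw [← sum_filter, sum_const, nsmul_eq_mul]
      have : ((AP N q r).filter (fun t => t ≤ m)).card ≤ (Icc 1 m).card := by
        apply card_le_card
        intro t ht
        unfold AP at ht
        rw [mem_filter, mem_filter, mem_Icc] at ht
        rw [mem_Icc]
        exact ⟨ht.1.1.1, ht.2⟩
      rw [Nat.card_Icc, Nat.add_sub_cancel] at this
      have h5 : (((AP N q r).filter (fun t => t ≤ m)).card : ℝ) ≤ m := by exact_mod_cast this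
      linarith
    have h5 : σ * ∑ t ∈ AP N q r, W t ≤ ε / 2 * N := by
      have h6 := abs_le.1 hU
      rcases hσ with h | h <;> rw [h]
      · linarith [h6.2]
      · linarith [h6.1]
    have h6 : ∑ _t ∈ AP N q r, (1 : ℝ) = (AP N q r).card := by simp
    rw [h6]
    linarith
  have k1 := key 1 (Or.inl rfl)
  have k2 := key (-1) (Or.inr rfl)
  rw [sum_add_distrib, ← mul_sum] at k1 k2
  have k1' := abs_le.1 k1
  have k2' := abs_le.1 k2
  rcases abs_cases (∑ t ∈ AP N q r, Φ t * X t) with h1 | h1 <;> rcases abs_cases (∑ t ∈ AP N q r, Φ t * Y t) with h2 | h2 <;>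
    rw [h1.1, h2.1] <;> linarith [k1'.1, k1'.2, k2'.1, k2'.2]

end Pool.Agent.L5helper13
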