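import Pool.Agent.L5helper13.Forms
import Pool.Agent.L5helper13.Pat

/-!
Library L5helper13: one exceptional set for all the correlations which are small uniformly in the phases, and the
distribution of the sign patterns.
-/

set_option autoImplicit false

namespace Pool.Agent.L5helper13

open Finset Filter Topology
open Pool.Agent.Helper602.MK (ee)
open Pool.Agent.Helper602.MK.N_J1c (c_ee_add c_ee_int c_norm_ee)
open Pool.Agent.Y958.U (LZ)
open Pool.Agent.Y842.EL (LZ_eps LZ_mono LZ_union LZ_empty LZ_pull)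
open Pool.Agent.Y842.PG

/-- the forms of a subset -/
lemma FP_sub {k : ℕ} (a b : Fin k → ℕ) (S : Finset (Fin k)) (n : ℕ) :
    FP (a ∘ S.orderEmbOfFin rfl) (b ∘ S.orderEmbOfFin rfl) n = ∏ i ∈ S, lc (a i * n + b i) := by
  unfold FP
  have h1 := Finset.map_orderEmbOfFin_univ S rfl
  conv_rhs => rw [← h1]
  rw [prod_map]
  rfl

/-- the tuples of forms -/
abbrev JJ : Type := Σ k : ℕ, (Fin k → ℕ) × (Fin k → ℕ) × ℕ

open Classical in
/-- the exceptional set of a tuple -/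
noncomputable def EJ (ρ : ℕ → ℕ) (t : JJ) : Set ℕ :=
  if ∀ i, 1 ≤ t.2.1 i then
    (if Odd t.1 then BadF t.2.1 t.2.2.1 (fun _ _ => True) (1 / (t.2.2.2 + 1 : ℝ)) else ∅) ∪
    (if 1 ≤ t.1 then BadF t.2.1 t.2.2.1 (fun N α => GdM (ρ N) N α) (1 / (t.2.2.2 + 1 : ℝ)) else ∅)
  else ∅

lemma EJ_LZ (ρ : ℕ → ℕ) (hρ : Tendsto ρ atTop atTop) (t : JJ) : LZ (EJ ρ t) := by
  have h0 : (0 : ℝ) < 1 / (t.2.2.2 + 1 : ℝ) := by positivity
  have h1 : 1 / (t.2.2.2 + 1 : ℝ) ≤ 1 := by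
    rw [div_le_one (by positivity)]
    have : (0 : ℝ) ≤ t.2.2.2 := Nat.cast_nonneg _
    linarith
  unfold EJ
  split_ifs with ha h2 h3 h3
  · exact LZ_union (forms_odd h2 _ _ ha _ h0 h1) (forms_minor h3 _ _ ha ρ hρ _ h0 h1)
  · exact LZ_union (forms_odd h2 _ _ ha _ h0 h1) LZ_empty
  · exact LZ_union LZ_empty (forms_minor h3 _ _ ha ρ hρ _ h0 h1)
  · exact LZ_union LZ_empty LZ_empty
  · exact LZ_empty

/-- **one exceptional set for all the sums** -/
theorem phases (ρ : ℕ → ℕ) (hρ : Tendsto ρ atTop atTop) : ∃ F : Set ℕ, LZ F ∧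
    ∀ (k : ℕ) (a b : Fin k → ℕ), (∀ i, 1 ≤ a i) → ∀ ε : ℝ, 0 < ε → ∃ N₀ : ℕ, ∀ N : ℕ, N₀ ≤ N → N ∉ F →
      ∀ (α : ℝ) (y : ℕ), y ≤ N → ∀ S : Finset (Fin k),
        (Odd S.card ∨ (S.Nonempty ∧ GdM (ρ N) N α) ∨ (∃ i j, a i * b j ≠ a j * b i ∧ S = {i, j})) →
        ‖∑ n ∈ Icc 1 y, ee (α * n) * ∏ i ∈ S, lc (a i * n + b i)‖ ≤ ε * N := by
  obtain ⟨F₁, hF₁, h1⟩ := two_forms
  obtain ⟨F₂, hF₂, h2⟩ := Pool.Agent.Y842.EL.LZ_diag' (EJ ρ) (EJ_LZ ρ hρ)
  refine ⟨F₁ ∪ F₂, LZ_union hF₁ hF₂, fun k a b ha ε hε => ?_⟩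
  obtain ⟨j, hj⟩ := exists_nat_one_div_lt hε
  choose N₂ hN₂ using fun S : Finset (Fin k) =>
    h2 ⟨S.card, a ∘ S.orderEmbOfFin rfl, b ∘ S.orderEmbOfFin rfl, j⟩
  have h3 : ∀ u : Fin k × Fin k, ∃ N₀ : ℕ, a u.1 * b u.2 ≠ a u.2 * b u.1 → ∀ N : ℕ, N₀ ≤ N → N ∉ F₁ →
      ∀ (α : ℝ) (y : ℕ), y ≤ N →
      ‖∑ n ∈ Icc 1 y, lc (a u.1 * n + b u.1) * lc (a u.2 * n + b u.2) * ee (α * n)‖ ≤ ε * N := by
    intro u
    by_cases hu : a u.1 * b u.2 ≠ a u.2 * b u.1
    · obtain ⟨N₀, hN₀⟩ := h1 (a u.1) (b u.1) (a u.2) (b u.2) (ha _) (ha _) hu ε hε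
      exact ⟨N₀, fun _ => hN₀⟩
    · exact ⟨0, fun h => absurd h hu⟩
  choose N₁ hN₁ using h3
  refine ⟨∑ S, N₂ S + ∑ u, N₁ u, fun N hN hNF α y hy S hS => ?_⟩
  have hNF1 : N ∉ F₁ := fun h => hNF (Or.inl h)
  have hNF2 : N ∉ F₂ := fun h => hNF (Or.inr h)
  have hNr : (0 : ℝ) ≤ N := Nat.cast_nonneg N
  -- the sums in the class `BadF`
  have key : ∀ C : ℕ → ℝ → Prop, C N α →
      BadF (a ∘ S.orderEmbOfFin rfl) (b ∘ S.orderEmbOfFin rfl) C (1 / (j + 1 : ℝ)) ⊆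
        EJ ρ ⟨S.card, a ∘ S.orderEmbOfFin rfl, b ∘ S.orderEmbOfFin rfl, j⟩ →
      ‖∑ n ∈ Icc 1 y, ee (α * n) * ∏ i ∈ S, lc (a i * n + b i)‖ ≤ ε * N := by
    intro C hC hsub
    by_contra hcon
    rw [not_le] at hcon
    apply hNF2
    refine hN₂ S N ?_ (hsub ⟨α, hC, y, hy, ?_⟩)
    · have := single_le_sum (f := N₂) (fun _ _ => Nat.zero_le _) (mem_univ S)
      omega
    · refine lt_of_le_of_lt (mul_le_mul_of_nonneg_right hj.le hNr) ?_
      refine hcon.trans_le (le_of_eq ?_)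
      congr 1
      refine sum_congr rfl fun n _ => ?_
      rw [FP_sub, mul_comm]
  have ha' : ∀ i, 1 ≤ (a ∘ S.orderEmbOfFin rfl) i := fun i => ha _
  rcases hS with hS | ⟨hS, hα⟩ | ⟨i, i', hii, hS⟩
  · refine key (fun _ _ => True) trivial ?_
    unfold EJ
    rw [if_pos ha', if_pos hS]
    exact Set.subset_union_left
  · refine key (fun N α => GdM (ρ N) N α) hα ?_
    unfold EJ
    rw [if_pos ha', if_pos (show 1 ≤ S.card from hS.card_pos)]
    exact Set.subset_union_right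
  · have h4 := hN₁ (i, i') hii N (by
      have := single_le_sum (f := N₁) (fun _ _ => Nat.zero_le _) (mem_univ (i, i'))
      omega) hNF1 α y hy
    refine le_trans (le_of_eq ?_) h4
    congr 1
    refine sum_congr rfl fun n _ => ?_
    have hne : i ≠ i' := by
      rintro rfl
      exact hii rfl
    rw [hS, prod_pair hne]
    ring

variable {ι : Type} [DecidableEq ι]

/-- the sum over a pattern -/
lemma ind_sum {κ : Type} (I : Finset κ) (B : Finset ι) (x : ι → κ → ℂ) (hx : ∀ i n, x i n = 1 ∨ x i n = -1)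
    (w : κ → ℂ) [∀ n, DecidablePred fun i => x i n = 1] (P : Finset ι) (hP : P ⊆ B) :
    ∑ n ∈ I.filter (fun n => B.filter (fun i => x i n = 1) = P), w n =
      1 / 2 ^ B.card * ∑ S ∈ B.powerset, chi P S * ∑ n ∈ I, w n * ∏ i ∈ S, x i n := by
  rw [sum_filter]
  have e2 : ∀ n ∈ I, (if B.filter (fun i => x i n = 1) = P then w n else 0) =
      1 / 2 ^ B.card * ∑ S ∈ B.powerset, chi P S * (w n * ∏ i ∈ S, x i n) := by
    intro n _
    have e3 := pat_ind B P hP (fun i => x i n) (fun i => hx i n)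
    have e4 : (if B.filter (fun i => x i n = 1) = P then w n else 0) =
        w n * (if B.filter (fun i => x i n = 1) = P then (1 : ℂ) else 0) := by
      split_ifs <;> simp
    rw [e4, e3]
    rw [mul_left_comm, mul_sum]
    congr 1
    refine sum_congr rfl fun S _ => ?_
    ring
  rw [sum_congr rfl e2, ← mul_sum, sum_comm]
  congr 1
  refine sum_congr rfl fun S _ => ?_
  rw [mul_sum]

lemma chi_norm (P S : Finset ι) : ‖chi P S‖ = 1 := by
  unfold chi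
  rw [norm_prod]
  refine prod_eq_one fun i _ => ?_
  split_ifs <;> simp

lemma chi_sdiff (B P S : Finset ι) (hS : S ⊆ B) : chi (B \ P) S = (-1) ^ S.card * chi P S := by
  unfold chi
  rw [← prod_const, ← prod_mul_distrib]
  refine prod_congr rfl fun i hi => ?_
  by_cases h : i ∈ P
  · rw [if_neg (fun h1 => (Finset.mem_sdiff.1 h1).2 h), if_pos h]; ring
  · rw [if_pos (Finset.mem_sdiff.2 ⟨hS hi, h⟩), if_neg h]; ring

/-- the frequency of a pattern, if all the sums are small -/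
lemma ind_le {κ : Type} (I : Finset κ) (B : Finset ι) (x : ι → κ → ℂ) (hx : ∀ i n, x i n = 1 ∨ x i n = -1)
    (w : κ → ℂ) [∀ n, DecidablePred fun i => x i n = 1] (P : Finset ι) (hP : P ⊆ B) (T : ℝ) (hT : 0 ≤ T)
    (h : ∀ S ⊆ B, S.Nonempty → ‖∑ n ∈ I, w n * ∏ i ∈ S, x i n‖ ≤ T) :
    ‖∑ n ∈ I.filter (fun n => B.filter (fun i => x i n = 1) = P), w n - 1 / 2 ^ B.card * ∑ n ∈ I, w n‖ ≤ T := by
  have h1 : ∑ n ∈ I.filter (fun n => B.filter (fun i => x i n = 1) = P), w n - 1 / 2 ^ B.card * ∑ n ∈ I, w n =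
      1 / 2 ^ B.card * ∑ S ∈ B.powerset.erase ∅, chi P S * ∑ n ∈ I, w n * ∏ i ∈ S, x i n := by
    rw [ind_sum I B x hx w P hP, ← sum_erase_add _ _ (empty_mem_powerset B)]
    have e5 : chi P ∅ * ∑ n ∈ I, w n * ∏ i ∈ (∅ : Finset ι), x i n = ∑ n ∈ I, w n := by
      unfold chi
      simp
    rw [e5]
    ring
  rw [h1, norm_mul, norm_div, norm_one, norm_pow, Complex.norm_ofNat]
  have h2 : ‖∑ S ∈ B.powerset.erase ∅, chi P S * ∑ n ∈ I, w n * ∏ i ∈ S, x i n‖ ≤ 2 ^ B.card * T := by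
    refine (norm_sum_le _ _).trans ?_
    have h3 : ∀ S ∈ B.powerset.erase ∅, ‖chi P S * ∑ n ∈ I, w n * ∏ i ∈ S, x i n‖ ≤ T := by
      intro S hS
      rw [mem_erase, mem_powerset] at hS
      rw [norm_mul, chi_norm, one_mul]
      exact h S hS.2 (nonempty_iff_ne_empty.2 hS.1)
    refine (sum_le_sum h3).trans ?_
    rw [sum_const, nsmul_eq_mul]
    refine mul_le_mul_of_nonneg_right ?_ hT
    have h4 : (B.powerset.erase ∅).card ≤ 2 ^ B.card := by
      rw [← card_powerset]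
      exact card_le_card (erase_subset _ _)
    exact_mod_cast h4
  rw [div_mul_eq_mul_div, one_mul, div_le_iff₀ (by positivity)]
  linarith

/-- a pattern and the opposite pattern -/
lemma ind_flip {κ : Type} (I : Finset κ) (B : Finset ι) (x : ι → κ → ℂ) (hx : ∀ i n, x i n = 1 ∨ x i n = -1)
    (w : κ → ℂ) [∀ n, DecidablePred fun i => x i n = 1] (P : Finset ι) (hP : P ⊆ B) (T : ℝ) (hT : 0 ≤ T)
    (h : ∀ S ⊆ B, Odd S.card → ‖∑ n ∈ I, w n * ∏ i ∈ S, x i n‖ ≤ T) :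
    ‖∑ n ∈ I.filter (fun n => B.filter (fun i => x i n = 1) = P), w n -
      ∑ n ∈ I.filter (fun n => B.filter (fun i => x i n = 1) = B \ P), w n‖ ≤ 2 * T := by
  have h1 : ∑ n ∈ I.filter (fun n => B.filter (fun i => x i n = 1) = P), w n -
      ∑ n ∈ I.filter (fun n => B.filter (fun i => x i n = 1) = B \ P), w n =
      1 / 2 ^ B.card * ∑ S ∈ B.powerset, (chi P S - chi (B \ P) S) * ∑ n ∈ I, w n * ∏ i ∈ S, x i n := by
    rw [ind_sum I B x hx w P hP, ind_sum I B x hx w (B \ P) sdiff_subset, ← mul_sub, ← sum_sub_distrib]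
    congr 1
    refine sum_congr rfl fun S _ => ?_
    ring
  rw [h1, norm_mul, norm_div, norm_one, norm_pow, Complex.norm_ofNat]
  have h2 : ‖∑ S ∈ B.powerset, (chi P S - chi (B \ P) S) * ∑ n ∈ I, w n * ∏ i ∈ S, x i n‖ ≤ 2 ^ B.card * (2 * T) := by
    refine (norm_sum_le _ _).trans ?_
    have h3 : ∀ S ∈ B.powerset, ‖(chi P S - chi (B \ P) S) * ∑ n ∈ I, w n * ∏ i ∈ S, x i n‖ ≤ 2 * T := by
      intro S hS
      rw [mem_powerset] at hS
      rw [chi_sdiff B P S hS]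
      rcases Nat.even_or_odd S.card with h4 | h4
      · rw [h4.neg_one_pow, one_mul, sub_self, zero_mul, norm_zero]
        linarith
      · rw [h4.neg_one_pow, show chi P S - -1 * chi P S = 2 * chi P S by ring, norm_mul, norm_mul, chi_norm,
          Complex.norm_ofNat, mul_one]
        exact mul_le_mul_of_nonneg_left (h S hS h4) (by norm_num)
    refine (sum_le_sum h3).trans (le_of_eq ?_)
    rw [sum_const, nsmul_eq_mul, card_powerset]
    push_cast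
    ring
  rw [div_mul_eq_mul_div, one_mul, div_le_iff₀ (by positivity)]
  linarith

end Pool.Agent.L5helper13
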