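import Pool.Agent.L5helper13.Phases
import Pool.Agent.L5helper13.Bessel
import Pool.Agent.Y958.U.Lam

/-!
Library L5helper13: correlations of the Liouville function along finite sets of positions (real valued).
-/

set_option autoImplicit false

namespace Pool.Agent.L5helper13

open Finset Filter Topology
open Pool.Agent.Helper602.MK (ee)
open Pool.Agent.Helper602.MK.N_J1c (c_ee_add c_ee_int c_norm_ee)
open Pool.Agent.Y958.U (LZ)
open Pool.Agent.Y842.EL (LZ_eps LZ_mono LZ_union LZ_empty)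

/-- the Liouville function -/
noncomputable def lr (n : ℕ) : ℝ := (-1) ^ ArithmeticFunction.cardFactors n

/-- the sum over `1 ≤ n ≤ N` of the product of the values at the positions `n + h`, `h ∈ S` -/
noncomputable def cr (S : Finset ℕ) (N : ℕ) : ℝ := ∑ n ∈ Icc 1 N, ∏ h ∈ S, lr (n + h)

lemma lr_cases (n : ℕ) : lr n = 1 ∨ lr n = -1 := neg_one_pow_eq_or ℝ _

lemma lr_lc (n : ℕ) : ((lr n : ℝ) : ℂ) = lc n := by
  unfold lr lc
  push_cast
  rfl

lemma lr_sq (n : ℕ) : lr n * lr n = 1 := by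
  rcases lr_cases n with h | h <;> rw [h] <;> norm_num

lemma cr_norm (S : Finset ℕ) (N : ℕ) : |cr S N| = ‖∑ n ∈ Icc 1 N, ∏ h ∈ S, lc (n + h)‖ := by
  rw [← Real.norm_eq_abs, ← Complex.norm_real]
  congr 1
  unfold cr
  push_cast
  refine sum_congr rfl fun n _ => prod_congr rfl fun h _ => lr_lc _

lemma cr_enum (S : Finset ℕ) (N : ℕ) : |cr S N| = ‖∑ n ∈ Icc 1 N, ee (0 * n) *
    ∏ i ∈ (univ : Finset (Fin S.card)), lc (1 * n + S.orderEmbOfFin rfl i)‖ := by
  rw [cr_norm]
  congr 1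
  refine sum_congr rfl fun n _ => ?_
  have h0 : ee (0 * (n : ℝ)) = 1 := by
    have := c_ee_int 0
    simpa using this
  rw [h0, one_mul]
  have h1 := Finset.map_orderEmbOfFin_univ S rfl
  conv_lhs => rw [← h1]
  rw [prod_map]
  refine prod_congr rfl fun i _ => ?_
  rw [one_mul]
  rfl

/-- **the small correlations** -/
theorem small : ∃ (c : ℝ) (F : Set ℕ), 0 < c ∧ LZ F ∧
    (∀ S : Finset ℕ, Odd S.card ∨ S.card = 2 → ∀ ε : ℝ, 0 < ε → ∃ N₀ : ℕ, ∀ N : ℕ, N₀ ≤ N → N ∉ F →
      |cr S N| ≤ ε * N) ∧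
    ∀ S : Finset ℕ, S.card = 4 → ∃ N₀ : ℕ, ∀ N : ℕ, N₀ ≤ N → N ∉ F → |cr S N| ≤ (1 - c) * N := by
  obtain ⟨F₁, hF₁, h1⟩ := phases id tendsto_id
  obtain ⟨c, F₂, hc, hF₂, h2⟩ := Pool.Agent.Y958.U.lam_final
  refine ⟨c 4, F₁ ∪ F₂, hc 4, LZ_union hF₁ hF₂, fun S hS ε hε => ?_, fun S hS => ?_⟩
  · obtain ⟨N₀, hN₀⟩ := h1 S.card (fun _ => 1) (fun i => S.orderEmbOfFin rfl i) (fun _ => le_refl 1) ε hε
    refine ⟨N₀, fun N hN hNF => ?_⟩
    rw [cr_enum]
    refine hN₀ N hN (fun h => hNF (Or.inl h)) 0 N le_rfl univ ?_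
    rcases hS with hS | hS
    · left
      rw [card_univ, Fintype.card_fin]
      exact hS
    · right; right
      have e1 : (univ : Finset (Fin S.card)).card = 2 := by rw [card_univ, Fintype.card_fin, hS]
      obtain ⟨i, j, hij, hSij⟩ := card_eq_two.1 e1
      refine ⟨i, j, ?_, hSij⟩
      intro h
      apply hij
      have h2 : S.orderEmbOfFin rfl j = S.orderEmbOfFin rfl i := by
        have := h
        rw [one_mul, one_mul] at this
        exact this
      exact ((S.orderEmbOfFin rfl).injective h2).symm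
  · obtain ⟨N₀, hN₀⟩ := (h2 4 (by norm_num) (fun _ => 1) (fun i => S.orderEmbOfFin hS i) (fun _ => le_refl 1) (by
      intro i j hij h
      apply hij
      have h2 : S.orderEmbOfFin hS j = S.orderEmbOfFin hS i := by
        have := h
        rw [one_mul, one_mul] at this
        exact this
      exact ((S.orderEmbOfFin hS).injective h2).symm)).1
    refine ⟨N₀, fun N hN hNF => ?_⟩
    refine le_trans (le_of_eq ?_) (hN₀ N hN (fun h => hNF (Or.inr h)))
    congr 1
    unfold cr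
    refine sum_congr rfl fun n _ => ?_
    have h1 := Finset.map_orderEmbOfFin_univ S hS
    conv_lhs => rw [← h1]
    rw [prod_map]
    refine prod_congr rfl fun i _ => ?_
    unfold lr
    rw [one_mul]
    rfl

/-- **Bessel's inequality for the correlations** -/
theorem bes (F : Set ℕ) (hF : ∀ S : Finset ℕ, Odd S.card ∨ S.card = 2 → ∀ ε : ℝ, 0 < ε → ∃ N₀ : ℕ, ∀ N : ℕ,
      N₀ ≤ N → N ∉ F → |cr S N| ≤ ε * N) (T H : Finset ℕ) (hTH : Disjoint T H) (ε : ℝ) (hε : 0 < ε) :
    ∃ N₀ : ℕ, ∀ N : ℕ, N₀ ≤ N → N ∉ F → ∑ h ∈ H, cr (insert h T) N ^ 2 ≤ (1 + ε) * N ^ 2 := by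
  have h1 : ∀ t : ℕ × ℕ, t.1 ≠ t.2 → ∃ N₀ : ℕ, ∀ N : ℕ, N₀ ≤ N → N ∉ F →
      |cr {t.1, t.2} N| ≤ ε / (H.card + 1) * N := by
    intro t ht
    exact hF {t.1, t.2} (Or.inr (card_pair ht)) _ (by positivity)
  choose! N₁ hN₁ using h1
  refine ⟨∑ t ∈ H ×ˢ H, N₁ t, fun N hN hNF => ?_⟩
  have hNr : (0 : ℝ) ≤ N := Nat.cast_nonneg N
  have hb := bessel H (Icc 1 N) (fun n => ∏ i ∈ T, lc (n + i)) (fun h n => lc (n + h)) N (ε / (H.card + 1) * N) (by
      refine (sum_le_sum (g := fun _ => (1 : ℝ)) fun n _ => ?_).trans ?_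
      · have : ‖∏ i ∈ T, lc (n + i)‖ = 1 := by
          rw [norm_prod]
          exact prod_eq_one fun i _ => lc_norm _
        rw [this, one_pow]
      · simp) (by positivity) (by
      intro i _
      refine (norm_sum_le _ _).trans ((sum_le_sum (g := fun _ => (1 : ℝ)) fun n _ => ?_).trans (by simp))
      rw [norm_mul, RCLike.norm_conj, lc_norm]
      norm_num) (by
      intro i hi j hj hij
      have h2 := hN₁ (i, j) hij N (by
        have := single_le_sum (f := N₁) (fun _ _ => Nat.zero_le _) (mem_product.2 ⟨hi, hj⟩ : ((i, j) : ℕ × ℕ) ∈ H ×ˢ H)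
        omega) hNF
      rw [cr_norm] at h2
      refine le_trans (le_of_eq ?_) h2
      congr 1
      refine sum_congr rfl fun n _ => ?_
      have e1 : (starRingEnd ℂ) (lc (n + j)) = lc (n + j) := by
        rw [← lr_lc, Complex.conj_ofReal]
      rw [e1, prod_pair hij])
  have h3 : ∑ h ∈ H, cr (insert h T) N ^ 2 = ∑ h ∈ H, ‖∑ n ∈ Icc 1 N, (∏ i ∈ T, lc (n + i)) * lc (n + h)‖ ^ 2 := by
    refine sum_congr rfl fun h hh => ?_
    rw [← sq_abs, cr_norm]
    congr 2
    refine sum_congr rfl fun n _ => ?_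
    rw [prod_insert (fun h4 => (disjoint_left.1 hTH h4) hh), mul_comm]
  rw [h3]
  refine hb.trans ?_
  have hH : (0 : ℝ) < (H.card : ℝ) + 1 := by positivity
  calc (N : ℝ) * (N + (H.card : ℝ) * (ε / (H.card + 1) * N)) = (1 + H.card / (H.card + 1) * ε) * N ^ 2 := by
        field_simp
    _ ≤ (1 + ε) * N ^ 2 := by
        apply mul_le_mul_of_nonneg_right _ (by positivity)
        have : (H.card : ℝ) / (H.card + 1) ≤ 1 := by
          rw [div_le_one hH]; linarith
        nlinarith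

open Classical in
/-- the number of the `n ≤ N` with the pattern `P` at the positions `A` -/
noncomputable def occ (A P : Finset ℕ) (N : ℕ) : ℕ :=
  ((Icc 1 N).filter (fun n => A.filter (fun h => lr (n + h) = 1) = P)).card

/-- the deviation of the frequency of a pattern -/
lemma occ_dev (A P : Finset ℕ) (hP : P ⊆ A) (N : ℕ) :
    |(occ A P N : ℝ) - N / 2 ^ A.card| ≤ (∑ S ∈ A.powerset.erase ∅, |cr S N|) / 2 ^ A.card := by
  classical
  have h1 := ind_sum (Icc 1 N) A (fun h n => lc (n + h)) (fun h n => by unfold lc; exact neg_one_pow_eq_or ℂ _)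
    (fun _ => 1) P hP
  have h2 : ((occ A P N : ℝ) : ℂ) = ∑ n ∈ (Icc 1 N).filter (fun n => A.filter (fun h => lc (n + h) = 1) = P), (1 : ℂ) := by
    unfold occ
    rw [sum_const, nsmul_eq_mul, mul_one]
    have e1 : ∀ n, A.filter (fun h => lr (n + h) = 1) = A.filter (fun h => lc (n + h) = 1) := by
      intro n
      refine filter_congr fun h _ => ?_
      rw [← lr_lc]
      exact ⟨fun h3 => by rw [h3, Complex.ofReal_one], fun h3 => by exact_mod_cast h3⟩
    simp only [e1]
    push_cast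
    rfl
  have h3 : (((occ A P N : ℝ) - N / 2 ^ A.card : ℝ) : ℂ) =
      1 / 2 ^ A.card * ∑ S ∈ A.powerset.erase ∅, chi P S * ∑ n ∈ Icc 1 N, ∏ h ∈ S, lc (n + h) := by
    have e1 : (((occ A P N : ℝ) - N / 2 ^ A.card : ℝ) : ℂ) = ((occ A P N : ℝ) : ℂ) - N / 2 ^ A.card := by
      push_cast
      ring
    rw [e1, h2, h1, ← sum_erase_add _ _ (empty_mem_powerset A)]
    have e5 : chi P ∅ * ∑ n ∈ Icc 1 N, (1 : ℂ) * ∏ i ∈ (∅ : Finset ℕ), lc (n + i) = N := by
      unfold chi
      simp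
    rw [e5]
    simp only [one_mul]
    ring
  rw [← Real.norm_eq_abs, ← Complex.norm_real, h3, norm_mul, norm_div, norm_one, norm_pow, Complex.norm_ofNat,
    div_mul_eq_mul_div, one_mul]
  apply div_le_div_of_nonneg_right _ (by positivity)
  refine (norm_sum_le _ _).trans (sum_le_sum fun S _ => ?_)
  rw [norm_mul, chi_norm, one_mul, cr_norm]

/-- the product of two products -/
lemma prod_symm (S T : Finset ℕ) (n : ℕ) : (∏ h ∈ S, lr (n + h)) * ∏ h ∈ T, lr (n + h) =
    ∏ h ∈ symmDiff S T, lr (n + h) := by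
  have h1 : ∏ h ∈ S, lr (n + h) = (∏ h ∈ S \ T, lr (n + h)) * ∏ h ∈ S ∩ T, lr (n + h) := by
    rw [← prod_sdiff (inter_subset_left : S ∩ T ⊆ S), sdiff_inter_self_left]
  have h2 : ∏ h ∈ T, lr (n + h) = (∏ h ∈ T \ S, lr (n + h)) * ∏ h ∈ S ∩ T, lr (n + h) := by
    rw [← prod_sdiff (inter_subset_right : S ∩ T ⊆ T), sdiff_inter_self_right]
  have h3 : (∏ h ∈ S ∩ T, lr (n + h)) * ∏ h ∈ S ∩ T, lr (n + h) = 1 := by
    rw [← prod_mul_distrib]
    exact prod_eq_one fun h _ => lr_sq _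
  have h4 : Disjoint (S \ T) (T \ S) := by
    rw [Finset.disjoint_left]
    intro x hx hx'
    exact (Finset.mem_sdiff.1 hx').2 (Finset.mem_sdiff.1 hx).1
  rw [symmDiff_def, sup_eq_union, prod_union h4, h1, h2]
  calc _ = (∏ h ∈ S \ T, lr (n + h)) * (∏ h ∈ T \ S, lr (n + h)) *
        ((∏ h ∈ S ∩ T, lr (n + h)) * ∏ h ∈ S ∩ T, lr (n + h)) := by ring
    _ = _ := by rw [h3, mul_one]

/-- the frequency of a pattern, from a family of sets whose differences have small correlations -/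
lemma occ_cap {κ : Type} [DecidableEq κ] (J : Finset κ) (s : κ → Finset ℕ) (A P : Finset ℕ) (hs : ∀ j ∈ J, s j ⊆ A) (N : ℕ) (δ : ℝ)
    (hδ : 0 ≤ δ) (h : ∀ i ∈ J, ∀ j ∈ J, i ≠ j → |cr (symmDiff (s i) (s j)) N| ≤ δ) :
    (occ A P N : ℝ) * J.card ^ 2 ≤ J.card * N + J.card ^ 2 * δ := by
  classical
  set σ : κ → ℝ := fun j => ∏ h ∈ s j, (if h ∈ P then 1 else -1) with hσ
  have hσ1 : ∀ j, σ j = 1 ∨ σ j = -1 := by
    intro j
    have : ∀ t : Finset ℕ, (∏ h ∈ t, (if h ∈ P then (1 : ℝ) else -1)) = 1 ∨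
        (∏ h ∈ t, (if h ∈ P then (1 : ℝ) else -1)) = -1 := by
      intro t
      induction t using Finset.induction_on with
      | empty => left; rw [prod_empty]
      | insert a t ha ih =>
        rw [prod_insert ha]
        rcases ih with ih | ih <;> rw [ih] <;> split_ifs <;> norm_num
    exact this _
  have h1 : ∑ n ∈ Icc 1 N, (∑ j ∈ J, σ j * ∏ h ∈ s j, lr (n + h)) ^ 2 ≤ J.card * N + J.card ^ 2 * δ := by
    have e1 : ∀ n, (∑ j ∈ J, σ j * ∏ h ∈ s j, lr (n + h)) ^ 2 =
        ∑ i ∈ J, ∑ j ∈ J, σ i * σ j * ∏ h ∈ symmDiff (s i) (s j), lr (n + h) := by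
      intro n
      rw [sq, sum_mul_sum]
      refine sum_congr rfl fun i _ => sum_congr rfl fun j _ => ?_
      rw [← prod_symm]
      ring
    rw [sum_congr rfl fun n _ => e1 n, sum_comm]
    have e2 : ∀ i ∈ J, ∑ n ∈ Icc 1 N, ∑ j ∈ J, σ i * σ j * ∏ h ∈ symmDiff (s i) (s j), lr (n + h) ≤
        N + J.card * δ := by
      intro i hi
      rw [sum_comm]
      have e3 : ∀ j ∈ J, ∑ n ∈ Icc 1 N, σ i * σ j * ∏ h ∈ symmDiff (s i) (s j), lr (n + h) ≤
          (if i = j then (N : ℝ) else 0) + (if i = j then 0 else δ) := by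
        intro j hj
        rw [← mul_sum]
        split_ifs with hij
        · subst hij
          rw [symmDiff_self]
          have : σ i * σ i = 1 := by rcases hσ1 i with h | h <;> rw [h] <;> norm_num
          rw [this]
          simp
        · rw [zero_add]
          refine (le_abs_self _).trans ?_
          rw [abs_mul]
          have : |σ i * σ j| = 1 := by
            rcases hσ1 i with h | h <;> rcases hσ1 j with h' | h' <;> rw [h, h'] <;> norm_num
          rw [this, one_mul]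
          exact h i hi j hj hij
      refine (sum_le_sum e3).trans ?_
      rw [sum_add_distrib, sum_ite_eq, if_pos hi]
      have e4 : ∑ j ∈ J, (if i = j then 0 else δ) ≤ J.card * δ := by
        have : ∑ j ∈ J, (if i = j then 0 else δ) ≤ ∑ _j ∈ J, δ := by
          refine sum_le_sum fun j _ => ?_
          split_ifs
          · exact hδ
          · exact le_rfl
        rwa [sum_const, nsmul_eq_mul] at this
      linarith
    refine (sum_le_sum e2).trans (le_of_eq ?_)
    rw [sum_const, nsmul_eq_mul]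
    ring
  refine le_trans ?_ h1
  have h2 : ∑ n ∈ (Icc 1 N).filter (fun n => A.filter (fun h => lr (n + h) = 1) = P), ((J.card : ℝ)) ^ 2 ≤
      ∑ n ∈ Icc 1 N, (∑ j ∈ J, σ j * ∏ h ∈ s j, lr (n + h)) ^ 2 := by
    refine le_trans (sum_le_sum fun n hn => le_of_eq ?_)
      (sum_le_sum_of_subset_of_nonneg (filter_subset _ _) fun _ _ _ => sq_nonneg _)
    rw [mem_filter] at hn
    congr 1
    have e1 : ∀ j ∈ J, σ j * ∏ h ∈ s j, lr (n + h) = 1 := by
      intro j hj
      rw [hσ]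
      simp only
      rw [← prod_mul_distrib]
      refine prod_eq_one fun h hh => ?_
      have hA := hs j hj hh
      by_cases h3 : h ∈ P
      · rw [if_pos h3]
        rw [← hn.2, mem_filter] at h3
        rw [h3.2]; norm_num
      · rw [if_neg h3]
        have h4 : lr (n + h) ≠ 1 := by
          intro h5
          apply h3
          rw [← hn.2, mem_filter]
          exact ⟨hA, h5⟩
        rw [(lr_cases _).resolve_left h4]; norm_num
    rw [sum_congr rfl e1, sum_const, nsmul_eq_mul, mul_one]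
  refine le_trans (le_of_eq ?_) h2
  rw [sum_const, nsmul_eq_mul]
  unfold occ
  rfl

end Pool.Agent.L5helper13
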