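import Pool.Agent.L5helper13.Shat

/-!
Library L5helper13: many positions contain a few positions with nearly independent values.
-/

set_option autoImplicit false

namespace Pool.Agent.L5helper13

open Finset Filter Topology

/-- the sum over the sets of size `k` of the sum over their nonempty subsets -/
lemma sub_average' {R : ℕ} (f : Finset (Fin R) → ℝ) (M : ℕ → ℝ) (hM : ∀ j, 0 ≤ M j)
    (h : ∀ j : ℕ, 1 ≤ j → j ≤ R →
      ∑ S ∈ powersetCard j (univ : Finset (Fin R)), f S ≤ M j * (R.choose j) / ((R : ℝ) - j + 1))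
    (k : ℕ) (hk : k ≤ R) :
    ∑ B ∈ powersetCard k (univ : Finset (Fin R)), ∑ S ∈ B.powerset.erase ∅, f S ≤
      (∑ j ∈ Icc 1 k, M j * k.choose j) / ((R : ℝ) - k + 1) * R.choose k := by
  classical
  have hkR : (k : ℝ) ≤ R := by exact_mod_cast hk
  have h1 : ∑ B ∈ powersetCard k (univ : Finset (Fin R)), ∑ S ∈ B.powerset.erase ∅, f S =
      ∑ j ∈ Icc 1 k, ∑ B ∈ powersetCard k (univ : Finset (Fin R)), ∑ S ∈ powersetCard j B, f S := by
    rw [sum_comm]
    refine sum_congr rfl fun B hB => ?_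
    rw [mem_powersetCard] at hB
    have e1 : ∑ S ∈ B.powerset, f S = ∑ j ∈ range (k + 1), ∑ S ∈ powersetCard j B, f S := by
      rw [sum_powerset, hB.2]
    have e2 : ∑ S ∈ B.powerset.erase ∅, f S = ∑ S ∈ B.powerset, f S - f ∅ := by
      rw [← sum_erase_add _ _ (empty_mem_powerset B)]
      ring
    rw [e2, e1, sum_range_succ']
    rw [powersetCard_zero, sum_singleton, add_sub_cancel_right, range_eq_Ico,
      sum_Ico_add' (fun j => ∑ S ∈ powersetCard j B, f S) 0 k 1]
    refine sum_congr ?_ fun _ _ => rfl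
    ext j
    simp only [mem_Ico, mem_Icc]
    omega
  rw [h1]
  have h2 : ∀ j ∈ Icc 1 k, ∑ B ∈ powersetCard k (univ : Finset (Fin R)), ∑ S ∈ powersetCard j B, f S ≤
      M j * (k.choose j) / ((R : ℝ) - k + 1) * R.choose k := by
    intro j hj
    rw [mem_Icc] at hj
    have hjk : (j : ℝ) ≤ k := by exact_mod_cast hj.2
    have e1 : ∑ B ∈ powersetCard k (univ : Finset (Fin R)), ∑ S ∈ powersetCard j B, f S =
        (R - j).choose (k - j) * ∑ S ∈ powersetCard j (univ : Finset (Fin R)), f S := by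
      have e2 : ∀ B ∈ powersetCard k (univ : Finset (Fin R)), ∑ S ∈ powersetCard j B, f S =
          ∑ S ∈ powersetCard j (univ : Finset (Fin R)), if S ⊆ B then f S else 0 := by
        intro B _
        rw [← sum_filter]
        refine sum_congr ?_ fun _ _ => rfl
        ext S
        rw [mem_filter, mem_powersetCard, mem_powersetCard]
        exact ⟨fun h => ⟨⟨subset_univ _, h.2⟩, h.1⟩, fun h => ⟨h.2, h.1.2⟩⟩
      rw [sum_congr rfl e2, sum_comm, mul_sum]
      refine sum_congr rfl fun S hS => ?_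
      rw [mem_powersetCard] at hS
      rw [← sum_filter, sum_const, card_super S k (by rw [hS.2]; exact hj.2), hS.2, nsmul_eq_mul]
    rw [e1]
    have e3 := h j hj.1 (hj.2.trans hk)
    have e4 : R.choose k * k.choose j = R.choose j * (R - j).choose (k - j) :=
      Nat.choose_mul hj.2
    have e5 : (R.choose k : ℝ) * k.choose j = R.choose j * (R - j).choose (k - j) := by exact_mod_cast e4
    have e6 : (0 : ℝ) < (R : ℝ) - k + 1 := by linarith
    have hMj := hM j
    calc ((R - j).choose (k - j) : ℝ) * ∑ S ∈ powersetCard j (univ : Finset (Fin R)), f S ≤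
        ((R - j).choose (k - j) : ℝ) * (M j * (R.choose j) / ((R : ℝ) - j + 1)) :=
          mul_le_mul_of_nonneg_left e3 (Nat.cast_nonneg _)
      _ ≤ ((R - j).choose (k - j) : ℝ) * (M j * (R.choose j) / ((R : ℝ) - k + 1)) := by
          apply mul_le_mul_of_nonneg_left _ (Nat.cast_nonneg _)
          apply div_le_div_of_nonneg_left (by positivity) e6 (by linarith)
      _ = M j * (R.choose j * (R - j).choose (k - j)) / ((R : ℝ) - k + 1) := by ring
      _ = M j * (k.choose j) / ((R : ℝ) - k + 1) * R.choose k := by rw [← e5]; ring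
  refine (sum_le_sum h2).trans (le_of_eq ?_)
  rw [← sum_mul, sum_div]

/-- the number of the subsets of even size at least four of a set with `k` elements -/
def ev (k : ℕ) : ℕ := ∑ j ∈ range (k + 1), if Even j ∧ 4 ≤ j then k.choose j else 0

lemma ev_eq (k : ℕ) (hk : 1 ≤ k) : (ev k : ℝ) = 2 ^ (k - 1) - 1 - k * (k - 1) / 2 := by
  have h1 : ∑ j ∈ range (k + 1), (if Even j then (k.choose j : ℝ) else 0) = 2 ^ (k - 1) := by
    have e1 : ∑ j ∈ range (k + 1), (k.choose j : ℝ) = 2 ^ k := by exact_mod_cast Nat.sum_range_choose k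
    have e2 : ∑ j ∈ range (k + 1), ((-1) ^ j * (k.choose j : ℝ)) = 0 := by
      have := Int.alternating_sum_range_choose_of_ne (n := k) (by omega)
      exact_mod_cast this
    have e3 : ∀ j : ℕ, (if Even j then (k.choose j : ℝ) else 0) =
        ((k.choose j : ℝ) + (-1) ^ j * (k.choose j : ℝ)) / 2 := by
      intro j
      split_ifs with h
      · rw [h.neg_one_pow]; ring
      · rw [(Nat.not_even_iff_odd.1 h).neg_one_pow]; ring
    rw [sum_congr rfl fun j _ => e3 j, ← sum_div, sum_add_distrib, e1, e2]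
    obtain ⟨i, rfl⟩ : ∃ i, k = i + 1 := ⟨k - 1, by omega⟩
    rw [Nat.add_sub_cancel, pow_succ]
    ring
  have h2 : ∀ j : ℕ, (if Even j then (k.choose j : ℝ) else 0) =
      (if Even j ∧ 4 ≤ j then (k.choose j : ℝ) else 0) + (if j = 0 then (k.choose j : ℝ) else 0) +
        (if j = 2 then (k.choose j : ℝ) else 0) := by
    intro j
    by_cases h : Even j
    · by_cases h4 : 4 ≤ j
      · rw [if_pos h, if_pos ⟨h, h4⟩, if_neg (by omega), if_neg (by omega)]; ring
      · have h5 : j = 0 ∨ j = 2 := by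
          obtain ⟨m, rfl⟩ := h
          omega
        rw [if_pos h, if_neg (fun h6 => h4 h6.2)]
        rcases h5 with rfl | rfl <;> norm_num
    · rw [if_neg h, if_neg (fun h6 => h h6.1), if_neg (by rintro rfl; exact h (by decide)),
        if_neg (by rintro rfl; exact h (by decide))]
      ring
  rw [sum_congr rfl fun j _ => h2 j, sum_add_distrib, sum_add_distrib, sum_ite_eq', sum_ite_eq',
    if_pos (by simp)] at h1
  have h3 : (if 2 ∈ range (k + 1) then (k.choose 2 : ℝ) else 0) = k * (k - 1) / 2 := by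
    rw [← Nat.cast_choose_two ℝ k]
    split_ifs with h
    · rfl
    · rw [mem_range, not_lt] at h
      rw [Nat.choose_eq_zero_of_lt (by omega)]
      norm_num
  rw [h3, Nat.choose_zero_right] at h1
  unfold ev
  push_cast at h1 ⊢
  linarith

lemma ev_card {κ : Type} [DecidableEq κ] (B : Finset κ) :
    (B.powerset.filter (fun S => Even S.card ∧ 4 ≤ S.card)).card = ev B.card := by
  rw [card_filter, sum_powerset_apply_card (fun j => if Even j ∧ 4 ≤ j then 1 else 0)]
  unfold ev
  refine sum_congr rfl fun j _ => ?_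
  split_ifs <;> simp

/-- **a few of many positions** -/
theorem vc {F : Set ℕ} (hF : SmallC F) (A : Finset ℕ) (k : ℕ) (hk : k ≤ A.card) (ε : ℝ)
    (hε : 0 < ε) : ∃ N₀ : ℕ, ∀ N : ℕ, N₀ ≤ N → N ∉ F → ∃ B ⊆ A, B.card = k ∧ ∀ P ⊆ B,
      |(occ B P N : ℝ) - N / 2 ^ k| ≤ ((ev k : ℝ) / Real.sqrt ((A.card : ℝ) - k + 1) + ε) * (N / 2 ^ k) := by
  classical
  obtain ⟨R, hR⟩ : ∃ R, A.card = R := ⟨_, rfl⟩
  rw [hR] at hk ⊢
  set e : Fin R ↪ ℕ := (A.orderEmbOfFin hR).toEmbedding with he
  have hmap : univ.map e = A := Finset.map_orderEmbOfFin_univ A hR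
  obtain ⟨ε₂, hε₂, hε₂'⟩ : ∃ ε₂ : ℝ, 0 < ε₂ ∧ (ev k : ℝ) * ε₂ ≤ ε / 2 := by
    refine ⟨ε / (2 * (ev k + 1)), by positivity, ?_⟩
    rw [← mul_div_assoc, div_le_div_iff₀ (by positivity) (by norm_num)]
    nlinarith [Nat.cast_nonneg (α := ℝ) (ev k)]
  have h1 : ∀ T : Finset (Fin R), ∃ N₀ : ℕ, ∀ N : ℕ, N₀ ≤ N → N ∉ F →
      ∑ i ∈ Tᶜ, cr ((insert i T).map e) N ^ 2 ≤ (1 + ε₂) * N ^ 2 := by
    intro T
    obtain ⟨N₀, hN₀⟩ := bes F hF (T.map e) (Tᶜ.map e) (by
      rw [Finset.disjoint_map]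
      exact disjoint_compl_right) ε₂ hε₂
    refine ⟨N₀, fun N hN hNF => le_trans (le_of_eq ?_) (hN₀ N hN hNF)⟩
    rw [sum_map]
    refine sum_congr rfl fun i _ => ?_
    rw [map_insert]
  choose N₁ hN₁ using h1
  obtain ⟨N₂, hN₂⟩ := small_unif hF A (ε / (2 * 2 ^ k)) (by positivity)
  refine ⟨∑ T, N₁ T + N₂, fun N hN hNF => ?_⟩
  have hNr : (0 : ℝ) ≤ N := Nat.cast_nonneg N
  set M : ℝ := (1 + ε₂) * N ^ 2 with hM
  have hM0 : 0 ≤ M := by positivity
  set f : Finset (Fin R) → ℝ := fun S => if Even S.card ∧ 4 ≤ S.card then cr (S.map e) N ^ 2 else 0 with hf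
  have hf1 : ∀ S, f S ≤ cr (S.map e) N ^ 2 := by
    intro S
    rw [hf]
    simp only
    split_ifs
    · exact le_rfl
    · positivity
  have h2 : ∀ T : Finset (Fin R), ∑ i ∈ Tᶜ, f (insert i T) ≤ M := by
    intro T
    refine (sum_le_sum fun i _ => hf1 _).trans (hN₁ T N ?_ hNF)
    have := single_le_sum (f := N₁) (fun _ _ => Nat.zero_le _) (mem_univ T)
    omega
  have h3 := sub_average' f (fun j => if Even j ∧ 4 ≤ j then M else 0) (by
      intro j
      split_ifs
      · exact hM0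
      · exact le_rfl) (by
      intro j hj1 hj
      by_cases hj4 : Even j ∧ 4 ≤ j
      · rw [if_pos hj4]
        exact level_of_nbr f M h2 j hj1 hj
      · rw [if_neg hj4, zero_mul, zero_div]
        refine le_of_eq (sum_eq_zero fun S hS => ?_)
        rw [mem_powersetCard] at hS
        rw [hf]
        simp only
        rw [hS.2, if_neg hj4]) k hk
  have hkR : (1 : ℝ) ≤ (R : ℝ) - k + 1 := by
    have : (k : ℝ) ≤ R := by exact_mod_cast hk
    linarith
  have h4 : ∑ j ∈ Icc 1 k, (if Even j ∧ 4 ≤ j then M else 0) * (k.choose j : ℝ) = M * ev k := by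
    unfold ev
    push_cast
    rw [range_eq_Ico, sum_eq_sum_Ico_succ_bot (by omega), mul_add, mul_sum]
    rw [if_neg (by omega), mul_zero, zero_add]
    refine sum_congr ?_ fun j _ => ?_
    · ext j
      simp only [mem_Icc, mem_Ico]
      omega
    · split_ifs <;> ring
  rw [h4] at h3
  obtain ⟨B, hB, hB2⟩ : ∃ B ∈ powersetCard k (univ : Finset (Fin R)),
      ∑ S ∈ B.powerset.erase ∅, f S ≤ M * ev k / ((R : ℝ) - k + 1) := by
    apply exists_le_of_sum_le (powersetCard_nonempty.2 (by rw [card_univ, Fintype.card_fin]; exact hk))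
    refine h3.trans (le_of_eq ?_)
    rw [sum_const, card_powersetCard, card_univ, Fintype.card_fin, nsmul_eq_mul]
    ring
  rw [mem_powersetCard] at hB
  refine ⟨B.map e, ?_, by rw [card_map, hB.2], fun P hP => ?_⟩
  · rw [← hmap]
    exact map_subset_map.2 (subset_univ B)
  have h5 := occ_dev (B.map e) P hP N
  rw [card_map, hB.2] at h5
  refine h5.trans ?_
  rw [mul_div_assoc']
  apply div_le_div_of_nonneg_right _ (by positivity)
  -- the sum over the subsets
  have h6 : ∑ S ∈ (B.map e).powerset.erase ∅, |cr S N| = ∑ S ∈ B.powerset.erase ∅, |cr (S.map e) N| := by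
    symm
    refine sum_bij (fun S _ => S.map e) ?_ ?_ ?_ ?_
    · intro S hS
      rw [mem_erase, mem_powerset] at hS ⊢
      exact ⟨fun h => hS.1 (map_eq_empty.1 h), map_subset_map.2 hS.2⟩
    · intro S _ S' _ h
      exact map_injective e h
    · intro S hS
      rw [mem_erase, mem_powerset, subset_map_iff] at hS
      obtain ⟨hS1, U, hU, rfl⟩ := hS
      refine ⟨U, ?_, rfl⟩
      rw [mem_erase, mem_powerset]
      exact ⟨fun h => hS1 (by rw [h, map_empty]), hU⟩
    · intro S _
      rfl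
  rw [h6, ← sum_filter_add_sum_filter_not _ (fun S => Even S.card ∧ 4 ≤ S.card)]
  set V := (B.powerset.erase ∅).filter (fun S => Even S.card ∧ 4 ≤ S.card) with hV
  have hVc : V.card ≤ ev k := by
    rw [← hB.2, ← ev_card B]
    apply card_le_card
    intro S hS
    rw [hV, mem_filter, mem_erase] at hS
    rw [mem_filter]
    exact ⟨hS.1.2, hS.2⟩
  have h7 : ∑ S ∈ V, |cr (S.map e) N| ≤ ((ev k : ℝ) / Real.sqrt ((R : ℝ) - k + 1) + ε / 2) * N := by
    have e1 : (∑ S ∈ V, |cr (S.map e) N|) ^ 2 ≤ ev k * (M * ev k / ((R : ℝ) - k + 1)) := by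
      refine sq_sum_le_card_mul_sum_sq.trans ?_
      have e2 : ∑ S ∈ V, |cr (S.map e) N| ^ 2 ≤ M * ev k / ((R : ℝ) - k + 1) := by
        refine le_trans ?_ hB2
        have e3 : ∑ S ∈ V, |cr (S.map e) N| ^ 2 = ∑ S ∈ V, f S := by
          refine sum_congr rfl fun S hS => ?_
          rw [hV, mem_filter] at hS
          rw [hf]
          simp only
          rw [if_pos hS.2, sq_abs]
        rw [e3]
        refine sum_le_sum_of_subset_of_nonneg (filter_subset _ _) fun S _ _ => ?_
        rw [hf]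
        simp only
        split_ifs
        · positivity
        · exact le_rfl
      refine mul_le_mul (by exact_mod_cast hVc) e2 (sum_nonneg fun _ _ => by positivity) (Nat.cast_nonneg _)
    have hs0 : 0 < Real.sqrt ((R : ℝ) - k + 1) := Real.sqrt_pos.2 (by linarith)
    have hs1 : 1 ≤ Real.sqrt ((R : ℝ) - k + 1) := by
      rw [Real.one_le_sqrt]
      exact hkR
    have hs2 : Real.sqrt ((R : ℝ) - k + 1) ^ 2 = (R : ℝ) - k + 1 := Real.sq_sqrt (by linarith)
    have e4 : (∑ S ∈ V, |cr (S.map e) N|) ^ 2 ≤ ((ev k : ℝ) / Real.sqrt ((R : ℝ) - k + 1) * (1 + ε₂) * N) ^ 2 := by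
      refine e1.trans ?_
      rw [mul_pow, mul_pow, div_pow, hs2, hM]
      have e5 : (ev k : ℝ) * ((1 + ε₂) * N ^ 2 * ev k / ((R : ℝ) - k + 1)) =
          (ev k : ℝ) ^ 2 / ((R : ℝ) - k + 1) * (1 + ε₂) * N ^ 2 := by ring
      rw [e5]
      apply mul_le_mul_of_nonneg_right _ (by positivity)
      apply mul_le_mul_of_nonneg_left _ (by positivity)
      nlinarith
    refine (le_of_sq_le_sq e4 (by positivity)).trans ?_
    apply mul_le_mul_of_nonneg_right _ hNr
    rw [mul_add, mul_one]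
    have e6 : (ev k : ℝ) / Real.sqrt ((R : ℝ) - k + 1) * ε₂ ≤ ev k * ε₂ := by
      apply mul_le_mul_of_nonneg_right _ hε₂.le
      exact div_le_self (Nat.cast_nonneg _) hs1
    linarith
  have h8 : ∑ S ∈ (B.powerset.erase ∅).filter (fun S => ¬ (Even S.card ∧ 4 ≤ S.card)), |cr (S.map e) N| ≤
      ε / 2 * N := by
    have e1 : ∀ S ∈ (B.powerset.erase ∅).filter (fun S => ¬ (Even S.card ∧ 4 ≤ S.card)), |cr (S.map e) N| ≤
        ε / (2 * 2 ^ k) * N := by
      intro S hS
      rw [mem_filter, mem_erase, mem_powerset] at hS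
      refine hN₂ N (by omega) hNF (S.map e) ?_ ?_
      · rw [← hmap]
        exact map_subset_map.2 (subset_univ S)
      · rw [card_map]
        have h3 : 1 ≤ S.card := (nonempty_iff_ne_empty.2 hS.1.1).card_pos
        by_cases h9 : Even S.card
        · right
          have h10 : ¬ 4 ≤ S.card := fun h => hS.2 ⟨h9, h⟩
          obtain ⟨m, hm⟩ := h9
          omega
        · exact Or.inl (Nat.not_even_iff_odd.1 h9)
    refine (sum_le_sum e1).trans ?_
    rw [sum_const, nsmul_eq_mul]
    have e2 : (((B.powerset.erase ∅).filter (fun S => ¬ (Even S.card ∧ 4 ≤ S.card))).card : ℝ) ≤ 2 ^ k := by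
      have : ((B.powerset.erase ∅).filter (fun S => ¬ (Even S.card ∧ 4 ≤ S.card))).card ≤ 2 ^ k := by
        rw [← hB.2, ← card_powerset]
        exact card_le_card ((filter_subset _ _).trans (erase_subset _ _))
      exact_mod_cast this
    calc _ ≤ 2 ^ k * (ε / (2 * 2 ^ k) * N) := mul_le_mul_of_nonneg_right e2 (by positivity)
      _ = ε / 2 * N := by field_simp
  linarith

end Pool.Agent.L5helper13
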