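import Pool.Agent.L5helper13.Inf
import Pool.Agent.L5helper13.VC

/-!
Library L5helper13: scales outside of the exceptional set; all the patterns along an infinite set of positions.
-/

set_option autoImplicit false

namespace Pool.Agent.L5helper13

open Finset Filter Topology
open Pool.Agent.Y958.U (LZ)
open Pool.Agent.Y304.U (sE)
open Pool.Agent.Y842.EL (LZ_eps LZ_mono LZ_union LZ_empty)

/-- the complement of a set of logarithmic density zero contains the values of a sequence -/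
lemma LZ_seq {F : Set ℕ} (hF : LZ F) : ∃ s : ℕ → ℕ, StrictMono s ∧ ∀ j, s j ∉ F := by
  have h1 : ∃ᶠ n in atTop, n ∉ F := by
    by_contra hcon
    rw [not_frequently] at hcon
    obtain ⟨M, hM⟩ := eventually_atTop.1 hcon
    have h2 := LZ_union hF (Pool.Agent.V1213.CH.LZ_fin M)
    have h3 : F ∪ {N | N < M} = Set.univ := by
      ext n
      simp only [Set.mem_union, Set.mem_univ, iff_true]
      by_cases hn : n < M
      · exact Or.inr hn
      · exact Or.inl (not_not.1 (hM n (by omega)))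
    rw [h3, LZ_eps] at h2
    obtain ⟨X₀, h4⟩ := h2 (1 / 2) (by norm_num)
    have h5 := h4 (X₀ + 3) (by omega)
    have h6 := log_add_one_le_harmonic (X₀ + 3)
    have h7 : ((harmonic (X₀ + 3) : ℚ) : ℝ) = sE Set.univ (X₀ + 3) := by
      rw [harmonic_eq_sum_Icc]
      unfold sE Pool.Agent.Y304.U.ind
      push_cast
      refine sum_congr rfl fun n _ => ?_
      rw [if_pos (Set.mem_univ n), one_div]
    rw [h7] at h6
    have h8 : Real.log ((X₀ + 3 : ℕ) : ℝ) ≤ Real.log ((X₀ + 3 + 1 : ℕ) : ℝ) :=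
      Real.log_le_log (by positivity) (by push_cast; linarith)
    have h9 : 0 < Real.log ((X₀ + 3 : ℕ) : ℝ) := Real.log_pos (by push_cast; linarith [Nat.cast_nonneg (α := ℝ) X₀])
    linarith
  exact extraction_of_frequently_atTop h1

/-- **every infinite set of positions has an infinite subset with all the patterns** -/
theorem inf_all {F : Set ℕ} (hF : SmallC F) (hZ : LZ F) (a : ℕ → ℕ) (ha : StrictMono a) : ∃ ψ : ℕ → ℕ, StrictMono ψ ∧
    ∀ G : Finset ℕ, ∀ P ⊆ G.image (a ∘ ψ), ∀ M : ℕ, ∃ n, M ≤ n ∧ (G.image (a ∘ ψ)).filter (fun h => lr (n + h) = 1) = P := by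
  classical
  obtain ⟨s, hs, hsF⟩ := LZ_seq hZ
  obtain ⟨K, hK⟩ := inf_shat hF 5 (1 / 2) (by norm_num) (by norm_num)
  obtain ⟨φ, ψ, hφ, hψ, -, h1⟩ := hK a s ha hs hsF
  refine ⟨ψ, hψ, fun G P hP M => ?_⟩
  obtain ⟨j₀, hj₀⟩ := h1 G
  obtain ⟨j, hj, hjM⟩ : ∃ j, j₀ ≤ j ∧ M * 2 ^ (G.card + 1) + 1 ≤ s (φ j) :=
    ⟨max j₀ (M * 2 ^ (G.card + 1) + 1), le_max_left _ _, (le_max_right _ _).trans ((hs.comp hφ).id_le _)⟩
  have h2 := (abs_le.1 (hj₀ j hj P hP)).1
  have h3 : (M : ℝ) < occ (G.image (a ∘ ψ)) P (s (φ j)) := by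
    have h4 : ((M * 2 ^ (G.card + 1) + 1 : ℕ) : ℝ) ≤ s (φ j) := by exact_mod_cast hjM
    push_cast at h4
    have h5 : (M : ℝ) < s (φ j) / 2 ^ (G.card + 1) := by
      rw [lt_div_iff₀ (by positivity)]
      linarith
    have h6 : (s (φ j) : ℝ) / 2 ^ (G.card + 1) = 1 / 2 * (s (φ j) / 2 ^ G.card) := by
      rw [pow_succ]
      field_simp
    linarith
  have h4 : M < occ (G.image (a ∘ ψ)) P (s (φ j)) := by exact_mod_cast h3
  by_contra hcon
  push Not at hcon
  have h5 : occ (G.image (a ∘ ψ)) P (s (φ j)) ≤ M := by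
    unfold occ
    have h6 : (Icc 1 (s (φ j))).filter (fun n => (G.image (a ∘ ψ)).filter (fun h => lr (n + h) = 1) = P) ⊆ Icc 1 M := by
      intro n hn
      rw [mem_filter, mem_Icc] at hn
      rw [mem_Icc]
      refine ⟨hn.1.1, ?_⟩
      by_contra h7
      exact hcon n (by omega) hn.2
    have h8 := card_le_card h6
    rw [Nat.card_Icc] at h8
    simpa using h8
  omega

end Pool.Agent.L5helper13
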