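import Pool.Agent.L5helper13.Pos
import Pool.Agent.L5helper13.Comb

/-!
Library L5helper13: sign patterns of the Liouville function along finite sets of positions.
-/

set_option autoImplicit false

namespace Pool.Agent.L5helper13

open Finset Filter Topology

/-- the hypothesis on the small correlations -/
def SmallC (F : Set ℕ) : Prop := ∀ S : Finset ℕ, Odd S.card ∨ S.card = 2 → ∀ ε : ℝ, 0 < ε → ∃ N₀ : ℕ, ∀ N : ℕ,
  N₀ ≤ N → N ∉ F → |cr S N| ≤ ε * N

lemma small_unif {F : Set ℕ} (hF : SmallC F) (A : Finset ℕ) (ε : ℝ) (hε : 0 < ε) : ∃ N₀ : ℕ, ∀ N : ℕ, N₀ ≤ N →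
    N ∉ F → ∀ S ⊆ A, Odd S.card ∨ S.card = 2 → |cr S N| ≤ ε * N := by
  have h1 : ∀ S : Finset ℕ, ∃ N₀ : ℕ, Odd S.card ∨ S.card = 2 → ∀ N : ℕ, N₀ ≤ N → N ∉ F → |cr S N| ≤ ε * N := by
    intro S
    by_cases hS : Odd S.card ∨ S.card = 2
    · obtain ⟨N₀, h⟩ := hF S hS ε hε
      exact ⟨N₀, fun _ => h⟩
    · exact ⟨0, fun h => absurd h hS⟩
  choose N₁ hN₁ using h1
  refine ⟨∑ S ∈ A.powerset, N₁ S, fun N hN hNF S hSA hS => hN₁ S hS N ?_ hNF⟩
  have := single_le_sum (f := N₁) (fun _ _ => Nat.zero_le _) (mem_powerset.2 hSA)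
  omega

/-- at most three positions -/
theorem three {F : Set ℕ} (hF : SmallC F) (A : Finset ℕ) (hA : A.card ≤ 3) (ε : ℝ) (hε : 0 < ε) : ∃ N₀ : ℕ,
    ∀ N : ℕ, N₀ ≤ N → N ∉ F → ∀ P ⊆ A, |(occ A P N : ℝ) - N / 2 ^ A.card| ≤ ε * N := by
  obtain ⟨N₀, h1⟩ := small_unif hF A ε hε
  refine ⟨N₀, fun N hN hNF P hP => (occ_dev A P hP N).trans ?_⟩
  rw [div_le_iff₀ (by positivity)]
  have h2 : ∀ S ∈ A.powerset.erase ∅, |cr S N| ≤ ε * N := by
    intro S hS
    rw [mem_erase, mem_powerset] at hS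
    refine h1 N hN hNF S hS.2 ?_
    have h3 : 1 ≤ S.card := (nonempty_iff_ne_empty.2 hS.1).card_pos
    have h4 : S.card ≤ 3 := (card_le_card hS.2).trans hA
    by_cases h7 : S.card = 2
    · exact Or.inr h7
    · left
      have : S.card = 1 ∨ S.card = 3 := by omega
      rcases this with h8 | h8 <;> rw [h8] <;> decide
  refine (sum_le_sum h2).trans ?_
  rw [sum_const, nsmul_eq_mul]
  have h4 : ((A.powerset.erase ∅).card : ℝ) ≤ 2 ^ A.card := by
    have : (A.powerset.erase ∅).card ≤ 2 ^ A.card := by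
      rw [← card_powerset]
      exact card_le_card (erase_subset _ _)
    exact_mod_cast this
  have h5 : (0 : ℝ) ≤ ε * N := by positivity
  nlinarith

/-- four positions -/
theorem four {F : Set ℕ} (hF : SmallC F) (c : ℝ) (hc : 0 < c)
    (hc4 : ∀ S : Finset ℕ, S.card = 4 → ∃ N₀ : ℕ, ∀ N : ℕ, N₀ ≤ N → N ∉ F → |cr S N| ≤ (1 - c) * N)
    (A : Finset ℕ) (hA : A.card = 4) : ∃ N₀ : ℕ,
    ∀ N : ℕ, N₀ ≤ N → N ∉ F → ∀ P ⊆ A, c / 32 * N ≤ occ A P N := by
  obtain ⟨N₁, h1⟩ := small_unif hF A (c / 32) (by positivity)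
  obtain ⟨N₂, h2⟩ := hc4 A hA
  refine ⟨N₁ + N₂, fun N hN hNF P hP => ?_⟩
  have hNr : (0 : ℝ) ≤ N := Nat.cast_nonneg N
  have h3 := (abs_le.1 (occ_dev A P hP N)).1
  have hAne : A ≠ ∅ := by
    rintro rfl
    simp at hA
  have h4 : ∑ S ∈ A.powerset.erase ∅, |cr S N| ≤ (1 - c) * N + 16 * (c / 32 * N) := by
    have hmem : A ∈ A.powerset.erase ∅ := mem_erase.2 ⟨hAne, mem_powerset_self A⟩
    rw [← add_sum_erase _ _ hmem]
    refine add_le_add (h2 N (by omega) hNF) ?_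
    have h5 : ∀ S ∈ (A.powerset.erase ∅).erase A, |cr S N| ≤ c / 32 * N := by
      intro S hS
      rw [mem_erase, mem_erase, mem_powerset] at hS
      refine h1 N (by omega) hNF S hS.2.2 ?_
      have h3 : 1 ≤ S.card := (nonempty_iff_ne_empty.2 hS.2.1).card_pos
      have h4 : S.card < 4 := by
        rw [← hA]
        exact card_lt_card (Finset.ssubset_iff_subset_ne.2 ⟨hS.2.2, hS.1⟩)
      by_cases h7 : S.card = 2
      · exact Or.inr h7
      · left
        have : S.card = 1 ∨ S.card = 3 := by omega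
        rcases this with h8 | h8 <;> rw [h8] <;> decide
    refine (sum_le_sum h5).trans ?_
    rw [sum_const, nsmul_eq_mul]
    apply mul_le_mul_of_nonneg_right _ (by positivity)
    have : ((A.powerset.erase ∅).erase A).card ≤ 16 := by
      have h6 : (A.powerset).card = 16 := by rw [card_powerset, hA]; norm_num
      rw [← h6]
      exact card_le_card ((erase_subset _ _).trans (erase_subset _ _))
    exact_mod_cast this
  rw [hA, show (2 : ℝ) ^ 4 = 16 by norm_num] at h3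
  have h6 : (∑ S ∈ A.powerset.erase ∅, |cr S N|) / 16 ≤ ((1 - c) * N + 16 * (c / 32 * N)) / 16 :=
    div_le_div_of_nonneg_right h4 (by norm_num)
  linarith

/-- the family of sets -/
def capJ (A : Finset ℕ) (h₀ : ℕ) : Finset (Finset ℕ × Finset ℕ) :=
  ({∅, {h₀}} : Finset (Finset ℕ)) ×ˢ (powersetCard 0 (A.erase h₀) ∪ powersetCard 1 (A.erase h₀))

lemma capJ_card (A : Finset ℕ) (h₀ : ℕ) (h : h₀ ∈ A) : (capJ A h₀).card = 2 * A.card := by
  unfold capJ
  rw [card_product, card_union_of_disjoint, card_powersetCard, card_powersetCard, card_erase_of_mem h]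
  · have h1 : ({∅, {h₀}} : Finset (Finset ℕ)).card = 2 := card_pair (singleton_ne_empty h₀).symm
    have h2 : 1 ≤ A.card := card_pos.2 ⟨h₀, h⟩
    rw [h1, Nat.choose_zero_right, Nat.choose_one_right]
    omega
  · rw [Finset.disjoint_left]
    intro S hS hS'
    rw [mem_powersetCard] at hS hS'
    omega

lemma capJ_mem {A : Finset ℕ} {h₀ : ℕ} {j : Finset ℕ × Finset ℕ} (hj : j ∈ capJ A h₀) :
    j.1 ⊆ {h₀} ∧ j.2 ⊆ A.erase h₀ ∧ j.2.card ≤ 1 := by
  unfold capJ at hj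
  rw [mem_product, mem_insert, mem_singleton, mem_union, mem_powersetCard, mem_powersetCard] at hj
  refine ⟨?_, ?_, ?_⟩
  · rcases hj.1 with h | h <;> rw [h]
    exact empty_subset _
  · rcases hj.2 with h | h <;> exact h.1
  · rcases hj.2 with h | h <;> omega

lemma capJ_diff {A : Finset ℕ} {h₀ : ℕ} (h : h₀ ∈ A) {i j : Finset ℕ × Finset ℕ} (hi : i ∈ capJ A h₀)
    (hj : j ∈ capJ A h₀) (hij : i ≠ j) : symmDiff (i.1 ∪ i.2) (j.1 ∪ j.2) ⊆ A ∧
      (Odd (symmDiff (i.1 ∪ i.2) (j.1 ∪ j.2)).card ∨ (symmDiff (i.1 ∪ i.2) (j.1 ∪ j.2)).card = 2) := by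
  obtain ⟨a1, a2, a3⟩ := capJ_mem hi
  obtain ⟨b1, b2, b3⟩ := capJ_mem hj
  have hsub : symmDiff (i.1 ∪ i.2) (j.1 ∪ j.2) ⊆ {h₀} ∪ (i.2 ∪ j.2) := by
    intro x hx
    rw [mem_symmDiff, mem_union, mem_union] at hx
    rw [mem_union, mem_union]
    rcases hx with ⟨hx | hx, -⟩ | ⟨hx | hx, -⟩
    · exact Or.inl (a1 hx)
    · exact Or.inr (Or.inl hx)
    · exact Or.inl (b1 hx)
    · exact Or.inr (Or.inr hx)
  have hcard : (symmDiff (i.1 ∪ i.2) (j.1 ∪ j.2)).card ≤ 3 := by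
    refine (card_le_card hsub).trans ((card_union_le _ _).trans ?_)
    have := card_union_le i.2 j.2
    rw [card_singleton]
    omega
  have hne : (symmDiff (i.1 ∪ i.2) (j.1 ∪ j.2)).card ≠ 0 := by
    intro h0
    rw [card_eq_zero, ← bot_eq_empty, symmDiff_eq_bot] at h0
    apply hij
    have key : ∀ u v : Finset ℕ, u ⊆ {h₀} → v ⊆ A.erase h₀ → (u ∪ v).filter (fun x => x = h₀) = u ∧
        (u ∪ v).filter (fun x => x ≠ h₀) = v := by
      intro u v hu hv
      constructor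
      · ext x
        rw [mem_filter, mem_union]
        constructor
        · rintro ⟨hx | hx, rfl⟩
          · exact hx
          · exact absurd rfl (ne_of_mem_erase (hv hx))
        · intro hx
          exact ⟨Or.inl hx, mem_singleton.1 (hu hx)⟩
      · ext x
        rw [mem_filter, mem_union]
        constructor
        · rintro ⟨hx | hx, hne⟩
          · exact absurd (mem_singleton.1 (hu hx)) hne
          · exact hx
        · intro hx
          exact ⟨Or.inr hx, ne_of_mem_erase (hv hx)⟩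
    have k1 := key i.1 i.2 a1 a2
    have k2 := key j.1 j.2 b1 b2
    apply Prod.ext
    · rw [← k1.1, ← k2.1, h0]
    · rw [← k1.2, ← k2.2, h0]
  refine ⟨?_, ?_⟩
  · intro x hx
    have := hsub hx
    rw [mem_union, mem_union, mem_singleton] at this
    rcases this with rfl | h1 | h1
    · exact h
    · exact mem_of_mem_erase (a2 h1)
    · exact mem_of_mem_erase (b2 h1)
  · by_cases h7 : (symmDiff (i.1 ∪ i.2) (j.1 ∪ j.2)).card = 2
    · exact Or.inr h7
    · left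
      have : (symmDiff (i.1 ∪ i.2) (j.1 ∪ j.2)).card = 1 ∨ (symmDiff (i.1 ∪ i.2) (j.1 ∪ j.2)).card = 3 := by omega
      rcases this with h8 | h8 <;> rw [h8] <;> decide

/-- the largest frequency of a pattern -/
theorem cap {F : Set ℕ} (hF : SmallC F) (A : Finset ℕ) (hA : A.Nonempty) (ε : ℝ) (hε : 0 < ε) : ∃ N₀ : ℕ,
    ∀ N : ℕ, N₀ ≤ N → N ∉ F → ∀ P ⊆ A, (occ A P N : ℝ) ≤ (1 / (2 * A.card) + ε) * N := by
  obtain ⟨h₀, hh₀⟩ := hA
  obtain ⟨N₀, h1⟩ := small_unif hF A ε hε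
  refine ⟨N₀, fun N hN hNF P _ => ?_⟩
  have hNr : (0 : ℝ) ≤ N := Nat.cast_nonneg N
  have h2 := occ_cap (capJ A h₀) (fun j => j.1 ∪ j.2) A P (by
    intro j hj
    obtain ⟨a1, a2, -⟩ := capJ_mem hj
    refine union_subset (a1.trans (singleton_subset_iff.2 hh₀)) (a2.trans (erase_subset _ _))) N (ε * N)
    (by positivity) (by
    intro i hi j hj hij
    obtain ⟨h3, h4⟩ := capJ_diff hh₀ hi hj hij
    exact h1 N hN hNF _ h3 h4)
  rw [capJ_card A h₀ hh₀] at h2
  push_cast at h2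
  have hr : (0 : ℝ) < A.card := by exact_mod_cast card_pos.2 ⟨h₀, hh₀⟩
  have h3 : (occ A P N : ℝ) * (2 * A.card) ^ 2 ≤ ((1 / (2 * A.card) + ε) * N) * (2 * A.card) ^ 2 := by
    refine h2.trans (le_of_eq ?_)
    field_simp
  exact le_of_mul_le_mul_right h3 (by positivity)

lemma occ_total (A : Finset ℕ) (N : ℕ) : ∑ P ∈ A.powerset, occ A P N = N := by
  classical
  unfold occ
  rw [← card_eq_sum_card_fiberwise]
  · simp
  · intro n _
    rw [mem_coe, mem_powerset]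
    exact filter_subset _ _

lemma num_many (r N X Y : ℝ) (hr : 1 ≤ r) (hN : 0 < N) (h : N = X + Y)
    (hX : X ≤ (2 * r - 1) * ((1 / (2 * r) + 1 / (8 * r ^ 2)) * N)) (hY : Y ≤ N / (4 * r)) : False := by
  have h6 : (2 * r - 1) * ((1 / (2 * r) + 1 / (8 * r ^ 2)) * N) + N / (4 * r) =
      N - N / (8 * r ^ 2) := by
    field_simp
    ring
  have h7 : (0 : ℝ) < N / (8 * r ^ 2) := by positivity
  linarith

/-- the number of the frequent patterns -/
theorem many {F : Set ℕ} (hF : SmallC F) (A : Finset ℕ) (hA : A.Nonempty) : ∃ N₀ : ℕ,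
    ∀ N : ℕ, N₀ ≤ N → N ∉ F → 2 * A.card ≤ (A.powerset.filter (fun P => (N : ℝ) / (A.card * 2 ^ (A.card + 2)) ≤
      occ A P N)).card := by
  have hr1 : 1 ≤ A.card := hA.card_pos
  obtain ⟨r, hr⟩ : ∃ r : ℝ, r = A.card := ⟨_, rfl⟩
  have hr2 : 1 ≤ r := by rw [hr]; exact_mod_cast hr1
  have hr0 : 0 < r := by linarith
  obtain ⟨N₀, h1⟩ := cap hF A hA (1 / (8 * r ^ 2)) (by positivity)
  refine ⟨N₀ + 1, fun N hN hNF => ?_⟩
  have hNr : (0 : ℝ) < N := by exact_mod_cast (by omega : 0 < N)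
  obtain ⟨t, ht⟩ : ∃ t : ℝ, t = (N : ℝ) / (A.card * 2 ^ (A.card + 2)) := ⟨_, rfl⟩
  rw [← ht]
  have ht0 : 0 ≤ t := by rw [ht]; positivity
  have h5 : (2 : ℝ) ^ A.card * t = N / (4 * r) := by
    rw [ht, ← hr, pow_add]
    field_simp
    norm_num
  rw [← hr] at h1
  by_contra hcon
  rw [not_le] at hcon
  obtain ⟨V, hV⟩ : ∃ V, V = A.powerset.filter (fun P => t ≤ occ A P N) := ⟨_, rfl⟩
  obtain ⟨W, hW⟩ : ∃ W, W = A.powerset.filter (fun P => ¬ t ≤ occ A P N) := ⟨_, rfl⟩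
  rw [← hV] at hcon
  have h2 : (N : ℝ) = ∑ P ∈ V, (occ A P N : ℝ) + ∑ P ∈ W, (occ A P N : ℝ) := by
    rw [hV, hW, sum_filter_add_sum_filter_not]
    exact_mod_cast (occ_total A N).symm
  have hVc : (V.card : ℝ) ≤ 2 * r - 1 := by
    have h5 : V.card + 1 ≤ 2 * A.card := hcon
    have : ((V.card + 1 : ℕ) : ℝ) ≤ ((2 * A.card : ℕ) : ℝ) := Nat.cast_le.2 h5
    rw [Nat.cast_add, Nat.cast_mul, ← hr, Nat.cast_one] at this
    push_cast at this
    linarith
  have hWc : (W.card : ℝ) ≤ 2 ^ A.card := by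
    have : W.card ≤ 2 ^ A.card := by
      rw [← card_powerset, hW]
      exact card_le_card (filter_subset _ _)
    exact_mod_cast this
  have h3 : ∑ P ∈ V, (occ A P N : ℝ) ≤ (2 * r - 1) * ((1 / (2 * r) + 1 / (8 * r ^ 2)) * N) := by
    have h4 : ∀ P ∈ V, (occ A P N : ℝ) ≤ (1 / (2 * r) + 1 / (8 * r ^ 2)) * N := by
      intro P hP
      rw [hV, mem_filter, mem_powerset] at hP
      exact h1 N (by omega) hNF P hP.1
    refine (sum_le_sum h4).trans ?_
    rw [sum_const, nsmul_eq_mul]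
    exact mul_le_mul_of_nonneg_right hVc (by positivity)
  have h4 : ∑ P ∈ W, (occ A P N : ℝ) ≤ N / (4 * r) := by
    have h6 : ∀ P ∈ W, (occ A P N : ℝ) ≤ t := by
      intro P hP
      rw [hW, mem_filter, not_le] at hP
      exact hP.2.le
    refine (sum_le_sum h6).trans ?_
    rw [sum_const, nsmul_eq_mul, ← h5]
    exact mul_le_mul_of_nonneg_right hWc ht0
  exact num_many r N _ _ hr2 hNr h2 h3 h4

end Pool.Agent.L5helper13
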