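import Pool.Agent.L5helper13.Parity
import Pool.Agent.L5helper13.Bessel
import Pool.Agent.L5helper13.Seq

/-!
Library L5helper13: an infinite set of linear forms contains an infinite subset along which the products of the
values of the Liouville function are asymptotically orthogonal to countably many given sequences.
-/

set_option autoImplicit false

namespace Pool.Agent.L5helper13

open Finset Filter Topology
open Pool.Agent.Y958.U (LZ)

/-- two linear forms with integer coefficients -/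
theorem two_int : ∃ F : Set ℕ, LZ F ∧ ∀ a b a' b' : ℤ, 0 < a → 0 < a' → a * b' ≠ a' * b → ∀ ε : ℝ, 0 < ε →
    ∃ N₀ : ℕ, ∀ N : ℕ, N₀ ≤ N → N ∉ F → |∑ t ∈ Icc 1 N, LL (a * t + b) * LL (a' * t + b')| ≤ ε * N := by
  classical
  obtain ⟨F, hF, h⟩ := prog
  refine ⟨F, hF, fun a b a' b' ha ha' hne ε hε => ?_⟩
  obtain ⟨N₀, h1⟩ := h 2 ![a, a'] ![b, b'] (fun i => by fin_cases i <;> simp [ha, ha']) ε hε
  refine ⟨N₀, fun N hN hNF => ?_⟩
  have h2 := h1 N hN hNF 1 le_rfl 0 {0, 1} (Or.inr ⟨0, 1, by simpa using hne, rfl⟩)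
  have e1 : AP N 1 0 = Icc 1 N := by
    unfold AP
    apply filter_true_of_mem
    intro t _
    push_cast
    exact Int.modEq_one
  rw [e1] at h2
  refine le_trans (le_of_eq ?_) h2
  congr 1
  apply sum_congr rfl
  intro t _
  rw [prod_pair (by decide)]
  simp

/-- the normalized sums -/
noncomputable def cN (a b : ℕ → ℤ) (Φ : ℕ → ℝ) (T : Finset ℕ) (N : ℕ) : ℝ :=
  (∑ t ∈ Icc 1 N, Φ t * ∏ j ∈ T, LL (a j * t + b j)) / N

lemma prod_LL_le (a b : ℕ → ℤ) (T : Finset ℕ) (t : ℕ) : |∏ j ∈ T, LL (a j * t + b j)| ≤ 1 := by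
  rw [abs_prod]
  exact prod_le_one (fun _ _ => abs_nonneg _) fun _ _ => LL_le _

lemma cN_le (a b : ℕ → ℤ) {Φ : ℕ → ℝ} (hΦ : ∀ t, |Φ t| ≤ 1) (T : Finset ℕ) (N : ℕ) : |cN a b Φ T N| ≤ 1 := by
  unfold cN
  rw [abs_div, abs_of_nonneg (Nat.cast_nonneg N : (0 : ℝ) ≤ N)]
  by_cases hN : N = 0
  · subst hN; simp
  rw [div_le_one (by exact_mod_cast Nat.pos_of_ne_zero hN)]
  refine (abs_sum_le_sum_abs _ _).trans ?_
  calc ∑ t ∈ Icc 1 N, |Φ t * ∏ j ∈ T, LL (a j * t + b j)| ≤ ∑ _t ∈ Icc 1 N, (1 : ℝ) := by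
        apply sum_le_sum
        intro t _
        rw [abs_mul]
        exact mul_le_one₀ (hΦ t) (abs_nonneg _) (prod_LL_le a b T t)
    _ = N := by simp

/-- Bessel's inequality at the good scales -/
lemma bessel_N {F : Set ℕ} (h : ∀ a b a' b' : ℤ, 0 < a → 0 < a' → a * b' ≠ a' * b → ∀ ε : ℝ, 0 < ε →
    ∃ N₀ : ℕ, ∀ N : ℕ, N₀ ≤ N → N ∉ F → |∑ t ∈ Icc 1 N, LL (a * t + b) * LL (a' * t + b')| ≤ ε * N)
    (a b : ℕ → ℤ) (ha : ∀ j, 0 < a j) (hab : ∀ i j, i ≠ j → a i * b j ≠ a j * b i) (H : Finset ℕ) (ε : ℝ) (hε : 0 < ε) :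
    ∃ N₀ : ℕ, ∀ N : ℕ, N₀ ≤ N → N ∉ F → ∀ Φ : ℕ → ℝ, (∀ t, |Φ t| ≤ 1) → ∀ T : Finset ℕ, Disjoint T H →
      ∑ j ∈ H, cN a b Φ (insert j T) N ^ 2 ≤ 1 + ε := by
  classical
  set δ : ℝ := ε / (H.card + 1) with hδ
  have hδ0 : 0 < δ := by positivity
  choose N₀ hN₀ using fun (p : ℕ × ℕ) (hp : p.1 ≠ p.2) => h (a p.1) (b p.1) (a p.2) (b p.2) (ha _) (ha _) (hab _ _ hp) δ hδ0
  set M : ℕ := ∑ p ∈ H ×ˢ H, (if hp : p.1 ≠ p.2 then N₀ p hp else 0) with hM
  refine ⟨M + 1, fun N hN hNF Φ hΦ T hT => ?_⟩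
  have hN0 : (0 : ℝ) < N := by exact_mod_cast (by omega : 0 < N)
  have h2 : ∀ i ∈ H, ∀ j ∈ H, i ≠ j → |∑ t ∈ Icc 1 N, LL (a i * t + b i) * LL (a j * t + b j)| ≤ δ * N := by
    intro i hi j hj hij
    apply hN₀ (i, j) hij N _ hNF
    have h3 : (if hp : (i, j).1 ≠ (i, j).2 then N₀ (i, j) hp else 0) ≤ M :=
      single_le_sum (f := fun p : ℕ × ℕ => if hp : p.1 ≠ p.2 then N₀ p hp else 0) (fun _ _ => Nat.zero_le _)
        (mem_product.2 ⟨hi, hj⟩)
    rw [dif_pos hij] at h3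
    omega
  have h3 := bessel H (Icc 1 N) (fun t => ((Φ t * ∏ j ∈ T, LL (a j * t + b j) : ℝ) : ℂ))
    (fun j t => ((LL (a j * t + b j) : ℝ) : ℂ)) N (δ * N) (by
      calc ∑ t ∈ Icc 1 N, ‖((Φ t * ∏ j ∈ T, LL (a j * t + b j) : ℝ) : ℂ)‖ ^ 2 ≤ ∑ _t ∈ Icc 1 N, (1 : ℝ) := by
            apply sum_le_sum
            intro t _
            rw [Complex.norm_real, Real.norm_eq_abs, abs_mul]
            exact pow_le_one₀ (by positivity) (mul_le_one₀ (hΦ t) (abs_nonneg _) (prod_LL_le a b T t))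
        _ = N := by simp) (by positivity) (by
      intro j _
      refine (norm_sum_le _ _).trans ?_
      calc ∑ t ∈ Icc 1 N, ‖((LL (a j * t + b j) : ℝ) : ℂ) * (starRingEnd ℂ) ((LL (a j * t + b j) : ℝ) : ℂ)‖ ≤
            ∑ _t ∈ Icc 1 N, (1 : ℝ) := by
            apply sum_le_sum
            intro t _
            rw [norm_mul, RCLike.norm_conj, Complex.norm_real, Real.norm_eq_abs]
            exact mul_le_one₀ (LL_le _) (abs_nonneg _) (LL_le _)
        _ = N := by simp) (by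
      intro i hi j hj hij
      have h4 := h2 i hi j hj hij
      have e : ∑ t ∈ Icc 1 N, ((LL (a i * t + b i) : ℝ) : ℂ) * (starRingEnd ℂ) ((LL (a j * t + b j) : ℝ) : ℂ) =
          ((∑ t ∈ Icc 1 N, LL (a i * t + b i) * LL (a j * t + b j) : ℝ) : ℂ) := by
        push_cast
        apply sum_congr rfl
        intro t _
        rw [Complex.conj_ofReal]
      rw [e, Complex.norm_real, Real.norm_eq_abs]
      exact h4)
  have h4 : ∀ j ∈ H, cN a b Φ (insert j T) N ^ 2 = ‖∑ t ∈ Icc 1 N, ((Φ t * ∏ j ∈ T, LL (a j * t + b j) : ℝ) : ℂ) *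
      ((LL (a j * t + b j) : ℝ) : ℂ)‖ ^ 2 / N ^ 2 := by
    intro j hj
    have hjT : j ∉ T := fun hjT => (Finset.disjoint_left.1 hT) hjT hj
    have e : ∑ t ∈ Icc 1 N, ((Φ t * ∏ j ∈ T, LL (a j * t + b j) : ℝ) : ℂ) * ((LL (a j * t + b j) : ℝ) : ℂ) =
        ((∑ t ∈ Icc 1 N, Φ t * ∏ i ∈ insert j T, LL (a i * t + b i) : ℝ) : ℂ) := by
      push_cast
      apply sum_congr rfl
      intro t _
      rw [prod_insert hjT]
      ring
    rw [e, Complex.norm_real, Real.norm_eq_abs, sq_abs]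
    unfold cN
    rw [div_pow]
  rw [sum_congr rfl h4, ← sum_div, div_le_iff₀ (by positivity)]
  refine h3.trans ?_
  have h5 : (H.card : ℝ) * δ ≤ ε := by
    rw [hδ, mul_div_assoc', div_le_iff₀ (by positivity)]
    nlinarith
  calc (N : ℝ) * (N + H.card * (δ * N)) = N ^ 2 * (1 + H.card * δ) := by ring
    _ ≤ N ^ 2 * (1 + ε) := by gcongr
    _ = (1 + ε) * N ^ 2 := by ring

/-- the choice of the subset -/
lemma select (c : ℕ → Finset ℕ → ℝ) (hB : ∀ (i : ℕ) (T H : Finset ℕ), Disjoint T H → ∑ h ∈ H, c i (insert h T) ^ 2 ≤ 1)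
    (η : ℕ → ℝ) (hη : ∀ j, 0 < η j) : ∃ ψ : ℕ → ℕ, StrictMono ψ ∧ ∀ j, ∀ i ≤ j, ∀ S ⊆ range j,
      |c i (insert (ψ j) (S.image ψ))| ≤ η j := by
  classical
  -- a step
  have hstep : ∀ (j m : ℕ), ∃ m', m < m' ∧ ∀ i ≤ j, ∀ T ⊆ range (m + 1), |c i (insert m' T)| ≤ η j := by
    intro j m
    by_contra hcon
    push Not at hcon
    -- too many large values
    set P : Finset (ℕ × Finset ℕ) := range (j + 1) ×ˢ (range (m + 1)).powerset with hP
    obtain ⟨n, hn⟩ := exists_nat_gt ((P.card : ℝ) * (1 / η j ^ 2))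
    set H : Finset ℕ := Ioc m (m + n) with hH
    have h1 : ∀ h ∈ H, η j ^ 2 ≤ ∑ p ∈ P, c p.1 (insert h p.2) ^ 2 := by
      intro h hh
      rw [hH, mem_Ioc] at hh
      obtain ⟨i, hi, T, hT, h2⟩ := hcon h hh.1
      refine le_trans ?_ (single_le_sum (f := fun p : ℕ × Finset ℕ => c p.1 (insert h p.2) ^ 2) (fun _ _ => sq_nonneg _)
        (show (i, T) ∈ P from mem_product.2 ⟨mem_range.2 (by omega), mem_powerset.2 hT⟩))
      show η j ^ 2 ≤ c i (insert h T) ^ 2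
      rw [← sq_abs (c i (insert h T))]
      exact pow_le_pow_left₀ (hη j).le h2.le 2
    have h2 : ∑ h ∈ H, ∑ p ∈ P, c p.1 (insert h p.2) ^ 2 ≤ P.card := by
      rw [sum_comm]
      calc ∑ p ∈ P, ∑ h ∈ H, c p.1 (insert h p.2) ^ 2 ≤ ∑ _p ∈ P, (1 : ℝ) := by
            apply sum_le_sum
            intro p hp
            rw [hP, mem_product, mem_powerset] at hp
            apply hB
            rw [Finset.disjoint_left]
            intro x hx hx'
            have h3 := mem_range.1 (hp.2 hx)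
            rw [hH, mem_Ioc] at hx'
            omega
        _ = P.card := by simp
    have h3 := (sum_le_sum h1).trans h2
    rw [sum_const, hH, Nat.card_Ioc, nsmul_eq_mul] at h3
    have h4 : (((m + n - m : ℕ)) : ℝ) = n := by
      congr 1
      omega
    rw [h4] at h3
    have h5 : 0 < η j ^ 2 := pow_pos (hη j) 2
    rw [mul_one_div, div_lt_iff₀ h5] at hn
    linarith
  choose nx hnx1 hnx2 using hstep
  set ψ : ℕ → ℕ := fun j => Nat.rec (nx 0 0) (fun j m => nx (j + 1) m) j with hψ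
  have hψs : ∀ j, ψ (j + 1) = nx (j + 1) (ψ j) := fun j => rfl
  have hmono : StrictMono ψ := strictMono_nat_of_lt_succ fun j => by
    rw [hψs]
    exact hnx1 _ _
  refine ⟨ψ, hmono, fun j i hi S hS => ?_⟩
  cases j with
  | zero =>
    have hS0 : S = ∅ := by
      rw [range_zero, subset_empty] at hS
      exact hS
    subst hS0
    exact hnx2 0 0 i hi ∅ (empty_subset _)
  | succ j =>
    rw [hψs]
    apply hnx2 (j + 1) (ψ j) i hi
    intro x hx
    rw [Finset.mem_image] at hx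
    obtain ⟨t, ht, rfl⟩ := hx
    have h1 := mem_range.1 (hS ht)
    have h2 : ψ t ≤ ψ j := hmono.monotone (by omega)
    rw [mem_range]
    omega

/-- sums over the nonempty subsets -/
lemma pow_sum (g : Finset ℕ → ℝ) (w : ℕ → ℝ) (hw : ∀ j, 0 ≤ w j) (h : ∀ j, ∀ S ⊆ range j, g (insert j S) ≤ w j) (S : Finset ℕ) :
    ∑ S' ∈ S.powerset, g S' ≤ g ∅ + ∑ j ∈ S, 2 ^ j * w j := by
  classical
  induction S using Finset.induction_on_max with
  | empty => simp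
  | insert a S hS ih =>
    have ha : a ∉ S := fun h => lt_irrefl a (hS a h)
    rw [sum_powerset_insert ha, sum_insert ha]
    have h1 : ∑ S' ∈ S.powerset, g (insert a S') ≤ 2 ^ a * w a := by
      calc ∑ S' ∈ S.powerset, g (insert a S') ≤ ∑ _S' ∈ S.powerset, w a := by
            apply sum_le_sum
            intro S' hS'
            apply h a S'
            intro x hx
            exact mem_range.2 (hS x ((mem_powerset.1 hS') hx))
        _ = 2 ^ S.card * w a := by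
            rw [sum_const, card_powerset, nsmul_eq_mul]
            push_cast
            ring
        _ ≤ 2 ^ a * w a := by
            apply mul_le_mul_of_nonneg_right _ (hw a)
            apply pow_le_pow_right₀ (by norm_num)
            have h2 : S ⊆ range a := fun x hx => mem_range.2 (hS x hx)
            have h3 := card_le_card h2
            rwa [card_range] at h3
    linarith

lemma geo_sum (m : ℕ) (S : Finset ℕ) (hS : ∀ j ∈ S, m ≤ j) : ∑ j ∈ S, (1 / 2 : ℝ) ^ (j + 1) ≤ (1 / 2) ^ m := by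
  classical
  obtain ⟨n, hn⟩ : ∃ n, m ≤ n ∧ S ⊆ Ico m n := by
    refine ⟨m + S.sup id + 1, by omega, fun j hj => ?_⟩
    have h1 : j ≤ S.sup id := le_sup (f := id) hj
    rw [mem_Ico]
    exact ⟨hS j hj, by omega⟩
  refine (sum_le_sum_of_subset_of_nonneg hn.2 fun _ _ _ => by positivity).trans ?_
  have h2 : ∀ n, m ≤ n → ∑ j ∈ Ico m n, (1 / 2 : ℝ) ^ (j + 1) = (1 / 2) ^ m - (1 / 2) ^ n := by
    intro n hn
    induction n, hn using Nat.le_induction with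
    | base => simp
    | succ n hn ih =>
      rw [sum_Ico_succ_top hn, ih, pow_succ]
      ring
  rw [h2 n hn.1]
  have : (0 : ℝ) ≤ (1 / 2) ^ n := by positivity
  linarith

/-- the values with the values `0` replaced by `-1` -/
noncomputable def yv (a b : ℕ → ℤ) (j t : ℕ) : ℂ := if LL (a j * t + b j) = 1 then 1 else -1

lemma yv_pm (a b : ℕ → ℤ) (j t : ℕ) : yv a b j t = 1 ∨ yv a b j t = -1 := by
  unfold yv
  split_ifs
  · exact Or.inl rfl
  · exact Or.inr rfl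

lemma yv_one (a b : ℕ → ℤ) (j t : ℕ) : yv a b j t = 1 ↔ LL (a j * t + b j) = 1 := by
  unfold yv
  split_ifs with h
  · simp [h]
  · simp only [h, iff_false]
    norm_num

lemma yv_eq {a b : ℕ → ℤ} {j t : ℕ} (ha : 0 < a j) (ht : (b j).natAbs < t) : yv a b j t = ((LL (a j * t + b j) : ℝ) : ℂ) := by
  have hne : a j * t + b j ≠ 0 := by
    have h3 : (t : ℤ) ≤ a j * t := by nlinarith
    omega
  unfold yv
  rcases LL_cases hne with h | h <;> rw [h] <;> norm_num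

/-- **the theorem** for countably many given sequences -/
theorem tail : ∃ F : Set ℕ, LZ F ∧ ∀ (Φ : ℕ → ℕ → ℝ), (∀ i t, |Φ i t| ≤ 1) → ∀ a b : ℕ → ℤ, (∀ j, 0 < a j) →
    (∀ i j, i ≠ j → a i * b j ≠ a j * b i) → ∀ s : ℕ → ℕ, StrictMono s → (∀ k, s k ∉ F) →
    ∃ φ ψ : ℕ → ℕ, StrictMono φ ∧ StrictMono ψ ∧ ∀ (i : ℕ) (ε : ℝ), 0 < ε → ∃ m : ℕ, ∀ S : Finset ℕ,
      (∀ j ∈ S, m ≤ j) → ∃ k₀ : ℕ, ∀ k, k₀ ≤ k →
        ∑ S' ∈ S.powerset.erase ∅, cN a b (Φ i) (S'.image ψ) (s (φ k)) ^ 2 ≤ ε := by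
  classical
  obtain ⟨F, hF, h⟩ := two_int
  refine ⟨F, hF, fun Φ hΦ a b ha hab s hs hsF => ?_⟩
  -- a subsequence along which everything converges
  have hcomp : IsCompact (Set.pi Set.univ fun _ : ℕ × Finset ℕ => Set.Icc (-1 : ℝ) 1) :=
    isCompact_univ_pi fun _ => isCompact_Icc
  obtain ⟨c, hc, φ, hφ, hlim⟩ := hcomp.tendsto_subseq (x := fun k (p : ℕ × Finset ℕ) => cN a b (Φ p.1) p.2 (s k))
    (fun k => by
      rw [Set.mem_univ_pi]
      intro p
      have := abs_le.1 (cN_le a b (hΦ p.1) p.2 (s k))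
      exact ⟨this.1, this.2⟩)
  have hlim' : ∀ i T, Tendsto (fun k => cN a b (Φ i) T (s (φ k))) atTop (𝓝 (c (i, T))) := by
    intro i T
    exact (tendsto_pi_nhds.1 hlim) (i, T)
  have hB : ∀ (i : ℕ) (T H : Finset ℕ), Disjoint T H → ∑ h ∈ H, c (i, insert h T) ^ 2 ≤ 1 := by
    intro i T H hTH
    apply le_of_forall_pos_le_add
    intro ε hε
    obtain ⟨N₀, hN₀⟩ := bessel_N h a b ha hab H ε hε
    have h1 : Tendsto (fun k => ∑ h ∈ H, cN a b (Φ i) (insert h T) (s (φ k)) ^ 2) atTop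
        (𝓝 (∑ h ∈ H, c (i, insert h T) ^ 2)) :=
      tendsto_finsetSum _ fun h _ => (hlim' i (insert h T)).pow 2
    apply le_of_tendsto h1
    filter_upwards [eventually_ge_atTop N₀] with k hk
    exact hN₀ (s (φ k)) (hk.trans ((hs.comp hφ).id_le k)) (hsF _) (Φ i) (hΦ i) T hTH
  obtain ⟨ψ, hψ, h1⟩ := select (fun i T => c (i, T)) hB (fun j => (1 / 2) ^ (j + 1)) (fun j => by positivity)
  refine ⟨φ, ψ, hφ, hψ, fun i ε hε => ?_⟩
  have hlim0 : Tendsto (fun m : ℕ => (1 / 2 : ℝ) ^ m) atTop (𝓝 0) :=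
    tendsto_pow_atTop_nhds_zero_of_lt_one (by norm_num) (by norm_num)
  obtain ⟨m, hm⟩ := (hlim0.eventually_lt_const hε).exists
  refine ⟨m + i, fun S hSm => ?_⟩
  have h3 : ∑ S' ∈ S.powerset.erase ∅, c (i, S'.image ψ) ^ 2 < ε := by
    have h4 := pow_sum (fun S' => if S' = ∅ ∨ ¬ (∀ j ∈ S', m + i ≤ j) then 0 else c (i, S'.image ψ) ^ 2)
      (fun j => (1 / 4) ^ (j + 1)) (fun j => by positivity) (fun j T hT => by
        by_cases h5 : insert j T = ∅ ∨ ¬ (∀ x ∈ insert j T, m + i ≤ x)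
        · simp only [if_pos h5]; positivity
        · simp only [if_neg h5]
          rw [not_or, not_not] at h5
          have h6 := h1 j i (by have := h5.2 j (mem_insert_self _ _); omega) T hT
          rw [image_insert]
          calc c (i, insert (ψ j) (T.image ψ)) ^ 2 = |c (i, insert (ψ j) (T.image ψ))| ^ 2 := (sq_abs _).symm
            _ ≤ ((1 / 2) ^ (j + 1)) ^ 2 := pow_le_pow_left₀ (abs_nonneg _) h6 2
            _ = (1 / 4) ^ (j + 1) := by
                rw [← pow_mul, mul_comm, pow_mul]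
                norm_num) S
    rw [← add_sum_erase _ _ (empty_mem_powerset S)] at h4
    simp only [true_or, if_true, zero_add] at h4
    have h5 : ∑ S' ∈ S.powerset.erase ∅, c (i, S'.image ψ) ^ 2 = ∑ S' ∈ S.powerset.erase ∅,
        (if S' = ∅ ∨ ¬ (∀ j ∈ S', m + i ≤ j) then 0 else c (i, S'.image ψ) ^ 2) := by
      apply sum_congr rfl
      intro S' hS'
      rw [mem_erase, mem_powerset] at hS'
      rw [if_neg]
      rw [not_or, not_not]
      exact ⟨hS'.1, fun j hj => hSm j (hS'.2 hj)⟩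
    rw [h5]
    refine lt_of_le_of_lt h4 ?_
    have h6 : ∑ j ∈ S, (2 : ℝ) ^ j * (1 / 4) ^ (j + 1) ≤ ∑ j ∈ S, (1 / 2) ^ (j + 1) := by
      apply sum_le_sum
      intro j _
      have h7 : (2 : ℝ) ^ j * (1 / 4) ^ (j + 1) = (1 / 2) ^ (j + 1) * (1 / 2) := by
        rw [pow_succ, pow_succ, show (1 / 4 : ℝ) = (1 / 2) * (1 / 2) by norm_num, mul_pow]
        have h8 : (2 : ℝ) ^ j * (1 / 2) ^ j = 1 := by rw [← mul_pow]; norm_num
        linear_combination ((1 / 2 : ℝ) ^ j * (1 / 4)) * h8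
      rw [h7]
      have : (0 : ℝ) ≤ (1 / 2) ^ (j + 1) := by positivity
      linarith
    have h7 := geo_sum m S (fun j hj => by have := hSm j hj; omega)
    linarith
  have h5 : Tendsto (fun k => ∑ S' ∈ S.powerset.erase ∅, cN a b (Φ i) (S'.image ψ) (s (φ k)) ^ 2) atTop
      (𝓝 (∑ S' ∈ S.powerset.erase ∅, c (i, S'.image ψ) ^ 2)) :=
    tendsto_finsetSum _ fun S' _ => (hlim' i (S'.image ψ)).pow 2
  obtain ⟨k₀, hk₀⟩ := eventually_atTop.1 (h5.eventually_lt_const h3)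
  exact ⟨k₀, fun k hk => (hk₀ k hk).le⟩

lemma one_of_sum (S : Finset ℕ) (hS : S.Nonempty) (f : Finset ℕ → ℝ) {B : ℝ}
    (h : ∑ S' ∈ S.powerset.erase ∅, f S' ^ 2 ≤ B) : f S ^ 2 ≤ B := by
  refine le_trans ?_ h
  have h1 : S ∈ S.powerset.erase ∅ := mem_erase.2 ⟨hS.ne_empty, mem_powerset_self S⟩
  exact single_le_sum (f := fun S' => f S' ^ 2) (fun i _ => sq_nonneg (f i)) h1

open Classical in
/-- **the theorem** for the patterns -/
theorem tail_pat : ∃ F : Set ℕ, LZ F ∧ ∀ (Φ : ℕ → ℕ → ℝ), (∀ i t, |Φ i t| ≤ 1) → ∀ a b : ℕ → ℤ, (∀ j, 0 < a j) →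
    (∀ i j, i ≠ j → a i * b j ≠ a j * b i) → ∀ s : ℕ → ℕ, StrictMono s → (∀ k, s k ∉ F) →
    ∃ φ ψ : ℕ → ℕ, StrictMono φ ∧ StrictMono ψ ∧ ∀ (i : ℕ) (ε : ℝ), 0 < ε → ∃ m : ℕ, ∀ S : Finset ℕ,
      (∀ j ∈ S, m ≤ j) → ∃ k₀ : ℕ, ∀ k, k₀ ≤ k →
        ∑ P ∈ S.powerset, |∑ t ∈ (Icc 1 (s (φ k))).filter (fun t : ℕ => ∀ j ∈ S, (LL (a (ψ j) * t + b (ψ j)) = 1 ↔ j ∈ P)), Φ i t -
          (1 / 2) ^ S.card * ∑ t ∈ Icc 1 (s (φ k)), Φ i t| ≤ ε * (s (φ k) : ℝ) ∧
        (S.Nonempty → |∑ t ∈ Icc 1 (s (φ k)), Φ i t * ∏ j ∈ S, LL (a (ψ j) * t + b (ψ j))| ≤ ε * (s (φ k) : ℝ)) := by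
  obtain ⟨F, hF, h⟩ := tail
  refine ⟨F, hF, fun Φ hΦ a b ha hab s hs hsF => ?_⟩
  obtain ⟨φ, ψ, hφ, hψ, h1⟩ := h Φ hΦ a b ha hab s hs hsF
  refine ⟨φ, ψ, hφ, hψ, fun i ε hε => ?_⟩
  obtain ⟨m, hm⟩ := h1 i (ε ^ 2 / 4) (by positivity)
  refine ⟨m, fun S hS => ?_⟩
  obtain ⟨k₁, hk₁⟩ := hm S hS
  -- the zeros
  set z : ℕ := ∑ j ∈ S, (b (ψ j)).natAbs with hz
  have hzj : ∀ j ∈ S, (b (ψ j)).natAbs ≤ z := fun j hj =>
    single_le_sum (f := fun j => (b (ψ j)).natAbs) (fun _ _ => Nat.zero_le _) hj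
  obtain ⟨k₂, hk₂⟩ := exists_nat_ge (2 ^ (S.card + 3) * ((z : ℝ) + 1) / ε)
  refine ⟨k₁ + k₂ + 1, fun k hk => ?_⟩
  set N := s (φ k) with hN
  have hNk : k ≤ N := (hs.comp hφ).id_le k
  have hN0 : (0 : ℝ) < N := by exact_mod_cast (by omega : 0 < N)
  have h2 := hk₁ k (by omega)
  rw [← hN] at h2
  constructor
  swap
  · intro hSne
    have h3 : cN a b (Φ i) (S.image ψ) N ^ 2 ≤ ε ^ 2 / 4 :=
      one_of_sum S hSne (fun S' => cN a b (Φ i) (S'.image ψ) N) h2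
    have h4 : |cN a b (Φ i) (S.image ψ) N| ≤ ε := abs_le_of_sq_le_sq (by nlinarith) hε.le
    unfold cN at h4
    rw [abs_div, abs_of_pos hN0, div_le_iff₀ hN0] at h4
    refine le_trans (le_of_eq ?_) h4
    congr 1
    apply sum_congr rfl
    intro t _
    rw [prod_image (fun x _ y _ h => hψ.injective h)]
  have h3 := pat_sum (Icc 1 N) S (fun j t => yv a b (ψ j) t) (fun j t => yv_pm a b (ψ j) t) (fun t => ((Φ i t : ℝ) : ℂ))
  -- the left hand side
  have h4 : ∀ P ∈ S.powerset, |∑ t ∈ (Icc 1 N).filter (fun t : ℕ => ∀ j ∈ S, (LL (a (ψ j) * t + b (ψ j)) = 1 ↔ j ∈ P)), Φ i t -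
      (1 / 2) ^ S.card * ∑ t ∈ Icc 1 N, Φ i t| = ‖∑ t ∈ (Icc 1 N).filter (fun t => S.filter (fun j => yv a b (ψ j) t = 1) = P),
        ((Φ i t : ℝ) : ℂ) - 1 / 2 ^ S.card * ∑ t ∈ Icc 1 N, ((Φ i t : ℝ) : ℂ)‖ := by
    intro P hP
    rw [mem_powerset] at hP
    have e1 : (Icc 1 N).filter (fun t => S.filter (fun j => yv a b (ψ j) t = 1) = P) =
        (Icc 1 N).filter (fun t : ℕ => ∀ j ∈ S, (LL (a (ψ j) * t + b (ψ j)) = 1 ↔ j ∈ P)) := by
      apply filter_congr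
      intro t _
      constructor
      · intro h5 j hj
        rw [← h5, mem_filter, yv_one]
        exact ⟨fun h6 => ⟨hj, h6⟩, fun h6 => h6.2⟩
      · intro h5
        ext j
        rw [mem_filter, yv_one]
        constructor
        · rintro ⟨h6, h7⟩
          exact (h5 j h6).1 h7
        · intro h6
          exact ⟨hP h6, (h5 j (hP h6)).2 h6⟩
    rw [e1, ← Real.norm_eq_abs, ← Complex.norm_real]
    congr 1
    push_cast
    rw [one_div_pow]
  rw [sum_congr rfl h4]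
  refine h3.trans ?_
  -- the right hand side
  apply Real.sqrt_le_iff.2
  refine ⟨by positivity, ?_⟩
  have h5 : ∀ S' ∈ S.powerset.erase ∅, ‖∑ t ∈ Icc 1 N, ((Φ i t : ℝ) : ℂ) * ∏ j ∈ S', yv a b (ψ j) t‖ ^ 2 ≤
      2 * (N ^ 2 * cN a b (Φ i) (S'.image ψ) N ^ 2) + 2 * (2 * z) ^ 2 := by
    intro S' hS'
    rw [mem_erase, mem_powerset] at hS'
    have e1 : ∑ t ∈ Icc 1 N, ((Φ i t : ℝ) : ℂ) * ∏ j ∈ S', yv a b (ψ j) t =
        ((N * cN a b (Φ i) (S'.image ψ) N : ℝ) : ℂ) + ∑ t ∈ Icc 1 N, ((Φ i t : ℝ) : ℂ) *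
          (∏ j ∈ S', yv a b (ψ j) t - ((∏ j ∈ S', LL (a (ψ j) * t + b (ψ j)) : ℝ) : ℂ)) := by
      have e2 : N * cN a b (Φ i) (S'.image ψ) N = ∑ t ∈ Icc 1 N, Φ i t * ∏ j ∈ S', LL (a (ψ j) * t + b (ψ j)) := by
        unfold cN
        rw [mul_div_cancel₀ _ hN0.ne']
        apply sum_congr rfl
        intro t _
        rw [prod_image (fun x _ y _ h => hψ.injective h)]
      rw [e2]
      push_cast
      rw [← sum_add_distrib]
      apply sum_congr rfl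
      intro t _
      ring
    have h6 : ‖∑ t ∈ Icc 1 N, ((Φ i t : ℝ) : ℂ) *
          (∏ j ∈ S', yv a b (ψ j) t - ((∏ j ∈ S', LL (a (ψ j) * t + b (ψ j)) : ℝ) : ℂ))‖ ≤ 2 * z := by
      refine (norm_sum_le _ _).trans ?_
      calc ∑ t ∈ Icc 1 N, ‖((Φ i t : ℝ) : ℂ) *
          (∏ j ∈ S', yv a b (ψ j) t - ((∏ j ∈ S', LL (a (ψ j) * t + b (ψ j)) : ℝ) : ℂ))‖ ≤
            ∑ t ∈ Icc 1 N, (if t ≤ z then (2 : ℝ) else 0) := by
            apply sum_le_sum
            intro t _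
            by_cases ht : t ≤ z
            · rw [if_pos ht, norm_mul, Complex.norm_real, Real.norm_eq_abs]
              have h7 : ‖∏ j ∈ S', yv a b (ψ j) t - ((∏ j ∈ S', LL (a (ψ j) * t + b (ψ j)) : ℝ) : ℂ)‖ ≤ 1 + 1 := by
                refine (norm_sub_le _ _).trans (add_le_add ?_ ?_)
                · rw [norm_prod]
                  apply prod_le_one (fun _ _ => norm_nonneg _)
                  intro j _
                  rcases yv_pm a b (ψ j) t with h8 | h8 <;> rw [h8] <;> simp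
                · rw [Complex.norm_real, Real.norm_eq_abs, abs_prod]
                  exact prod_le_one (fun _ _ => abs_nonneg _) fun _ _ => LL_le _
              calc |Φ i t| * _ ≤ 1 * (1 + 1) := mul_le_mul (hΦ i t) h7 (norm_nonneg _) zero_le_one
                _ = 2 := by norm_num
            · rw [if_neg ht]
              have h7 : ∏ j ∈ S', yv a b (ψ j) t = ((∏ j ∈ S', LL (a (ψ j) * t + b (ψ j)) : ℝ) : ℂ) := by
                push_cast
                apply prod_congr rfl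
                intro j hj
                apply yv_eq (ha _)
                have := hzj j (hS'.2 hj)
                omega
              rw [h7, sub_self, mul_zero, norm_zero]
        _ ≤ 2 * z := by
            rw [← sum_filter, sum_const, nsmul_eq_mul]
            have h8 : ((Icc 1 N).filter (fun t => t ≤ z)).card ≤ (Icc 1 z).card := by
              apply card_le_card
              intro t ht
              rw [mem_filter, mem_Icc] at ht
              rw [mem_Icc]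
              exact ⟨ht.1.1, ht.2⟩
            rw [Nat.card_Icc, Nat.add_sub_cancel] at h8
            have h9 : (((Icc 1 N).filter (fun t => t ≤ z)).card : ℝ) ≤ z := by exact_mod_cast h8
            linarith
    have h7 : ‖∑ t ∈ Icc 1 N, ((Φ i t : ℝ) : ℂ) * ∏ j ∈ S', yv a b (ψ j) t‖ ≤
        |N * cN a b (Φ i) (S'.image ψ) N| + 2 * z := by
      rw [e1]
      refine (norm_add_le _ _).trans (add_le_add (le_of_eq ?_) h6)
      rw [Complex.norm_real, Real.norm_eq_abs]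
    have h8 : (|N * cN a b (Φ i) (S'.image ψ) N| + 2 * (z : ℝ)) ^ 2 ≤
        2 * |N * cN a b (Φ i) (S'.image ψ) N| ^ 2 + 2 * (2 * z) ^ 2 := by
      nlinarith [sq_nonneg (|N * cN a b (Φ i) (S'.image ψ) N| - 2 * (z : ℝ))]
    rw [sq_abs, mul_pow] at h8
    exact (pow_le_pow_left₀ (norm_nonneg _) h7 2).trans h8
  refine (sum_le_sum h5).trans ?_
  rw [sum_add_distrib, ← mul_sum, ← mul_sum, sum_const, nsmul_eq_mul]
  have h6 : (((S.powerset.erase ∅).card : ℕ) : ℝ) ≤ 2 ^ S.card := by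
    have : (S.powerset.erase ∅).card ≤ 2 ^ S.card := (card_le_card (erase_subset _ _)).trans (le_of_eq (card_powerset S))
    exact_mod_cast this
  have h7 : 2 ^ (S.card + 3) * ((z : ℝ) + 1) ≤ ε * N := by
    have h8 : 2 ^ (S.card + 3) * ((z : ℝ) + 1) / ε ≤ N := hk₂.trans (by exact_mod_cast (by omega : k₂ ≤ N))
    rw [div_le_iff₀ hε] at h8
    linarith
  have h8 : (2 : ℝ) ^ S.card * (2 * (2 * (z : ℝ)) ^ 2) ≤ (ε * N) ^ 2 / 2 := by
    have hz0 : (0 : ℝ) ≤ z := Nat.cast_nonneg _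
    have h9 : (2 : ℝ) ^ (S.card + 3) = 2 ^ S.card * 8 := by rw [pow_add]; norm_num
    rw [h9] at h7
    have h10 : (1 : ℝ) ≤ 2 ^ S.card := one_le_pow₀ (by norm_num)
    have h11 : (2 ^ S.card * 8 * ((z : ℝ) + 1)) ^ 2 ≤ (ε * N) ^ 2 := pow_le_pow_left₀ (by positivity) h7 2
    have h12 : (2 : ℝ) ^ S.card * (2 * (2 * (z : ℝ)) ^ 2) * 2 ≤ (2 ^ S.card * 8 * ((z : ℝ) + 1)) ^ 2 := by
      have h13 : (2 : ℝ) ^ S.card ≤ (2 ^ S.card) ^ 2 := by nlinarith
      calc (2 : ℝ) ^ S.card * (2 * (2 * (z : ℝ)) ^ 2) * 2 = (2 : ℝ) ^ S.card * (16 * (z : ℝ) ^ 2) := by ring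
        _ ≤ ((2 : ℝ) ^ S.card) ^ 2 * (64 * ((z : ℝ) + 1) ^ 2) := by
            apply mul_le_mul h13 _ (by positivity) (by positivity)
            nlinarith
        _ = _ := by ring
    linarith
  have h9 : 2 * ((N : ℝ) ^ 2 * ∑ S' ∈ S.powerset.erase ∅, cN a b (Φ i) (S'.image ψ) N ^ 2) ≤ (ε * N) ^ 2 / 2 := by
    calc 2 * ((N : ℝ) ^ 2 * ∑ S' ∈ S.powerset.erase ∅, cN a b (Φ i) (S'.image ψ) N ^ 2) ≤
          2 * ((N : ℝ) ^ 2 * (ε ^ 2 / 4)) := by gcongr
      _ = (ε * N) ^ 2 / 2 := by ring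
  have h10 : (((S.powerset.erase ∅).card : ℕ) : ℝ) * (2 * (2 * (z : ℝ)) ^ 2) ≤ 2 ^ S.card * (2 * (2 * (z : ℝ)) ^ 2) := by
    gcongr
  have h11 : ∑ S' ∈ S.powerset.erase ∅, (N : ℝ) ^ 2 * cN a b (Φ i) (S'.image ψ) N ^ 2 =
      (N : ℝ) ^ 2 * ∑ S' ∈ S.powerset.erase ∅, cN a b (Φ i) (S'.image ψ) N ^ 2 := by rw [mul_sum]
  linarith

end Pool.Agent.L5helper13
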